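import Mathlib

set_option autoImplicit false

open Set MeasureTheory Filter Topology

namespace Pool.Agent.helper312_fol

/-- chain of equal steps -/
theorem as_chain {φ : ℝ → ℝ} {S : Set ℝ} (hS : S.OrdConnected) {δ ε : ℝ}
    (h : ∀ s ∈ S, ∀ t ∈ S, |s - t| ≤ δ → |φ s - φ t| ≤ ε) (m : ℕ) :
    ∀ s ∈ S, ∀ t ∈ S, |s - t| ≤ m * δ → |φ s - φ t| ≤ m * ε := by
  induction m with
  | zero =>
    intro s _ t _ hst
    rw [Nat.cast_zero, zero_mul] at hst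
    have : s = t := by
      have := abs_nonpos_iff.1 hst
      linarith
    rw [this]
    simp
  | succ m ih =>
    intro s hs t ht hst
    push_cast at hst ⊢
    have hm : (0 : ℝ) ≤ m := Nat.cast_nonneg m
    have hm1 : (0 : ℝ) < m + 1 := by linarith
    -- intermediate point
    set z : ℝ := s + (t - s) / (m + 1) with hz
    have h1 : |s - z| ≤ δ := by
      have : s - z = (s - t) / (m + 1) := by rw [hz]; ring
      rw [this, abs_div, abs_of_pos hm1, div_le_iff₀ hm1]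
      linarith
    have h2 : |z - t| ≤ m * δ := by
      have : z - t = (s - t) * (m / (m + 1)) := by rw [hz]; field_simp; ring
      rw [this, abs_mul, abs_of_nonneg (div_nonneg hm hm1.le)]
      calc |s - t| * (m / (m + 1)) ≤ ((m + 1) * δ) * (m / (m + 1)) :=
            mul_le_mul_of_nonneg_right hst (div_nonneg hm hm1.le)
        _ = m * δ := by field_simp
    have h01 : 0 ≤ 1 / ((m : ℝ) + 1) ∧ 1 / ((m : ℝ) + 1) ≤ 1 := by
      refine ⟨by positivity, ?_⟩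
      rw [div_le_one hm1]; linarith
    have hzS : z ∈ S := by
      rcases le_total s t with hle | hle
      · refine hS.out hs ht ⟨?_, ?_⟩
        · have : 0 ≤ (t - s) / (m + 1) := div_nonneg (by linarith) hm1.le
          linarith
        · have : (t - s) / (m + 1) ≤ t - s := div_le_self (by linarith) (by linarith)
          linarith
      · refine hS.out ht hs ⟨?_, ?_⟩
        · have : (s - t) / (m + 1) ≤ s - t := div_le_self (by linarith) (by linarith)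
          have e : (t - s) / ((m : ℝ) + 1) = -((s - t) / (m + 1)) := by ring
          linarith
        · have : 0 ≤ (s - t) / (m + 1) := div_nonneg (by linarith) hm1.le
          have e : (t - s) / ((m : ℝ) + 1) = -((s - t) / (m + 1)) := by ring
          linarith
    have h3 := h s hs z hzS h1
    have h4 := ih z hzS t ht h2
    calc |φ s - φ t| = |(φ s - φ z) + (φ z - φ t)| := by ring_nf
      _ ≤ |φ s - φ z| + |φ z - φ t| := abs_add_le _ _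
      _ ≤ (m + 1) * ε := by linarith

/-- the chain lemma for real multiples -/
theorem as_chain' {φ : ℝ → ℝ} {S : Set ℝ} (hS : S.OrdConnected) {δ ε : ℝ} (hδ : 0 ≤ δ)
    (hε : 0 ≤ ε)
    (h : ∀ s ∈ S, ∀ t ∈ S, |s - t| ≤ δ → |φ s - φ t| ≤ ε) {r : ℝ} (hr : 0 ≤ r) :
    ∀ s ∈ S, ∀ t ∈ S, |s - t| ≤ r * δ → |φ s - φ t| ≤ (r + 1) * ε := by
  intro s hs t ht hst
  have h1 := as_chain hS h ⌈r⌉₊ s hs t ht
    (hst.trans (mul_le_mul_of_nonneg_right (Nat.le_ceil r) hδ))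
  exact h1.trans (mul_le_mul_of_nonneg_right (Nat.ceil_lt_add_one hr).le hε)

theorem as_lim (D : ℝ) (r : ℕ) :
    Tendsto (fun k : ℕ => D * ((k : ℝ) + 1) ^ r / 2 ^ k) atTop (𝓝 0) := by
  have h1 := (tendsto_pow_const_div_const_pow_of_one_lt r (one_lt_two (α := ℝ))).comp
    (tendsto_add_atTop_nat 1)
  have h2 := h1.const_mul (2 * D)
  rw [mul_zero] at h2
  refine h2.congr fun k => ?_
  simp only [Function.comp_apply]
  push_cast
  rw [pow_succ]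
  field_simp

/-- continuity from a modulus -/
theorem as_cont {Y : Type*} [PseudoMetricSpace Y] (g : Y → ℝ) (D : ℝ) (r : ℕ)
    (h : ∀ p p' : Y, ∀ k : ℕ, dist p p' ≤ 1 / 2 ^ k → |g p - g p'| ≤ D * ((k : ℝ) + 1) ^ r / 2 ^ k) :
    Continuous g := by
  rw [Metric.continuous_iff]
  intro p ε hε
  obtain ⟨k, hk⟩ := ((as_lim D r).eventually (gt_mem_nhds hε)).exists
  refine ⟨1 / 2 ^ k, by positivity, fun p' hp' => ?_⟩
  rw [Real.dist_eq]
  exact (h p' p k hp'.le).trans_lt hk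

/-! ### the inner integral -/

section inner

variable {a b : ℝ} {ρ : ℝ × ℝ → ℝ}

theorem as_slice_int (ha : 0 < a) (hρm : Measurable ρ) (hρ : ∀ p, a ≤ ρ p ∧ ρ p ≤ b) (t u v : ℝ) :
    IntervalIntegrable (fun x => ρ (x, t)) volume u v := by
  refine (intervalIntegrable_const (c := b)).mono_fun
    (hρm.comp (measurable_id.prodMk measurable_const)).aestronglyMeasurable ?_
  refine Filter.Eventually.of_forall fun x => ?_
  show ‖ρ (x, t)‖ ≤ ‖b‖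
  rw [Real.norm_eq_abs, Real.norm_eq_abs, abs_of_nonneg (ha.le.trans (hρ _).1)]
  exact (hρ _).2.trans (le_abs_self b)

theorem as_slice_bounds (ha : 0 < a) (hρm : Measurable ρ) (hρ : ∀ p, a ≤ ρ p ∧ ρ p ≤ b)
    (t : ℝ) {u v : ℝ} (huv : u ≤ v) :
    a * (v - u) ≤ ∫ x in u..v, ρ (x, t) ∧ ∫ x in u..v, ρ (x, t) ≤ b * (v - u) := by
  have hi := as_slice_int ha hρm hρ t u v
  constructor
  · have := intervalIntegral.integral_mono_on huv (intervalIntegrable_const (c := a)) hi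
      fun x _ => (hρ (x, t)).1
    rw [intervalIntegral.integral_const, smul_eq_mul] at this
    linarith
  · have := intervalIntegral.integral_mono_on huv hi (intervalIntegrable_const (c := b))
      fun x _ => (hρ (x, t)).2
    rw [intervalIntegral.integral_const, smul_eq_mul] at this
    linarith

theorem as_inner_meas (hρm : Measurable ρ) {g : ℝ → ℝ} (hg : Measurable g) :
    Measurable (fun t => ∫ x in (0 : ℝ)..(g t), ρ (x, t)) := by
  have e : (fun t => ∫ x in (0 : ℝ)..(g t), ρ (x, t)) = fun t =>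
      (∫ x, ({p : ℝ × ℝ | 0 < p.2 ∧ p.2 ≤ g p.1}.indicator (fun p => ρ (p.2, p.1))) (t, x)) -
      ∫ x, ({p : ℝ × ℝ | g p.1 < p.2 ∧ p.2 ≤ 0}.indicator (fun p => ρ (p.2, p.1))) (t, x) := by
    funext t
    rw [intervalIntegral]
    congr 1
    · rw [← integral_indicator measurableSet_Ioc]
      congr 1
    · rw [← integral_indicator measurableSet_Ioc]
      congr 1
  rw [e]
  have hρ' : Measurable (fun p : ℝ × ℝ => ρ (p.2, p.1)) := by fun_prop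
  refine Measurable.sub ?_ ?_
  · refine (StronglyMeasurable.integral_prod_right' (f := _) ?_).measurable
    refine (hρ'.indicator ?_).stronglyMeasurable
    exact (measurableSet_lt measurable_const measurable_snd).inter
      (measurableSet_le measurable_snd (hg.comp measurable_fst))
  · refine (StronglyMeasurable.integral_prod_right' (f := _) ?_).measurable
    refine (hρ'.indicator ?_).stronglyMeasurable
    exact (measurableSet_lt (hg.comp measurable_fst) measurable_snd).inter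
      (measurableSet_le measurable_snd measurable_const)

end inner

/-- the hypotheses of the assembly, with names for the constants -/
structure AsHyp (q : ℕ) (a b C₁ C₂ : ℝ) (ρ : ℝ × ℝ → ℝ) (F NN : ℝ → ℝ → ℝ) : Prop where
  ha : 0 < a
  hab : a ≤ b
  hρm : Measurable ρ
  hρ : ∀ p, a ≤ ρ p ∧ ρ p ≤ b
  hFX : ∀ t ∈ Icc (0 : ℝ) 1, ∀ X Y, X ≤ Y →
      (Y - X) / 2 ≤ F Y t - F X t ∧ F Y t - F X t ≤ 2 * (Y - X)
  hC₁ : 0 ≤ C₁
  hFt : ∀ X, ∀ s ∈ Icc (0 : ℝ) 1, ∀ t ∈ Icc (0 : ℝ) 1, ∀ k : ℕ,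
      |t - s| ≤ 1 / 2 ^ k → |F X t - F X s| ≤ C₁ * ((k : ℝ) + 1) / 2 ^ k
  hNN : ∀ X t, NN X t = ∫ τ in (0 : ℝ)..t, ∫ x in (0 : ℝ)..(F X τ), ρ (x, τ)
  hD : ∀ t ∈ Icc (0 : ℝ) 1, Differentiable ℝ (fun X => NN X t)
  hC₂ : 0 ≤ C₂
  hH : ∀ t ∈ Icc (0 : ℝ) 1, ∀ (X Y : ℝ) (k : ℕ), |X - Y| ≤ 1 / 2 ^ k →
      |deriv (fun X => NN X t) X - deriv (fun X => NN X t) Y| ≤ C₂ * ((k : ℝ) + 1) ^ q / 2 ^ k

namespace AsHyp

variable {q : ℕ} {a b C₁ C₂ : ℝ} {ρ : ℝ × ℝ → ℝ} {F NN : ℝ → ℝ → ℝ}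

theorem hb (h : AsHyp q a b C₁ C₂ ρ F NN) : 0 < b := h.ha.trans_le h.hab

theorem F_proj_cont (h : AsHyp q a b C₁ C₂ ρ F NN) (X : ℝ) :
    Continuous (fun t : ℝ => F X (projIcc 0 1 zero_le_one t)) := by
  have h1 : Continuous (fun t : Icc (0 : ℝ) 1 => F X t) := by
    refine as_cont _ C₁ 1 fun p p' k hk => ?_
    rw [pow_one]
    refine h.hFt X p' p'.2 p p.2 k ?_
    rwa [Subtype.dist_eq, Real.dist_eq] at hk
  exact h1.comp continuous_projIcc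

theorem F_contOn (h : AsHyp q a b C₁ C₂ ρ F NN) (X : ℝ) : ContinuousOn (F X) (Icc 0 1) := by
  refine (h.F_proj_cont X).continuousOn.congr fun t ht => ?_
  simp only [projIcc_of_mem zero_le_one ht]

theorem J_int (h : AsHyp q a b C₁ C₂ ρ F NN) (X : ℝ) :
    IntegrableOn (fun t => ∫ x in (0 : ℝ)..(F X t), ρ (x, t)) (Icc 0 1) := by
  obtain ⟨K, hK⟩ := isCompact_Icc.exists_bound_of_continuousOn (h.F_contOn X)
  have hm := as_inner_meas h.hρm (h.F_proj_cont X).measurable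
  have h1 : IntegrableOn (fun t : ℝ => ∫ x in (0 : ℝ)..(F X (projIcc 0 1 zero_le_one t)), ρ (x, t))
      (Icc 0 1) := by
    refine Measure.integrableOn_of_bounded (M := b * K) (by simp) hm.aestronglyMeasurable ?_
    refine (ae_restrict_mem measurableSet_Icc).mono fun t ht => ?_
    rw [projIcc_of_mem zero_le_one ht]
    refine (intervalIntegral.norm_integral_le_of_norm_le_const (C := b) fun x _ => ?_).trans ?_
    · rw [Real.norm_eq_abs, abs_of_nonneg (h.ha.le.trans (h.hρ _).1)]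
      exact (h.hρ _).2
    · rw [sub_zero]
      exact mul_le_mul_of_nonneg_left (hK t ht) h.hb.le
  refine h1.congr_fun (fun t ht => ?_) measurableSet_Icc
  simp only [projIcc_of_mem zero_le_one ht]

theorem J_int' (h : AsHyp q a b C₁ C₂ ρ F NN) (X : ℝ) {s t : ℝ} (hs : s ∈ Icc (0 : ℝ) 1)
    (ht : t ∈ Icc (0 : ℝ) 1) :
    IntervalIntegrable (fun t => ∫ x in (0 : ℝ)..(F X t), ρ (x, t)) volume s t := by
  rw [intervalIntegrable_iff]
  refine (h.J_int X).mono_set ?_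
  exact uIoc_subset_uIcc.trans (uIcc_subset_Icc hs ht)

theorem F_mono (h : AsHyp q a b C₁ C₂ ρ F NN) {t : ℝ} (ht : t ∈ Icc (0 : ℝ) 1) :
    StrictMono (fun X => F X t) := by
  intro X Y hXY
  have := (h.hFX t ht X Y hXY.le).1
  show F X t < F Y t
  linarith

theorem J_diff (h : AsHyp q a b C₁ C₂ ρ F NN) (X Y t : ℝ) :
    (∫ x in (0 : ℝ)..(F Y t), ρ (x, t)) - (∫ x in (0 : ℝ)..(F X t), ρ (x, t)) =
      ∫ x in (F X t)..(F Y t), ρ (x, t) :=
  intervalIntegral.integral_interval_sub_left (as_slice_int h.ha h.hρm h.hρ t _ _)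
    (as_slice_int h.ha h.hρm h.hρ t _ _)

theorem J_bounds (h : AsHyp q a b C₁ C₂ ρ F NN) {X Y t : ℝ} (ht : t ∈ Icc (0 : ℝ) 1)
    (hXY : X ≤ Y) :
    a * ((Y - X) / 2) ≤
      (∫ x in (0 : ℝ)..(F Y t), ρ (x, t)) - (∫ x in (0 : ℝ)..(F X t), ρ (x, t)) ∧
    (∫ x in (0 : ℝ)..(F Y t), ρ (x, t)) - (∫ x in (0 : ℝ)..(F X t), ρ (x, t)) ≤
      b * (2 * (Y - X)) := by
  rw [h.J_diff]
  have h1 := as_slice_bounds h.ha h.hρm h.hρ t ((h.F_mono ht).monotone hXY)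
  have h2 := h.hFX t ht X Y hXY
  exact ⟨(mul_le_mul_of_nonneg_left h2.1 h.ha.le).trans h1.1,
    h1.2.trans (mul_le_mul_of_nonneg_left h2.2 h.hb.le)⟩

theorem zero_mem01 : (0 : ℝ) ∈ Icc (0 : ℝ) 1 := ⟨le_rfl, zero_le_one⟩

/-- second difference of `NN` -/
theorem NN_second (h : AsHyp q a b C₁ C₂ ρ F NN) {X Y s t : ℝ} (hs : s ∈ Icc (0 : ℝ) 1)
    (ht : t ∈ Icc (0 : ℝ) 1) :
    (NN Y t - NN Y s) - (NN X t - NN X s) = ∫ τ in s..t,
      ((∫ x in (0 : ℝ)..(F Y τ), ρ (x, τ)) - (∫ x in (0 : ℝ)..(F X τ), ρ (x, τ))) := by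
  rw [h.hNN, h.hNN, h.hNN, h.hNN,
    intervalIntegral.integral_interval_sub_left (h.J_int' Y zero_mem01 ht)
      (h.J_int' Y zero_mem01 hs),
    intervalIntegral.integral_interval_sub_left (h.J_int' X zero_mem01 ht)
      (h.J_int' X zero_mem01 hs),
    intervalIntegral.integral_sub (h.J_int' Y hs ht) (h.J_int' X hs ht)]

theorem NN_second_bounds (h : AsHyp q a b C₁ C₂ ρ F NN) {X Y s t : ℝ} (hs : s ∈ Icc (0 : ℝ) 1)
    (ht : t ∈ Icc (0 : ℝ) 1) (hst : s ≤ t) (hXY : X ≤ Y) :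
    a / 2 * (t - s) * (Y - X) ≤ (NN Y t - NN Y s) - (NN X t - NN X s) ∧
    (NN Y t - NN Y s) - (NN X t - NN X s) ≤ 2 * b * (t - s) * (Y - X) := by
  rw [h.NN_second hs ht]
  have hi := (h.J_int' Y hs ht).sub (h.J_int' X hs ht)
  constructor
  · have := intervalIntegral.integral_mono_on hst
      (intervalIntegrable_const (c := a * ((Y - X) / 2))) hi
      fun τ hτ => (h.J_bounds ⟨hs.1.trans hτ.1, hτ.2.trans ht.2⟩ hXY).1
    rw [intervalIntegral.integral_const, smul_eq_mul] at this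
    refine le_trans (le_of_eq ?_) this
    ring
  · have := intervalIntegral.integral_mono_on hst hi
      (intervalIntegrable_const (c := b * (2 * (Y - X))))
      fun τ hτ => (h.J_bounds ⟨hs.1.trans hτ.1, hτ.2.trans ht.2⟩ hXY).2
    rw [intervalIntegral.integral_const, smul_eq_mul] at this
    refine this.trans (le_of_eq ?_)
    ring

/-- the derivative in the transversal direction -/
noncomputable def H (NN : ℝ → ℝ → ℝ) (X t : ℝ) : ℝ := deriv (fun X => NN X t) X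

theorem H_bounds (h : AsHyp q a b C₁ C₂ ρ F NN) (X : ℝ) {s t : ℝ} (hs : s ∈ Icc (0 : ℝ) 1)
    (ht : t ∈ Icc (0 : ℝ) 1) (hst : s ≤ t) :
    a / 2 * (t - s) ≤ H NN X t - H NN X s ∧ H NN X t - H NN X s ≤ 2 * b * (t - s) := by
  have h1 : HasDerivAt (fun X => NN X t) (H NN X t) X := (h.hD t ht X).hasDerivAt
  have h2 : HasDerivAt (fun X => NN X s) (H NN X s) X := (h.hD s hs X).hasDerivAt
  constructor
  · have hm : Monotone (fun X => NN X t - NN X s - a / 2 * (t - s) * X) := by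
      intro X Y hXY
      have := (h.NN_second_bounds hs ht hst hXY).1
      show NN X t - NN X s - a / 2 * (t - s) * X ≤ NN Y t - NN Y s - a / 2 * (t - s) * Y
      linarith
    have h3 := hm.deriv_nonneg (x := X)
    have h4 : HasDerivAt (fun X => NN X t - NN X s - a / 2 * (t - s) * X)
        (H NN X t - H NN X s - a / 2 * (t - s) * 1) X :=
      (h1.sub h2).sub ((hasDerivAt_id X).const_mul _)
    rw [h4.deriv] at h3
    linarith
  · have hm : Monotone (fun X => 2 * b * (t - s) * X - (NN X t - NN X s)) := by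
      intro X Y hXY
      have := (h.NN_second_bounds hs ht hst hXY).2
      show 2 * b * (t - s) * X - (NN X t - NN X s) ≤ 2 * b * (t - s) * Y - (NN Y t - NN Y s)
      linarith
    have h3 := hm.deriv_nonneg (x := X)
    have h4 : HasDerivAt (fun X => 2 * b * (t - s) * X - (NN X t - NN X s))
        (2 * b * (t - s) * 1 - (H NN X t - H NN X s)) X :=
      ((hasDerivAt_id X).const_mul _).sub (h1.sub h2)
    rw [h4.deriv] at h3
    linarith

theorem H_zero (h : AsHyp q a b C₁ C₂ ρ F NN) (X : ℝ) : H NN X 0 = 0 := by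
  have : (fun X => NN X 0) = fun _ => 0 := by
    funext X
    rw [h.hNN, intervalIntegral.integral_same]
  unfold H
  rw [this]
  exact deriv_const _ _

theorem H_abs (h : AsHyp q a b C₁ C₂ ρ F NN) (X : ℝ) {s t : ℝ} (hs : s ∈ Icc (0 : ℝ) 1)
    (ht : t ∈ Icc (0 : ℝ) 1) :
    a / 2 * |t - s| ≤ |H NN X t - H NN X s| ∧ |H NN X t - H NN X s| ≤ 2 * b * |t - s| := by
  have ha := h.ha
  rcases le_total s t with hst | hst
  · have h1 := h.H_bounds X hs ht hst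
    have h2 : 0 ≤ t - s := by linarith
    have h3 : 0 ≤ H NN X t - H NN X s := le_trans (by positivity) h1.1
    rw [abs_of_nonneg h2, abs_of_nonneg h3]
    exact h1
  · have h1 := h.H_bounds X ht hs hst
    have h2 : 0 ≤ s - t := by linarith
    have h3 : 0 ≤ H NN X s - H NN X t := le_trans (by positivity) h1.1
    rw [abs_sub_comm t s, abs_sub_comm (H NN X t), abs_of_nonneg h2, abs_of_nonneg h3]
    exact h1

theorem F_abs (h : AsHyp q a b C₁ C₂ ρ F NN) (X Y : ℝ) {t : ℝ} (ht : t ∈ Icc (0 : ℝ) 1) :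
    |X - Y| / 2 ≤ |F X t - F Y t| ∧ |F X t - F Y t| ≤ 2 * |X - Y| := by
  rcases le_total Y X with hst | hst
  · have h1 := h.hFX t ht Y X hst
    rw [abs_of_nonneg (by linarith : 0 ≤ X - Y), abs_of_nonneg (by linarith : 0 ≤ F X t - F Y t)]
    exact h1
  · have h1 := h.hFX t ht X Y hst
    rw [abs_sub_comm X Y, abs_sub_comm (F X t), abs_of_nonneg (by linarith : 0 ≤ Y - X),
      abs_of_nonneg (by linarith : 0 ≤ F Y t - F X t)]
    exact h1

end AsHyp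

namespace AsHyp

variable {q : ℕ} {a b C₁ C₂ : ℝ} {ρ : ℝ × ℝ → ℝ} {F NN : ℝ → ℝ → ℝ}

/-- from coordinates `(X,t)` to the plane -/
def Th (F : ℝ → ℝ → ℝ) (p : ℝ × Icc (0 : ℝ) 1) : ℝ × ℝ := (F p.1 p.2, p.2)

/-- from coordinates `(X,t)` to the target -/
noncomputable def Xi (NN : ℝ → ℝ → ℝ) (p : ℝ × Icc (0 : ℝ) 1) : ℝ × ℝ := (p.1, H NN p.1 p.2)

theorem one_le_pow' (k r : ℕ) : (1 : ℝ) ≤ ((k : ℝ) + 1) ^ r :=
  one_le_pow₀ (by linarith [Nat.cast_nonneg (α := ℝ) k])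

theorem F_mod (h : AsHyp q a b C₁ C₂ ρ F NN) (X X' : ℝ) {t t' : ℝ} (ht : t ∈ Icc (0 : ℝ) 1)
    (ht' : t' ∈ Icc (0 : ℝ) 1) (k : ℕ) (h1 : |X - X'| ≤ 1 / 2 ^ k) (h2 : |t - t'| ≤ 1 / 2 ^ k) :
    |F X t - F X' t'| ≤ (2 + C₁) * ((k : ℝ) + 1) ^ 1 / 2 ^ k := by
  have h3 := (h.F_abs X X' ht).2
  have h4 := h.hFt X' t' ht' t ht k h2
  have h5 : |F X t - F X' t'| ≤ |F X t - F X' t| + |F X' t - F X' t'| := abs_sub_le _ _ _
  have h6 : (1 : ℝ) ≤ ((k : ℝ) + 1) ^ 1 := one_le_pow' k 1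
  have h7 : (0 : ℝ) < 2 ^ k := by positivity
  have h8 : 2 * (1 / 2 ^ k) + C₁ * ((k : ℝ) + 1) / 2 ^ k ≤
      (2 + C₁) * ((k : ℝ) + 1) ^ 1 / 2 ^ k := by
    rw [pow_one] at h6 ⊢
    rw [← mul_div_assoc, ← add_div]
    apply div_le_div_of_nonneg_right _ h7.le
    nlinarith
  linarith

theorem H_mod (h : AsHyp q a b C₁ C₂ ρ F NN) (X X' : ℝ) {t t' : ℝ} (ht : t ∈ Icc (0 : ℝ) 1)
    (ht' : t' ∈ Icc (0 : ℝ) 1) (k : ℕ) (h1 : |X - X'| ≤ 1 / 2 ^ k) (h2 : |t - t'| ≤ 1 / 2 ^ k) :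
    |H NN X t - H NN X' t'| ≤ (C₂ + 2 * b) * ((k : ℝ) + 1) ^ q / 2 ^ k := by
  have h3 := h.hH t ht X X' k h1
  have h4 := (h.H_abs X' ht' ht).2
  have h5 : |H NN X t - H NN X' t'| ≤ |H NN X t - H NN X' t| + |H NN X' t - H NN X' t'| :=
    abs_sub_le _ _ _
  have h6 : (1 : ℝ) ≤ ((k : ℝ) + 1) ^ q := one_le_pow' k q
  have h7 : (0 : ℝ) < 2 ^ k := by positivity
  have h8 : 2 * b * (1 / 2 ^ k) + C₂ * ((k : ℝ) + 1) ^ q / 2 ^ k ≤
      (C₂ + 2 * b) * ((k : ℝ) + 1) ^ q / 2 ^ k := by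
    rw [← mul_div_assoc, ← add_div]
    apply div_le_div_of_nonneg_right _ h7.le
    have := h.hb
    nlinarith
  have h9 : 2 * b * |t - t'| ≤ 2 * b * (1 / 2 ^ k) :=
    mul_le_mul_of_nonneg_left h2 (by have := h.hb; linarith)
  change |H NN X t - H NN X' t| ≤ _ at h3
  linarith

theorem coord_le {p p' : ℝ × Icc (0 : ℝ) 1} {r : ℝ} (h : dist p p' ≤ r) :
    |p.1 - p'.1| ≤ r ∧ |(p.2 : ℝ) - p'.2| ≤ r := by
  rw [Prod.dist_eq, max_le_iff, Real.dist_eq, Subtype.dist_eq, Real.dist_eq] at h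
  exact h

theorem Th_cont (h : AsHyp q a b C₁ C₂ ρ F NN) : Continuous (Th F) := by
  refine Continuous.prodMk (as_cont _ (2 + C₁) 1 fun p p' k hk => ?_) (by fun_prop)
  exact h.F_mod _ _ p.2.2 p'.2.2 k (coord_le hk).1 (coord_le hk).2

theorem Xi_cont (h : AsHyp q a b C₁ C₂ ρ F NN) : Continuous (Xi NN) := by
  refine Continuous.prodMk continuous_fst (as_cont _ (C₂ + 2 * b) q fun p p' k hk => ?_)
  exact h.H_mod _ _ p.2.2 p'.2.2 k (coord_le hk).1 (coord_le hk).2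

theorem Th_inj (h : AsHyp q a b C₁ C₂ ρ F NN) : Function.Injective (Th F) := by
  rintro ⟨X, t⟩ ⟨X', t'⟩ he
  simp only [Th, Prod.mk.injEq] at he
  obtain ⟨h1, h2⟩ := he
  have h3 : t = t' := Subtype.ext h2
  subst h3
  rw [(h.F_mono t.2).injective h1]

theorem Xi_inj (h : AsHyp q a b C₁ C₂ ρ F NN) : Function.Injective (Xi NN) := by
  rintro ⟨X, t⟩ ⟨X', t'⟩ he
  simp only [Xi, Prod.mk.injEq] at he
  obtain ⟨rfl, h2⟩ := he
  have h3 := (h.H_abs X t'.2 t.2).1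
  rw [h2, sub_self, abs_zero] at h3
  have h4 : |(t : ℝ) - t'| ≤ 0 := by
    have := h.ha
    by_contra hc
    push Not at hc
    have : 0 < a / 2 * |(t : ℝ) - t'| := by positivity
    linarith
  have h5 : (t : ℝ) = t' := by
    have := abs_nonpos_iff.1 h4
    linarith
  rw [Subtype.ext h5]

theorem Th_emb (h : AsHyp q a b C₁ C₂ ρ F NN) : MeasurableEmbedding (Th F) :=
  h.Th_cont.measurableEmbedding h.Th_inj

theorem Xi_emb (h : AsHyp q a b C₁ C₂ ρ F NN) : MeasurableEmbedding (Xi NN) :=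
  h.Xi_cont.measurableEmbedding h.Xi_inj

theorem F_surj (h : AsHyp q a b C₁ C₂ ρ F NN) {t : ℝ} (ht : t ∈ Icc (0 : ℝ) 1) (x : ℝ) :
    ∃ X, F X t = x := by
  have hc : Continuous (fun X => F X t) := by
    have : (fun X => F X t) = fun X => (Th F (X, ⟨t, ht⟩)).1 := rfl
    rw [this]
    exact continuous_fst.comp (h.Th_cont.comp (by fun_prop))
  refine mem_range_of_exists_le_of_exists_ge hc ?_ ?_
  · rcases le_total x (F 0 t) with hx | hx
    · refine ⟨2 * (x - F 0 t), ?_⟩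
      have := (h.hFX t ht (2 * (x - F 0 t)) 0 (by linarith)).1
      linarith
    · exact ⟨0, hx⟩
  · rcases le_total x (F 0 t) with hx | hx
    · exact ⟨0, hx⟩
    · refine ⟨2 * (x - F 0 t), ?_⟩
      have := (h.hFX t ht 0 (2 * (x - F 0 t)) (by linarith)).1
      linarith

theorem Th_image (h : AsHyp q a b C₁ C₂ ρ F NN) (X₁ X₂ : ℝ) (t₀ : Icc (0 : ℝ) 1) :
    Th F '' (Ioc X₁ X₂ ×ˢ Iic t₀) =
      {p : ℝ × ℝ | p.2 ∈ Icc (0 : ℝ) t₀ ∧ p.1 ∈ Ioc (F X₁ p.2) (F X₂ p.2)} := by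
  ext ⟨x, t⟩
  constructor
  · rintro ⟨⟨X, s⟩, ⟨hX, hs⟩, he⟩
    simp only [Th, Prod.mk.injEq] at he
    obtain ⟨rfl, rfl⟩ := he
    have hm := h.F_mono s.2
    exact ⟨⟨s.2.1, hs⟩, hm hX.1, hm.monotone hX.2⟩
  · rintro ⟨ht, hx⟩
    simp only at ht hx
    have ht' : t ∈ Icc (0 : ℝ) 1 := ⟨ht.1, ht.2.trans t₀.2.2⟩
    obtain ⟨X, rfl⟩ := h.F_surj ht' x
    have hm := h.F_mono ht'
    refine ⟨(X, ⟨t, ht'⟩), ⟨⟨hm.lt_iff_lt.1 hx.1, hm.le_iff_le.1 hx.2⟩, ht.2⟩, rfl⟩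

theorem Xi_image (h : AsHyp q a b C₁ C₂ ρ F NN) (X₁ X₂ : ℝ) (t₀ : Icc (0 : ℝ) 1) :
    Xi NN '' (Ioc X₁ X₂ ×ˢ Iic t₀) =
      {p : ℝ × ℝ | p.1 ∈ Ioc X₁ X₂ ∧ p.2 ∈ Icc 0 (H NN p.1 t₀)} := by
  ext ⟨X, y⟩
  constructor
  · rintro ⟨⟨X', s⟩, ⟨hX, hs⟩, he⟩
    simp only [Xi, Prod.mk.injEq] at he
    obtain ⟨rfl, rfl⟩ := he
    have ha := h.ha
    have h1 := (h.H_bounds X' zero_mem01 s.2 s.2.1).1
    have h2 := (h.H_bounds X' s.2 t₀.2 hs).1
    rw [h.H_zero, sub_zero, sub_zero] at h1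
    have h3 : 0 ≤ a / 2 * (s : ℝ) := mul_nonneg (by linarith) s.2.1
    have h4 : 0 ≤ a / 2 * ((t₀ : ℝ) - s) :=
      mul_nonneg (by linarith) (by have : (s : ℝ) ≤ t₀ := hs; linarith)
    exact ⟨hX, by simp only; linarith, by simp only; linarith⟩
  · rintro ⟨hX, hy⟩
    simp only at hX hy
    have hc : ContinuousOn (fun t => H NN X t) (Icc 0 (t₀ : ℝ)) := by
      have h1 : Continuous (fun t : Icc (0 : ℝ) 1 => H NN X t) := by
        have : (fun t : Icc (0 : ℝ) 1 => H NN X t) = fun t => (Xi NN (X, t)).2 := rfl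
        rw [this]
        exact continuous_snd.comp (h.Xi_cont.comp (by fun_prop))
      have h2 : ContinuousOn (fun t => H NN X t) (Icc (0 : ℝ) 1) :=
        continuousOn_iff_continuous_domRestrict.2 h1
      exact h2.mono (Icc_subset_Icc le_rfl t₀.2.2)
    have h3 := intermediate_value_Icc t₀.2.1 hc
    rw [h.H_zero] at h3
    obtain ⟨t, ht, rfl⟩ := h3 hy
    exact ⟨(X, ⟨t, ht.1, ht.2.trans t₀.2.2⟩), ⟨hX, ht.2⟩, rfl⟩

/-- mass of the first image -/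
theorem mass_Th (h : AsHyp q a b C₁ C₂ ρ F NN) {X₁ X₂ : ℝ} (hX : X₁ ≤ X₂) (t₀ : Icc (0 : ℝ) 1) :
    (volume.withDensity (fun p => ENNReal.ofReal (ρ p))) (Th F '' (Ioc X₁ X₂ ×ˢ Iic t₀)) =
      ENNReal.ofReal (NN X₂ t₀ - NN X₁ t₀) := by
  have hms : MeasurableSet (Th F '' (Ioc X₁ X₂ ×ˢ Iic t₀)) :=
    h.Th_emb.measurableSet_image.2 (measurableSet_Ioc.prod measurableSet_Iic)
  rw [withDensity_apply _ hms, ← lintegral_indicator hms, Measure.volume_eq_prod,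
    lintegral_prod_symm' _ ((h.hρm.ennreal_ofReal).indicator hms)]
  have e1 : ∀ t : ℝ, ∫⁻ x, (Th F '' (Ioc X₁ X₂ ×ˢ Iic t₀)).indicator
      (fun p => ENNReal.ofReal (ρ p)) (x, t) = (Icc (0 : ℝ) t₀).indicator (fun t =>
        ENNReal.ofReal ((∫ x in (0 : ℝ)..(F X₂ t), ρ (x, t)) -
          (∫ x in (0 : ℝ)..(F X₁ t), ρ (x, t)))) t := by
    intro t
    rw [h.Th_image]
    by_cases ht : t ∈ Icc (0 : ℝ) t₀
    · have ht' : t ∈ Icc (0 : ℝ) 1 := ⟨ht.1, ht.2.trans t₀.2.2⟩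
      rw [indicator_of_mem ht, h.J_diff,
        intervalIntegral.integral_of_le ((h.F_mono ht').monotone hX)]
      rw [ofReal_integral_eq_lintegral_ofReal]
      · rw [← lintegral_indicator measurableSet_Ioc]
        refine lintegral_congr fun x => ?_
        by_cases hx : x ∈ Ioc (F X₁ t) (F X₂ t)
        · rw [indicator_of_mem hx, indicator_of_mem]
          exact ⟨ht, hx⟩
        · rw [indicator_of_notMem hx, indicator_of_notMem]
          exact fun hh => hx hh.2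
      · exact (intervalIntegrable_iff_integrableOn_Ioc_of_le
          ((h.F_mono ht').monotone hX)).1 (as_slice_int h.ha h.hρm h.hρ t _ _)
      · exact Filter.Eventually.of_forall fun x => h.ha.le.trans (h.hρ _).1
    · rw [indicator_of_notMem ht]
      rw [← lintegral_zero (μ := (volume : Measure ℝ))]
      refine lintegral_congr fun x => ?_
      rw [indicator_of_notMem]
      exact fun hh => ht hh.1
  simp only [e1]
  have hsub : Icc (0 : ℝ) t₀ ⊆ Icc (0 : ℝ) 1 := Icc_subset_Icc le_rfl t₀.2.2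
  rw [lintegral_indicator measurableSet_Icc, ← ofReal_integral_eq_lintegral_ofReal]
  · congr 1
    rw [integral_Icc_eq_integral_Ioc, ← intervalIntegral.integral_of_le t₀.2.1]
    have := h.NN_second (X := X₁) (Y := X₂) zero_mem01 t₀.2
    rw [← this]
    have e0 : ∀ X, NN X 0 = 0 := fun X => by
      rw [h.hNN, intervalIntegral.integral_same]
    rw [e0, e0]
    ring
  · exact ((h.J_int X₂).mono_set hsub).sub ((h.J_int X₁).mono_set hsub)
  · refine (ae_restrict_mem measurableSet_Icc).mono fun t ht => ?_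
    have h1 := (h.J_bounds (hsub ht) hX).1
    have h2 : 0 ≤ a * ((X₂ - X₁) / 2) := mul_nonneg h.ha.le (by linarith)
    show 0 ≤ _
    exact h2.trans h1

/-- mass of the second image -/
theorem mass_Xi (h : AsHyp q a b C₁ C₂ ρ F NN) {X₁ X₂ : ℝ} (hX : X₁ ≤ X₂) (t₀ : Icc (0 : ℝ) 1) :
    volume (Xi NN '' (Ioc X₁ X₂ ×ˢ Iic t₀)) = ENNReal.ofReal (NN X₂ t₀ - NN X₁ t₀) := by
  have hms : MeasurableSet (Xi NN '' (Ioc X₁ X₂ ×ˢ Iic t₀)) :=
    h.Xi_emb.measurableSet_image.2 (measurableSet_Ioc.prod measurableSet_Iic)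
  have hH0 : ∀ X, 0 ≤ H NN X t₀ := fun X => by
    have h1 := (h.H_bounds X zero_mem01 t₀.2 t₀.2.1).1
    rw [h.H_zero, sub_zero, sub_zero] at h1
    exact (mul_nonneg (by have := h.ha; linarith) t₀.2.1).trans h1
  rw [Measure.volume_eq_prod, Measure.prod_apply hms]
  have e1 : ∀ X : ℝ, volume (Prod.mk X ⁻¹' (Xi NN '' (Ioc X₁ X₂ ×ˢ Iic t₀))) =
      (Ioc X₁ X₂).indicator (fun X => ENNReal.ofReal (H NN X t₀)) X := by
    intro X
    rw [h.Xi_image]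
    by_cases hXX : X ∈ Ioc X₁ X₂
    · rw [indicator_of_mem hXX]
      have : Prod.mk X ⁻¹' {p : ℝ × ℝ | p.1 ∈ Ioc X₁ X₂ ∧ p.2 ∈ Icc 0 (H NN p.1 t₀)} =
          Icc 0 (H NN X t₀) := by
        ext y
        exact ⟨fun hy => hy.2, fun hy => ⟨hXX, hy⟩⟩
      rw [this, Real.volume_Icc, sub_zero]
    · rw [indicator_of_notMem hXX]
      have : Prod.mk X ⁻¹' {p : ℝ × ℝ | p.1 ∈ Ioc X₁ X₂ ∧ p.2 ∈ Icc 0 (H NN p.1 t₀)} = ∅ := by
        ext y
        exact ⟨fun hy => hXX hy.1, fun hy => hy.elim⟩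
      rw [this, measure_empty]
  simp only [e1]
  have hc : Continuous (fun X => H NN X t₀) := by
    have : (fun X => H NN X t₀) = fun X => (Xi NN (X, t₀)).2 := rfl
    rw [this]
    exact continuous_snd.comp (h.Xi_cont.comp (by fun_prop))
  rw [lintegral_indicator measurableSet_Ioc, ← ofReal_integral_eq_lintegral_ofReal]
  · congr 1
    rw [← intervalIntegral.integral_of_le hX]
    have := intervalIntegral.integral_deriv_eq_sub (f := fun X => NN X t₀) (a := X₁) (b := X₂)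
      (fun X _ => h.hD t₀ t₀.2 X) (hc.intervalIntegrable _ _)
    exact this
  · exact (hc.integrableOn_Icc (a := X₁) (b := X₂)).mono_set Ioc_subset_Icc_self
  · exact Filter.Eventually.of_forall fun X => hH0 X

/-- the two measures on the strip agree -/
theorem measures_eq (h : AsHyp q a b C₁ C₂ ρ F NN) :
    Measure.comap (Th F) (volume.withDensity (fun p => ENNReal.ofReal (ρ p))) =
      Measure.comap (Xi NN) volume := by
  set C : Set (Set ℝ) := {S | ∃ l u : ℝ, l < u ∧ Ioc l u = S} with hC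
  set D : Set (Set (Icc (0 : ℝ) 1)) := range Iic with hD
  have hCs : IsCountablySpanning C := by
    refine ⟨fun n : ℕ => Ioc (-((n : ℝ) + 1)) (n + 1), fun n => ⟨_, _, by
      have : (0 : ℝ) ≤ n := Nat.cast_nonneg n
      linarith, rfl⟩, ?_⟩
    refine eq_univ_of_forall fun x => ?_
    obtain ⟨n, hn⟩ := exists_nat_gt |x|
    rw [mem_iUnion]
    have := abs_lt.1 hn
    exact ⟨n, by linarith, by linarith⟩
  have htop : (Iic (⟨1, zero_le_one, le_rfl⟩ : Icc (0 : ℝ) 1)) = univ :=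
    eq_univ_of_forall fun t => t.2.2
  have hDs : IsCountablySpanning D := by
    refine ⟨fun _ => Iic ⟨1, zero_le_one, le_rfl⟩, fun _ => ⟨_, rfl⟩, ?_⟩
    rw [htop, iUnion_const]
  have hgen : (inferInstance : MeasurableSpace (ℝ × Icc (0 : ℝ) 1)) =
      MeasurableSpace.generateFrom (image2 (· ×ˢ ·) C D) := by
    rw [← generateFrom_prod_eq hCs hDs]
    have e1 : MeasurableSpace.generateFrom C = (inferInstance : MeasurableSpace ℝ) := by
      rw [hC, ← borel_eq_generateFrom_Ioc ℝ]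
      exact (BorelSpace.measurable_eq (α := ℝ)).symm
    have e2 : MeasurableSpace.generateFrom D =
        (inferInstance : MeasurableSpace (Icc (0 : ℝ) 1)) := by
      rw [hD, ← borel_eq_generateFrom_Iic (Icc (0 : ℝ) 1)]
      exact (BorelSpace.measurable_eq (α := Icc (0 : ℝ) 1)).symm
    rw [e1, e2]
  have hpi : IsPiSystem (image2 (· ×ˢ ·) C D) :=
    IsPiSystem.prod (isPiSystem_Ioc id id) isPiSystem_Iic
  refine Measure.ext_of_generateFrom_of_iUnion (image2 (· ×ˢ ·) C D)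
    (fun n : ℕ => Ioc (-((n : ℝ) + 1)) (n + 1) ×ˢ Iic ⟨1, zero_le_one, le_rfl⟩) hgen hpi ?_ ?_ ?_ ?_
  · rw [htop]
    refine eq_univ_of_forall fun p => ?_
    obtain ⟨n, hn⟩ := exists_nat_gt |p.1|
    rw [mem_iUnion]
    have := abs_lt.1 hn
    exact ⟨n, ⟨by linarith, by linarith⟩, mem_univ _⟩
  · intro n
    refine ⟨_, ⟨_, _, ?_, rfl⟩, _, ⟨_, rfl⟩, rfl⟩
    have : (0 : ℝ) ≤ n := Nat.cast_nonneg n
    linarith
  · intro n
    have : (0 : ℝ) ≤ n := Nat.cast_nonneg n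
    rw [h.Th_emb.comap_apply, h.mass_Th (by linarith)]
    exact ENNReal.ofReal_ne_top
  · rintro _ ⟨_, ⟨l, u, hlu, rfl⟩, _, ⟨t₀, rfl⟩, rfl⟩
    rw [h.Th_emb.comap_apply, h.Xi_emb.comap_apply]
    exact (h.mass_Th hlu.le t₀).trans (h.mass_Xi hlu.le t₀).symm

end AsHyp

namespace AsHyp

variable {q : ℕ} {a b C₁ C₂ : ℝ} {ρ : ℝ × ℝ → ℝ} {F NN : ℝ → ℝ → ℝ}

/-- the map from the plane to the target -/
noncomputable def ff (F NN : ℝ → ℝ → ℝ) : ℝ × ℝ → ℝ × ℝ :=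
  Function.extend (Th F) (Xi NN) fun _ => 0

theorem ff_Th (h : AsHyp q a b C₁ C₂ ρ F NN) (p : ℝ × Icc (0 : ℝ) 1) :
    ff F NN (Th F p) = Xi NN p := h.Th_inj.extend_apply _ _ _

theorem exists_Th (h : AsHyp q a b C₁ C₂ ρ F NN) {p : ℝ × ℝ}
    (hp : p ∈ Icc (0 : ℝ) 1 ×ˢ Icc (0 : ℝ) 1) : ∃ r, Th F r = p := by
  obtain ⟨x, t⟩ := p
  obtain ⟨X, hX⟩ := h.F_surj hp.2 x
  exact ⟨(X, ⟨t, hp.2⟩), by simp [Th, hX]⟩

theorem coord_le' {p p' : ℝ × ℝ} {r : ℝ} (h : dist p p' ≤ r) :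
    |p.1 - p'.1| ≤ r ∧ |p.2 - p'.2| ≤ r := by
  rw [Prod.dist_eq, max_le_iff, Real.dist_eq, Real.dist_eq] at h
  exact h

theorem pow_le_pow' (k : ℕ) (q : ℕ) : ((k : ℝ) + 1) ≤ ((k : ℝ) + 1) ^ (q + 1) := by
  have h1 : (1 : ℝ) ≤ (k : ℝ) + 1 := by linarith [Nat.cast_nonneg (α := ℝ) k]
  calc ((k : ℝ) + 1) = ((k : ℝ) + 1) ^ 1 := (pow_one _).symm
    _ ≤ ((k : ℝ) + 1) ^ (q + 1) := pow_le_pow_right₀ h1 (by omega)

theorem mod_f (h : AsHyp q a b C₁ C₂ ρ F NN) (r r' : ℝ × Icc (0 : ℝ) 1) (k : ℕ)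
    (hk : dist (Th F r) (Th F r') ≤ 1 / 2 ^ k) :
    dist (Xi NN r) (Xi NN r') ≤
      ((3 + 2 * C₁) * C₂ + 2 * b + 2 + 2 * C₁) * ((k : ℝ) + 1) ^ (q + 1) / 2 ^ k := by
  obtain ⟨X, t, ht⟩ := r
  obtain ⟨X', t', ht'⟩ := r'
  obtain ⟨h1, h2⟩ := coord_le' hk
  simp only [Th] at h1 h2
  have hk0 : (0 : ℝ) ≤ k := Nat.cast_nonneg k
  have hK : (1 : ℝ) ≤ (k : ℝ) + 1 := by linarith
  have hp : (0 : ℝ) < 2 ^ k := by positivity
  have hC₁ := h.hC₁
  have hC₂ := h.hC₂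
  have hb := h.hb
  -- the distance of the curve numbers
  have h3 := (h.F_abs X X' ht).1
  have h4 := h.hFt X' t' ht' t ht k h2
  have h5 : |F X t - F X' t| ≤ |F X t - F X' t'| + |F X' t' - F X' t| := abs_sub_le _ _ _
  rw [abs_sub_comm (F X' t') (F X' t)] at h5
  have h6 : |X - X'| ≤ ((2 + 2 * C₁) * ((k : ℝ) + 1)) * (1 / 2 ^ k) := by
    have : 2 * (1 / 2 ^ k + C₁ * ((k : ℝ) + 1) / 2 ^ k) ≤
        ((2 + 2 * C₁) * ((k : ℝ) + 1)) * (1 / 2 ^ k) := by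
      rw [← add_div, mul_one_div, ← mul_div_assoc]
      apply div_le_div_of_nonneg_right _ hp.le
      nlinarith
    linarith
  -- chain
  have h7 := as_chain' (φ := fun X => H NN X t) ordConnected_univ (δ := 1 / 2 ^ k)
    (ε := C₂ * ((k : ℝ) + 1) ^ q / 2 ^ k) (by positivity) (by positivity)
    (fun X _ Y _ hXY => h.hH t ht X Y k hXY) (r := (2 + 2 * C₁) * ((k : ℝ) + 1)) (by positivity)
    X (mem_univ _) X' (mem_univ _) h6
  have h8 := (h.H_abs X' ht' ht).2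
  have h9 : |H NN X t - H NN X' t'| ≤ |H NN X t - H NN X' t| + |H NN X' t - H NN X' t'| :=
    abs_sub_le _ _ _
  have h10 : 2 * b * |t - t'| ≤ 2 * b * (1 / 2 ^ k) :=
    mul_le_mul_of_nonneg_left h2 (by linarith)
  have hq := one_le_pow' k (q + 1)
  have hq1 := pow_le_pow' k q
  have hq2 : 0 ≤ ((k : ℝ) + 1) ^ q := by positivity
  have h11 : ((2 + 2 * C₁) * ((k : ℝ) + 1) + 1) * (C₂ * ((k : ℝ) + 1) ^ q / 2 ^ k) +
      2 * b * (1 / 2 ^ k) ≤
      ((3 + 2 * C₁) * C₂ + 2 * b) * ((k : ℝ) + 1) ^ (q + 1) / 2 ^ k := by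
    rw [mul_one_div, ← mul_div_assoc, ← add_div]
    apply div_le_div_of_nonneg_right _ hp.le
    have e1 : ((2 + 2 * C₁) * ((k : ℝ) + 1) + 1) * (C₂ * ((k : ℝ) + 1) ^ q) ≤
        ((3 + 2 * C₁) * ((k : ℝ) + 1)) * (C₂ * ((k : ℝ) + 1) ^ q) := by
      apply mul_le_mul_of_nonneg_right _ (by positivity)
      linarith
    have e2 : ((3 + 2 * C₁) * ((k : ℝ) + 1)) * (C₂ * ((k : ℝ) + 1) ^ q) =
        (3 + 2 * C₁) * C₂ * ((k : ℝ) + 1) ^ (q + 1) := by ring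
    nlinarith
  have hC : 0 ≤ (3 + 2 * C₁) * C₂ := by positivity
  rw [Prod.dist_eq, max_le_iff, Real.dist_eq, Real.dist_eq]
  constructor
  · show |X - X'| ≤ _
    refine h6.trans ?_
    rw [mul_one_div]
    apply div_le_div_of_nonneg_right _ hp.le
    calc (2 + 2 * C₁) * ((k : ℝ) + 1) ≤ (2 + 2 * C₁) * ((k : ℝ) + 1) ^ (q + 1) :=
          mul_le_mul_of_nonneg_left hq1 (by linarith)
      _ ≤ _ := mul_le_mul_of_nonneg_right (by linarith) (by positivity)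
  · show |H NN X t - H NN X' t'| ≤ _
    have : ((3 + 2 * C₁) * C₂ + 2 * b) * ((k : ℝ) + 1) ^ (q + 1) / 2 ^ k ≤
        ((3 + 2 * C₁) * C₂ + 2 * b + 2 + 2 * C₁) * ((k : ℝ) + 1) ^ (q + 1) / 2 ^ k := by
      apply div_le_div_of_nonneg_right _ hp.le
      exact mul_le_mul_of_nonneg_right (by linarith) (by positivity)
    linarith

theorem mod_inv (h : AsHyp q a b C₁ C₂ ρ F NN) (r r' : ℝ × Icc (0 : ℝ) 1) (k : ℕ)
    (hk : dist (Xi NN r) (Xi NN r') ≤ 1 / 2 ^ k) :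
    dist (Th F r) (Th F r') ≤
      (2 / a * (1 + C₂) + (2 + (2 / a * (1 + C₂) + 1) * C₁)) *
        ((k : ℝ) + 1) ^ (q + 1) / 2 ^ k := by
  obtain ⟨X, t, ht⟩ := r
  obtain ⟨X', t', ht'⟩ := r'
  obtain ⟨h1, h2⟩ := coord_le' hk
  simp only [Xi] at h1 h2
  have hk0 : (0 : ℝ) ≤ k := Nat.cast_nonneg k
  have hK : (1 : ℝ) ≤ (k : ℝ) + 1 := by linarith
  have hp : (0 : ℝ) < 2 ^ k := by positivity
  have hC₁ := h.hC₁
  have hC₂ := h.hC₂
  have ha := h.ha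
  have h3 := (h.H_abs X' ht' ht).1
  have h4 := h.hH t ht X X' k h1
  change |H NN X t - H NN X' t| ≤ _ at h4
  have h5 : |H NN X' t - H NN X' t'| ≤ |H NN X' t - H NN X t| + |H NN X t - H NN X' t'| :=
    abs_sub_le _ _ _
  rw [abs_sub_comm (H NN X' t) (H NN X t)] at h5
  have hq0 := one_le_pow' k q
  have hq := one_le_pow' k (q + 1)
  have hq1 := pow_le_pow' k q
  have hqq : ((k : ℝ) + 1) ^ q ≤ ((k : ℝ) + 1) ^ (q + 1) := pow_le_pow_right₀ hK (by omega)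
  have h6 : |t - t'| ≤ (2 / a * (1 + C₂) * ((k : ℝ) + 1) ^ q) * (1 / 2 ^ k) := by
    have e1 : |t - t'| = 2 / a * (a / 2 * |t - t'|) := by field_simp
    rw [e1]
    have e2 : a / 2 * |t - t'| ≤ (1 + C₂) * ((k : ℝ) + 1) ^ q * (1 / 2 ^ k) := by
      have : C₂ * ((k : ℝ) + 1) ^ q / 2 ^ k + 1 / 2 ^ k ≤
          (1 + C₂) * ((k : ℝ) + 1) ^ q * (1 / 2 ^ k) := by
        rw [mul_one_div, ← add_div]
        apply div_le_div_of_nonneg_right _ hp.le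
        linarith
      linarith
    calc 2 / a * (a / 2 * |t - t'|) ≤ 2 / a * ((1 + C₂) * ((k : ℝ) + 1) ^ q * (1 / 2 ^ k)) :=
          mul_le_mul_of_nonneg_left e2 (by positivity)
      _ = _ := by ring
  have h7 := as_chain' (φ := fun t => F X' t) (S := Icc (0 : ℝ) 1) ordConnected_Icc
    (δ := 1 / 2 ^ k) (ε := C₁ * ((k : ℝ) + 1) / 2 ^ k) (by positivity) (by positivity)
    (fun s hs t ht hst => h.hFt X' t ht s hs k hst)
    (r := 2 / a * (1 + C₂) * ((k : ℝ) + 1) ^ q) (by positivity) t ht t' ht' h6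
  have h8 := (h.F_abs X X' ht).2
  have h9 : |F X t - F X' t'| ≤ |F X t - F X' t| + |F X' t - F X' t'| := abs_sub_le _ _ _
  have h10 : 2 * |X - X'| ≤ 2 * (1 / 2 ^ k) := mul_le_mul_of_nonneg_left h1 (by norm_num)
  set c := 2 / a * (1 + C₂) with hc
  have hc0 : 0 ≤ c := by positivity
  have h11 : 2 * (1 / 2 ^ k) + (c * ((k : ℝ) + 1) ^ q + 1) * (C₁ * ((k : ℝ) + 1) / 2 ^ k) ≤
      (2 + (c + 1) * C₁) * ((k : ℝ) + 1) ^ (q + 1) / 2 ^ k := by
    rw [mul_one_div, ← mul_div_assoc, ← add_div]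
    apply div_le_div_of_nonneg_right _ hp.le
    have e1 : (c * ((k : ℝ) + 1) ^ q + 1) * (C₁ * ((k : ℝ) + 1)) ≤
        ((c + 1) * ((k : ℝ) + 1) ^ q) * (C₁ * ((k : ℝ) + 1)) := by
      apply mul_le_mul_of_nonneg_right _ (by positivity)
      linarith
    have e2 : ((c + 1) * ((k : ℝ) + 1) ^ q) * (C₁ * ((k : ℝ) + 1)) =
        (c + 1) * C₁ * ((k : ℝ) + 1) ^ (q + 1) := by ring
    linarith
  have hcc : 0 ≤ (c + 1) * C₁ := by positivity
  rw [Prod.dist_eq, max_le_iff, Real.dist_eq, Real.dist_eq]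
  constructor
  · show |F X t - F X' t'| ≤ _
    have : (2 + (c + 1) * C₁) * ((k : ℝ) + 1) ^ (q + 1) / 2 ^ k ≤
        (c + (2 + (c + 1) * C₁)) * ((k : ℝ) + 1) ^ (q + 1) / 2 ^ k := by
      apply div_le_div_of_nonneg_right _ hp.le
      exact mul_le_mul_of_nonneg_right (by linarith) (by positivity)
    linarith
  · show |t - t'| ≤ _
    refine h6.trans ?_
    rw [mul_one_div]
    apply div_le_div_of_nonneg_right _ hp.le
    calc c * ((k : ℝ) + 1) ^ q ≤ c * ((k : ℝ) + 1) ^ (q + 1) :=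
          mul_le_mul_of_nonneg_left hqq hc0
      _ ≤ _ := mul_le_mul_of_nonneg_right (by linarith) (by positivity)

theorem final (h : AsHyp q a b C₁ C₂ ρ F NN) (B : Set (ℝ × ℝ)) (hB : MeasurableSet B) :
    ∫⁻ x in (Icc (0 : ℝ) 1 ×ˢ Icc (0 : ℝ) 1) ∩ ff F NN ⁻¹' B, ENNReal.ofReal (ρ x)
      = volume (B ∩ ff F NN '' (Icc (0 : ℝ) 1 ×ˢ Icc (0 : ℝ) 1)) := by
  set I : Set (ℝ × ℝ) := Icc (0 : ℝ) 1 ×ˢ Icc (0 : ℝ) 1 with hI
  have hIm : MeasurableSet I := measurableSet_Icc.prod measurableSet_Icc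
  set A : Set (ℝ × Icc (0 : ℝ) 1) := Th F ⁻¹' I ∩ Xi NN ⁻¹' B with hA
  have hAm : MeasurableSet A :=
    (h.Th_emb.measurable hIm).inter (h.Xi_emb.measurable hB)
  have e1 : I ∩ ff F NN ⁻¹' B = Th F '' A := by
    ext p
    constructor
    · rintro ⟨hp, hpB⟩
      obtain ⟨r, rfl⟩ := h.exists_Th hp
      rw [mem_preimage, h.ff_Th] at hpB
      exact ⟨r, ⟨hp, hpB⟩, rfl⟩
    · rintro ⟨r, ⟨hr1, hr2⟩, rfl⟩
      refine ⟨hr1, ?_⟩
      rw [mem_preimage, h.ff_Th]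
      exact hr2
  have e2 : B ∩ ff F NN '' I = Xi NN '' A := by
    ext p
    constructor
    · rintro ⟨hp, s, hs, rfl⟩
      obtain ⟨r, rfl⟩ := h.exists_Th hs
      rw [h.ff_Th] at hp ⊢
      exact ⟨r, ⟨hs, hp⟩, rfl⟩
    · rintro ⟨r, ⟨hr1, hr2⟩, rfl⟩
      exact ⟨hr2, Th F r, hr1, h.ff_Th r⟩
  have hm : MeasurableSet (Th F '' A) := h.Th_emb.measurableSet_image.2 hAm
  rw [e1, e2, ← withDensity_apply _ hm, ← h.Th_emb.comap_apply, h.measures_eq,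
    h.Xi_emb.comap_apply]

end AsHyp

/- TARGET: `assembly` (final assembly of a map with prescribed density from a foliation).
Setting.  `ρ` is a density on the plane, `x = F X t` is the curve number `X` of a foliation by curves transversal to the
lines `t = const`; `NN X t` is the `ρ`-mass (with sign) of the part `0 ≤ τ ≤ t` between the `t`-axis and curve `X`.
Plain proof.  Let `H X t = ∂_X NN X t`.
 (1) `t ↦ H X t`: for `s ≤ t` in `[0,1]` and `h > 0`,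
   `NN (X+h) t - NN X t - (NN (X+h) s - NN X s) = ∫_s^t ∫_{F X τ}^{F (X+h) τ} ρ ∈ [a (t-s) h/2, 2 b (t-s) h]`, divide by `h`:
   `a (t-s)/2 ≤ H X t - H X s ≤ 2 b (t-s)`.  Also `H X 0 = 0`.
 (2) `Θ (X,t) = (F X t, t)` is a bijection of the strip `ℝ × [0,1]` (for each `t`, `F · t` is an increasing bi-Lipschitz
   bijection of `ℝ`), `Ξ (X,t) = (X, H X t)` is injective on the strip.  Put `f = Ξ ∘ Θ⁻¹` on the strip, i.e.
   `f (F X t, t) = (X, H X t)`, and anything outside.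
 (3) moduli (on the whole strip intersected with a bounded set, in particular on the square): if `|x-x'|, |t-t'| ≤ 2^{-k}`,
   `x = F X t`, `x' = F X' t'`: `|X - X'| ≤ 2|F X t - F X' t| ≤ 2 (|x-x'| + |F X' t' - F X' t|) ≤ C (k+1) 2^{-k}`, then
   `|H X t - H X' t'| ≤ |H X t - H X t'| + |H X t' - H X' t'| ≤ 2b|t-t'| + (modulus of H at C (k+1) 2^{-k})`, where the
   modulus of `H` at distance `m 2^{-k}` is at most `m` times that at `2^{-k}` (chain), so `≤ C (k+1)^(q+1) / 2^k`.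
   Inverse: if `|X-X'|, |y-y'| ≤ 2^{-k}`, `y = H X t`, `y' = H X' t'`:
   `|t-t'| ≤ (2/a) |H X' t - H X' t'| ≤ (2/a) (|y-y'| + |H X' t - H X t|) ≤ C (k+1)^q/2^k`, and then
   `|F X t - F X' t'| ≤ 2|X-X'| + |F X' t - F X' t'| ≤ C (k+1)^(q+1)/2^k` (chain again for the time modulus of `F`).
   Injectivity follows from the same bounds (let `k → ∞`), or from (2).
 (4) masses: for `X₁ ≤ X₂`, `0 ≤ t₁ ≤ t₂ ≤ 1`, the `ρ`-mass of `Θ ([X₁,X₂] × [t₁,t₂])` is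
   `NN X₂ t₂ - NN X₁ t₂ - NN X₂ t₁ + NN X₁ t₁ = ∫_{X₁}^{X₂} (H X t₂ - H X t₁) dX =` area of `Ξ ([X₁,X₂] × [t₁,t₂])`.
   Rectangles generate, so `∫_{Θ A} ρ = volume (Ξ A)` for every Borel `A` in the strip (`Θ`, `Ξ` are injective and continuous on
   the closed strip, hence measurable embeddings: `ContinuousOn.measurableEmbedding`, `Measure.comap`), and
   `A = Θ⁻¹ (I ∩ f⁻¹ B)` gives the last claim. -/

theorem assembly (q : ℕ) (a b : ℝ) (ha : 0 < a) (hab : a ≤ b) (ρ : ℝ × ℝ → ℝ) (hρm : Measurable ρ)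
    (hρ : ∀ p, a ≤ ρ p ∧ ρ p ≤ b) (F : ℝ → ℝ → ℝ)
    (hFX : ∀ t ∈ Icc (0 : ℝ) 1, ∀ X Y, X ≤ Y →
      (Y - X) / 2 ≤ F Y t - F X t ∧ F Y t - F X t ≤ 2 * (Y - X))
    (hFt : ∃ C : ℝ, ∀ X, ∀ s ∈ Icc (0 : ℝ) 1, ∀ t ∈ Icc (0 : ℝ) 1, ∀ k : ℕ,
      |t - s| ≤ 1 / 2 ^ k → |F X t - F X s| ≤ C * ((k : ℝ) + 1) / 2 ^ k)
    (NN : ℝ → ℝ → ℝ)
    (hNN : ∀ X t, NN X t = ∫ τ in (0 : ℝ)..t, ∫ x in (0 : ℝ)..(F X τ), ρ (x, τ))
    (hD : ∀ t ∈ Icc (0 : ℝ) 1, Differentiable ℝ (fun X => NN X t))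
    (hH : ∃ C : ℝ, ∀ t ∈ Icc (0 : ℝ) 1, ∀ (X Y : ℝ) (k : ℕ), |X - Y| ≤ 1 / 2 ^ k →
      |deriv (fun X => NN X t) X - deriv (fun X => NN X t) Y| ≤ C * ((k : ℝ) + 1) ^ q / 2 ^ k) :
    ∃ f : ℝ × ℝ → ℝ × ℝ,
      InjOn f (Icc (0 : ℝ) 1 ×ˢ Icc (0 : ℝ) 1) ∧
      (∃ C : ℝ, ∀ x ∈ Icc (0 : ℝ) 1 ×ˢ Icc (0 : ℝ) 1, ∀ y ∈ Icc (0 : ℝ) 1 ×ˢ Icc (0 : ℝ) 1,
        ∀ k : ℕ, dist x y ≤ 1 / 2 ^ k → dist (f x) (f y) ≤ C * ((k : ℝ) + 1) ^ (q + 1) / 2 ^ k) ∧
      (∃ C : ℝ, ∀ x ∈ Icc (0 : ℝ) 1 ×ˢ Icc (0 : ℝ) 1, ∀ y ∈ Icc (0 : ℝ) 1 ×ˢ Icc (0 : ℝ) 1,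
        ∀ k : ℕ, dist (f x) (f y) ≤ 1 / 2 ^ k → dist x y ≤ C * ((k : ℝ) + 1) ^ (q + 1) / 2 ^ k) ∧
      ∀ B : Set (ℝ × ℝ), MeasurableSet B →
        ∫⁻ x in (Icc (0 : ℝ) 1 ×ˢ Icc (0 : ℝ) 1) ∩ f ⁻¹' B, ENNReal.ofReal (ρ x)
          = volume (B ∩ f '' (Icc (0 : ℝ) 1 ×ˢ Icc (0 : ℝ) 1)) := by
  obtain ⟨C₁, hC₁⟩ := hFt
  obtain ⟨C₂, hC₂⟩ := hH
  have h0 : (0 : ℝ) ∈ Icc (0 : ℝ) 1 := AsHyp.zero_mem01
  have hC₁0 : 0 ≤ C₁ := by
    have := hC₁ 0 0 h0 0 h0 0 (by simp)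
    simpa using this
  have hC₂0 : 0 ≤ C₂ := by
    have := hC₂ 0 h0 0 0 0 (by simp)
    simpa using this
  have h : AsHyp q a b C₁ C₂ ρ F NN :=
    ⟨ha, hab, hρm, hρ, hFX, hC₁0, hC₁, hNN, hD, hC₂0, hC₂⟩
  refine ⟨AsHyp.ff F NN, ?_, ⟨(3 + 2 * C₁) * C₂ + 2 * b + 2 + 2 * C₁, ?_⟩,
    ⟨2 / a * (1 + C₂) + (2 + (2 / a * (1 + C₂) + 1) * C₁), ?_⟩, fun B hB => h.final B hB⟩
  · intro p hp p' hp' he
    obtain ⟨r, rfl⟩ := h.exists_Th hp
    obtain ⟨r', rfl⟩ := h.exists_Th hp'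
    rw [h.ff_Th, h.ff_Th] at he
    rw [h.Xi_inj he]
  · intro p hp p' hp' k hk
    obtain ⟨r, rfl⟩ := h.exists_Th hp
    obtain ⟨r', rfl⟩ := h.exists_Th hp'
    rw [h.ff_Th, h.ff_Th]
    exact h.mod_f r r' k hk
  · intro p hp p' hp' k hk
    obtain ⟨r, rfl⟩ := h.exists_Th hp
    obtain ⟨r', rfl⟩ := h.exists_Th hp'
    rw [h.ff_Th, h.ff_Th] at hk
    exact h.mod_inv r r' k hk

end Pool.Agent.helper312_fol
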