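import Mathlib

set_option autoImplicit false

open Set MeasureTheory

namespace Pool.Agent.helper312_fol

/-- Shapley-Folkman step -/
theorem sel_sf (D : ℕ) (K : ℕ → Set (Fin D → ℝ)) (s : Finset ℕ) (z : ℕ → Fin D → ℝ)
    (hz : ∀ i ∈ s, z i ∈ convexHull ℝ (K i)) :
    ∃ z' : ℕ → Fin D → ℝ, (∀ i ∈ s, z' i ∈ convexHull ℝ (K i)) ∧
      ∑ i ∈ s, z' i = ∑ i ∈ s, z i ∧
      ∃ B ⊆ s, B.card ≤ D + 1 ∧ ∀ i ∈ s, i ∉ B → z' i ∈ K i := by
  classical
  rcases s.eq_empty_or_nonempty with rfl | hs
  · exact ⟨z, hz, rfl, ∅, by simp, by simp, by simp⟩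
  have hcard : (0 : ℝ) < s.card := by exact_mod_cast Finset.card_pos.2 hs
  -- the points `(x, e_i)`
  let A : Set ((Fin D → ℝ) × (s → ℝ)) :=
    {p | ∃ i : s, p.1 ∈ K i ∧ p.2 = Pi.single i 1}
  have hA : ∀ i : s, (z i, (Pi.single i 1 : s → ℝ)) ∈ convexHull ℝ A := by
    intro i
    have h1 : (z i, (Pi.single i 1 : s → ℝ)) ∈
        convexHull ℝ (K i ×ˢ ({Pi.single i 1} : Set (s → ℝ))) := by
      rw [convexHull_prod]
      exact ⟨hz i i.2, by simp⟩
    refine convexHull_mono ?_ h1
    rintro ⟨x, e⟩ ⟨hx, he⟩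
    exact ⟨i, hx, he⟩
  have hP : ∑ i : s, (1 / (s.card : ℝ)) • ((z i, (Pi.single i 1 : s → ℝ)) :
      (Fin D → ℝ) × (s → ℝ)) ∈ convexHull ℝ A := by
    apply (convex_convexHull ℝ A).sum_mem
    · intro i _; positivity
    · rw [Finset.sum_const, Finset.card_univ, Fintype.card_coe, nsmul_eq_mul]
      field_simp
    · intro i _; exact hA i
  obtain ⟨κ, _, q, w, hq, hind, hw, hw1, hsum⟩ := eq_pos_convex_span_of_mem_convexHull hP
  have hq' : ∀ k : κ, ∃ i : s, (q k).1 ∈ K i ∧ (q k).2 = Pi.single i 1 := fun k =>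
    hq ⟨k, rfl⟩
  choose idx hidx1 hidx2 using hq'
  have hcardκ : Fintype.card κ ≤ D + s.card + 1 := by
    refine hind.card_le_finrank_succ.trans ?_
    have h1 := Submodule.finrank_le (vectorSpan ℝ (Set.range q))
    rw [Module.finrank_prod, Module.finrank_fin_fun, Module.finrank_fintype_fun_eq_card,
      Fintype.card_coe] at h1
    omega
  -- the two components of the sum
  have hfst : ∑ k, w k • (q k).1 = (1 / (s.card : ℝ)) • ∑ i : s, z i := by
    have h1 := congrArg Prod.fst hsum
    rw [Prod.fst_sum, Prod.fst_sum] at h1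
    simp only [Prod.smul_fst] at h1
    rw [h1, Finset.smul_sum]
  have hsnd : ∀ i : s, ∑ k with idx k = i, w k = 1 / (s.card : ℝ) := by
    intro i
    have h1 := congrArg (fun p => p.2 i) hsum
    simp only [Prod.snd_sum, Prod.smul_snd, Finset.sum_apply, Pi.smul_apply, hidx2,
      smul_eq_mul] at h1
    rw [Finset.sum_filter]
    have h2 : ∀ k, (if idx k = i then w k else 0) =
        w k * (Pi.single (idx k) 1 : s → ℝ) i := by
      intro k
      by_cases hk : idx k = i
      · rw [if_pos hk, hk, Pi.single_eq_same, mul_one]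
      · rw [if_neg hk, Pi.single_eq_of_ne (Ne.symm hk), mul_zero]
    rw [Finset.sum_congr rfl (fun k _ => h2 k), h1]
    rw [Finset.sum_eq_single i]
    · rw [Pi.single_eq_same, mul_one]
    · intro b _ hb
      rw [Pi.single_eq_of_ne (Ne.symm hb), mul_zero]
    · intro hcon
      exact absurd (Finset.mem_univ _) hcon
  -- the new points
  let y : s → Fin D → ℝ := fun i => (s.card : ℝ) • ∑ k with idx k = i, w k • (q k).1
  have hy : ∀ i : s, y i = ∑ k with idx k = i, ((s.card : ℝ) * w k) • (q k).1 := by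
    intro i
    simp only [y, Finset.smul_sum, smul_smul]
  have hyw : ∀ i : s, ∑ k with idx k = i, ((s.card : ℝ) * w k) = 1 := by
    intro i
    rw [← Finset.mul_sum, hsnd i]
    field_simp
  have hyc : ∀ i : s, y i ∈ convexHull ℝ (K i) := by
    intro i
    rw [hy]
    apply (convex_convexHull ℝ (K i)).sum_mem
    · intro k _
      have := hw k
      positivity
    · exact hyw i
    · intro k hk
      have h1 : idx k = i := (Finset.mem_filter.1 hk).2
      rw [← h1]
      exact subset_convexHull ℝ _ (hidx1 k)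
  have hysum : ∑ i : s, y i = ∑ i : s, z i := by
    simp only [y]
    rw [← Finset.smul_sum, Finset.sum_fiberwise, hfst, smul_smul]
    have : (s.card : ℝ) * (1 / s.card) = 1 := by field_simp
    rw [this, one_smul]
  -- the bad indices
  let Bs : Finset s := Finset.univ.filter fun i => 2 ≤ (Finset.univ.filter fun k => idx k = i).card
  have hge1 : ∀ i : s, 1 ≤ (Finset.univ.filter fun k => idx k = i).card := by
    intro i
    rw [Nat.one_le_iff_ne_zero, Finset.card_ne_zero]
    by_contra hcon
    rw [Finset.not_nonempty_iff_eq_empty] at hcon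
    have h1 := hsnd i
    rw [hcon, Finset.sum_empty] at h1
    have h2 : (0 : ℝ) < 1 / s.card := by positivity
    linarith
  have hBs : Bs.card ≤ D + 1 := by
    have h1 : Fintype.card κ = ∑ i : s, (Finset.univ.filter fun k => idx k = i).card := by
      rw [← Finset.card_univ]
      exact Finset.card_eq_sum_card_fiberwise (fun _ _ => Finset.mem_coe.2 (Finset.mem_univ _))
    have h2 : ∑ i : s, (1 + if i ∈ Bs then 1 else 0) ≤
        ∑ i : s, (Finset.univ.filter fun k => idx k = i).card := by
      apply Finset.sum_le_sum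
      intro i _
      by_cases hi : i ∈ Bs
      · rw [if_pos hi]
        exact (Finset.mem_filter.1 hi).2
      · rw [if_neg hi]
        exact hge1 i
    rw [Finset.sum_add_distrib, Finset.sum_const, Finset.card_univ, Fintype.card_coe,
      Finset.sum_ite_mem, Finset.univ_inter, Finset.sum_const] at h2
    simp only [smul_eq_mul, mul_one] at h2
    omega
  have hgood : ∀ i : s, i ∉ Bs → y i ∈ K i := by
    intro i hi
    have h1 : (Finset.univ.filter fun k => idx k = i).card = 1 := by
      have h2 : ¬ 2 ≤ (Finset.univ.filter fun k => idx k = i).card := fun h =>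
        hi (Finset.mem_filter.2 ⟨Finset.mem_univ _, h⟩)
      have := hge1 i
      omega
    obtain ⟨k, hk⟩ := Finset.card_eq_one.1 h1
    have h3 := hy i
    have h4 := hyw i
    rw [hk, Finset.sum_singleton] at h3 h4
    rw [h4, one_smul] at h3
    rw [h3]
    have h5 : k ∈ Finset.univ.filter fun k => idx k = i := by rw [hk]; simp
    have h6 : idx k = i := (Finset.mem_filter.1 h5).2
    rw [← h6]
    exact hidx1 k
  refine ⟨fun i => if h : i ∈ s then y ⟨i, h⟩ else 0, ?_, ?_, Bs.map (Function.Embedding.subtype _),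
    ?_, ?_, ?_⟩
  · intro i hi
    simp only
    rw [dif_pos hi]
    exact hyc ⟨i, hi⟩
  · rw [← Finset.sum_coe_sort s (fun i => if h : i ∈ s then y ⟨i, h⟩ else 0),
      ← Finset.sum_coe_sort s z, ← hysum]
    apply Finset.sum_congr rfl
    intro i _
    rw [dif_pos i.2]
  · intro i hi
    rw [Finset.mem_map] at hi
    obtain ⟨j, _, rfl⟩ := hi
    exact j.2
  · rw [Finset.card_map]
    exact hBs
  · intro i hi hiB
    simp only
    rw [dif_pos hi]
    exact hgood ⟨i, hi⟩ (fun hcon => hiB (Finset.mem_map.2 ⟨⟨i, hi⟩, hcon, rfl⟩))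

/-- the state after `n` steps -/
structure SelInv (D : ℕ) (K : ℕ → Set (Fin D → ℝ)) (n : ℕ)
    (p : (ℕ → Fin D → ℝ) × Finset ℕ) : Prop where
  card : p.2.card ≤ D + 1
  sub : p.2 ⊆ Finset.range n
  hull : ∀ i < n, p.1 i ∈ convexHull ℝ (K i)
  good : ∀ i < n, i ∉ p.2 → p.1 i ∈ K i
  sum : ∑ i ∈ Finset.range n, p.1 i = 0

theorem sel_step (D : ℕ) (K : ℕ → Set (Fin D → ℝ)) (h0 : ∀ i, 0 ∈ convexHull ℝ (K i)) (n : ℕ)
    (p : (ℕ → Fin D → ℝ) × Finset ℕ) (hp : SelInv D K n p) :
    ∃ p' : (ℕ → Fin D → ℝ) × Finset ℕ, SelInv D K (n + 1) p' ∧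
      ∀ i < n, i ∉ p.2 → i ∉ p'.2 ∧ p'.1 i = p.1 i := by
  classical
  obtain ⟨z, B⟩ := p
  obtain ⟨hcard, hsub, hhull, hgood, hsum⟩ := hp
  simp only at hcard hsub hhull hgood hsum
  have hnB : n ∉ B := fun h => by simpa using hsub h
  obtain ⟨z', hz', hsum', B', hB's, hB'c, hB'g⟩ := sel_sf D K (insert n B)
    (Function.update z n 0) (by
      intro i hi
      rw [Finset.mem_insert] at hi
      by_cases hin : i = n
      · subst hin
        rw [Function.update_self]
        exact h0 i
      · rw [Function.update_of_ne hin]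
        have := hi.resolve_left hin
        exact hhull i (Finset.mem_range.1 (hsub this)))
  refine ⟨(fun i => if i ∈ insert n B then z' i else z i, B'), ⟨hB'c, ?_, ?_, ?_, ?_⟩, ?_⟩
  · intro i hi
    have h1 := hB's hi
    rw [Finset.mem_insert] at h1
    rw [Finset.mem_range]
    rcases h1 with rfl | h1
    · omega
    · have := Finset.mem_range.1 (hsub h1)
      omega
  · intro i hi
    simp only
    by_cases h : i ∈ insert n B
    · rw [if_pos h]; exact hz' i h
    · rw [if_neg h]
      rw [Finset.mem_insert] at h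
      push Not at h
      exact hhull i (by omega)
  · intro i hi hiB'
    simp only at hiB' ⊢
    by_cases h : i ∈ insert n B
    · rw [if_pos h]; exact hB'g i h hiB'
    · rw [if_neg h]
      rw [Finset.mem_insert] at h
      push Not at h
      exact hgood i (by omega) h.2
  · simp only
    have hins : insert n B ⊆ Finset.range (n + 1) := by
      intro i hi
      rw [Finset.mem_insert] at hi
      rw [Finset.mem_range]
      rcases hi with rfl | hi
      · omega
      · have := Finset.mem_range.1 (hsub hi)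
        omega
    rw [← Finset.sum_sdiff hins]
    have h1 : ∑ i ∈ Finset.range (n + 1) \ insert n B,
        (if i ∈ insert n B then z' i else z i) =
        ∑ i ∈ Finset.range (n + 1) \ insert n B, Function.update z n 0 i := by
      apply Finset.sum_congr rfl
      intro i hi
      rw [Finset.mem_sdiff] at hi
      rw [if_neg hi.2, Function.update_of_ne]
      rintro rfl
      exact hi.2 (Finset.mem_insert_self _ _)
    have h2 : ∑ i ∈ insert n B, (if i ∈ insert n B then z' i else z i) =
        ∑ i ∈ insert n B, Function.update z n 0 i := by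
      rw [← hsum']
      apply Finset.sum_congr rfl
      intro i hi
      rw [if_pos hi]
    rw [h1, h2, Finset.sum_sdiff hins, Finset.sum_range_succ, Function.update_self, add_zero,
      ← hsum]
    apply Finset.sum_congr rfl
    intro i hi
    rw [Finset.mem_range] at hi
    rw [Function.update_of_ne (by omega)]
  · intro i hi hiB
    simp only at hiB ⊢
    have h : i ∉ insert n B := by
      rw [Finset.mem_insert]
      push Not
      exact ⟨by omega, hiB⟩
    exact ⟨fun hcon => h (hB's hcon), by rw [if_neg h]⟩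

/-- selection from sets whose convex hulls contain `0` -/
theorem sel_main (D : ℕ) (K : ℕ → Set (Fin D → ℝ)) (h0 : ∀ i, 0 ∈ convexHull ℝ (K i)) :
    ∃ x : ℕ → Fin D → ℝ, (∀ i, x i ∈ K i) ∧ ∀ n, ∃ (z : ℕ → Fin D → ℝ) (B : Finset ℕ),
      B.card ≤ D + 1 ∧ B ⊆ Finset.range n ∧ (∀ i < n, z i ∈ convexHull ℝ (K i)) ∧
      (∀ i < n, i ∉ B → z i = x i) ∧ ∑ i ∈ Finset.range n, z i = 0 := by
  classical
  have hne : ∀ i, (K i).Nonempty := fun i => convexHull_nonempty_iff.1 ⟨0, h0 i⟩
  have hinit : SelInv D K 0 (fun _ => 0, ∅) :=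
    ⟨by simp, by simp, by simp, by simp, by simp⟩
  choose g hg using sel_step D K h0
  let F : (n : ℕ) → {p : (ℕ → Fin D → ℝ) × Finset ℕ // SelInv D K n p} := fun n =>
    Nat.rec (motive := fun n => {p : (ℕ → Fin D → ℝ) × Finset ℕ // SelInv D K n p})
      ⟨_, hinit⟩ (fun n p => ⟨g n p.1 p.2, (hg n p.1 p.2).1⟩) n
  have hF : ∀ n, (F (n + 1)).1 = g n (F n).1 (F n).2 := fun n => rfl
  have hstep : ∀ n, ∀ i < n, i ∉ (F n).1.2 →
      i ∉ (F (n + 1)).1.2 ∧ (F (n + 1)).1.1 i = (F n).1.1 i := by
    intro n i hi hiB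
    rw [hF]
    exact (hg n (F n).1 (F n).2).2 i hi hiB
  have hmono : ∀ n m, n ≤ m → ∀ i < n, i ∉ (F n).1.2 →
      i ∉ (F m).1.2 ∧ (F m).1.1 i = (F n).1.1 i := by
    intro n m hnm i hi hiB
    induction m, hnm using Nat.le_induction with
    | base => exact ⟨hiB, rfl⟩
    | succ m hm ih =>
      have h1 := hstep m i (by omega) ih.1
      exact ⟨h1.1, h1.2.trans ih.2⟩
  let x : ℕ → Fin D → ℝ := fun i =>
    if h : ∃ n, i < n ∧ i ∉ (F n).1.2 then (F h.choose).1.1 i else (hne i).some
  have hx : ∀ n i, i < n → i ∉ (F n).1.2 → (F n).1.1 i = x i := by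
    intro n i hi hiB
    have h : ∃ n, i < n ∧ i ∉ (F n).1.2 := ⟨n, hi, hiB⟩
    have h1 : x i = (F h.choose).1.1 i := dif_pos h
    rw [h1]
    have h2 := h.choose_spec
    rcases le_total n h.choose with h3 | h3
    · exact (hmono _ _ h3 i hi hiB).2.symm
    · exact (hmono _ _ h3 i h2.1 h2.2).2
  refine ⟨x, ?_, ?_⟩
  · intro i
    by_cases h : ∃ n, i < n ∧ i ∉ (F n).1.2
    · obtain ⟨n, h1, h2⟩ := h
      rw [← hx n i h1 h2]
      exact (F n).2.good i h1 h2
    · have h1 : x i = (hne i).some := dif_neg h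
      rw [h1]
      exact (hne i).some_mem
  · intro n
    exact ⟨(F n).1.1, (F n).1.2, (F n).2.card, (F n).2.sub, (F n).2.hull,
      fun i hi hiB => hx n i hi hiB, (F n).2.sum⟩

/-- the convex hull of a compact set is compact (finite dimension) -/
theorem sel_compact {D : ℕ} {K : Set (Fin D → ℝ)} (hK : IsCompact K) :
    IsCompact (convexHull ℝ K) := by
  classical
  rcases K.eq_empty_or_nonempty with rfl | ⟨k₀, hk₀⟩
  · simp
  let Φ : (Fin (D + 1) → Fin D → ℝ) × (Fin (D + 1) → ℝ) → Fin D → ℝ := fun p =>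
    ∑ i, p.2 i • p.1 i
  have hΦ : Continuous Φ := by
    apply continuous_finsetSum
    intro i _
    exact ((continuous_apply i).comp continuous_snd).smul
      ((continuous_apply i).comp continuous_fst)
  have hC : IsCompact ((Set.pi Set.univ fun _ : Fin (D + 1) => K) ×ˢ
      stdSimplex ℝ (Fin (D + 1))) :=
    (isCompact_univ_pi fun _ => hK).prod (isCompact_stdSimplex ℝ _)
  have heq : convexHull ℝ K = Φ '' ((Set.pi Set.univ fun _ : Fin (D + 1) => K) ×ˢ
      stdSimplex ℝ (Fin (D + 1))) := by
    apply Set.Subset.antisymm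
    · intro x hx
      obtain ⟨κ, _, z, w, hz, hind, hw, hw1, hsum⟩ := eq_pos_convex_span_of_mem_convexHull hx
      have hcard : Fintype.card κ ≤ Fintype.card (Fin (D + 1)) := by
        rw [Fintype.card_fin]
        refine hind.card_le_finrank_succ.trans ?_
        have h1 := Submodule.finrank_le (vectorSpan ℝ (Set.range z))
        rw [Module.finrank_fin_fun] at h1
        omega
      obtain ⟨e⟩ := Function.Embedding.nonempty_of_card_le hcard
      refine ⟨(Function.extend e z fun _ => k₀, Function.extend e w 0), ⟨?_, ?_, ?_⟩, ?_⟩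
      · intro i _
        by_cases hi : ∃ k, e k = i
        · obtain ⟨k, rfl⟩ := hi
          simp only
          rw [e.injective.extend_apply]
          exact hz ⟨k, rfl⟩
        · simp only
          rw [Function.extend_apply' _ _ _ hi]
          exact hk₀
      · intro i
        by_cases hi : ∃ k, e k = i
        · obtain ⟨k, rfl⟩ := hi
          simp only
          rw [e.injective.extend_apply]
          exact (hw k).le
        · simp only
          rw [Function.extend_apply' _ _ _ hi]
          exact le_rfl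
      · rw [← hw1]
        symm
        apply Fintype.sum_of_injective e e.injective
        · intro i hi
          exact Function.extend_apply' _ _ _ hi
        · intro k
          simp only
          rw [e.injective.extend_apply]
      · rw [← hsum]
        symm
        apply Fintype.sum_of_injective e e.injective
        · intro i hi
          simp only
          rw [Function.extend_apply' _ _ _ hi]
          simp
        · intro k
          simp only
          rw [e.injective.extend_apply, e.injective.extend_apply]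
    · rintro _ ⟨⟨x, w⟩, ⟨hx, hw0, hw1⟩, rfl⟩
      exact (convex_convexHull ℝ K).sum_mem (fun i _ => hw0 i) hw1
        (fun i _ => subset_convexHull ℝ K (hx i (Set.mem_univ i)))
  rw [heq]
  exact hC.image hΦ

theorem sel_mean (D : ℕ) (r : ℝ → Fin D → ℝ) (hc : Continuous r)
    (h0 : ∀ j, ∫ y in (-1/2 : ℝ)..(1/2), r y j = 0) :
    (0 : Fin D → ℝ) ∈ convexHull ℝ (r '' Icc (-1/2 : ℝ) (1/2)) := by
  have hcomp : IsCompact (r '' Icc (-1/2 : ℝ) (1/2)) := isCompact_Icc.image hc
  have hclosed : IsClosed (convexHull ℝ (r '' Icc (-1/2 : ℝ) (1/2))) :=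
    (sel_compact hcomp).isClosed
  have hprob : IsProbabilityMeasure (volume.restrict (Ioc (-1/2 : ℝ) (1/2))) := by
    constructor
    rw [Measure.restrict_apply MeasurableSet.univ, univ_inter, Real.volume_Ioc]
    norm_num
  have hint : Integrable r (volume.restrict (Ioc (-1/2 : ℝ) (1/2))) :=
    (hc.integrableOn_Icc (a := (-1/2 : ℝ)) (b := 1/2)).mono_set Ioc_subset_Icc_self
  have hmem := (convex_convexHull ℝ (r '' Icc (-1/2 : ℝ) (1/2))).integral_mem
    (μ := volume.restrict (Ioc (-1/2 : ℝ) (1/2))) hclosed (f := r) (by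
      rw [ae_restrict_iff' measurableSet_Ioc]
      exact Filter.Eventually.of_forall fun y hy =>
        subset_convexHull ℝ _ ⟨y, Ioc_subset_Icc_self hy, rfl⟩) hint
  have hzero : ∫ y, r y ∂(volume.restrict (Ioc (-1/2 : ℝ) (1/2))) = 0 := by
    ext j
    rw [eval_integral (fun i => hint.eval i)]
    have := h0 j
    rw [intervalIntegral.integral_of_le (by norm_num)] at this
    exact this
  rw [hzero] at hmem
  exact hmem

/- TARGET: `selection` (Barany-Grinberg / prefix form of the Shapley-Folkman lemma).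
Plain proof.  `K i = r i '' Icc (-1/2) (1/2)` is compact, so its convex hull is compact and contains the mean `0` of `r i`
(`Convex.integral_mem` or `Convex.set_average_mem`).
Shapley-Folkman step: let `s` be a finite index set and `z i ∈ convexHull ℝ (K i)` for `i ∈ s`.  Then there are
`z' i ∈ convexHull ℝ (K i)` with the same sum and with `z' i ∈ K i` for all but at most `D + 1` of the `i ∈ s`.  Proof: the point
`(∑ z i, 1_s) / |s|` of `(Fin D → ℝ) × (s → ℝ)` is in the convex hull of `{(x, e_i) : i ∈ s, x ∈ K i}`; by Caratheodory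
(`eq_pos_convex_span_of_mem_convexHull`) it is a convex combination with positive weights of an affinely independent
family, which has at most `D + |s| + 1` members (`AffineIndependent.card_le_finrank_succ` or similar); each `i ∈ s` occurs at least
once, so at most `D + 1` of the `i` occur at least twice; collect the terms of each `i` (weights sum to `1/|s|`).
Induction on `n`: there are `z n i ∈ convexHull (K i)` (`i < n`), `∑_{i<n} z n i = 0`, at most `D+1` indices with `z n i ∉ K i`, and
`z (n+1) i = z n i` whenever `z n i ∈ K i` (apply the step only to the bad indices and the new index `n`, with `z = 0`).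
Every index is eventually good: if some index stays bad forever one just picks any value for it: define the final `x i`
as the eventual value if `i` becomes good at some stage and an arbitrary element of `K i` otherwise.  Then
`∑_{i<n} x i = ∑_{i<n} (x i - z n i)` has at most `D+1` nonzero terms, each with entries at most `2 ρ`. -/
theorem selection (D : ℕ) (ρ : ℝ) (r : ℕ → ℝ → Fin D → ℝ)
    (hc : ∀ i, Continuous (r i))
    (h0 : ∀ i j, ∫ y in (-1/2 : ℝ)..(1/2), r i y j = 0)
    (hb : ∀ i, ∀ y ∈ Icc (-1/2 : ℝ) (1/2), ∀ j, |r i y j| ≤ ρ) :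
    ∃ y : ℕ → ℝ, (∀ i, y i ∈ Icc (-1/2 : ℝ) (1/2)) ∧
      ∀ n j, |∑ i ∈ Finset.range n, r i (y i) j| ≤ 2 * (D + 1) * ρ := by
  obtain ⟨x, hx, hn⟩ := sel_main D (fun i => r i '' Icc (-1/2 : ℝ) (1/2))
    (fun i => sel_mean D (r i) (hc i) (h0 i))
  choose y hy hyx using hx
  refine ⟨y, hy, fun n j => ?_⟩
  have hρ : 0 ≤ ρ := (abs_nonneg _).trans (hb 0 0 ⟨by norm_num, by norm_num⟩ j)
  obtain ⟨z, B, hBc, hBs, hzc, hzx, hzs⟩ := hn n
  have hhull : ∀ i, ∀ v ∈ convexHull ℝ (r i '' Icc (-1/2 : ℝ) (1/2)), |v j| ≤ ρ := by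
    intro i v hv
    have hconv : Convex ℝ {v : Fin D → ℝ | |v j| ≤ ρ} := by
      intro a ha b hb' s t hs ht hst
      simp only [mem_ofPred_eq, Pi.add_apply, Pi.smul_apply, smul_eq_mul] at ha hb' ⊢
      calc |s * a j + t * b j| ≤ |s * a j| + |t * b j| := abs_add_le _ _
        _ = s * |a j| + t * |b j| := by rw [abs_mul, abs_mul, abs_of_nonneg hs, abs_of_nonneg ht]
        _ ≤ s * ρ + t * ρ := add_le_add (mul_le_mul_of_nonneg_left ha hs)
            (mul_le_mul_of_nonneg_left hb' ht)
        _ = ρ := by rw [← add_mul, hst, one_mul]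
    have hsub : r i '' Icc (-1/2 : ℝ) (1/2) ⊆ {v : Fin D → ℝ | |v j| ≤ ρ} := by
      rintro _ ⟨w, hw, rfl⟩
      exact hb i w hw j
    exact convexHull_min hsub hconv hv
  have hzsj : ∑ i ∈ Finset.range n, z i j = 0 := by
    have := congrFun hzs j
    simpa using this
  have h1 : ∑ i ∈ Finset.range n, r i (y i) j = ∑ i ∈ B, (r i (y i) j - z i j) := by
    have h2 : ∑ i ∈ Finset.range n, r i (y i) j =
        ∑ i ∈ Finset.range n, (r i (y i) j - z i j) := by
      rw [Finset.sum_sub_distrib, hzsj, sub_zero]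
    rw [h2]
    symm
    apply Finset.sum_subset hBs
    intro i hi hiB
    rw [Finset.mem_range] at hi
    rw [hzx i hi hiB, hyx i, sub_self]
  rw [h1]
  calc |∑ i ∈ B, (r i (y i) j - z i j)| ≤ ∑ i ∈ B, |r i (y i) j - z i j| :=
        Finset.abs_sum_le_sum_abs _ _
    _ ≤ ∑ _i ∈ B, (2 * ρ) := by
        apply Finset.sum_le_sum
        intro i hi
        have h2 := hb i (y i) (hy i) j
        have h3 := hhull i (z i) (hzc i (Finset.mem_range.1 (hBs hi)))
        calc |r i (y i) j - z i j| ≤ |r i (y i) j| + |z i j| := abs_sub _ _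
          _ ≤ 2 * ρ := by linarith
    _ = B.card * (2 * ρ) := by rw [Finset.sum_const, nsmul_eq_mul]
    _ ≤ ((D + 1 : ℕ) : ℝ) * (2 * ρ) := by
        apply mul_le_mul_of_nonneg_right _ (by linarith)
        exact_mod_cast hBc
    _ = 2 * (D + 1) * ρ := by push_cast; ring

end Pool.Agent.helper312_fol
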