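import Pool.Agent.helper312_fol.Defs
import Pool.Agent.helper312_fol.Selection

set_option autoImplicit false

open Set MeasureTheory

namespace Pool.Agent.helper312_fol

theorem Good.abs_diff {a b : ℝ} {N : ℝ → ℝ → ℝ} (ha : 0 < a) (hN : Good a b N) (τ X Y : ℝ) :
    |N Y τ - N X τ| ≤ b * |Y - X| := by
  rcases le_total X Y with h | h
  · have h1 := hN.lower τ X Y h
    have h2 := hN.upper τ X Y h
    have h3 : 0 ≤ a * (Y - X) := mul_nonneg ha.le (sub_nonneg.2 h)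
    rw [abs_of_nonneg (h3.trans h1), abs_of_nonneg (sub_nonneg.2 h)]
    exact h2
  · have h1 := hN.lower τ Y X h
    have h2 := hN.upper τ Y X h
    have h3 : 0 ≤ a * (X - Y) := mul_nonneg ha.le (sub_nonneg.2 h)
    rw [abs_sub_comm, abs_sub_comm Y X, abs_of_nonneg (h3.trans h1),
      abs_of_nonneg (sub_nonneg.2 h)]
    exact h2

theorem Good.b_pos {a b : ℝ} {N : ℝ → ℝ → ℝ} (ha : 0 < a) (hN : Good a b N) : 0 < b := by
  have h1 := hN.lower 0 0 1 zero_le_one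
  have h2 := hN.upper 0 0 1 zero_le_one
  have := h1.trans h2
  simp at this
  linarith

theorem Good.intervalIntegrable {a b : ℝ} {N : ℝ → ℝ → ℝ} (ha : 0 < a) (hN : Good a b N)
    (f : ℝ → ℝ) (hf : Measurable f) (K : ℝ) (hK : ∀ τ, |f τ| ≤ K) (s t : ℝ) :
    IntervalIntegrable (fun τ => N (f τ) τ) volume s t := by
  obtain ⟨C, hC⟩ := hN.bdd
  have hb := hN.b_pos ha
  have hm : Measurable (fun τ => N (f τ) τ) :=
    hN.meas.comp (hf.prodMk measurable_id)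
  refine (intervalIntegrable_const (c := C + b * K)).mono_fun hm.aestronglyMeasurable ?_
  refine Filter.Eventually.of_forall fun τ => ?_
  have h1 := hN.abs_diff ha τ 0 (f τ)
  have h2 := hC τ
  have h3 : |f τ - 0| ≤ K := by simpa using hK τ
  have h4 : |N (f τ) τ| ≤ C + b * K := by
    have : N (f τ) τ = (N (f τ) τ - N 0 τ) + N 0 τ := by ring
    rw [this]
    refine (abs_add_le _ _).trans ?_
    have : b * |f τ - 0| ≤ b * K := mul_le_mul_of_nonneg_left h3 hb.le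
    linarith
  simp only [Real.norm_eq_abs]
  exact h4.trans (le_abs_self _)

theorem Good.int_diff {a b : ℝ} {N : ℝ → ℝ → ℝ} (ha : 0 < a) (hN : Good a b N)
    (f g : ℝ → ℝ) (hf : Measurable f) (hg : Measurable g) (K K' : ℝ) (hK : ∀ τ, |f τ| ≤ K)
    (hK' : ∀ τ, |g τ| ≤ K') (c s T : ℝ) (hT : 0 ≤ T) (hc : ∀ τ, |f τ - g τ| ≤ c) :
    |(∫ τ in s..(s + T), N (f τ) τ) - ∫ τ in s..(s + T), N (g τ) τ| ≤ b * T * c := by
  have hb := hN.b_pos ha
  rw [← intervalIntegral.integral_sub (hN.intervalIntegrable ha f hf K hK _ _)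
    (hN.intervalIntegrable ha g hg K' hK' _ _)]
  have h := intervalIntegral.norm_integral_le_of_norm_le_const (a := s) (b := s + T)
    (f := fun τ => N (f τ) τ - N (g τ) τ) (C := b * c) (fun τ _ => by
      rw [Real.norm_eq_abs]
      exact (hN.abs_diff ha τ _ _).trans (mul_le_mul_of_nonneg_left (hc τ) hb.le))
  rw [Real.norm_eq_abs] at h
  refine h.trans (le_of_eq ?_)
  rw [add_sub_cancel_left, abs_of_nonneg hT]
  ring

theorem bump_mem (s T W τ : ℝ) : 0 ≤ bump s T W τ ∧ bump s T W τ ≤ 1 := by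
  constructor
  · exact le_max_left _ _
  · exact max_le zero_le_one (min_le_left _ _)

theorem bump_measurable (s T W : ℝ) : Measurable (bump s T W) := by
  have : Continuous (bump s T W) := by
    unfold bump
    fun_prop
  exact this.measurable

theorem cw_mem (R X : ℝ) : 0 ≤ cw R X ∧ cw R X ≤ 1 := by
  unfold cw
  have h1 := Real.neg_one_le_cos (Real.pi * X / R)
  have h2 := Real.cos_le_one (Real.pi * X / R)
  constructor <;> linarith

theorem curve_bdd (s T W R X δ y₁ y₂ τ : ℝ) :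
    |X + bump s T W τ * (W * (cw R X * y₁ + (1 - cw R X) * y₂) + δ)|
      ≤ |X| + |W * (cw R X * y₁ + (1 - cw R X) * y₂) + δ| := by
  refine (abs_add_le _ _).trans ?_
  have h := bump_mem s T W τ
  have : |bump s T W τ * (W * (cw R X * y₁ + (1 - cw R X) * y₂) + δ)|
      ≤ |W * (cw R X * y₁ + (1 - cw R X) * y₂) + δ| := by
    rw [abs_mul, abs_of_nonneg h.1]
    exact mul_le_of_le_one_left (abs_nonneg _) h.2
  linarith

theorem curve_meas (s T W R X δ y₁ y₂ : ℝ) :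
    Measurable fun τ => X + bump s T W τ * (W * (cw R X * y₁ + (1 - cw R X) * y₂) + δ) :=
  ((bump_measurable s T W).mul_const _).const_add _

theorem blockInt_lip {a b : ℝ} {N : ℝ → ℝ → ℝ} (ha : 0 < a) (hN : Good a b N)
    (s T W R X δ y₁ y₂ z₁ z₂ : ℝ) (hT : 0 ≤ T) (hW : 0 ≤ W) :
    |blockInt N s T W R X δ y₁ y₂ - blockInt N s T W R X δ z₁ z₂|
      ≤ b * T * (W * (|y₁ - z₁| + |y₂ - z₂|)) := by
  unfold blockInt
  refine hN.int_diff ha _ _ (curve_meas s T W R X δ y₁ y₂) (curve_meas s T W R X δ z₁ z₂) _ _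
    (fun τ => curve_bdd s T W R X δ y₁ y₂ τ) (fun τ => curve_bdd s T W R X δ z₁ z₂ τ) _ _ _ hT ?_
  intro τ
  have h := bump_mem s T W τ
  have hc := cw_mem R X
  have e : X + bump s T W τ * (W * (cw R X * y₁ + (1 - cw R X) * y₂) + δ)
      - (X + bump s T W τ * (W * (cw R X * z₁ + (1 - cw R X) * z₂) + δ))
      = bump s T W τ * (W * (cw R X * (y₁ - z₁) + (1 - cw R X) * (y₂ - z₂))) := by ring
  rw [e, abs_mul, abs_of_nonneg h.1, abs_mul, abs_of_nonneg hW]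
  have h1 : |cw R X * (y₁ - z₁) + (1 - cw R X) * (y₂ - z₂)| ≤ |y₁ - z₁| + |y₂ - z₂| := by
    refine (abs_add_le _ _).trans ?_
    rw [abs_mul, abs_mul, abs_of_nonneg hc.1, abs_of_nonneg (sub_nonneg.2 hc.2)]
    have h2 : cw R X * |y₁ - z₁| ≤ |y₁ - z₁| := mul_le_of_le_one_left (abs_nonneg _) hc.2
    have h3 : (1 - cw R X) * |y₂ - z₂| ≤ |y₂ - z₂| :=
      mul_le_of_le_one_left (abs_nonneg _) (by linarith [hc.1])
    linarith
  have h4 : W * |cw R X * (y₁ - z₁) + (1 - cw R X) * (y₂ - z₂)|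
      ≤ W * (|y₁ - z₁| + |y₂ - z₂|) := mul_le_mul_of_nonneg_left h1 hW
  exact (mul_le_of_le_one_left (mul_nonneg hW (abs_nonneg _)) h.2).trans h4

theorem conv_abs (R X y₁ y₂ : ℝ) (h1 : y₁ ∈ Icc (-1/2 : ℝ) (1/2))
    (h2 : y₂ ∈ Icc (-1/2 : ℝ) (1/2)) : |cw R X * y₁ + (1 - cw R X) * y₂| ≤ 1 / 2 := by
  have hc := cw_mem R X
  obtain ⟨h11, h12⟩ := h1
  obtain ⟨h21, h22⟩ := h2
  rw [abs_le]
  constructor <;> nlinarith [hc.1, hc.2]

theorem blockInt_near {a b : ℝ} {N : ℝ → ℝ → ℝ} (ha : 0 < a) (hN : Good a b N)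
    (s T W R X δ y₁ y₂ : ℝ) (hT : 0 ≤ T) (hW : 0 ≤ W) (hδ : |δ| ≤ W / 2)
    (h1 : y₁ ∈ Icc (-1/2 : ℝ) (1/2)) (h2 : y₂ ∈ Icc (-1/2 : ℝ) (1/2)) :
    |blockInt N s T W R X δ y₁ y₂ - ∫ τ in s..(s + T), N X τ| ≤ b * T * W := by
  unfold blockInt
  refine hN.int_diff ha _ (fun _ => X) (curve_meas s T W R X δ y₁ y₂) measurable_const _ |X|
    (fun τ => curve_bdd s T W R X δ y₁ y₂ τ) (fun τ => le_rfl) _ _ _ hT ?_
  intro τ
  have h := bump_mem s T W τ
  rw [add_sub_cancel_left, abs_mul, abs_of_nonneg h.1]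
  have h3 : |W * (cw R X * y₁ + (1 - cw R X) * y₂) + δ| ≤ W := by
    refine (abs_add_le _ _).trans ?_
    rw [abs_mul, abs_of_nonneg hW]
    have := mul_le_mul_of_nonneg_left (conv_abs R X y₁ y₂ h1 h2) hW
    linarith
  exact (mul_le_of_le_one_left (abs_nonneg _) h.2).trans h3

theorem avg_near (F : ℝ → ℝ) (m c : ℝ) (hF : IntervalIntegrable F volume (-1/2) (1/2))
    (h : ∀ y ∈ Icc (-1/2 : ℝ) (1/2), |F y - m| ≤ c) :
    |(∫ y in (-1/2 : ℝ)..(1/2), F y) - m| ≤ c := by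
  have e : (∫ y in (-1/2 : ℝ)..(1/2), F y) - m = ∫ y in (-1/2 : ℝ)..(1/2), (F y - m) := by
    rw [intervalIntegral.integral_sub hF intervalIntegrable_const]
    simp
    norm_num
  rw [e]
  have h1 := intervalIntegral.norm_integral_le_of_norm_le_const (a := (-1/2 : ℝ)) (b := 1/2)
    (f := fun y => F y - m) (C := c) (fun y hy => by
      rw [uIoc_of_le (by norm_num)] at hy
      rw [Real.norm_eq_abs]
      exact h y ⟨hy.1.le, hy.2⟩)
  rw [Real.norm_eq_abs] at h1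
  refine h1.trans (le_of_eq ?_)
  norm_num

theorem lip_continuous (F : ℝ → ℝ) (c : ℝ) (h : ∀ x y, |F x - F y| ≤ c * |x - y|) :
    Continuous F := by
  have hc : 0 ≤ c := by
    have := h 1 0
    simp at this
    exact (abs_nonneg _).trans this
  exact (LipschitzWith.of_dist_le_mul (K := ⟨c, hc⟩) (fun x y => by
    rw [Real.dist_eq, Real.dist_eq]
    exact h x y)).continuous

theorem M_lip {a b : ℝ} {N : ℝ → ℝ → ℝ} (ha : 0 < a) (hN : Good a b N) (s T X Y : ℝ)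
    (hT : 0 ≤ T) :
    |(∫ τ in s..(s + T), N X τ) - ∫ τ in s..(s + T), N Y τ| ≤ b * T * |X - Y| :=
  hN.int_diff ha (fun _ => X) (fun _ => Y) measurable_const measurable_const |X| |Y|
    (fun _ => le_rfl) (fun _ => le_rfl) _ _ _ hT (fun _ => le_rfl)

theorem interp_near (w : ℝ) (hw : 0 < w) (M : ℝ → ℝ) (β : ℝ) (hβ : 0 ≤ β)
    (hM : ∀ X Y, |M X - M Y| ≤ β * |X - Y|)
    (X Y c : ℝ) (hY : |Y - X| ≤ c) : |interp w M Y - M X| ≤ β * (c + w) := by
  have hf0 := Int.fract_nonneg (Y / w)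
  have hf1 := (Int.fract_lt_one (Y / w)).le
  have e : (⌊Y / w⌋ : ℝ) * w = Y - Int.fract (Y / w) * w := by
    rw [Int.fract]
    field_simp
    ring
  have e1 : interp w M Y - M X = (1 - Int.fract (Y / w)) * (M (⌊Y / w⌋ * w) - M X)
      + Int.fract (Y / w) * (M ((⌊Y / w⌋ + 1) * w) - M X) := by
    unfold interp
    ring
  obtain ⟨hY1, hY2⟩ := abs_le.1 hY
  have hfw : Int.fract (Y / w) * w ≤ w := mul_le_of_le_one_left hw.le hf1
  have hfw0 : 0 ≤ Int.fract (Y / w) * w := mul_nonneg hf0 hw.le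
  have h1 : |M (⌊Y / w⌋ * w) - M X| ≤ β * (c + w) := by
    refine (hM _ _).trans (mul_le_mul_of_nonneg_left ?_ hβ)
    rw [e, abs_le]
    constructor <;> linarith
  have h2 : |M ((⌊Y / w⌋ + 1) * w) - M X| ≤ β * (c + w) := by
    refine (hM _ _).trans (mul_le_mul_of_nonneg_left ?_ hβ)
    rw [add_mul, e, abs_le]
    constructor <;> linarith
  rw [e1]
  refine (abs_add_le _ _).trans ?_
  rw [abs_mul, abs_mul, abs_of_nonneg hf0, abs_of_nonneg (sub_nonneg.2 hf1)]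
  have h3 := mul_le_mul_of_nonneg_left h1 (sub_nonneg.2 hf1)
  have h4 := mul_le_mul_of_nonneg_left h2 hf0
  calc _ ≤ (1 - Int.fract (Y / w)) * (β * (c + w)) + Int.fract (Y / w) * (β * (c + w)) := by
        linarith
    _ = _ := by ring

theorem ii_of_bdd (F : ℝ → ℝ) (hF : Measurable F) (C : ℝ)
    (h : ∀ y ∈ Icc (-1/2 : ℝ) (1/2), |F y| ≤ C) : IntervalIntegrable F volume (-1/2) (1/2) := by
  rw [intervalIntegrable_iff_integrableOn_Ioc_of_le (by norm_num)]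
  refine Measure.integrableOn_of_bounded (M := C) (by simp) hF.aestronglyMeasurable ?_
  refine (ae_restrict_iff' measurableSet_Ioc).2 (Filter.Eventually.of_forall fun y hy => ?_)
  rw [Real.norm_eq_abs]
  exact h y ⟨hy.1.le, hy.2⟩

theorem interp_measurable (w : ℝ) (M : ℝ → ℝ) (hM : Measurable M) : Measurable (interp w M) := by
  have h1 : Measurable fun X : ℝ => Int.fract (X / w) :=
    measurable_fract.comp (measurable_id.div_const w)
  have h2 : Measurable fun X : ℝ => ((⌊X / w⌋ : ℤ) : ℝ) :=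
    (measurable_of_countable (fun n : ℤ => (n : ℝ))).comp
      (Int.measurable_floor.comp (measurable_id.div_const w))
  unfold interp
  exact ((h1.const_sub 1).mul (hM.comp (h2.mul_const w))).add
    (h1.mul (hM.comp ((h2.add_const 1).mul_const w)))

theorem smooth_near (w W R : ℝ) (hw : 0 < w) (hW : 4 * w ≤ W) (M : ℝ → ℝ) (β : ℝ) (hβ : 0 ≤ β)
    (hM : ∀ X Y, |M X - M Y| ≤ β * |X - Y|) (X : ℝ) :
    |smooth W R (interp w M) X - M X| ≤ β * W := by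
  have hW0 : 0 ≤ W := by linarith
  have hMc : Continuous M := lip_continuous M β hM
  have hJ : Measurable (interp w M) := interp_measurable w M hMc.measurable
  have hpt : ∀ y₁ ∈ Icc (-1/2 : ℝ) (1/2), ∀ y₂ ∈ Icc (-1/2 : ℝ) (1/2),
      |interp w M (X + W * (cw R X * y₁ + (1 - cw R X) * y₂)) - M X| ≤ β * W := by
    intro y₁ h1 y₂ h2
    have h3 := conv_abs R X y₁ y₂ h1 h2
    have h4 : |X + W * (cw R X * y₁ + (1 - cw R X) * y₂) - X| ≤ W * (1 / 2) := by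
      rw [add_sub_cancel_left, abs_mul, abs_of_nonneg hW0]
      exact mul_le_mul_of_nonneg_left h3 hW0
    refine (interp_near w hw M β hβ hM X _ _ h4).trans (mul_le_mul_of_nonneg_left ?_ hβ)
    linarith
  have hbd : ∀ x : ℝ, |x - M X| ≤ β * W → |x| ≤ |M X| + β * W := by
    intro x hx
    have := abs_sub_abs_le_abs_sub x (M X)
    linarith
  have hin : ∀ y₁ ∈ Icc (-1/2 : ℝ) (1/2),
      |(∫ y₂ in (-1/2 : ℝ)..(1/2), interp w M (X + W * (cw R X * y₁ + (1 - cw R X) * y₂)))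
        - M X| ≤ β * W := by
    intro y₁ h1
    refine avg_near _ _ _ (ii_of_bdd _ ?_ (|M X| + β * W) ?_) (fun y₂ h2 => hpt y₁ h1 y₂ h2)
    · exact hJ.comp (by fun_prop)
    · exact fun y₂ h2 => hbd _ (hpt y₁ h1 y₂ h2)
  unfold smooth
  refine avg_near _ _ _ (ii_of_bdd _ ?_ (|M X| + β * W) ?_) hin
  · simp only [intervalIntegral.integral_of_le (show (-1/2 : ℝ) ≤ 1/2 by norm_num)]
    have hm : Measurable (fun p : ℝ × ℝ =>
        interp w M (X + W * (cw R X * p.1 + (1 - cw R X) * p.2))) :=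
      hJ.comp (by fun_prop)
    exact (hm.stronglyMeasurable.integral_prod_right'
      (ν := volume.restrict (Ioc (-1/2 : ℝ) (1/2)))).measurable
  · exact fun y₁ h1 => hbd _ (hin y₁ h1)

theorem stage (K : ℕ) (ρ : ℝ) (r : ℕ → ℤ → ℝ → ℝ) (cell : ℤ → ℤ) (o : ℤ)
    (hcell : ∀ j, ∃ k : Fin K, j = K * cell j - o + (k : ℕ))
    (hc : ∀ i j, Continuous (r i j))
    (h0 : ∀ i j, ∫ y in (-1/2 : ℝ)..(1/2), r i j y = 0)
    (hb : ∀ i j, ∀ y ∈ Icc (-1/2 : ℝ) (1/2), |r i j y| ≤ ρ) :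
    ∃ y : ℕ → ℤ → ℝ, (∀ i p, y i p ∈ Icc (-1/2 : ℝ) (1/2)) ∧
      ∀ n j, |∑ i ∈ Finset.range n, r i j (y i (cell j))| ≤ 2 * (K + 1) * ρ := by
  have h : ∀ p : ℤ, ∃ y : ℕ → ℝ, (∀ i, y i ∈ Icc (-1/2 : ℝ) (1/2)) ∧
      ∀ n (k : Fin K), |∑ i ∈ Finset.range n, r i (K * p - o + (k : ℕ)) (y i)|
        ≤ 2 * (K + 1) * ρ := by
    intro p
    exact selection K ρ (fun i y k => r i (K * p - o + (k : ℕ)) y)
      (fun i => continuous_pi fun k => hc i _) (fun i k => h0 i _) (fun i y hy k => hb i _ y hy)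
  choose y hy1 hy2 using h
  refine ⟨fun i p => y p i, fun i p => hy1 p i, fun n j => ?_⟩
  obtain ⟨k, hk⟩ := hcell j
  have := hy2 (cell j) n k
  rwa [← hk] at this

theorem ch_floor_cell (K : ℕ) (hK : 0 < K) (j o : ℤ) :
    ∃ k : Fin K, j = K * ⌊((j : ℝ) + o) / K⌋ - o + (k : ℕ) := by
  have hK' : (0 : ℝ) < K := by exact_mod_cast hK
  set p := ⌊((j : ℝ) + o) / K⌋ with hp
  have h1 : (p : ℝ) ≤ ((j : ℝ) + o) / K := Int.floor_le _
  have h2 : ((j : ℝ) + o) / K < p + 1 := Int.lt_floor_add_one _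
  rw [le_div_iff₀ hK'] at h1
  rw [div_lt_iff₀ hK'] at h2
  have h1' : p * K ≤ j + o := by exact_mod_cast h1
  have h2' : j + o < (p + 1) * K := by exact_mod_cast h2
  have h3 : 0 ≤ j + o - p * K := by linarith
  refine ⟨⟨(j + o - p * K).toNat, ?_⟩, ?_⟩
  · have : ((j + o - p * K).toNat : ℤ) < K := by
      rw [Int.toNat_of_nonneg h3]
      linarith
    exact_mod_cast this
  · simp only
    rw [Int.toNat_of_nonneg h3]
    ring

theorem pe_grid (L : ℕ) (hL : 4 ≤ L) (w : ℝ) (hw : 0 < w) (j : ℤ) :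
    pe ((L : ℝ) ^ 2 * w) (j * (w / 2)) = ⌊((j : ℝ) + ((2 * L ^ 2 : ℕ) : ℤ)) / (4 * L ^ 2 : ℕ)⌋ := by
  unfold pe
  have hL' : (0 : ℝ) < L := by
    have : 0 < L := by omega
    exact_mod_cast this
  congr 1
  push_cast
  field_simp
  ring

theorem po_grid (L : ℕ) (hL : 4 ≤ L) (w : ℝ) (hw : 0 < w) (j : ℤ) :
    po ((L : ℝ) ^ 2 * w) (j * (w / 2)) = ⌊((j : ℝ) + (0 : ℤ)) / (4 * L ^ 2 : ℕ)⌋ := by
  unfold po
  have hL' : (0 : ℝ) < L := by
    have : 0 < L := by omega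
    exact_mod_cast this
  congr 1
  push_cast
  field_simp
  ring

theorem core (a b : ℝ) (ha : 0 < a) (N : ℝ → ℝ → ℝ) (hN : Good a b N)
    (K : ℕ) (T W : ℝ) (hT : 0 ≤ T) (hW : 0 ≤ W) (δ : ℕ → ℝ → ℝ)
    (hδb : ∀ i X, |δ i X| ≤ W / 2) (Z : ℕ → ℝ → ℝ)
    (hZ : ∀ (i : ℕ) X, |Z i X - ∫ τ in (i * T)..(i * T + T), N X τ| ≤ b * T * W)
    (hδ : ∀ (i : ℕ) (X : ℝ), (∫ y₁ in (-1/2 : ℝ)..(1/2), ∫ y₂ in (-1/2 : ℝ)..(1/2),
          blockInt N (i * T) T W T X (δ i X) y₁ y₂) = Z i X)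
    (g : ℤ → ℝ) (ce co : ℤ → ℤ) (oe oo : ℤ)
    (hce : ∀ j, ∃ k : Fin K, j = K * ce j - oe + (k : ℕ))
    (hco : ∀ j, ∃ k : Fin K, j = K * co j - oo + (k : ℕ)) :
    ∃ ye yo : ℕ → ℤ → ℝ, (∀ i p, ye i p ∈ Icc (-1/2 : ℝ) (1/2)) ∧
      (∀ i p, yo i p ∈ Icc (-1/2 : ℝ) (1/2)) ∧
      ∀ (n : ℕ) (j : ℤ), |∑ i ∈ Finset.range n,
        (blockInt N (i * T) T W T (g j) (δ i (g j)) (ye i (ce j)) (yo i (co j))
          - Z i (g j))| ≤ 2 * (2 * (K + 1) * (2 * (b * T * W))) := by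
  have hb := hN.b_pos ha
  -- the block integrals
  obtain ⟨A, hA⟩ : ∃ A : ℕ → ℝ → ℝ → ℝ → ℝ,
      A = fun (i : ℕ) X y₁ y₂ => blockInt N (i * T) T W T X (δ i X) y₁ y₂ := ⟨_, rfl⟩
  obtain ⟨m, hm⟩ : ∃ m : ℕ → ℝ → ℝ, m = fun (i : ℕ) X => ∫ τ in (i * T)..(i * T + T), N X τ :=
    ⟨_, rfl⟩
  have hlip : ∀ i X y₁ y₂ z₁ z₂, |A i X y₁ y₂ - A i X z₁ z₂|
      ≤ b * T * W * (|y₁ - z₁| + |y₂ - z₂|) := by
    intro i X y₁ y₂ z₁ z₂
    rw [hA]
    have := blockInt_lip ha hN (i * T) T W T X (δ i X) y₁ y₂ z₁ z₂ hT hW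
    linarith
  have hnear : ∀ i X, ∀ y₁ ∈ Icc (-1/2 : ℝ) (1/2), ∀ y₂ ∈ Icc (-1/2 : ℝ) (1/2),
      |A i X y₁ y₂ - m i X| ≤ b * T * W := by
    intro i X y₁ h1 y₂ h2
    rw [hA, hm]
    exact blockInt_near ha hN (i * T) T W T X (δ i X) y₁ y₂ hT hW (hδb i X) h1 h2
  have hcont2 : ∀ i X y₁, Continuous (A i X y₁) := fun i X y₁ =>
    lip_continuous _ (b * T * W) fun x y => by
      have := hlip i X y₁ x y₁ y
      simpa using this
  have hii : ∀ i X y₁, IntervalIntegrable (A i X y₁) volume (-1/2) (1/2) := fun i X y₁ =>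
    (hcont2 i X y₁).intervalIntegrable _ _
  -- averages over the second variable
  obtain ⟨Q, hQ⟩ : ∃ Q : ℕ → ℝ → ℝ → ℝ,
      Q = fun i X y₁ => ∫ y₂ in (-1/2 : ℝ)..(1/2), A i X y₁ y₂ := ⟨_, rfl⟩
  have hQn : ∀ i X, ∀ y₁ ∈ Icc (-1/2 : ℝ) (1/2), |Q i X y₁ - m i X| ≤ b * T * W := by
    intro i X y₁ h1
    rw [hQ]
    exact avg_near _ _ _ (hii i X y₁) (fun y₂ h2 => hnear i X y₁ h1 y₂ h2)
  have hQc : ∀ i X, Continuous (Q i X) := fun i X =>
    lip_continuous _ (b * T * W) fun x y => by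
      rw [hQ]
      simp only
      rw [← intervalIntegral.integral_sub (hii i X x) (hii i X y)]
      have h1 := intervalIntegral.norm_integral_le_of_norm_le_const (a := (-1/2 : ℝ)) (b := 1/2)
        (f := fun y₂ => A i X x y₂ - A i X y y₂) (C := b * T * W * |x - y|) (fun y₂ _ => by
          rw [Real.norm_eq_abs]
          have := hlip i X x y₂ y y₂
          simpa using this)
      rw [Real.norm_eq_abs] at h1
      refine h1.trans (le_of_eq ?_)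
      norm_num
  have hZ' : ∀ i X, |Z i X - m i X| ≤ b * T * W := fun i X => by rw [hm]; exact hZ i X
  have hQ0 : ∀ i X, (∫ y in (-1/2 : ℝ)..(1/2), (Q i X y - Z i X)) = 0 := by
    intro i X
    rw [intervalIntegral.integral_sub ((hQc i X).intervalIntegrable _ _)
      intervalIntegrable_const]
    have := hδ i X
    have e : (∫ y in (-1/2 : ℝ)..(1/2), Q i X y) = Z i X := by
      rw [← this, hQ, hA]
    rw [e]
    simp
    norm_num
  -- even stage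
  obtain ⟨ye, hye, hye2⟩ := stage K (2 * (b * T * W)) (fun i j y => Q i (g j) y - Z i (g j))
    ce oe hce (fun i j => (hQc i (g j)).sub continuous_const) (fun i j => hQ0 i (g j))
    (fun i j y hy => by
      have h1 := hQn i (g j) y hy
      have h2 := hZ' i (g j)
      rw [abs_le] at h1 h2 ⊢
      constructor <;> linarith [h1.1, h1.2, h2.1, h2.2])
  -- odd stage
  obtain ⟨yo, hyo, hyo2⟩ := stage K (2 * (b * T * W))
    (fun i j y => A i (g j) (ye i (ce j)) y - Q i (g j) (ye i (ce j)))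
    co oo hco (fun i j => (hcont2 i (g j) _).sub continuous_const)
    (fun i j => by
      rw [intervalIntegral.integral_sub (hii i (g j) _) intervalIntegrable_const]
      have e : (∫ y in (-1/2 : ℝ)..(1/2), A i (g j) (ye i (ce j)) y)
          = Q i (g j) (ye i (ce j)) := by rw [hQ]
      rw [e]
      simp
      norm_num)
    (fun i j y hy => by
      have h1 := hnear i (g j) _ (hye i (ce j)) y hy
      have h2 := hQn i (g j) _ (hye i (ce j))
      rw [abs_le] at h1 h2 ⊢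
      constructor <;> linarith [h1.1, h1.2, h2.1, h2.2])
  refine ⟨ye, yo, hye, hyo, fun n j => ?_⟩
  have h1 := hye2 n j
  have h2 := hyo2 n j
  have e : ∑ i ∈ Finset.range n,
        (blockInt N (i * T) T W T (g j) (δ i (g j)) (ye i (ce j)) (yo i (co j))
          - Z i (g j))
      = ∑ i ∈ Finset.range n, (Q i (g j) (ye i (ce j)) - Z i (g j))
        + ∑ i ∈ Finset.range n, (A i (g j) (ye i (ce j)) (yo i (co j))
          - Q i (g j) (ye i (ce j))) := by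
    rw [← Finset.sum_add_distrib]
    refine Finset.sum_congr rfl fun i _ => ?_
    rw [hA]
    ring
  rw [e]
  refine (abs_add_le _ _).trans ?_
  linarith

theorem choose_shifts (a b : ℝ) (ha : 0 < a) (N : ℝ → ℝ → ℝ) (hN : Good a b N)
    (L : ℕ) (hL : 4 ≤ L) (w : ℝ) (hw : 0 < w) (δ : ℕ → ℝ → ℝ)
    (hδb : ∀ i X, |δ i X| ≤ L * w / 2)
    (hδ : ∀ (i : ℕ) (X : ℝ), (∫ y₁ in (-1/2 : ℝ)..(1/2), ∫ y₂ in (-1/2 : ℝ)..(1/2),
          blockInt N (i * ((L : ℝ) ^ 2 * w)) ((L : ℝ) ^ 2 * w) (L * w) ((L : ℝ) ^ 2 * w) X (δ i X)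
            y₁ y₂)
        = smooth (L * w) ((L : ℝ) ^ 2 * w)
            (interp w (fun Y => ∫ τ in (i * ((L : ℝ) ^ 2 * w))..(i * ((L : ℝ) ^ 2 * w)
              + (L : ℝ) ^ 2 * w), N Y τ)) X) :
    ∃ ye yo : ℕ → ℤ → ℝ, (∀ i p, ye i p ∈ Icc (-1/2 : ℝ) (1/2)) ∧
      (∀ i p, yo i p ∈ Icc (-1/2 : ℝ) (1/2)) ∧
      ∀ (n : ℕ) (j : ℤ), |∑ i ∈ Finset.range n,
        (blockInt N (i * ((L : ℝ) ^ 2 * w)) ((L : ℝ) ^ 2 * w) (L * w) ((L : ℝ) ^ 2 * w)
            (j * (w / 2)) (δ i (j * (w / 2)))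
            (ye i (pe ((L : ℝ) ^ 2 * w) (j * (w / 2)))) (yo i (po ((L : ℝ) ^ 2 * w) (j * (w / 2))))
          - smooth (L * w) ((L : ℝ) ^ 2 * w)
            (interp w (fun Y => ∫ τ in (i * ((L : ℝ) ^ 2 * w))..(i * ((L : ℝ) ^ 2 * w)
              + (L : ℝ) ^ 2 * w), N Y τ)) (j * (w / 2)))| ≤ 40 * b * (L : ℝ) ^ 5 * w ^ 2 := by
  have hb := hN.b_pos ha
  have hLr : (4 : ℝ) ≤ L := by exact_mod_cast hL
  have hL0 : (0 : ℝ) < L := by linarith
  have hT0 : 0 ≤ (L : ℝ) ^ 2 * w := by positivity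
  have hW0 : 0 ≤ (L : ℝ) * w := by positivity
  have hW4 : 4 * w ≤ (L : ℝ) * w := mul_le_mul_of_nonneg_right hLr hw.le
  have hK : 0 < 4 * L ^ 2 := by positivity
  obtain ⟨ye, yo, h1, h2, h3⟩ := core a b ha N hN (4 * L ^ 2) ((L : ℝ) ^ 2 * w) ((L : ℝ) * w)
    hT0 hW0 δ hδb
    (fun i X => smooth (L * w) ((L : ℝ) ^ 2 * w)
      (interp w (fun Y => ∫ τ in (i * ((L : ℝ) ^ 2 * w))..(i * ((L : ℝ) ^ 2 * w)
        + (L : ℝ) ^ 2 * w), N Y τ)) X)
    (fun i X => smooth_near w _ _ hw hW4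
      (fun Y => ∫ τ in (i * ((L : ℝ) ^ 2 * w))..(i * ((L : ℝ) ^ 2 * w)
        + (L : ℝ) ^ 2 * w), N Y τ) (b * ((L : ℝ) ^ 2 * w)) (by positivity)
      (fun X Y => M_lip ha hN _ _ X Y hT0) X)
    hδ (fun j => (j : ℝ) * (w / 2))
    (fun j => pe ((L : ℝ) ^ 2 * w) (j * (w / 2))) (fun j => po ((L : ℝ) ^ 2 * w) (j * (w / 2)))
    ((2 * L ^ 2 : ℕ) : ℤ) 0
    (fun j => by
      simp only [pe_grid L hL w hw]
      exact ch_floor_cell (4 * L ^ 2) hK j _)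
    (fun j => by
      simp only [po_grid L hL w hw]
      exact ch_floor_cell (4 * L ^ 2) hK j _)
  refine ⟨ye, yo, h1, h2, fun n j => (h3 n j).trans ?_⟩
  push_cast
  have h5 : (L : ℝ) ^ 3 ≤ (L : ℝ) ^ 5 := pow_le_pow_right₀ (by linarith) (by norm_num)
  have h6 : 0 ≤ 8 * b * w ^ 2 := by positivity
  have h7 := mul_le_mul_of_nonneg_left h5 h6
  calc _ = 32 * b * (L : ℝ) ^ 5 * w ^ 2 + 8 * b * w ^ 2 * (L : ℝ) ^ 3 := by ring
    _ ≤ 32 * b * (L : ℝ) ^ 5 * w ^ 2 + 8 * b * w ^ 2 * (L : ℝ) ^ 5 := by linarith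
    _ = _ := by ring

end Pool.Agent.helper312_fol
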