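import Pool.Agent.helper312_fol.Defs

set_option autoImplicit false

open Set MeasureTheory

namespace Pool.Agent.helper312_fol

/-- double average over the unit square centred at the origin -/
noncomputable def E2 (F : ℝ → ℝ → ℝ) : ℝ :=
  ∫ y₁ in (-1/2 : ℝ)..(1/2), ∫ y₂ in (-1/2 : ℝ)..(1/2), F y₁ y₂

lemma E2_inner_cont {F : ℝ → ℝ → ℝ} (hF : Continuous (Function.uncurry F)) :
    Continuous (fun y₁ => ∫ y₂ in (-1/2 : ℝ)..(1/2), F y₁ y₂) :=
  intervalIntegral.continuous_parametric_intervalIntegral_of_continuous' hF _ _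

lemma E2_add {F G : ℝ → ℝ → ℝ} (hF : Continuous (Function.uncurry F))
    (hG : Continuous (Function.uncurry G)) :
    E2 (fun a b => F a b + G a b) = E2 F + E2 G := by
  unfold E2
  rw [← intervalIntegral.integral_add ((E2_inner_cont hF).intervalIntegrable _ _)
    ((E2_inner_cont hG).intervalIntegrable _ _)]
  apply intervalIntegral.integral_congr
  intro a _
  exact intervalIntegral.integral_add ((hF.uncurry_left a).intervalIntegrable _ _)
    ((hG.uncurry_left a).intervalIntegrable _ _)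

lemma E2_const_mul (c : ℝ) (F : ℝ → ℝ → ℝ) :
    E2 (fun a b => c * F a b) = c * E2 F := by
  unfold E2
  simp only [intervalIntegral.integral_const_mul]

lemma E2_sub {F G : ℝ → ℝ → ℝ} (hF : Continuous (Function.uncurry F))
    (hG : Continuous (Function.uncurry G)) :
    E2 (fun a b => F a b - G a b) = E2 F - E2 G := by
  unfold E2
  rw [← intervalIntegral.integral_sub ((E2_inner_cont hF).intervalIntegrable _ _)
    ((E2_inner_cont hG).intervalIntegrable _ _)]
  apply intervalIntegral.integral_congr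
  intro a _
  exact intervalIntegral.integral_sub ((hF.uncurry_left a).intervalIntegrable _ _)
    ((hG.uncurry_left a).intervalIntegrable _ _)

lemma E2_const (c : ℝ) : E2 (fun _ _ => c) = c := by
  unfold E2
  simp only [intervalIntegral.integral_const, smul_eq_mul]
  ring

lemma E2_neg (F : ℝ → ℝ → ℝ) : E2 (fun a b => F (-a) (-b)) = E2 F := by
  unfold E2
  have h1 : ∀ a : ℝ, (∫ b in (-1/2 : ℝ)..(1/2), F (-a) (-b)) = ∫ b in (-1/2 : ℝ)..(1/2), F (-a) b := by
    intro a
    rw [intervalIntegral.integral_comp_neg (fun b => F (-a) b)]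
    norm_num
  simp only [h1]
  rw [intervalIntegral.integral_comp_neg (fun a => ∫ b in (-1/2 : ℝ)..(1/2), F a b)]
  norm_num

lemma E2_swap {F : ℝ → ℝ → ℝ} (hF : Continuous (Function.uncurry F)) :
    E2 F = E2 (fun a b => F b a) := by
  unfold E2
  apply MeasureTheory.intervalIntegral_intervalIntegral_swap
  have h1 : IntegrableOn (Function.uncurry F) (Icc (-1/2 : ℝ) (1/2) ×ˢ Icc (-1/2 : ℝ) (1/2)) :=
    hF.continuousOn.integrableOn_compact (isCompact_Icc.prod isCompact_Icc)
  apply h1.mono_set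
  rw [uIoc_of_le (by norm_num)]
  exact Set.prod_mono Ioc_subset_Icc_self Ioc_subset_Icc_self

lemma int_bound {f : ℝ → ℝ} {C : ℝ} (h : ∀ a ∈ Icc (-1/2 : ℝ) (1/2), |f a| ≤ C) :
    |∫ a in (-1/2 : ℝ)..(1/2), f a| ≤ C := by
  have := intervalIntegral.norm_integral_le_of_norm_le_const (a := (-1/2 : ℝ)) (b := 1/2)
    (f := f) (C := C) (fun x hx => by
      rw [uIoc_of_le (by norm_num)] at hx
      exact h x ⟨hx.1.le, hx.2⟩)
  rw [show |(1/2 : ℝ) - (-1/2)| = 1 by norm_num, mul_one] at this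
  exact this

lemma E2_bound {F : ℝ → ℝ → ℝ} {C : ℝ}
    (h : ∀ a ∈ Icc (-1/2 : ℝ) (1/2), ∀ b ∈ Icc (-1/2 : ℝ) (1/2), |F a b| ≤ C) :
    |E2 F| ≤ C :=
  int_bound fun a ha => int_bound fun b hb => h a ha b hb

/-- symmetrization -/
lemma E2_symm_bound {F : ℝ → ℝ → ℝ} (hF : Continuous (Function.uncurry F)) {C : ℝ}
    (h : ∀ a ∈ Icc (-1/2 : ℝ) (1/2), ∀ b ∈ Icc (-1/2 : ℝ) (1/2), |F a b + F (-a) (-b)| ≤ 2 * C) :
    |E2 F| ≤ C := by
  have hF' : Continuous (Function.uncurry (fun a b => F (-a) (-b))) := by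
    have : Function.uncurry (fun a b => F (-a) (-b)) = Function.uncurry F ∘ (fun p : ℝ × ℝ => (-p.1, -p.2)) := by
      ext p; rfl
    rw [this]
    exact hF.comp (by fun_prop)
  have h1 := E2_add hF hF'
  rw [E2_neg] at h1
  have h2 := E2_bound h
  rw [h1] at h2
  rw [← two_mul, abs_mul, abs_two] at h2
  linarith

/-! ### The one-dimensional average of a second difference -/

lemma int_second_diff {B w : ℝ} {J : ℝ → ℝ} (hJc : Continuous J)
    (hJ : MixedDiff B w J) {h : ℝ} (hh : 0 < h) (c : ℝ) {l : ℝ} (hl : 0 < l) :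
    |∫ z in c..(c + l), (J (z + h) - 2 * J z + J (z - h))| ≤ B * h ^ 2 * (l + w) := by
  set g : ℝ → ℝ := fun z => J (z + h) - J z with hg
  have hgc : Continuous g := by fun_prop
  have hgi : ∀ a b, IntervalIntegrable g volume a b := fun a b => hgc.intervalIntegrable _ _
  have h1 : (∫ z in c..(c + l), (J (z + h) - 2 * J z + J (z - h)))
      = (∫ z in c..(c + l), g z) - ∫ z in c..(c + l), g (z - h) := by
    rw [← intervalIntegral.integral_sub (hgi _ _)
      ((show Continuous (fun z => g (z - h)) by fun_prop).intervalIntegrable _ _)]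
    apply intervalIntegral.integral_congr
    intro z _
    simp only [hg, sub_add_cancel]
    ring
  have h2 : (∫ z in c..(c + l), g (z - h)) = ∫ z in (c - h)..(c + l - h), g z := by
    rw [intervalIntegral.integral_comp_sub_right]
  have h3 : (∫ z in c..(c + l), g z) - (∫ z in (c - h)..(c + l - h), g z)
      = (∫ z in (c + l - h)..(c + l), g z) - ∫ z in (c - h)..c, g z := by
    have e1 := intervalIntegral.integral_add_adjacent_intervals (hgi c (c + l - h)) (hgi (c + l - h) (c + l))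
    have e2 := intervalIntegral.integral_add_adjacent_intervals (hgi (c - h) c) (hgi c (c + l - h))
    linarith
  have h4 : (∫ z in (c + l - h)..(c + l), g z) = ∫ s in (0 : ℝ)..h, g (s + (c + l - h)) := by
    rw [intervalIntegral.integral_comp_add_right]; congr 1 <;> ring
  have h5 : (∫ z in (c - h)..c, g z) = ∫ s in (0 : ℝ)..h, g (s + (c - h)) := by
    rw [intervalIntegral.integral_comp_add_right]; congr 1 <;> ring
  rw [h1, h2, h3, h4, h5, ← intervalIntegral.integral_sub
    ((show Continuous (fun z => g (z + (c + l - h))) by fun_prop).intervalIntegrable _ _)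
    ((show Continuous (fun z => g (z + (c - h))) by fun_prop).intervalIntegrable _ _)]
  have h6 := intervalIntegral.norm_integral_le_of_norm_le_const (a := (0 : ℝ)) (b := h)
    (f := fun s => g (s + (c + l - h)) - g (s + (c - h))) (C := B * h * (l + w)) (fun s _ => by
      have := hJ (s + (c + l - h)) (s + (c - h)) h
      have e : s + (c + l - h) - (s + (c - h)) = l := by ring
      rw [abs_of_pos hh, e, abs_of_pos hl] at this
      exact this)
  rw [sub_zero, abs_of_pos hh] at h6
  calc _ ≤ B * h * (l + w) * h := h6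
    _ = B * h ^ 2 * (l + w) := by ring

/-- average of a second difference over a window of length `l` -/
lemma avg_second_diff {B w : ℝ} {J : ℝ → ℝ} (hJc : Continuous J)
    (hJ : MixedDiff B w J) {h : ℝ} (hh : 0 < h) (c : ℝ) {l : ℝ} (hl : 0 < l) :
    |∫ y in (-1/2 : ℝ)..(1/2), (J (c + l * y + h) - 2 * J (c + l * y) + J (c + l * y - h))|
      ≤ B * h ^ 2 * (1 + w / l) := by
  have h1 := intervalIntegral.integral_comp_add_mul (a := (-1/2 : ℝ)) (b := 1/2)
    (fun z => J (z + h) - 2 * J z + J (z - h)) hl.ne' c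
  have h2 := int_second_diff hJc hJ hh (c + l * (-1/2)) hl
  have e : c + l * (-1/2) + l = c + l * (1/2) := by ring
  rw [e] at h2
  rw [h1, smul_eq_mul, abs_mul, abs_of_pos (inv_pos.mpr hl)]
  calc l⁻¹ * _ ≤ l⁻¹ * (B * h ^ 2 * (l + w)) := by
        apply mul_le_mul_of_nonneg_left h2 (inv_pos.mpr hl).le
    _ = B * h ^ 2 * (1 + w / l) := by field_simp

/-! ### The shift -/

lemma cw_nonneg (R X : ℝ) : 0 ≤ cw R X := by
  unfold cw
  have := Real.neg_one_le_cos (Real.pi * X / R)
  linarith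

lemma cw_le_one (R X : ℝ) : cw R X ≤ 1 := by
  unfold cw
  have := Real.cos_le_one (Real.pi * X / R)
  linarith

lemma shift_bound {W S a b : ℝ} (hW : 0 ≤ W) (hS0 : 0 ≤ S) (hS1 : S ≤ 1)
    (ha : a ∈ Icc (-1/2 : ℝ) (1/2)) (hb : b ∈ Icc (-1/2 : ℝ) (1/2)) :
    |W * (S * a + (1 - S) * b)| ≤ W / 2 := by
  obtain ⟨ha1, ha2⟩ := ha
  obtain ⟨hb1, hb2⟩ := hb
  have h : |S * a + (1 - S) * b| ≤ 1/2 := by
    rw [abs_le]
    constructor <;> nlinarith
  rw [abs_mul, abs_of_nonneg hW]
  nlinarith

lemma smooth_eq (W R : ℝ) (J : ℝ → ℝ) (X : ℝ) :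
    smooth W R J X = E2 (fun a b => J (X + W * (cw R X * a + (1 - cw R X) * b))) := rfl

lemma smooth_close' {w W R B : ℝ} (hw : 0 < w) (hwW : w ≤ W) (hB : 0 ≤ B) {J : ℝ → ℝ}
    (hJc : Continuous J) (hJ : MixedDiff B w J) (X : ℝ) :
    |smooth W R J X - J X| ≤ B * W ^ 2 := by
  have hW : 0 < W := lt_of_lt_of_le hw hwW
  set S := cw R X with hS
  have hS0 : 0 ≤ S := cw_nonneg R X
  have hS1 : S ≤ 1 := cw_le_one R X
  have h1 : smooth W R J X - J X
      = E2 (fun a b => J (X + W * (S * a + (1 - S) * b)) - J X) := by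
    rw [E2_sub (F := fun a b => J (X + W * (S * a + (1 - S) * b))) (G := fun _ _ => J X)
      (by simp only [Function.uncurry_def]; fun_prop)
      (by simp only [Function.uncurry_def]; fun_prop), E2_const, smooth_eq]
  rw [h1]
  apply E2_symm_bound (by simp only [Function.uncurry_def]; fun_prop)
  intro a ha b hb
  have hv := shift_bound hW.le hS0 hS1 ha hb
  set v := W * (S * a + (1 - S) * b) with hvdef
  have e1 : W * (S * -a + (1 - S) * -b) = -v := by rw [hvdef]; ring
  rw [e1]
  have h2 := hJ X (X - v) v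
  rw [sub_add_cancel, show X - (X - v) = v by ring] at h2
  have e2 : J (X + v) - J X + (J (X + -v) - J X) = J (X + v) - J X - (J X - J (X - v)) := by
    rw [← sub_eq_add_neg]; ring
  rw [e2]
  refine h2.trans ?_
  have h3 : |v| * (|v| + w) ≤ (W / 2) * (W / 2 + W) := by
    apply mul_le_mul hv (by linarith) (by positivity) (by positivity)
  calc B * |v| * (|v| + w) = B * (|v| * (|v| + w)) := by ring
    _ ≤ B * ((W / 2) * (W / 2 + W)) := mul_le_mul_of_nonneg_left h3 hB
    _ ≤ 2 * (B * W ^ 2) := by nlinarith [mul_nonneg hB (sq_nonneg W)]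

/-- first term -/
lemma T1_bound {w W S B : ℝ} (hw : 0 < w) (hW : 0 < W) (hB : 0 ≤ B)
    {J : ℝ → ℝ} (hJc : Continuous J) (hJ : MixedDiff B w J) (X : ℝ) {h : ℝ} (hh : 0 < h) :
    |E2 (fun a b => J (X + W * (S * a + (1 - S) * b) + h) - 2 * J (X + W * (S * a + (1 - S) * b))
      + J (X + W * (S * a + (1 - S) * b) - h))| ≤ B * h ^ 2 * (1 + 2 * w / W) := by
  have hBh : 0 ≤ B * h ^ 2 := by positivity
  rcases le_total (1/2) S with h2 | h2
  · rw [E2_swap (by simp only [Function.uncurry_def]; fun_prop)]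
    apply int_bound
    intro b _
    have hl : 0 < W * S := by positivity
    have h3 := avg_second_diff hJc hJ hh (X + W * ((1 - S) * b)) hl
    have h4 : w / (W * S) ≤ 2 * w / W := by
      rw [div_le_div_iff₀ hl hW]
      nlinarith [mul_pos hw hW]
    have e : ∀ a : ℝ, X + W * ((1 - S) * b) + W * S * a = X + W * (S * a + (1 - S) * b) := by
      intro a; ring
    simp only [e] at h3
    refine h3.trans ?_
    apply mul_le_mul_of_nonneg_left _ hBh
    linarith
  · apply int_bound
    intro a _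
    have hS' : 1/2 ≤ 1 - S := by linarith
    have hl : 0 < W * (1 - S) := by
      apply mul_pos hW; linarith
    have h3 := avg_second_diff hJc hJ hh (X + W * (S * a)) hl
    have h4 : w / (W * (1 - S)) ≤ 2 * w / W := by
      rw [div_le_div_iff₀ hl hW]
      nlinarith [mul_pos hw hW]
    have e : ∀ b : ℝ, X + W * (S * a) + W * (1 - S) * b = X + W * (S * a + (1 - S) * b) := by
      intro b; ring
    simp only [e] at h3
    refine h3.trans ?_
    apply mul_le_mul_of_nonneg_left _ hBh
    linarith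

/-- second term -/
lemma T2_bound {w B e : ℝ} (hB : 0 ≤ B) (hw : 0 < w) {J : ℝ → ℝ} (hJ : MixedDiff B w J)
    {h : ℝ} (hh : 0 < h) (Y η : ℝ) (he : |η| ≤ e) :
    |(J (Y + h + η) - J (Y + h)) - (J (Y - h - η + η) - J (Y - h - η))|
      ≤ B * e * (2 * h + e + w) := by
  refine (hJ (Y + h) (Y - h - η) η).trans ?_
  have h1 : |Y + h - (Y - h - η)| ≤ 2 * h + e := by
    have : Y + h - (Y - h - η) = 2 * h + η := by ring
    rw [this]
    refine (abs_add_le _ _).trans ?_
    rw [abs_of_pos (by linarith : 0 < 2 * h)]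
    linarith
  have h0 : 0 ≤ |η| := abs_nonneg _
  have h2 : |η| * (|Y + h - (Y - h - η)| + w) ≤ e * (2 * h + e + w) := by
    apply mul_le_mul he (by linarith) (by positivity) (by linarith)
  calc B * |η| * (|Y + h - (Y - h - η)| + w) = B * (|η| * (|Y + h - (Y - h - η)| + w)) := by ring
    _ ≤ B * (e * (2 * h + e + w)) := mul_le_mul_of_nonneg_left h2 hB
    _ = B * e * (2 * h + e + w) := by ring

/-- third term, symmetrized -/
lemma T3_bound {w W B e k : ℝ} (hB : 0 ≤ B) (hw : 0 < w) {J : ℝ → ℝ} (hJ : MixedDiff B w J)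
    (X h v η κ : ℝ) (hv : |v| ≤ W / 2) (he : |η| ≤ e) (hk : |κ| ≤ k) :
    |(J (X + v - h - η + κ) - J (X + v - h - η)) + (J (X - v - h + η - κ) - J (X - v - h + η))|
      ≤ B * k * (W + 2 * e + k + w) := by
  have h1 := hJ (X + v - h - η) (X - v - h + η - κ) κ
  have e1 : X - v - h + η - κ + κ = X - v - h + η := by ring
  have e2 : X + v - h - η - (X - v - h + η - κ) = 2 * v - 2 * η + κ := by ring
  rw [e1, e2] at h1
  have h2 : (J (X + v - h - η + κ) - J (X + v - h - η)) + (J (X - v - h + η - κ) - J (X - v - h + η))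
      = (J (X + v - h - η + κ) - J (X + v - h - η)) - (J (X - v - h + η) - J (X - v - h + η - κ)) := by
    ring
  rw [h2]
  refine h1.trans ?_
  have h3 : |2 * v - 2 * η + κ| ≤ W + 2 * e + k := by
    rw [abs_le] at *
    constructor <;> linarith [hv.1, hv.2, he.1, he.2, hk.1, hk.2]
  have h0 : 0 ≤ |κ| := abs_nonneg _
  have h4 : |κ| * (|2 * v - 2 * η + κ| + w) ≤ k * (W + 2 * e + k + w) := by
    apply mul_le_mul hk (by linarith) (by positivity) (by linarith)
  calc B * |κ| * (|2 * v - 2 * η + κ| + w) = B * (|κ| * (|2 * v - 2 * η + κ| + w)) := by ring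
    _ ≤ B * (k * (W + 2 * e + k + w)) := mul_le_mul_of_nonneg_left h4 hB
    _ = B * k * (W + 2 * e + k + w) := by ring

/-! ### Cosine estimates -/

lemma cw_diff {R : ℝ} (hR : 0 < R) (X h : ℝ) :
    |cw R (X + h) - cw R X| ≤ Real.pi * |h| / (2 * R) := by
  have h1 := Real.abs_cos_sub_cos_le (Real.pi * (X + h) / R) (Real.pi * X / R)
  have e1 : Real.pi * (X + h) / R - Real.pi * X / R = Real.pi * h / R := by ring
  rw [e1, abs_div, abs_mul, abs_of_pos Real.pi_pos, abs_of_pos hR] at h1
  have e2 : cw R (X + h) - cw R X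
      = (Real.cos (Real.pi * (X + h) / R) - Real.cos (Real.pi * X / R)) / 2 := by
    unfold cw; ring
  rw [e2, abs_div, abs_two]
  calc |Real.cos (Real.pi * (X + h) / R) - Real.cos (Real.pi * X / R)| / 2
      ≤ (Real.pi * |h| / R) / 2 := by linarith
    _ = Real.pi * |h| / (2 * R) := by field_simp

lemma cw_second {R : ℝ} (X h : ℝ) :
    |(cw R (X + h) - cw R X) + (cw R (X - h) - cw R X)| ≤ (Real.pi * h / R) ^ 2 / 2 := by
  have e1 : (cw R (X + h) - cw R X) + (cw R (X - h) - cw R X)
      = Real.cos (Real.pi * X / R) * (Real.cos (Real.pi * h / R) - 1) := by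
    unfold cw
    have e2 : Real.pi * (X + h) / R = Real.pi * X / R + Real.pi * h / R := by ring
    have e3 : Real.pi * (X - h) / R = Real.pi * X / R - Real.pi * h / R := by ring
    rw [e2, e3, Real.cos_add, Real.cos_sub]
    ring
  rw [e1, abs_mul]
  have h1 : |Real.cos (Real.pi * X / R)| ≤ 1 := Real.abs_cos_le_one _
  have h2 : |Real.cos (Real.pi * h / R) - 1| ≤ (Real.pi * h / R) ^ 2 / 2 := by
    have h3 := Real.one_sub_sq_div_two_le_cos (x := Real.pi * h / R)
    have h4 := Real.cos_le_one (Real.pi * h / R)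
    rw [abs_le]
    constructor
    · linarith
    · have : 0 ≤ (Real.pi * h / R) ^ 2 / 2 := by positivity
      linarith
  calc |Real.cos (Real.pi * X / R)| * |Real.cos (Real.pi * h / R) - 1|
      ≤ 1 * ((Real.pi * h / R) ^ 2 / 2) := mul_le_mul h1 h2 (abs_nonneg _) zero_le_one
    _ = _ := one_mul _

/-- the decomposition for `h < R` -/
lemma smooth_small {w W R B : ℝ} (hw : 0 < w) (hwW : w ≤ W) (hR : 0 < R) (hB : 0 ≤ B)
    {J : ℝ → ℝ} (hJc : Continuous J) (hJ : MixedDiff B w J) (X : ℝ) {h : ℝ} (hh : 0 < h) :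
    |smooth W R J (X + h) - 2 * smooth W R J X + smooth W R J (X - h)|
      ≤ B * h ^ 2 * (1 + 2 * w / W)
        + B * (W * (Real.pi * h / (2 * R))) * (2 * h + W * (Real.pi * h / (2 * R)) + w)
        + B * (W * ((Real.pi * h / R) ^ 2 / 2)) / 2 *
          (W + 2 * (W * (Real.pi * h / (2 * R))) + W * ((Real.pi * h / R) ^ 2 / 2) + w) := by
  have hW : 0 < W := lt_of_lt_of_le hw hwW
  set S := cw R X with hS
  have hS0 : 0 ≤ S := cw_nonneg R X
  have hS1 : S ≤ 1 := cw_le_one R X
  set P := cw R (X + h) - S with hP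
  set M := cw R (X - h) - S with hM
  have hPb : |P| ≤ Real.pi * h / (2 * R) := by
    have := cw_diff hR X h
    rwa [abs_of_pos hh] at this
  have hPM : |P + M| ≤ (Real.pi * h / R) ^ 2 / 2 := cw_second X h
  set v : ℝ → ℝ → ℝ := fun a b => W * (S * a + (1 - S) * b) with hv
  set F1 : ℝ → ℝ → ℝ := fun a b => J (X + W * (S * a + (1 - S) * b) + h)
    - 2 * J (X + W * (S * a + (1 - S) * b)) + J (X + W * (S * a + (1 - S) * b) - h) with hF1
  set F2 : ℝ → ℝ → ℝ := fun a b =>
    (J ((X + v a b) + h + W * P * (a - b)) - J ((X + v a b) + h))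
      - (J ((X + v a b) - h - W * P * (a - b) + W * P * (a - b))
        - J ((X + v a b) - h - W * P * (a - b))) with hF2
  set F3 : ℝ → ℝ → ℝ := fun a b =>
    J (X + v a b - h - W * P * (a - b) + W * (P + M) * (a - b))
      - J (X + v a b - h - W * P * (a - b)) with hF3
  have c1 : Continuous (Function.uncurry F1) := by
    simp only [hF1, Function.uncurry_def]; fun_prop
  have c2 : Continuous (Function.uncurry F2) := by
    simp only [hF2, hv, Function.uncurry_def]; fun_prop
  have c3 : Continuous (Function.uncurry F3) := by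
    simp only [hF3, hv, Function.uncurry_def]; fun_prop
  have key : smooth W R J (X + h) - 2 * smooth W R J X + smooth W R J (X - h)
      = E2 F1 + E2 F2 + E2 F3 := by
    rw [smooth_eq, smooth_eq, smooth_eq, ← E2_const_mul]
    rw [← E2_sub (by simp only [Function.uncurry_def]; fun_prop)
      (by simp only [Function.uncurry_def]; fun_prop)]
    rw [← E2_add (by simp only [Function.uncurry_def]; fun_prop)
      (by simp only [Function.uncurry_def]; fun_prop)]
    rw [← E2_add c1 c2, ← E2_add (by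
      simp only [hF1, hF2, hv, Function.uncurry_def]; fun_prop) c3]
    congr 1
    ext a b
    have e1 : X + h + W * (cw R (X + h) * a + (1 - cw R (X + h)) * b)
        = (X + v a b) + h + W * P * (a - b) := by
      simp only [hv, hP]; ring
    have e2 : X - h + W * (cw R (X - h) * a + (1 - cw R (X - h)) * b)
        = X + v a b - h - W * P * (a - b) + W * (P + M) * (a - b) := by
      simp only [hv, hM]; ring
    have e3 : (X + v a b) - h - W * P * (a - b) + W * P * (a - b) = X + v a b - h := by ring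
    rw [e1, e2]
    simp only [hF1, hF2, hF3, e3]
    ring
  rw [key]
  have habs : ∀ a ∈ Icc (-1/2 : ℝ) (1/2), ∀ b ∈ Icc (-1/2 : ℝ) (1/2), |a - b| ≤ 1 := by
    intro a ha b hb
    rw [abs_le]
    constructor <;> linarith [ha.1, ha.2, hb.1, hb.2]
  have hη : ∀ a ∈ Icc (-1/2 : ℝ) (1/2), ∀ b ∈ Icc (-1/2 : ℝ) (1/2),
      |W * P * (a - b)| ≤ W * (Real.pi * h / (2 * R)) := by
    intro a ha b hb
    rw [abs_mul, abs_mul, abs_of_pos hW]
    calc W * |P| * |a - b| ≤ W * |P| * 1 :=
          mul_le_mul_of_nonneg_left (habs a ha b hb) (by positivity)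
      _ ≤ W * (Real.pi * h / (2 * R)) := by
          rw [mul_one]; exact mul_le_mul_of_nonneg_left hPb hW.le
  have hκ : ∀ a ∈ Icc (-1/2 : ℝ) (1/2), ∀ b ∈ Icc (-1/2 : ℝ) (1/2),
      |W * (P + M) * (a - b)| ≤ W * ((Real.pi * h / R) ^ 2 / 2) := by
    intro a ha b hb
    rw [abs_mul, abs_mul, abs_of_pos hW]
    calc W * |P + M| * |a - b| ≤ W * |P + M| * 1 :=
          mul_le_mul_of_nonneg_left (habs a ha b hb) (by positivity)
      _ ≤ W * ((Real.pi * h / R) ^ 2 / 2) := by
          rw [mul_one]; exact mul_le_mul_of_nonneg_left hPM hW.le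
  have b1 : |E2 F1| ≤ B * h ^ 2 * (1 + 2 * w / W) := T1_bound hw hW hB hJc hJ X hh
  have b2 : |E2 F2| ≤ B * (W * (Real.pi * h / (2 * R)))
      * (2 * h + W * (Real.pi * h / (2 * R)) + w) := by
    apply E2_bound
    intro a ha b hb
    exact T2_bound hB hw hJ hh (X + v a b) _ (hη a ha b hb)
  have b3 : |E2 F3| ≤ B * (W * ((Real.pi * h / R) ^ 2 / 2)) / 2 *
          (W + 2 * (W * (Real.pi * h / (2 * R))) + W * ((Real.pi * h / R) ^ 2 / 2) + w) := by
    apply E2_symm_bound c3
    intro a ha b hb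
    have h3 := T3_bound (W := W) hB hw hJ X h (v a b) _ _ (shift_bound hW.le hS0 hS1 ha hb)
      (hη a ha b hb) (hκ a ha b hb)
    have e1 : X + v (-a) (-b) - h - W * P * (-a - -b) = X - v a b - h + W * P * (a - b) := by
      simp only [hv]; ring
    have e2 : X - v a b - h + W * P * (a - b) + W * (P + M) * (-a - -b)
        = X - v a b - h + W * P * (a - b) - W * (P + M) * (a - b) := by ring
    have e3 : F3 (-a) (-b) = J (X - v a b - h + W * P * (a - b) - W * (P + M) * (a - b))
        - J (X - v a b - h + W * P * (a - b)) := by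
      simp only [hF3]
      rw [e1, e2]
    rw [e3]
    refine h3.trans (le_of_eq ?_)
    ring
  have t1 := abs_add_le (E2 F1 + E2 F2) (E2 F3)
  have t2 := abs_add_le (E2 F1) (E2 F2)
  linarith

theorem smooth_close (w : ℝ) (hw : 0 < w) (L : ℕ) (hL : 1 ≤ L) (B : ℝ) (hB : 0 ≤ B) (J : ℝ → ℝ)
    (hJc : Continuous J) (hJ : MixedDiff B w J) (X : ℝ) :
    |smooth (L * w) (L ^ 2 * w) J X - J X| ≤ B * (L * w) ^ 2 := by
  have hL' : (1 : ℝ) ≤ L := by exact_mod_cast hL
  exact smooth_close' hw (by nlinarith) hB hJc hJ X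

theorem smooth_second_diff (w : ℝ) (hw : 0 < w) (L : ℕ) (hL : 1 ≤ L) (B : ℝ) (hB : 0 ≤ B)
    (J : ℝ → ℝ) (hJc : Continuous J) (hJ : MixedDiff B w J) (X h : ℝ) (hh : w / 2 ≤ h) :
    |smooth (L * w) (L ^ 2 * w) J (X + h) - 2 * smooth (L * w) (L ^ 2 * w) J X
      + smooth (L * w) (L ^ 2 * w) J (X - h)| ≤ B * (1 + 60 / L) * h ^ 2 := by
  have hL' : (1 : ℝ) ≤ L := by exact_mod_cast hL
  have hL0 : (0 : ℝ) < L := by linarith
  have hh0 : 0 < h := by linarith
  set l : ℝ := (L : ℝ) with hl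
  have hwW : w ≤ l * w := by nlinarith
  have hR : 0 < l ^ 2 * w := by positivity
  rcases le_or_gt (l ^ 2 * w) h with hbig | hsmall
  · have k1 := smooth_close' (R := l ^ 2 * w) hw hwW hB hJc hJ (X + h)
    have k2 := smooth_close' (R := l ^ 2 * w) hw hwW hB hJc hJ X
    have k3 := smooth_close' (R := l ^ 2 * w) hw hwW hB hJc hJ (X - h)
    have k4 := hJ X (X - h) h
    rw [sub_add_cancel, sub_sub_cancel, abs_of_pos hh0] at k4
    have k5 : |smooth (l * w) (l ^ 2 * w) J (X + h) - 2 * smooth (l * w) (l ^ 2 * w) J X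
      + smooth (l * w) (l ^ 2 * w) J (X - h)| ≤ B * h * (h + w) + 4 * (B * (l * w) ^ 2) := by
      rw [abs_le] at *
      constructor <;> linarith [k1.1, k1.2, k2.1, k2.2, k3.1, k3.2, k4.1, k4.2]
    refine k5.trans ?_
    have h1 : (l * w) ^ 2 ≤ h ^ 2 / l := by
      rw [le_div_iff₀ hL0]
      have h2 : (l * w) ^ 2 * l ≤ (l ^ 2 * w) ^ 2 := by
        have : (l ^ 2 * w) ^ 2 = (l * w) ^ 2 * l * l := by ring
        rw [this]
        have h3 : 0 ≤ (l * w) ^ 2 * l := by positivity
        nlinarith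
      have h4 : (l ^ 2 * w) ^ 2 ≤ h ^ 2 := by
        apply pow_le_pow_left₀ hR.le hbig
      linarith
    have h5 : h * w ≤ h ^ 2 / l := by
      rw [le_div_iff₀ hL0]
      have : w * l ≤ h := by nlinarith [mul_pos hw hL0]
      nlinarith
    have h6 : B * (h * w) ≤ B * (h ^ 2 / l) := mul_le_mul_of_nonneg_left h5 hB
    have h7 : B * (l * w) ^ 2 ≤ B * (h ^ 2 / l) := mul_le_mul_of_nonneg_left h1 hB
    have h8 : 0 ≤ B * (h ^ 2 / l) := by positivity
    calc B * h * (h + w) + 4 * (B * (l * w) ^ 2)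
        = B * h ^ 2 + B * (h * w) + 4 * (B * (l * w) ^ 2) := by ring
      _ ≤ B * h ^ 2 + 60 * (B * (h ^ 2 / l)) := by linarith
      _ = B * (1 + 60 / l) * h ^ 2 := by ring
  · have k := smooth_small hw hwW hR hB hJc hJ X hh0
    refine k.trans ?_
    have hpi := Real.pi_lt_d2
    have hpi0 := Real.pi_pos
    have e1 : l * w * (Real.pi * h / (2 * (l ^ 2 * w))) = Real.pi * h / (2 * l) := by
      field_simp
    have e2 : l * w * ((Real.pi * h / (l ^ 2 * w)) ^ 2 / 2)
        = Real.pi ^ 2 * h ^ 2 / (2 * l ^ 3 * w) := by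
      field_simp
    have e3 : 2 * w / (l * w) = 2 / l := by field_simp
    rw [e1, e2, e3]
    set x : ℝ := h ^ 2 / l with hx
    have hx0 : 0 ≤ x := by positivity
    -- the second term
    have s1 : Real.pi * h / (2 * l) ≤ 1.6 * h / l := by
      rw [div_le_div_iff₀ (by positivity) hL0]
      nlinarith [mul_pos hh0 hL0]
    have s1' : 1.6 * h / l ≤ 1.6 * h := div_le_self (by positivity) hL'
    have s2 : 2 * h + Real.pi * h / (2 * l) + w ≤ 6 * h := by linarith
    have s10 : 0 ≤ Real.pi * h / (2 * l) := by positivity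
    have s3 : Real.pi * h / (2 * l) * (2 * h + Real.pi * h / (2 * l) + w)
        ≤ (1.6 * h / l) * (6 * h) := by
      apply mul_le_mul s1 s2 (by positivity) (by positivity)
    have s4 : (1.6 * h / l) * (6 * h) = 9.6 * x := by
      rw [hx]; ring
    -- the third term
    set q : ℝ := h ^ 2 / (l ^ 3 * w) with hq
    have hq0 : 0 ≤ q := by positivity
    have q1 : Real.pi ^ 2 * h ^ 2 / (2 * l ^ 3 * w) = Real.pi ^ 2 / 2 * q := by
      rw [hq]; field_simp
    have q2 : q ≤ l * w := by
      rw [hq, div_le_iff₀ (by positivity)]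
      have : h ^ 2 ≤ (l ^ 2 * w) ^ 2 := by
        apply pow_le_pow_left₀ hh0.le hsmall.le
      calc h ^ 2 ≤ (l ^ 2 * w) ^ 2 := this
        _ = l * w * (l ^ 3 * w) := by ring
    have q3 : q * (l * w) = x / l := by
      rw [hq, hx]; field_simp
    have q4 : x / l ≤ x := div_le_self hx0 hL'
    have hpi2 : Real.pi ^ 2 ≤ 10 := by nlinarith
    have q5 : 2 * (Real.pi * h / (2 * l)) ≤ 3.2 * (l * w) := by
      have : h / l ≤ l * w := by
        rw [div_le_iff₀ hL0]
        calc h ≤ l ^ 2 * w := hsmall.le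
          _ = l * w * l := by ring
      have e : 1.6 * h / l = 1.6 * (h / l) := by ring
      rw [e] at s1
      linarith
    have q6 : Real.pi ^ 2 / 2 * q ≤ 5 * (l * w) := by
      calc Real.pi ^ 2 / 2 * q ≤ 5 * q := by
            apply mul_le_mul_of_nonneg_right _ hq0; linarith
        _ ≤ 5 * (l * w) := by linarith
    have q7 : Real.pi ^ 2 / 2 * q ≤ 5 * q := by
      apply mul_le_mul_of_nonneg_right _ hq0; linarith
    have q8 : l * w + 2 * (Real.pi * h / (2 * l)) + Real.pi ^ 2 / 2 * q + w ≤ 10.2 * (l * w) := by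
      linarith
    have q9 : Real.pi ^ 2 / 2 * q * (l * w + 2 * (Real.pi * h / (2 * l)) + Real.pi ^ 2 / 2 * q + w)
        ≤ 5 * q * (10.2 * (l * w)) := by
      apply mul_le_mul q7 q8 (by positivity) (by positivity)
    have q10 : 5 * q * (10.2 * (l * w)) = 51 * (x / l) := by
      rw [← q3]; ring
    rw [q1]
    have r1 : B * (Real.pi * h / (2 * l)) * (2 * h + Real.pi * h / (2 * l) + w) ≤ 9.6 * (B * x) := by
      calc B * (Real.pi * h / (2 * l)) * (2 * h + Real.pi * h / (2 * l) + w)
          = B * (Real.pi * h / (2 * l) * (2 * h + Real.pi * h / (2 * l) + w)) := by ring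
        _ ≤ B * (9.6 * x) := mul_le_mul_of_nonneg_left (by linarith) hB
        _ = 9.6 * (B * x) := by ring
    have r2 : B * (Real.pi ^ 2 / 2 * q) / 2 *
        (l * w + 2 * (Real.pi * h / (2 * l)) + Real.pi ^ 2 / 2 * q + w) ≤ 25.5 * (B * x) := by
      calc B * (Real.pi ^ 2 / 2 * q) / 2 *
        (l * w + 2 * (Real.pi * h / (2 * l)) + Real.pi ^ 2 / 2 * q + w)
          = B * ((Real.pi ^ 2 / 2 * q) *
        (l * w + 2 * (Real.pi * h / (2 * l)) + Real.pi ^ 2 / 2 * q + w)) / 2 := by ring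
        _ ≤ B * (51 * x) / 2 := by
            have := mul_le_mul_of_nonneg_left (show (Real.pi ^ 2 / 2 * q) *
              (l * w + 2 * (Real.pi * h / (2 * l)) + Real.pi ^ 2 / 2 * q + w) ≤ 51 * x by linarith) hB
            linarith
        _ = 25.5 * (B * x) := by ring
    have r3 : B * h ^ 2 * (1 + 2 / l) = B * h ^ 2 + 2 * (B * x) := by
      rw [hx]; ring
    have r4 : B * (1 + 60 / l) * h ^ 2 = B * h ^ 2 + 60 * (B * x) := by
      rw [hx]; ring
    have r5 : 0 ≤ B * x := mul_nonneg hB hx0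
    rw [r3, r4]
    linarith

end Pool.Agent.helper312_fol
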