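import Pool.Agent.helper312_fol.Interp
import Pool.Agent.helper312_fol.SmoothG

set_option autoImplicit false

open Set MeasureTheory

namespace Pool.Agent.helper312_fol

theorem growth_pow11 (x : ℝ) (hx : 0 ≤ x) : x ^ 11 + 11 * x ^ 10 ≤ (x + 1) ^ 11 := by
  have : (x + 1) ^ 11 - (x ^ 11 + 11 * x ^ 10) = 55 * x ^ 9 + 165 * x ^ 8 + 330 * x ^ 7 +
      462 * x ^ 6 + 462 * x ^ 5 + 330 * x ^ 4 + 165 * x ^ 3 + 55 * x ^ 2 + 11 * x + 1 := by ring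
  have h2 : 0 ≤ 55 * x ^ 9 + 165 * x ^ 8 + 330 * x ^ 7 +
      462 * x ^ 6 + 462 * x ^ 5 + 330 * x ^ 4 + 165 * x ^ 3 + 55 * x ^ 2 + 11 * x + 1 := by
    positivity
  linarith

theorem growth_summable : Summable fun n : ℕ => ((n : ℝ) + 1) ^ 15 / 4 ^ n := by
  have h1 : Summable fun n : ℕ => ((n : ℝ)) ^ 15 * (1 / 4 : ℝ) ^ n :=
    summable_pow_mul_geometric_of_norm_lt_one 15 (by rw [Real.norm_eq_abs, abs_of_pos] <;> norm_num)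
  have h2 := ((summable_nat_add_iff 1).2 h1).mul_left 4
  refine h2.congr fun n => ?_
  push_cast
  rw [pow_succ (1 / 4 : ℝ) n, one_div_pow]
  field_simp

/-- Claim A. -/
theorem growth_A (L₀ : ℕ) (hL : 12 ≤ L₀) (b E P₁ : ℝ) (hb : 0 ≤ b) (hE0 : 0 ≤ E)
    (hP₁ : P₁ = 2 * b + 3 * E * L₀ ^ 5) (u : ℕ → ℝ → ℝ)
    (h0 : ∀ x y, |u 0 x - u 0 y| ≤ b * |x - y|)
    (hE : ∀ (k : ℕ) (j : ℤ), |u (k + 1) (j * ((1 / 2 ^ k) / 2))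
        - smooth ((L₀ * (k + 1) ^ 2 : ℕ) * (1 / 2 ^ k)) (((L₀ * (k + 1) ^ 2 : ℕ) : ℝ) ^ 2 * (1 / 2 ^ k))
            (interp (1 / 2 ^ k) (u k)) (j * ((1 / 2 ^ k) / 2))|
        ≤ E * ((L₀ * (k + 1) ^ 2 : ℕ) : ℝ) ^ 5 * (1 / 2 ^ k) ^ 2) (k : ℕ) :
    ∀ j : ℤ, |u k (((j : ℝ) + 1) * (1 / 2 ^ k)) - 2 * u k ((j : ℝ) * (1 / 2 ^ k))
      + u k (((j : ℝ) - 1) * (1 / 2 ^ k))| ≤ P₁ * ((k : ℝ) + 1) ^ 11 * (1 / 2 ^ k) ^ 2 := by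
  have hP : 0 ≤ P₁ := by rw [hP₁]; positivity
  induction k with
  | zero =>
    intro j
    have e1 := h0 (((j : ℝ) + 1) * (1 / 2 ^ 0)) ((j : ℝ) * (1 / 2 ^ 0))
    have e2 := h0 (((j : ℝ) - 1) * (1 / 2 ^ 0)) ((j : ℝ) * (1 / 2 ^ 0))
    have f1 : |((j : ℝ) + 1) * (1 / 2 ^ 0) - (j : ℝ) * (1 / 2 ^ 0)| = 1 := by
      rw [show ((j : ℝ) + 1) * (1 / 2 ^ 0) - (j : ℝ) * (1 / 2 ^ 0) = 1 by ring]; simp
    have f2 : |((j : ℝ) - 1) * (1 / 2 ^ 0) - (j : ℝ) * (1 / 2 ^ 0)| = 1 := by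
      rw [show ((j : ℝ) - 1) * (1 / 2 ^ 0) - (j : ℝ) * (1 / 2 ^ 0) = -1 by ring]; simp
    rw [f1, mul_one] at e1
    rw [f2, mul_one] at e2
    have h5 : 0 ≤ 3 * E * (L₀ : ℝ) ^ 5 := by positivity
    have e3 : 2 * b ≤ P₁ := by rw [hP₁]; linarith
    have e4 : P₁ * (((0 : ℕ) : ℝ) + 1) ^ 11 * (1 / 2 ^ 0) ^ 2 = P₁ := by simp
    rw [e4]
    rw [abs_le] at e1 e2 ⊢
    constructor <;> linarith [e1.1, e1.2, e2.1, e2.2]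
  | succ k ih =>
    intro j
    set w : ℝ := 1 / 2 ^ k with hw
    have hwpos : 0 < w := by positivity
    set L : ℕ := L₀ * (k + 1) ^ 2 with hLdef
    have hL1 : 1 ≤ L := by
      rw [hLdef]
      have : 1 ≤ (k + 1) ^ 2 := Nat.one_le_pow _ _ (Nat.succ_pos k)
      nlinarith
    have hLpos : (0 : ℝ) < L := by exact_mod_cast hL1
    have hB : 0 ≤ P₁ * ((k : ℝ) + 1) ^ 11 := by positivity
    have hJ : MixedDiff (P₁ * ((k : ℝ) + 1) ^ 11) w (interp w (u k)) :=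
      interp_mixedDiff w hwpos _ hB (u k) ih
    have hJc : Continuous (interp w (u k)) := interp_continuous w hwpos (u k)
    have hs := smooth_second_diff w hwpos L hL1 _ hB _ hJc hJ ((j : ℝ) * (w / 2)) (w / 2) le_rfl
    have g0 := hE k j
    have g1 := hE k (j + 1)
    have g2 := hE k (j - 1)
    rw [← hw, ← hLdef] at g0 g1 g2
    have a1 : (((j + 1 : ℤ) : ℝ)) * (w / 2) = (j : ℝ) * (w / 2) + w / 2 := by push_cast; ring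
    have a2 : (((j - 1 : ℤ) : ℝ)) * (w / 2) = (j : ℝ) * (w / 2) - w / 2 := by push_cast; ring
    rw [a1] at g1
    rw [a2] at g2
    have b0 : (1 : ℝ) / 2 ^ (k + 1) = w / 2 := by rw [hw, pow_succ]; field_simp
    rw [b0]
    have a3 : ((j : ℝ) + 1) * (w / 2) = (j : ℝ) * (w / 2) + w / 2 := by ring
    have a4 : ((j : ℝ) - 1) * (w / 2) = (j : ℝ) * (w / 2) - w / 2 := by ring
    rw [a3, a4]
    -- arithmetic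
    have hx : (1 : ℝ) ≤ (k : ℝ) + 1 := by linarith [(Nat.cast_nonneg k : (0 : ℝ) ≤ k)]
    have hLr : (L : ℝ) = L₀ * ((k : ℝ) + 1) ^ 2 := by rw [hLdef]; push_cast; ring
    have hL12 : (12 : ℝ) ≤ L₀ := by exact_mod_cast hL
    set x : ℝ := (k : ℝ) + 1 with hxdef
    have m1 : P₁ * x ^ 11 * (60 / L) ≤ 5 * P₁ * x ^ 10 := by
      rw [hLr]
      have : P₁ * x ^ 11 * (60 / (L₀ * x ^ 2)) = (P₁ * x ^ 9) * (60 / L₀) := by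
        field_simp
      rw [this]
      have h60 : 60 / (L₀ : ℝ) ≤ 5 := by
        rw [div_le_iff₀ (by linarith)]; linarith
      calc (P₁ * x ^ 9) * (60 / L₀) ≤ (P₁ * x ^ 9) * 5 := by gcongr
        _ ≤ (P₁ * x ^ 10) * 5 := by
          have : x ^ 9 ≤ x ^ 10 := pow_le_pow_right₀ hx (by norm_num)
          gcongr
        _ = _ := by ring
    have m2 : 16 * (E * (L : ℝ) ^ 5) ≤ 6 * P₁ * x ^ 10 := by
      rw [hLr]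
      have h7 : 16 * (E * L₀ ^ 5) ≤ 6 * P₁ := by
        rw [hP₁]
        have : 0 ≤ E * (L₀ : ℝ) ^ 5 := by positivity
        nlinarith
      calc 16 * (E * (L₀ * x ^ 2) ^ 5) = 16 * (E * L₀ ^ 5) * x ^ 10 := by ring
        _ ≤ 6 * P₁ * x ^ 10 := by gcongr
    have m3 : x ^ 11 + 11 * x ^ 10 ≤ (x + 1) ^ 11 := growth_pow11 x (by linarith)
    have m4 : P₁ * x ^ 11 * (1 + 60 / L) * (w / 2) ^ 2 + 4 * (E * (L : ℝ) ^ 5 * w ^ 2) ≤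
        P₁ * (x + 1) ^ 11 * (w / 2) ^ 2 := by
      have : P₁ * x ^ 11 * (1 + 60 / L) + 16 * (E * (L : ℝ) ^ 5) ≤ P₁ * (x + 1) ^ 11 := by
        calc P₁ * x ^ 11 * (1 + 60 / L) + 16 * (E * (L : ℝ) ^ 5)
            = P₁ * x ^ 11 + P₁ * x ^ 11 * (60 / L) + 16 * (E * (L : ℝ) ^ 5) := by ring
          _ ≤ P₁ * x ^ 11 + 5 * P₁ * x ^ 10 + 6 * P₁ * x ^ 10 := by linarith
          _ = P₁ * (x ^ 11 + 11 * x ^ 10) := by ring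
          _ ≤ _ := by gcongr
      calc P₁ * x ^ 11 * (1 + 60 / L) * (w / 2) ^ 2 + 4 * (E * (L : ℝ) ^ 5 * w ^ 2)
          = (P₁ * x ^ 11 * (1 + 60 / L) + 16 * (E * (L : ℝ) ^ 5)) * (w / 2) ^ 2 := by ring
        _ ≤ _ := by gcongr
    have m5 : (((k + 1 : ℕ) : ℝ) + 1) = x + 1 := by rw [hxdef]; push_cast; ring
    rw [m5]
    refine le_trans ?_ m4
    rw [abs_le] at hs g0 g1 g2 ⊢
    constructor <;> linarith [hs.1, hs.2, g0.1, g0.2, g1.1, g1.2, g2.1, g2.2]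

/-- Claim B. -/
theorem growth_B (L₀ : ℕ) (hL : 12 ≤ L₀) (b E P₁ : ℝ) (hb : 0 ≤ b) (hE0 : 0 ≤ E)
    (hP₁ : P₁ = 2 * b + 3 * E * L₀ ^ 5) (u : ℕ → ℝ → ℝ)
    (h0 : ∀ x y, |u 0 x - u 0 y| ≤ b * |x - y|)
    (hE : ∀ (k : ℕ) (j : ℤ), |u (k + 1) (j * ((1 / 2 ^ k) / 2))
        - smooth ((L₀ * (k + 1) ^ 2 : ℕ) * (1 / 2 ^ k)) (((L₀ * (k + 1) ^ 2 : ℕ) : ℝ) ^ 2 * (1 / 2 ^ k))
            (interp (1 / 2 ^ k) (u k)) (j * ((1 / 2 ^ k) / 2))|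
        ≤ E * ((L₀ * (k + 1) ^ 2 : ℕ) : ℝ) ^ 5 * (1 / 2 ^ k) ^ 2) (k : ℕ) (j : ℤ) :
    |u (k + 1) ((j : ℝ) * (1 / 2 ^ k)) - u k ((j : ℝ) * (1 / 2 ^ k))| ≤
      (E * L₀ ^ 5 + P₁ * L₀ ^ 2) * ((k : ℝ) + 1) ^ 15 * (1 / 2 ^ k) ^ 2 := by
  have hP : 0 ≤ P₁ := by rw [hP₁]; positivity
  have ih := growth_A L₀ hL b E P₁ hb hE0 hP₁ u h0 hE k
  have g0 := hE k (2 * j)
  set w : ℝ := 1 / 2 ^ k with hw
  have hwpos : 0 < w := by positivity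
  set L : ℕ := L₀ * (k + 1) ^ 2 with hLdef
  have hL1 : 1 ≤ L := by
    rw [hLdef]
    have : 1 ≤ (k + 1) ^ 2 := Nat.one_le_pow _ _ (Nat.succ_pos k)
    nlinarith
  have hB : 0 ≤ P₁ * ((k : ℝ) + 1) ^ 11 := by positivity
  have hJ : MixedDiff (P₁ * ((k : ℝ) + 1) ^ 11) w (interp w (u k)) :=
    interp_mixedDiff w hwpos _ hB (u k) ih
  have hJc : Continuous (interp w (u k)) := interp_continuous w hwpos (u k)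
  have hs := smooth_close w hwpos L hL1 _ hB _ hJc hJ ((j : ℝ) * w)
  have a0 : (((2 * j : ℤ) : ℝ)) * (w / 2) = (j : ℝ) * w := by push_cast; ring
  rw [a0] at g0
  rw [interp_grid w hwpos] at hs
  have hx : (1 : ℝ) ≤ (k : ℝ) + 1 := by linarith [(Nat.cast_nonneg k : (0 : ℝ) ≤ k)]
  have hLr : (L : ℝ) = L₀ * ((k : ℝ) + 1) ^ 2 := by rw [hLdef]; push_cast; ring
  set x : ℝ := (k : ℝ) + 1 with hxdef
  have key : E * (L : ℝ) ^ 5 * w ^ 2 + P₁ * x ^ 11 * (L * w) ^ 2 ≤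
      (E * L₀ ^ 5 + P₁ * L₀ ^ 2) * x ^ 15 * w ^ 2 := by
    rw [hLr]
    have h1 : x ^ 10 ≤ x ^ 15 := pow_le_pow_right₀ hx (by norm_num)
    calc E * (L₀ * x ^ 2) ^ 5 * w ^ 2 + P₁ * x ^ 11 * (L₀ * x ^ 2 * w) ^ 2
        = E * L₀ ^ 5 * x ^ 10 * w ^ 2 + P₁ * L₀ ^ 2 * x ^ 15 * w ^ 2 := by ring
      _ ≤ E * L₀ ^ 5 * x ^ 15 * w ^ 2 + P₁ * L₀ ^ 2 * x ^ 15 * w ^ 2 := by gcongr
      _ = _ := by ring
  refine le_trans ?_ key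
  rw [abs_le] at g0 hs ⊢
  constructor <;> linarith [g0.1, g0.2, hs.1, hs.2]

/-- Claim C. -/
theorem growth_C (P₂ : ℝ) (hP₂ : 0 ≤ P₂) (u : ℕ → ℝ → ℝ) (uinf : ℝ → ℝ)
    (hB : ∀ (k : ℕ) (j : ℤ), |u (k + 1) ((j : ℝ) * (1 / 2 ^ k)) - u k ((j : ℝ) * (1 / 2 ^ k))| ≤
      P₂ * ((k : ℝ) + 1) ^ 15 * (1 / 2 ^ k) ^ 2)
    (hlim : ∀ x, Filter.Tendsto (fun k => u k x) Filter.atTop (nhds (uinf x)))
    (k : ℕ) (j : ℤ) :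
    |u k ((j : ℝ) * (1 / 2 ^ k)) - uinf ((j : ℝ) * (1 / 2 ^ k))| ≤
      P₂ * (∑' n : ℕ, ((n : ℝ) + 1) ^ 15 / 4 ^ n) * ((k : ℝ) + 1) ^ 15 * (1 / 2 ^ k) ^ 2 := by
  set x : ℝ := (j : ℝ) * (1 / 2 ^ k) with hx
  have hd : ∀ n : ℕ, dist (u (k + n) x) (u (k + n.succ) x) ≤
      (P₂ * ((k : ℝ) + 1) ^ 15 * (1 / 2 ^ k) ^ 2) * (((n : ℝ) + 1) ^ 15 / 4 ^ n) := by
    intro n
    rw [dist_comm, Real.dist_eq]
    have e1 : x = ((j * 2 ^ n : ℤ) : ℝ) * (1 / 2 ^ (k + n)) := by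
      rw [hx]; push_cast; rw [pow_add]; field_simp
    have h1 := hB (k + n) (j * 2 ^ n)
    rw [← e1] at h1
    refine h1.trans ?_
    have e2 : ((1 : ℝ) / 2 ^ (k + n)) ^ 2 = (1 / 2 ^ k) ^ 2 / 4 ^ n := by
      rw [show (4 : ℝ) = 2 ^ 2 by norm_num, ← pow_mul, pow_add]; field_simp; ring
    rw [e2]
    have e3 : (((k + n : ℕ) : ℝ) + 1) ≤ ((k : ℝ) + 1) * ((n : ℝ) + 1) := by
      push_cast
      have h2 : 0 ≤ (k : ℝ) * n := by positivity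
      nlinarith
    calc P₂ * (((k + n : ℕ) : ℝ) + 1) ^ 15 * ((1 / 2 ^ k) ^ 2 / 4 ^ n)
        ≤ P₂ * (((k : ℝ) + 1) * ((n : ℝ) + 1)) ^ 15 * ((1 / 2 ^ k) ^ 2 / 4 ^ n) := by gcongr
      _ = _ := by rw [mul_pow]; ring
  have hsum : Summable fun n : ℕ =>
      (P₂ * ((k : ℝ) + 1) ^ 15 * (1 / 2 ^ k) ^ 2) * (((n : ℝ) + 1) ^ 15 / 4 ^ n) :=
    growth_summable.mul_left _
  have hl : Filter.Tendsto (fun n => u (k + n) x) Filter.atTop (nhds (uinf x)) := by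
    have := (Filter.tendsto_add_atTop_iff_nat k).2 (hlim x)
    refine this.congr fun n => ?_
    rw [add_comm]
  have := dist_le_tsum_of_dist_le_of_tendsto₀ _ hd hsum hl
  rw [tsum_mul_left, add_zero, Real.dist_eq] at this
  refine this.trans (le_of_eq ?_)
  ring

theorem growth (L₀ : ℕ) (hL : 12 ≤ L₀) (b E : ℝ) (hb : 0 ≤ b) (hE0 : 0 ≤ E) :
    ∃ P : ℝ, 0 ≤ P ∧ ∀ (u : ℕ → ℝ → ℝ) (uinf : ℝ → ℝ),
      (∀ x y, |u 0 x - u 0 y| ≤ b * |x - y|) →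
      (∀ (k : ℕ) (j : ℤ), |u (k + 1) (j * ((1 / 2 ^ k) / 2))
        - smooth ((L₀ * (k + 1) ^ 2 : ℕ) * (1 / 2 ^ k)) (((L₀ * (k + 1) ^ 2 : ℕ) : ℝ) ^ 2 * (1 / 2 ^ k))
            (interp (1 / 2 ^ k) (u k)) (j * ((1 / 2 ^ k) / 2))|
        ≤ E * ((L₀ * (k + 1) ^ 2 : ℕ) : ℝ) ^ 5 * (1 / 2 ^ k) ^ 2) →
      (∀ x, Filter.Tendsto (fun k => u k x) Filter.atTop (nhds (uinf x))) →
      ∀ (k : ℕ) (j : ℤ), |uinf (((j : ℝ) + 1) / 2 ^ k) - 2 * uinf ((j : ℝ) / 2 ^ k)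
        + uinf (((j : ℝ) - 1) / 2 ^ k)| ≤ P * ((k : ℝ) + 1) ^ 15 / 4 ^ k := by
  set P₁ : ℝ := 2 * b + 3 * E * L₀ ^ 5 with hP₁
  have hP₁0 : 0 ≤ P₁ := by positivity
  set P₂ : ℝ := E * L₀ ^ 5 + P₁ * L₀ ^ 2 with hP₂
  have hP₂0 : 0 ≤ P₂ := by positivity
  set S : ℝ := ∑' n : ℕ, ((n : ℝ) + 1) ^ 15 / 4 ^ n with hS
  have hS0 : 0 ≤ S := tsum_nonneg fun n => by positivity
  refine ⟨P₁ + 4 * (P₂ * S), by positivity, ?_⟩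
  intro u uinf h0 hE hlim k j
  have A := growth_A L₀ hL b E P₁ hb hE0 hP₁ u h0 hE k j
  have C0 := growth_C P₂ hP₂0 u uinf (growth_B L₀ hL b E P₁ hb hE0 hP₁ u h0 hE) hlim k
  have c0 := C0 j
  have c1 := C0 (j + 1)
  have c2 := C0 (j - 1)
  rw [← hS] at c0 c1 c2
  push_cast at c1 c2
  have e0 : ∀ y : ℝ, y / 2 ^ k = y * (1 / 2 ^ k) := fun y => by ring
  rw [e0 ((j : ℝ) + 1), e0 (j : ℝ), e0 ((j : ℝ) - 1)]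
  have e4 : ∀ y : ℝ, y / 4 ^ k = y * (1 / 2 ^ k) ^ 2 := fun y => by
    rw [show (4 : ℝ) = 2 ^ 2 by norm_num, ← pow_mul]; field_simp; ring
  rw [e4]
  have hx : (1 : ℝ) ≤ (k : ℝ) + 1 := by linarith [(Nat.cast_nonneg k : (0 : ℝ) ≤ k)]
  have m : P₁ * ((k : ℝ) + 1) ^ 11 * (1 / 2 ^ k) ^ 2 ≤ P₁ * ((k : ℝ) + 1) ^ 15 * (1 / 2 ^ k) ^ 2 := by
    have : ((k : ℝ) + 1) ^ 11 ≤ ((k : ℝ) + 1) ^ 15 := pow_le_pow_right₀ hx (by norm_num)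
    gcongr
  have m2 : (P₁ + 4 * (P₂ * S)) * ((k : ℝ) + 1) ^ 15 * (1 / 2 ^ k) ^ 2 =
      P₁ * ((k : ℝ) + 1) ^ 15 * (1 / 2 ^ k) ^ 2 +
        4 * (P₂ * S * ((k : ℝ) + 1) ^ 15 * (1 / 2 ^ k) ^ 2) := by ring
  rw [m2]
  rw [abs_le] at A c0 c1 c2 ⊢
  constructor <;> linarith [A.1, A.2, c0.1, c0.2, c1.1, c1.2, c2.1, c2.2]

end Pool.Agent.helper312_fol
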