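import Pool.Agent.helper312_fol.Level
import Pool.Agent.helper312_fol.Growth

set_option autoImplicit false

open Set MeasureTheory Filter Topology

namespace Pool.Agent.helper312_fol

theorem cn_lim (D : ℝ) (r : ℕ) :
    Tendsto (fun k : ℕ => D * ((k : ℝ) + 1) ^ r / 2 ^ k) atTop (𝓝 0) := by
  have h1 := (tendsto_pow_const_div_const_pow_of_one_lt r (one_lt_two (α := ℝ))).comp
    (tendsto_add_atTop_nat 1)
  have h2 := h1.const_mul (2 * D)
  rw [mul_zero] at h2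
  refine h2.congr fun k => ?_
  simp only [Function.comp_apply]
  push_cast
  rw [pow_succ]
  field_simp

theorem cn_cont {Y : Type*} [PseudoMetricSpace Y] (g : Y → ℝ) (D : ℝ) (r : ℕ)
    (h : ∀ p p' : Y, ∀ k : ℕ, dist p p' ≤ 1 / 2 ^ k → |g p - g p'| ≤ D * ((k : ℝ) + 1) ^ r / 2 ^ k) :
    Continuous g := by
  rw [Metric.continuous_iff]
  intro p ε hε
  obtain ⟨k, hk⟩ := ((cn_lim D r).eventually (gt_mem_nhds hε)).exists
  refine ⟨1 / 2 ^ k, by positivity, fun p' hp' => ?_⟩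
  rw [Real.dist_eq]
  exact (h p' p k hp'.le).trans_lt hk

section inner

variable {a b : ℝ} {ρ : ℝ × ℝ → ℝ}

theorem cn_slice_int (ha : 0 < a) (hρm : Measurable ρ) (hρ : ∀ p, a ≤ ρ p ∧ ρ p ≤ b) (t u v : ℝ) :
    IntervalIntegrable (fun x => ρ (x, t)) volume u v := by
  refine (intervalIntegrable_const (c := b)).mono_fun
    (hρm.comp (measurable_id.prodMk measurable_const)).aestronglyMeasurable ?_
  refine Filter.Eventually.of_forall fun x => ?_
  show ‖ρ (x, t)‖ ≤ ‖b‖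
  rw [Real.norm_eq_abs, Real.norm_eq_abs, abs_of_nonneg (ha.le.trans (hρ _).1)]
  exact (hρ _).2.trans (le_abs_self b)

/-- increments of the inner integral -/
theorem cn_bounds (ha : 0 < a) (hρm : Measurable ρ) (hρ : ∀ p, a ≤ ρ p ∧ ρ p ≤ b)
    (t : ℝ) {u v : ℝ} (huv : u ≤ v) :
    a * (v - u) ≤ (∫ x in (0 : ℝ)..v, ρ (x, t)) - ∫ x in (0 : ℝ)..u, ρ (x, t) ∧
    (∫ x in (0 : ℝ)..v, ρ (x, t)) - ∫ x in (0 : ℝ)..u, ρ (x, t) ≤ b * (v - u) := by
  rw [intervalIntegral.integral_interval_sub_left (cn_slice_int ha hρm hρ t _ _)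
    (cn_slice_int ha hρm hρ t _ _)]
  have hi := cn_slice_int ha hρm hρ t u v
  constructor
  · have := intervalIntegral.integral_mono_on huv (intervalIntegrable_const (c := a)) hi
      fun x _ => (hρ (x, t)).1
    rw [intervalIntegral.integral_const, smul_eq_mul] at this
    linarith
  · have := intervalIntegral.integral_mono_on huv hi (intervalIntegrable_const (c := b))
      fun x _ => (hρ (x, t)).2
    rw [intervalIntegral.integral_const, smul_eq_mul] at this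
    linarith

theorem cn_lip (ha : 0 < a) (hρm : Measurable ρ) (hρ : ∀ p, a ≤ ρ p ∧ ρ p ≤ b)
    (t u v : ℝ) :
    |(∫ x in (0 : ℝ)..u, ρ (x, t)) - ∫ x in (0 : ℝ)..v, ρ (x, t)| ≤ b * |u - v| := by
  rcases le_total u v with h | h
  · have h1 := cn_bounds ha hρm hρ t h
    have h2 : 0 ≤ a * (v - u) := mul_nonneg ha.le (by linarith)
    rw [abs_sub_comm, abs_sub_comm u v, abs_of_nonneg (by linarith : 0 ≤ v - u),
      abs_of_nonneg (h2.trans h1.1)]
    exact h1.2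
  · have h1 := cn_bounds ha hρm hρ t h
    have h2 : 0 ≤ a * (u - v) := mul_nonneg ha.le (by linarith)
    rw [abs_of_nonneg (by linarith : 0 ≤ u - v), abs_of_nonneg (h2.trans h1.1)]
    exact h1.2

theorem cn_abs (ha : 0 < a) (hρm : Measurable ρ) (hρ : ∀ p, a ≤ ρ p ∧ ρ p ≤ b)
    (t u : ℝ) : |∫ x in (0 : ℝ)..u, ρ (x, t)| ≤ b * |u| := by
  have := cn_lip ha hρm hρ t u 0
  rwa [intervalIntegral.integral_same, sub_zero, sub_zero] at this

theorem cn_meas {Ω : Type*} [MeasurableSpace Ω] (hρm : Measurable ρ) {g σ : Ω → ℝ}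
    (hg : Measurable g) (hσ : Measurable σ) :
    Measurable (fun ω => ∫ x in (0 : ℝ)..(g ω), ρ (x, σ ω)) := by
  have e : (fun ω => ∫ x in (0 : ℝ)..(g ω), ρ (x, σ ω)) = fun ω =>
      (∫ x, ({p : Ω × ℝ | 0 < p.2 ∧ p.2 ≤ g p.1}.indicator (fun p => ρ (p.2, σ p.1))) (ω, x)) -
      ∫ x, ({p : Ω × ℝ | g p.1 < p.2 ∧ p.2 ≤ 0}.indicator (fun p => ρ (p.2, σ p.1))) (ω, x) := by
    funext ω
    rw [intervalIntegral]
    congr 1
    · rw [← integral_indicator measurableSet_Ioc]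
      congr 1
    · rw [← integral_indicator measurableSet_Ioc]
      congr 1
  rw [e]
  have hρ' : Measurable (fun p : Ω × ℝ => ρ (p.2, σ p.1)) := by fun_prop
  refine Measurable.sub ?_ ?_
  · refine (StronglyMeasurable.integral_prod_right' (f := _) ?_).measurable
    refine (hρ'.indicator ?_).stronglyMeasurable
    exact (measurableSet_lt measurable_const measurable_snd).inter
      (measurableSet_le measurable_snd (hg.comp measurable_fst))
  · refine (StronglyMeasurable.integral_prod_right' (f := _) ?_).measurable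
    refine (hρ'.indicator ?_).stronglyMeasurable
    exact (measurableSet_lt (hg.comp measurable_fst) measurable_snd).inter
      (measurableSet_le measurable_snd measurable_const)

end inner

/-- state at step `k` -/
structure CnSt (k : ℕ) (F : ℝ → ℝ → ℝ) : Prop where
  lo : ∀ τ X Y, X ≤ Y → (1 / 2 + 1 / (2 * ((k : ℝ) + 1))) * (Y - X) ≤ F Y τ - F X τ
  up : ∀ τ X Y, X ≤ Y → F Y τ - F X τ ≤ (2 - 1 / ((k : ℝ) + 1)) * (Y - X)
  time : ∀ X τ σ, |F X τ - F X σ| ≤ 2 * k * |τ - σ|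
  dist : ∃ A, ∀ X τ, |F X τ - X| ≤ A

theorem cn_zero : CnSt 0 (fun X _ => X) where
  lo := fun τ X Y h => by norm_num
  up := fun τ X Y h => by norm_num
  time := fun X τ σ => by simp
  dist := ⟨0, fun X τ => by simp⟩

namespace CnSt

variable {k : ℕ} {F : ℝ → ℝ → ℝ}

theorem lo' (h : CnSt k F) (τ X Y : ℝ) (hXY : X ≤ Y) : 1 / 2 * (Y - X) ≤ F Y τ - F X τ := by
  refine le_trans (mul_le_mul_of_nonneg_right ?_ (by linarith)) (h.lo τ X Y hXY)
  have : (0 : ℝ) ≤ 1 / (2 * ((k : ℝ) + 1)) := by positivity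
  linarith

theorem up' (h : CnSt k F) (τ X Y : ℝ) (hXY : X ≤ Y) : F Y τ - F X τ ≤ 2 * (Y - X) := by
  refine (h.up τ X Y hXY).trans (mul_le_mul_of_nonneg_right ?_ (by linarith))
  have : (0 : ℝ) ≤ 1 / ((k : ℝ) + 1) := by positivity
  linarith

theorem mono (h : CnSt k F) (τ X Y : ℝ) (hXY : X ≤ Y) : F X τ ≤ F Y τ := by
  have := h.lo' τ X Y hXY
  linarith

theorem lipX (h : CnSt k F) (τ X Y : ℝ) : |F X τ - F Y τ| ≤ 2 * |X - Y| := by
  rcases le_total X Y with hXY | hXY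
  · rw [abs_sub_comm, abs_sub_comm X Y, abs_of_nonneg (sub_nonneg.2 (h.mono τ X Y hXY)),
      abs_of_nonneg (by linarith : 0 ≤ Y - X)]
    exact h.up' τ X Y hXY
  · rw [abs_of_nonneg (sub_nonneg.2 (h.mono τ Y X hXY)), abs_of_nonneg (by linarith : 0 ≤ X - Y)]
    exact h.up' τ Y X hXY

theorem cont (h : CnSt k F) : Continuous (fun p : ℝ × ℝ => F p.1 p.2) := by
  refine cn_cont _ (2 + 2 * k) 0 fun p p' m hm => ?_
  rw [Prod.dist_eq, max_le_iff, Real.dist_eq, Real.dist_eq] at hm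
  have h1 := h.lipX p.2 p.1 p'.1
  have h2 := h.time p'.1 p.2 p'.2
  have h3 : |F p.1 p.2 - F p'.1 p'.2| ≤ |F p.1 p.2 - F p'.1 p.2| + |F p'.1 p.2 - F p'.1 p'.2| :=
    abs_sub_le _ _ _
  have hk : (0 : ℝ) ≤ 2 * k := by positivity
  have h4 := mul_le_mul_of_nonneg_left hm.2 hk
  have h5 : (2 + 2 * (k : ℝ)) * ((m : ℝ) + 1) ^ 0 / 2 ^ m = 2 * (1 / 2 ^ m) +
      2 * k * (1 / 2 ^ m) := by rw [pow_zero]; ring
  rw [h5]
  linarith [hm.1]

end CnSt

section step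

variable {a b : ℝ} {ρ : ℝ × ℝ → ℝ}

theorem cn_good (ha : 0 < a) (hρm : Measurable ρ) (hρ : ∀ p, a ≤ ρ p ∧ ρ p ≤ b) {k : ℕ}
    {F : ℝ → ℝ → ℝ} (h : CnSt k F) :
    Good (a / 2) (2 * b) (fun X τ => ∫ x in (0 : ℝ)..(F X τ), ρ (x, τ)) where
  lower := fun τ X Y hXY => by
    have h1 := (cn_bounds ha hρm hρ τ (h.mono τ X Y hXY)).1
    have h2 := mul_le_mul_of_nonneg_left (h.lo' τ X Y hXY) ha.le
    linarith
  upper := fun τ X Y hXY => by
    have hb : 0 ≤ b := ha.le.trans ((hρ (0, 0)).1.trans (hρ (0, 0)).2)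
    have h1 := (cn_bounds ha hρm hρ τ (h.mono τ X Y hXY)).2
    have h2 := mul_le_mul_of_nonneg_left (h.up' τ X Y hXY) hb
    linarith
  meas := cn_meas (Ω := ℝ × ℝ) hρm h.cont.measurable measurable_snd
  bdd := by
    have hb : 0 ≤ b := ha.le.trans ((hρ (0, 0)).1.trans (hρ (0, 0)).2)
    obtain ⟨A, hA⟩ := h.dist
    refine ⟨b * A, fun τ => (cn_abs ha hρm hρ τ _).trans (mul_le_mul_of_nonneg_left ?_ hb)⟩
    have := hA 0 τ
    rwa [sub_zero] at this

/-- one step -/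
theorem cn_step (ha : 0 < a) (hρm : Measurable ρ) (hρ : ∀ p, a ≤ ρ p ∧ ρ p ≤ b) :
    ∃ L₀ : ℕ, 12 ≤ L₀ ∧ ∀ (k : ℕ) (F : ℝ → ℝ → ℝ), ∃ F' : ℝ → ℝ → ℝ, CnSt k F →
      CnSt (k + 1) F' ∧
      (∀ X τ, |F' X τ - F X τ| ≤ 2 * L₀ * (((k : ℝ) + 1) ^ 2 / 2 ^ k)) ∧
      ∀ (j : ℤ) (t : ℝ), 0 ≤ t →
        |(∫ τ in (0 : ℝ)..t, ∫ x in (0 : ℝ)..(F' (j * ((1 / 2 ^ k) / 2)) τ), ρ (x, τ))
          - smooth ((L₀ * (k + 1) ^ 2 : ℕ) * (1 / 2 ^ k))
              (((L₀ * (k + 1) ^ 2 : ℕ) : ℝ) ^ 2 * (1 / 2 ^ k))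
              (interp (1 / 2 ^ k) (fun Y => ∫ τ in (0 : ℝ)..t, ∫ x in (0 : ℝ)..(F Y τ), ρ (x, τ)))
              (j * ((1 / 2 ^ k) / 2))|
          ≤ (50 * (2 * b)) * ((L₀ * (k + 1) ^ 2 : ℕ) : ℝ) ^ 5 * (1 / 2 ^ k) ^ 2 := by
  obtain ⟨C, L₁, hC, hL₁, hlev⟩ := level (a / 2) (2 * b) (by linarith)
  obtain ⟨L₂, hL₂⟩ := exists_nat_ge (16 * C)
  refine ⟨L₁ + L₂ + 12, by omega, fun k F => ?_⟩
  by_cases h : CnSt k F
  swap
  · exact ⟨F, fun h' => absurd h' h⟩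
  set L₀ : ℕ := L₁ + L₂ + 12 with hL₀
  have hk0 : (0 : ℝ) ≤ k := Nat.cast_nonneg k
  have hk1 : (0 : ℝ) < (k : ℝ) + 1 := by linarith
  have hLL : L₁ ≤ L₀ * (k + 1) ^ 2 := by
    have : 1 ≤ (k + 1) ^ 2 := Nat.one_le_pow _ _ (Nat.succ_pos k)
    calc L₁ ≤ L₀ := by omega
      _ = L₀ * 1 := (mul_one _).symm
      _ ≤ _ := Nat.mul_le_mul_left _ this
  obtain ⟨g, hg1, hg2, hg3, hg4⟩ := hlev _ (cn_good ha hρm hρ h) (L₀ * (k + 1) ^ 2) hLL
    (1 / 2 ^ k) (by positivity)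
  refine ⟨fun X τ => F (X + g X τ) τ, fun _ => ⟨?_, ?_, ?_⟩⟩
  · -- the new state
    have hLcast : ((L₀ * (k + 1) ^ 2 : ℕ) : ℝ) = L₀ * ((k : ℝ) + 1) ^ 2 := by push_cast; ring
    have hL0r : 16 * C ≤ (L₀ : ℝ) := by
      have : ((L₁ + L₂ + 12 : ℕ) : ℝ) = L₁ + L₂ + 12 := by push_cast; ring
      rw [hL₀, this]
      have : (0 : ℝ) ≤ L₁ := Nat.cast_nonneg _
      linarith
    have hL0p : (0 : ℝ) < L₀ := by linarith [mul_pos (by norm_num : (0:ℝ) < 16) hC]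
    set κ : ℝ := C / ((L₀ * (k + 1) ^ 2 : ℕ) : ℝ) with hκ
    have hκ0 : 0 ≤ κ := by positivity
    have hκ1 : κ ≤ 1 / (16 * ((k : ℝ) + 1) ^ 2) := by
      rw [hκ, hLcast, div_le_div_iff₀ (by positivity) (by positivity)]
      have : C * (16 * ((k : ℝ) + 1) ^ 2) = (16 * C) * ((k : ℝ) + 1) ^ 2 := by ring
      rw [this, one_mul]
      exact mul_le_mul_of_nonneg_right hL0r (by positivity)
    have hκ2 : κ ≤ 1 := by
      refine hκ1.trans ?_
      rw [div_le_one (by positivity)]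
      nlinarith
    -- the shift
    have hsh : ∀ τ X Y, X ≤ Y → (1 - κ) * (Y - X) ≤ (Y + g Y τ) - (X + g X τ) ∧
        (Y + g Y τ) - (X + g X τ) ≤ (1 + κ) * (Y - X) := by
      intro τ X Y hXY
      have h1 := hg2 Y X τ
      rw [abs_of_nonneg (by linarith : 0 ≤ Y - X)] at h1
      have h2 := abs_le.1 h1
      constructor
      · linarith [h2.1]
      · linarith [h2.2]
    have hsh0 : ∀ τ X Y, X ≤ Y → X + g X τ ≤ Y + g Y τ := by
      intro τ X Y hXY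
      have := (hsh τ X Y hXY).1
      have : 0 ≤ (1 - κ) * (Y - X) := mul_nonneg (by linarith) (by linarith)
      linarith
    have hinv : 1 / (16 * ((k : ℝ) + 1) ^ 2) ≤ 1 / (8 * (((k : ℝ) + 1) * ((k : ℝ) + 2))) := by
      rw [div_le_div_iff₀ (by positivity) (by positivity)]
      nlinarith
    refine ⟨?_, ?_, ?_, ?_⟩
    · intro τ X Y hXY
      have h1 := h.lo τ _ _ (hsh0 τ X Y hXY)
      have h2 := (hsh τ X Y hXY).1
      set c : ℝ := 1 / 2 + 1 / (2 * ((k : ℝ) + 1)) with hc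
      have hc0 : 0 ≤ c := by positivity
      have hc1 : c ≤ 1 := by
        have : 1 / (2 * ((k : ℝ) + 1)) ≤ 1 / 2 := by
          apply one_div_le_one_div_of_le (by norm_num)
          linarith
        rw [hc]; linarith
      have h3 := mul_le_mul_of_nonneg_left h2 hc0
      have h4 : 1 / 2 + 1 / (2 * (((k + 1 : ℕ) : ℝ) + 1)) ≤ c * (1 - κ) := by
        have e1 : c = 1 / 2 + 1 / (2 * (((k + 1 : ℕ) : ℝ) + 1)) +
            1 / (2 * (((k : ℝ) + 1) * ((k : ℝ) + 2))) := by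
          rw [hc]
          push_cast
          field_simp
          ring
        have e2 : 1 / (8 * (((k : ℝ) + 1) * ((k : ℝ) + 2))) ≤
            1 / (2 * (((k : ℝ) + 1) * ((k : ℝ) + 2))) := by
          apply one_div_le_one_div_of_le (by positivity)
          nlinarith
        have e3 : c * κ ≤ κ := mul_le_of_le_one_left hκ0 hc1
        have e4 : c * (1 - κ) = c - c * κ := by ring
        rw [e4]
        linarith
      have h5 := mul_le_mul_of_nonneg_right h4 (by linarith : 0 ≤ Y - X)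
      show _ ≤ F (Y + g Y τ) τ - F (X + g X τ) τ
      linarith
    · intro τ X Y hXY
      have h1 := h.up τ _ _ (hsh0 τ X Y hXY)
      have h2 := (hsh τ X Y hXY).2
      set c : ℝ := 2 - 1 / ((k : ℝ) + 1) with hc
      have hc0 : 0 ≤ c := by
        have : 1 / ((k : ℝ) + 1) ≤ 1 := by
          rw [div_le_one hk1]; linarith
        linarith
      have hc1 : c ≤ 2 := by
        have : 0 ≤ 1 / ((k : ℝ) + 1) := by positivity
        linarith
      have h3 := mul_le_mul_of_nonneg_left h2 hc0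
      have h4 : c * (1 + κ) ≤ 2 - 1 / (((k + 1 : ℕ) : ℝ) + 1) := by
        have e1 : 2 - 1 / (((k + 1 : ℕ) : ℝ) + 1) = c + 1 / (((k : ℝ) + 1) * ((k : ℝ) + 2)) := by
          rw [hc]
          push_cast
          field_simp
          ring
        have e2 : 2 * (1 / (8 * (((k : ℝ) + 1) * ((k : ℝ) + 2)))) ≤
            1 / (((k : ℝ) + 1) * ((k : ℝ) + 2)) := by
          rw [mul_one_div, div_le_div_iff₀ (by positivity) (by positivity)]
          nlinarith [mul_pos hk1 (by linarith : (0 : ℝ) < (k : ℝ) + 2)]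
        have e3 : c * κ ≤ 2 * κ := mul_le_mul_of_nonneg_right hc1 hκ0
        rw [e1]
        linarith
      have h5 := mul_le_mul_of_nonneg_right h4 (by linarith : 0 ≤ Y - X)
      show F (Y + g Y τ) τ - F (X + g X τ) τ ≤ _
      linarith
    · intro X τ σ
      have h1 := h.lipX τ (X + g X τ) (X + g X σ)
      have h2 := h.time (X + g X σ) τ σ
      have h3 := hg3 X τ σ
      have h4 : X + g X τ - (X + g X σ) = g X τ - g X σ := by ring
      rw [h4] at h1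
      show |F (X + g X τ) τ - F (X + g X σ) σ| ≤ _
      have h5 : |F (X + g X τ) τ - F (X + g X σ) σ| ≤
          |F (X + g X τ) τ - F (X + g X σ) τ| + |F (X + g X σ) τ - F (X + g X σ) σ| :=
        abs_sub_le _ _ _
      push_cast
      linarith
    · obtain ⟨A, hA⟩ := h.dist
      refine ⟨A + (L₀ * (k + 1) ^ 2 : ℕ) * (1 / 2 ^ k), fun X τ => ?_⟩
      have h1 := hA (X + g X τ) τ
      have h2 := hg1 X τ
      show |F (X + g X τ) τ - X| ≤ _
      have h3 : |F (X + g X τ) τ - X| ≤ |F (X + g X τ) τ - (X + g X τ)| + |(X + g X τ) - X| :=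
        abs_sub_le _ _ _
      rw [add_sub_cancel_left] at h3
      linarith
  · intro X τ
    have h1 := h.lipX τ (X + g X τ) X
    rw [add_sub_cancel_left] at h1
    have h2 := hg1 X τ
    show |F (X + g X τ) τ - F X τ| ≤ _
    have h3 : 2 * (((L₀ * (k + 1) ^ 2 : ℕ) : ℝ) * (1 / 2 ^ k)) =
        2 * L₀ * (((k : ℝ) + 1) ^ 2 / 2 ^ k) := by push_cast; ring
    linarith
  · intro j t ht
    exact hg4 j t ht

end step

/-- the explicit tail of the series -/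
noncomputable def cnS (k : ℕ) : ℝ := (2 * (k : ℝ) ^ 2 + 8 * k + 12) / 2 ^ k

theorem cnS_succ (k : ℕ) : cnS k - cnS (k + 1) = ((k : ℝ) + 1) ^ 2 / 2 ^ k := by
  unfold cnS
  push_cast
  rw [pow_succ]
  field_simp
  ring

theorem cnS_nonneg (k : ℕ) : 0 ≤ cnS k := by unfold cnS; positivity

theorem cnS_le (k : ℕ) : cnS k ≤ 12 * ((k : ℝ) + 1) ^ 2 / 2 ^ k := by
  unfold cnS
  apply div_le_div_of_nonneg_right _ (by positivity)
  have : (0 : ℝ) ≤ k := Nat.cast_nonneg k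
  nlinarith

theorem cnS_tendsto : Tendsto cnS atTop (𝓝 0) :=
  squeeze_zero cnS_nonneg cnS_le (cn_lim 12 2)

theorem cn_tail {D : ℝ} (x : ℕ → ℝ)
    (h : ∀ k, |x (k + 1) - x k| ≤ D * (((k : ℝ) + 1) ^ 2 / 2 ^ k)) (k n : ℕ) (hkn : k ≤ n) :
    |x n - x k| ≤ D * (cnS k - cnS n) := by
  induction n, hkn using Nat.le_induction with
  | base => simp
  | succ n hn ih =>
    have h1 := h n
    rw [← cnS_succ] at h1
    have h2 : |x (n + 1) - x k| ≤ |x (n + 1) - x n| + |x n - x k| := abs_sub_le _ _ _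
    linarith

theorem cn_limit {D : ℝ} (hD : 0 ≤ D) (x : ℕ → ℝ)
    (h : ∀ k, |x (k + 1) - x k| ≤ D * (((k : ℝ) + 1) ^ 2 / 2 ^ k)) :
    ∃ y, Tendsto x atTop (𝓝 y) ∧ ∀ k, |y - x k| ≤ D * cnS k := by
  have h1 : ∀ k n, k ≤ n → |x n - x k| ≤ D * cnS k := fun k n hkn =>
    (cn_tail x h k n hkn).trans (mul_le_mul_of_nonneg_left (by linarith [cnS_nonneg n]) hD)
  have hc : CauchySeq x := by
    refine cauchySeq_of_le_tendsto_0 (fun k => 2 * (D * cnS k)) (fun n m N hn hm => ?_) ?_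
    · rw [Real.dist_eq]
      have h2 : |x n - x m| ≤ |x n - x N| + |x N - x m| := abs_sub_le _ _ _
      rw [abs_sub_comm (x N) (x m)] at h2
      have := h1 N n hn
      have := h1 N m hm
      linarith
    · have := (cnS_tendsto.const_mul D).const_mul 2
      rwa [mul_zero, mul_zero] at this
  obtain ⟨y, hy⟩ := cauchySeq_tendsto_of_complete hc
  refine ⟨y, hy, fun k => ?_⟩
  refine le_of_tendsto ((hy.sub_const (x k)).abs) ?_
  filter_upwards [eventually_ge_atTop k] with n hn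
  exact h1 k n hn

/- TARGET: `construction`.
`M x τ = ∫_0^x ρ(s,τ) ds`.  For `F : ℝ → ℝ → ℝ` let `N_F X τ = M (F X τ) τ`.
Constants: `(C, L₁)` from `level (a/2) (2b)`; `L₀ ≥ max L₁ 12` with `4 C/L₀ ≤ 1/4` (so that `κ_k = C/L_k`, `L_k = L₀ (k+1)²`, satisfies
`∏ (1 - κ_k) ≥ 1/2`, `∏ (1 + κ_k) ≤ 2`; e.g. keep the invariants `c_k = 1/2 + 1/(2(k+1))`-like rational bounds: with
`κ_k ≤ 1/(16 (k+1)²)` one has `(1/2 + 1/(2(k+1))) (1 - κ_k) ≥ 1/2 + 1/(2(k+2))` and `(2 - 1/(k+1)) (1 + κ_k) ≤ 2 - 1/(k+2)`).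
State at step `k`: `F` with `c_k (Y-X) ≤ F Y τ - F X τ ≤ C_k (Y-X)` for `X ≤ Y` (where `1/2 ≤ c_k`, `C_k ≤ 2`),
`|F X τ - F X σ| ≤ 2 k |τ - σ|`, `|F X τ - X| ≤ A_k`.  Then `N_F` is `Good (a/2) (2b)` (measurable: Caratheodory,
`measurable_uncurry_of_continuous_of_measurable` / composition of `M` jointly measurable with the continuous `F`), apply `level` with
`L = L_k`, `w = 1/2^k`, and put `F' X τ = F (X + g X τ) τ`; `|F' - F| ≤ 2 L_k/2^k`, `|F' X τ - F' X σ| ≤ 2k|τ-σ| + 2|τ-σ|`.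
Limit: `F_k → F` uniformly, `|F - F_k| ≤ ∑_{m≥k} 2 L₀ (m+1)²/2^m`.  Time modulus of `F` at `|τ-σ| ≤ 1/2^k`: use `F_{2k}`:
`4k/2^k + 2 * C' (2k+1)²/4^k ≤ C (k+1)/2^k`.
For fixed `t ∈ [0,1]` apply `growth` to `u k X = ∫_0^t N_{F_k} X τ dτ` (`E = 100 b`, Lipschitz constant `2 b`) and
`uinf X = ∫_0^t M (F X τ) τ dτ`; convergence since `|M x τ - M y τ| ≤ b |x - y|`. -/

theorem construction (a b : ℝ) (ha : 0 < a) (hab : a ≤ b) (ρ : ℝ × ℝ → ℝ) (hρm : Measurable ρ)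
    (hρ : ∀ p, a ≤ ρ p ∧ ρ p ≤ b) :
    ∃ F : ℝ → ℝ → ℝ,
      (∀ t X Y, X ≤ Y → (Y - X) / 2 ≤ F Y t - F X t ∧ F Y t - F X t ≤ 2 * (Y - X)) ∧
      (∃ C : ℝ, ∀ X s t, ∀ k : ℕ,
        |t - s| ≤ 1 / 2 ^ k → |F X t - F X s| ≤ C * ((k : ℝ) + 1) / 2 ^ k) ∧
      ∃ P : ℝ, 0 ≤ P ∧ ∀ t ∈ Icc (0 : ℝ) 1, ∀ (k : ℕ) (j : ℤ),
        |(∫ τ in (0 : ℝ)..t, ∫ x in (0 : ℝ)..(F (((j : ℝ) + 1) / 2 ^ k) τ), ρ (x, τ))
          - 2 * (∫ τ in (0 : ℝ)..t, ∫ x in (0 : ℝ)..(F ((j : ℝ) / 2 ^ k) τ), ρ (x, τ))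
          + ∫ τ in (0 : ℝ)..t, ∫ x in (0 : ℝ)..(F (((j : ℝ) - 1) / 2 ^ k) τ), ρ (x, τ)|
        ≤ P * ((k : ℝ) + 1) ^ 15 / 4 ^ k := by
  have hb : 0 < b := ha.trans_le hab
  obtain ⟨L₀, hL₀, hstep⟩ := cn_step ha hρm hρ
  choose step hstep using hstep
  set Fs : ℕ → ℝ → ℝ → ℝ := fun k => Nat.rec (fun X _ => X) (fun k F => step k F) k with hFs
  have hFs0 : Fs 0 = fun X _ => X := rfl
  have hFs1 : ∀ k, Fs (k + 1) = step k (Fs k) := fun k => rfl
  have hSt : ∀ k, CnSt k (Fs k) := by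
    intro k
    induction k with
    | zero => exact cn_zero
    | succ k ih => rw [hFs1]; exact (hstep k (Fs k) ih).1
  have hR1 : ∀ k X τ, |Fs (k + 1) X τ - Fs k X τ| ≤ 2 * L₀ * (((k : ℝ) + 1) ^ 2 / 2 ^ k) := by
    intro k
    rw [hFs1]
    exact (hstep k (Fs k) (hSt k)).2.1
  have hR2 := fun k => (hstep k (Fs k) (hSt k)).2.2
  simp only [← hFs1] at hR2
  -- the limit
  have hD : (0 : ℝ) ≤ 2 * L₀ := by positivity
  choose F hF1 hF2 using fun X τ => cn_limit hD (fun k => Fs k X τ) (fun k => hR1 k X τ)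
  have hmod : ∀ X s t, ∀ k : ℕ, |t - s| ≤ 1 / 2 ^ k →
      |F X t - F X s| ≤ (96 * (2 * L₀) + 4) * ((k : ℝ) + 1) / 2 ^ k := by
    intro X s t k hst
    have h1 := hF2 X t (2 * k)
    have h2 := hF2 X s (2 * k)
    have h3 := (hSt (2 * k)).time X t s
    have h4 : |F X t - F X s| ≤ |F X t - Fs (2 * k) X t| + |Fs (2 * k) X t - F X s| :=
      abs_sub_le _ _ _
    have h5 : |Fs (2 * k) X t - F X s| ≤ |Fs (2 * k) X t - Fs (2 * k) X s| +
        |Fs (2 * k) X s - F X s| := abs_sub_le _ _ _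
    rw [abs_sub_comm (Fs (2 * k) X s) (F X s)] at h5
    have hk0 : (0 : ℝ) ≤ k := Nat.cast_nonneg k
    have h6 : cnS (2 * k) ≤ 48 * ((k : ℝ) + 1) / 2 ^ k := by
      refine (cnS_le _).trans ?_
      have e1 : (2 : ℝ) ^ (2 * k) = 2 ^ k * 2 ^ k := by rw [two_mul, pow_add]
      have e2 : ((k : ℝ) + 1) ≤ 2 ^ k := by
        have : k + 1 ≤ 2 ^ k := Nat.lt_two_pow_self
        exact_mod_cast this
      rw [e1, div_le_div_iff₀ (by positivity) (by positivity)]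
      have hp : (0 : ℝ) < 2 ^ k := by positivity
      have e3 : 12 * (((2 * k : ℕ) : ℝ) + 1) ^ 2 ≤ 48 * ((k : ℝ) + 1) * 2 ^ k := by
        push_cast
        have e4 : (2 * (k : ℝ) + 1) ^ 2 ≤ 4 * ((k : ℝ) + 1) * ((k : ℝ) + 1) := by nlinarith
        have e5 : 4 * ((k : ℝ) + 1) * ((k : ℝ) + 1) ≤ 4 * ((k : ℝ) + 1) * 2 ^ k :=
          mul_le_mul_of_nonneg_left e2 (by positivity)
        linarith
      calc 12 * (((2 * k : ℕ) : ℝ) + 1) ^ 2 * 2 ^ k ≤ 48 * ((k : ℝ) + 1) * 2 ^ k * 2 ^ k :=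
            mul_le_mul_of_nonneg_right e3 hp.le
        _ = _ := by ring
    have h7 := mul_le_mul_of_nonneg_left h6 hD
    have h8 : 2 * ((2 * k : ℕ) : ℝ) * |t - s| ≤ 4 * k * (1 / 2 ^ k) := by
      push_cast
      have := mul_le_mul_of_nonneg_left hst (by positivity : (0 : ℝ) ≤ 2 * (2 * k))
      linarith
    have h9 : 4 * (k : ℝ) * (1 / 2 ^ k) ≤ 4 * ((k : ℝ) + 1) / 2 ^ k := by
      rw [mul_one_div]
      apply div_le_div_of_nonneg_right _ (by positivity)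
      linarith
    have h10 : (96 * (2 * (L₀ : ℝ)) + 4) * ((k : ℝ) + 1) / 2 ^ k =
        2 * (2 * L₀ * (48 * ((k : ℝ) + 1) / 2 ^ k)) + 4 * ((k : ℝ) + 1) / 2 ^ k := by ring
    rw [h10]
    linarith
  refine ⟨F, ?_, ⟨96 * (2 * L₀) + 4, hmod⟩, ?_⟩
  · intro t X Y hXY
    constructor
    · refine ge_of_tendsto ((hF1 Y t).sub (hF1 X t)) (Filter.Eventually.of_forall fun k => ?_)
      have := (hSt k).lo' t X Y hXY
      linarith
    · refine le_of_tendsto ((hF1 Y t).sub (hF1 X t)) (Filter.Eventually.of_forall fun k => ?_)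
      exact (hSt k).up' t X Y hXY
  · obtain ⟨P, hP0, hP⟩ := growth L₀ hL₀ b (50 * (2 * b)) hb.le (by positivity)
    refine ⟨P, hP0, fun t ht k j => ?_⟩
    -- integrability
    have hcontF : ∀ X, Continuous (F X) := fun X => by
      refine cn_cont _ (96 * (2 * L₀) + 4) 1 fun p p' m hm => ?_
      rw [pow_one]
      refine hmod X p' p m ?_
      rwa [Real.dist_eq] at hm
    have hint : ∀ (G : ℝ → ℝ) (A : ℝ), Continuous G → (∀ τ, |G τ| ≤ A) →
        IntervalIntegrable (fun τ => ∫ x in (0 : ℝ)..(G τ), ρ (x, τ)) volume 0 t := by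
      intro G A hG hA
      refine (intervalIntegrable_const (c := b * A)).mono_fun
        (cn_meas hρm hG.measurable measurable_id).aestronglyMeasurable ?_
      refine Filter.Eventually.of_forall fun τ => ?_
      show ‖∫ x in (0 : ℝ)..(G τ), ρ (x, τ)‖ ≤ ‖b * A‖
      rw [Real.norm_eq_abs, Real.norm_eq_abs]
      exact ((cn_abs ha hρm hρ τ _).trans (mul_le_mul_of_nonneg_left (hA τ) hb.le)).trans
        (le_abs_self _)
    have hintk : ∀ k x, IntervalIntegrable (fun τ => ∫ y in (0 : ℝ)..(Fs k x τ), ρ (y, τ))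
        volume 0 t := by
      intro k x
      obtain ⟨A, hA⟩ := (hSt k).dist
      refine hint _ (A + |x|) ((hSt k).cont.comp (by fun_prop : Continuous fun τ : ℝ => (x, τ)))
        fun τ => ?_
      have h1 : |Fs k x τ| = |(Fs k x τ - x) + x| := by ring_nf
      rw [h1]
      exact (abs_add_le _ _).trans (by linarith [hA x τ])
    have hintF : ∀ x, IntervalIntegrable (fun τ => ∫ y in (0 : ℝ)..(F x τ), ρ (y, τ))
        volume 0 t := by
      intro x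
      refine hint _ (2 * L₀ * cnS 0 + |x|) (hcontF x) fun τ => ?_
      have h1 : |F x τ| = |(F x τ - x) + x| := by ring_nf
      rw [h1]
      have h2 := hF2 x τ 0
      exact (abs_add_le _ _).trans (by
        change |F x τ - x| ≤ _ at h2
        linarith)
    -- comparison of integrals
    have hcmp : ∀ (G G' : ℝ → ℝ) (ε : ℝ), (∀ τ, |G τ - G' τ| ≤ ε) →
        IntervalIntegrable (fun τ => ∫ y in (0 : ℝ)..(G τ), ρ (y, τ)) volume 0 t →
        IntervalIntegrable (fun τ => ∫ y in (0 : ℝ)..(G' τ), ρ (y, τ)) volume 0 t →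
        |(∫ τ in (0 : ℝ)..t, ∫ y in (0 : ℝ)..(G τ), ρ (y, τ)) -
          ∫ τ in (0 : ℝ)..t, ∫ y in (0 : ℝ)..(G' τ), ρ (y, τ)| ≤ b * ε := by
      intro G G' ε hε h1 h2
      rw [← intervalIntegral.integral_sub h1 h2]
      have h3 := intervalIntegral.norm_integral_le_of_norm_le_const (a := (0 : ℝ)) (b := t)
        (C := b * ε) (f := fun τ => (∫ y in (0 : ℝ)..(G τ), ρ (y, τ)) -
          ∫ y in (0 : ℝ)..(G' τ), ρ (y, τ)) fun τ _ => by
            rw [Real.norm_eq_abs]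
            exact (cn_lip ha hρm hρ τ _ _).trans (mul_le_mul_of_nonneg_left (hε τ) hb.le)
      rw [Real.norm_eq_abs, sub_zero, abs_of_nonneg ht.1] at h3
      have hε0 : 0 ≤ ε := (abs_nonneg _).trans (hε 0)
      exact h3.trans (mul_le_of_le_one_right (mul_nonneg hb.le hε0) ht.2)
    refine hP (fun k x => ∫ τ in (0 : ℝ)..t, ∫ y in (0 : ℝ)..(Fs k x τ), ρ (y, τ))
      (fun x => ∫ τ in (0 : ℝ)..t, ∫ y in (0 : ℝ)..(F x τ), ρ (y, τ)) ?_ ?_ ?_ k j
    · intro x y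
      exact hcmp _ _ _ (fun τ => le_of_eq rfl) (hintk 0 x) (hintk 0 y)
    · intro k j
      exact hR2 k j t ht.1
    · intro x
      rw [tendsto_iff_dist_tendsto_zero]
      refine squeeze_zero (fun _ => dist_nonneg)
        (g := fun k => b * (2 * L₀ * cnS k)) (fun k => ?_) ?_
      · rw [Real.dist_eq, abs_sub_comm]
        exact hcmp _ _ _ (fun τ => hF2 x τ k) (hintF x) (hintk k x)
      · have := (cnS_tendsto.const_mul (2 * (L₀ : ℝ))).const_mul b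
        rwa [mul_zero, mul_zero] at this

end Pool.Agent.helper312_fol
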