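import Mathlib

set_option autoImplicit false

open Set MeasureTheory

namespace Pool.Agent.helper312_fol

/-- Piecewise linear interpolation of `h` from the grid `w ℤ`. -/
noncomputable def interp (w : ℝ) (h : ℝ → ℝ) (X : ℝ) : ℝ :=
  (1 - Int.fract (X / w)) * h (⌊X / w⌋ * w) + Int.fract (X / w) * h ((⌊X / w⌋ + 1) * w)

/-- The weight `(1 + cos (π X / R)) / 2`. -/
noncomputable def cw (R X : ℝ) : ℝ := (1 + Real.cos (Real.pi * X / R)) / 2

/-- Average of `J` over random shifts `W (S y₁ + (1 - S) y₂)`, `S = cw R X`, with `y₁, y₂`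
uniform in `[-1/2, 1/2]`. -/
noncomputable def smooth (W R : ℝ) (J : ℝ → ℝ) (X : ℝ) : ℝ :=
  ∫ y₁ in (-1/2 : ℝ)..(1/2), ∫ y₂ in (-1/2 : ℝ)..(1/2),
    J (X + W * (cw R X * y₁ + (1 - cw R X) * y₂))

/-- Coarse `C^{1,1}` class: mixed second differences. -/
def MixedDiff (B w : ℝ) (J : ℝ → ℝ) : Prop :=
  ∀ Y Z η : ℝ, |(J (Y + η) - J Y) - (J (Z + η) - J Z)| ≤ B * |η| * (|Y - Z| + w)

/-- Bi-Lipschitz increasing in `X`, jointly measurable, locally bounded. -/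
structure Good (a b : ℝ) (N : ℝ → ℝ → ℝ) : Prop where
  lower : ∀ τ X Y, X ≤ Y → a * (Y - X) ≤ N Y τ - N X τ
  upper : ∀ τ X Y, X ≤ Y → N Y τ - N X τ ≤ b * (Y - X)
  meas : Measurable (fun p : ℝ × ℝ => N p.1 p.2)
  bdd : ∃ C, ∀ τ, |N 0 τ| ≤ C

/-- Trapezoid bump of the time block `[s, s + T]`, slopes `1 / W`. -/
noncomputable def bump (s T W τ : ℝ) : ℝ :=
  max 0 (min 1 (min ((τ - s) / W) ((s + T - τ) / W)))

/-- Integral over the time block `[s, s + T]` of `N` along the curve number `X` shifted by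
`bump · (W (S y₁ + (1 - S) y₂) + δ)`. -/
noncomputable def blockInt (N : ℝ → ℝ → ℝ) (s T W R X δ y₁ y₂ : ℝ) : ℝ :=
  ∫ τ in s..(s + T), N (X + bump s T W τ * (W * (cw R X * y₁ + (1 - cw R X) * y₂) + δ)) τ

/-- Index of the even centre `2 p R` with `X ∈ [(2p-1)R, (2p+1)R)`. -/
noncomputable def pe (R X : ℝ) : ℤ := ⌊(X / R + 1) / 2⌋

/-- Index of the odd centre `(2 p + 1) R` with `X ∈ [2pR, (2p+2)R)`. -/
noncomputable def po (R X : ℝ) : ℤ := ⌊X / R / 2⌋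

end Pool.Agent.helper312_fol
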