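import Pool.Agent.helper312_fol.Defs

set_option autoImplicit false

open Set MeasureTheory

namespace Pool.Agent.helper312_fol

section aux431

theorem A431_cont_of_lip {f : ℝ → ℝ} {K : ℝ} (h : ∀ x y, |f x - f y| ≤ K * |x - y|) :
    Continuous f := by
  have hK : 0 ≤ K := by
    have h1 := h 1 0
    have h2 := abs_nonneg (f 1 - f 0)
    norm_num at h1
    linarith
  have : LipschitzWith ⟨K, hK⟩ f := LipschitzWith.of_dist_le_mul (by
    intro x y
    rw [Real.dist_eq, Real.dist_eq]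
    exact h x y)
  exact this.continuous

/-- the double integral over the square -/
noncomputable def A431_E (f : ℝ → ℝ → ℝ) : ℝ :=
  ∫ y₁ in (-1/2 : ℝ)..(1/2), ∫ y₂ in (-1/2 : ℝ)..(1/2), f y₁ y₂

theorem A431_E_sub {f g : ℝ → ℝ → ℝ} (hf : Continuous (Function.uncurry f))
    (hg : Continuous (Function.uncurry g)) :
    A431_E (fun y₁ y₂ => f y₁ y₂ - g y₁ y₂) = A431_E f - A431_E g := by
  unfold A431_E
  have h1 : ∀ y₁, ∫ y₂ in (-1/2 : ℝ)..(1/2), (f y₁ y₂ - g y₁ y₂) =
      (∫ y₂ in (-1/2 : ℝ)..(1/2), f y₁ y₂) - ∫ y₂ in (-1/2 : ℝ)..(1/2), g y₁ y₂ := by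
    intro y₁
    have c1 : Continuous (f y₁) := hf.comp (by fun_prop : Continuous fun y : ℝ => (y₁, y))
    have c2 : Continuous (g y₁) := hg.comp (by fun_prop : Continuous fun y : ℝ => (y₁, y))
    exact intervalIntegral.integral_sub (c1.intervalIntegrable _ _) (c2.intervalIntegrable _ _)
  simp only [h1]
  exact intervalIntegral.integral_sub
    ((intervalIntegral.continuous_parametric_intervalIntegral_of_continuous' hf _ _).intervalIntegrable _ _)
    ((intervalIntegral.continuous_parametric_intervalIntegral_of_continuous' hg _ _).intervalIntegrable _ _)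

theorem A431_abs_int_le {f : ℝ → ℝ} {M : ℝ} (h : ∀ y ∈ Icc (-1/2 : ℝ) (1/2), |f y| ≤ M) :
    |∫ y in (-1/2 : ℝ)..(1/2), f y| ≤ M := by
  have h1 : ∀ y ∈ Set.uIoc (-1/2 : ℝ) (1/2), ‖f y‖ ≤ M := by
    intro y hy
    rw [Set.uIoc_of_le (by norm_num)] at hy
    exact h y ⟨hy.1.le, hy.2⟩
  have h2 := intervalIntegral.norm_integral_le_of_norm_le_const h1
  rw [Real.norm_eq_abs] at h2
  norm_num at h2
  norm_num
  exact h2

theorem A431_abs_E_le {f : ℝ → ℝ → ℝ} {M : ℝ}
    (h : ∀ y₁ ∈ Icc (-1/2 : ℝ) (1/2), ∀ y₂ ∈ Icc (-1/2 : ℝ) (1/2), |f y₁ y₂| ≤ M) :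
    |A431_E f| ≤ M :=
  A431_abs_int_le fun y₁ h1 => A431_abs_int_le fun y₂ h2 => h y₁ h1 y₂ h2

theorem A431_E_mono {f g : ℝ → ℝ → ℝ} (hf : Continuous (Function.uncurry f))
    (hg : Continuous (Function.uncurry g)) (h : ∀ y₁ y₂, f y₁ y₂ ≤ g y₁ y₂) :
    A431_E f ≤ A431_E g := by
  unfold A431_E
  refine intervalIntegral.integral_mono (by norm_num)
    ((intervalIntegral.continuous_parametric_intervalIntegral_of_continuous' hf _ _).intervalIntegrable _ _)
    ((intervalIntegral.continuous_parametric_intervalIntegral_of_continuous' hg _ _).intervalIntegrable _ _)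
    ?_
  intro y₁
  have c1 : Continuous (f y₁) := hf.comp (by fun_prop : Continuous fun y : ℝ => (y₁, y))
  have c2 : Continuous (g y₁) := hg.comp (by fun_prop : Continuous fun y : ℝ => (y₁, y))
  exact intervalIntegral.integral_mono (by norm_num) (c1.intervalIntegrable _ _)
    (c2.intervalIntegrable _ _) (fun y₂ => h y₁ y₂)

theorem A431_E_const (c : ℝ) : A431_E (fun _ _ => c) = c := by
  unfold A431_E
  simp
  norm_num

theorem A431_E_swap {f : ℝ → ℝ → ℝ} (hf : Continuous (Function.uncurry f)) :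
    A431_E f = A431_E (fun y₁ y₂ => f y₂ y₁) := by
  unfold A431_E
  apply MeasureTheory.intervalIntegral_intervalIntegral_swap
  refine (hf.continuousOn.integrableOn_compact ((isCompact_uIcc (a := (-1/2 : ℝ))
    (b := 1/2)).prod (isCompact_uIcc (a := (-1/2 : ℝ)) (b := 1/2)))).mono_set ?_
  exact Set.prod_mono Set.uIoc_subset_uIcc Set.uIoc_subset_uIcc

/-- the shift estimate -/
theorem A431_shift {h : ℝ → ℝ} (hc : Continuous h) {M : ℝ} (hM : ∀ y, |h y| ≤ M) {c d q : ℝ}
    (hq : 0 < q) (hd : 0 ≤ d) :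
    |∫ y in (-1/2 : ℝ)..(1/2), (h (c + d + q * y) - h (c + q * y))| ≤ 2 * d * M / q := by
  have i1 : ∀ a b, IntervalIntegrable h volume a b := fun a b => hc.intervalIntegrable a b
  rw [intervalIntegral.integral_sub (Continuous.intervalIntegrable (by fun_prop) _ _)
    (Continuous.intervalIntegrable (by fun_prop) _ _),
    intervalIntegral.integral_comp_add_mul _ hq.ne', intervalIntegral.integral_comp_add_mul _ hq.ne',
    ← smul_sub, intervalIntegral.integral_interval_sub_interval_comm (i1 _ _) (i1 _ _) (i1 _ _),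
    smul_eq_mul, abs_mul, abs_of_pos (inv_pos.2 hq)]
  have h1 := intervalIntegral.norm_integral_le_of_norm_le_const (f := h) (C := M)
    (a := c + d + q * (-1/2)) (b := c + q * (-1/2)) (fun x _ => hM x)
  have h2 := intervalIntegral.norm_integral_le_of_norm_le_const (f := h) (C := M)
    (a := c + d + q * (1/2)) (b := c + q * (1/2)) (fun x _ => hM x)
  rw [Real.norm_eq_abs] at h1 h2
  have e1 : c + q * (-1/2) - (c + d + q * (-1/2)) = -d := by ring
  have e2 : c + q * (1/2) - (c + d + q * (1/2)) = -d := by ring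
  rw [e1, abs_neg, abs_of_nonneg hd] at h1
  rw [e2, abs_neg, abs_of_nonneg hd] at h2
  have h3 := abs_sub (∫ x in (c + d + q * (-1/2))..(c + q * (-1/2)), h x)
    (∫ x in (c + d + q * (1/2))..(c + q * (1/2)), h x)
  rw [inv_mul_eq_div]
  apply div_le_div_of_nonneg_right _ hq.le
  linarith

/-- the key averaging estimate -/
theorem A431_avg {h : ℝ → ℝ} (hc : Continuous h) {M : ℝ} (hM : ∀ y, |h y| ≤ M) {X d W S : ℝ}
    (hW : 0 < W) (hd : 0 ≤ d) :
    |A431_E (fun y₁ y₂ => h (X + d + W * (S * y₁ + (1 - S) * y₂)) -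
      h (X + W * (S * y₁ + (1 - S) * y₂)))| ≤ 4 * d * M / W := by
  have hM0 : 0 ≤ M := le_trans (abs_nonneg _) (hM 0)
  have bound : ∀ q, W / 2 ≤ q → 2 * d * M / q ≤ 4 * d * M / W := by
    intro q hq
    have hq0 : 0 < q := by linarith
    rw [div_le_div_iff₀ hq0 hW]
    have : 0 ≤ d * M := mul_nonneg hd hM0
    nlinarith
  by_cases hS : 1 / 2 ≤ S
  · have hq : W / 2 ≤ W * S := by nlinarith
    rw [A431_E_swap (by unfold Function.uncurry; fun_prop)]
    refine A431_abs_int_le fun y₂ _ => ?_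
    refine le_trans ?_ (bound (W * S) hq)
    have := A431_shift hc hM (c := X + W * (1 - S) * y₂) (d := d) (q := W * S) (by linarith) hd
    refine le_trans (le_of_eq ?_) this
    congr 1
    refine intervalIntegral.integral_congr fun y _ => ?_
    have e1 : X + d + W * (S * y + (1 - S) * y₂) = X + W * (1 - S) * y₂ + d + W * S * y := by ring
    have e2 : X + W * (S * y + (1 - S) * y₂) = X + W * (1 - S) * y₂ + W * S * y := by ring
    simp only [e1, e2]
  · have hq : W / 2 ≤ W * (1 - S) := by nlinarith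
    refine A431_abs_int_le fun y₁ _ => ?_
    refine le_trans ?_ (bound (W * (1 - S)) hq)
    have := A431_shift hc hM (c := X + W * S * y₁) (d := d) (q := W * (1 - S)) (by linarith) hd
    refine le_trans (le_of_eq ?_) this
    congr 1
    refine intervalIntegral.integral_congr fun y _ => ?_
    have e1 : X + d + W * (S * y₁ + (1 - S) * y) = X + W * S * y₁ + d + W * (1 - S) * y := by ring
    have e2 : X + W * (S * y₁ + (1 - S) * y) = X + W * S * y₁ + W * (1 - S) * y := by ring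
    simp only [e1, e2]

theorem A431_cw_nonneg (R X : ℝ) : 0 ≤ cw R X := by
  unfold cw
  have := Real.neg_one_le_cos (Real.pi * X / R)
  linarith

theorem A431_cw_le_one (R X : ℝ) : cw R X ≤ 1 := by
  unfold cw
  have := Real.cos_le_one (Real.pi * X / R)
  linarith

theorem A431_cw_lip {R : ℝ} (hR : 0 < R) (X Y : ℝ) : |cw R X - cw R Y| ≤ 2 * |X - Y| / R := by
  have h1 : cw R X - cw R Y = (Real.cos (Real.pi * X / R) - Real.cos (Real.pi * Y / R)) / 2 := by
    unfold cw; ring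
  have h2 := Real.abs_cos_sub_cos_le (Real.pi * X / R) (Real.pi * Y / R)
  have h3 : |Real.pi * X / R - Real.pi * Y / R| = Real.pi * |X - Y| / R := by
    rw [show Real.pi * X / R - Real.pi * Y / R = Real.pi / R * (X - Y) by ring, abs_mul,
      abs_of_pos (div_pos Real.pi_pos hR)]
    ring
  have h4 : Real.pi * |X - Y| / R ≤ 4 * |X - Y| / R := by
    apply div_le_div_of_nonneg_right _ hR.le
    exact mul_le_mul_of_nonneg_right Real.pi_le_four (abs_nonneg _)
  rw [h1, abs_div, abs_two]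
  rw [h3] at h2
  have h5 : 4 * |X - Y| / R = 2 * (2 * |X - Y| / R) := by ring
  linarith

/-- interpolation is Lipschitz -/
theorem A431_interp_lip {w K : ℝ} (hw : 0 < w) {h : ℝ → ℝ}
    (hh : ∀ x y, |h x - h y| ≤ K * |x - y|) (X Y : ℝ) :
    |interp w h X - interp w h Y| ≤ K * |X - Y| := by
  wlog hXY : Y ≤ X generalizing X Y with H
  · rw [abs_sub_comm, abs_sub_comm X]
    exact H Y X (le_of_not_ge hXY)
  have key : ∀ X : ℝ, interp w h X = h (⌊X / w⌋ * w) +
      Int.fract (X / w) * (h ((⌊X / w⌋ + 1) * w) - h (⌊X / w⌋ * w)) := by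
    intro X; unfold interp; ring
  have fr : ∀ X : ℝ, Int.fract (X / w) * w = X - ⌊X / w⌋ * w := by
    intro X
    rw [Int.fract]
    field_simp
  have step : ∀ p : ℤ, |h ((p + 1) * w) - h (p * w)| ≤ K * w := by
    intro p
    have := hh ((p + 1) * w) (p * w)
    rwa [show ((p : ℝ) + 1) * w - p * w = w by ring, abs_of_pos hw] at this
  have hfl : ⌊Y / w⌋ ≤ ⌊X / w⌋ := Int.floor_le_floor (div_le_div_of_nonneg_right hXY hw.le)
  have hX0 := Int.fract_nonneg (X / w)
  have hX1 := (Int.fract_lt_one (X / w)).le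
  have hY0 := Int.fract_nonneg (Y / w)
  have hY1 := (Int.fract_lt_one (Y / w)).le
  have hXX := fr X
  have hYY := fr Y
  rw [abs_of_nonneg (sub_nonneg.2 hXY), key X, key Y]
  rcases hfl.eq_or_lt with he | hlt
  · rw [he] at hYY ⊢
    have h1 := step ⌊X / w⌋
    have h2 : 0 ≤ Int.fract (X / w) - Int.fract (Y / w) := by
      have : 0 ≤ (Int.fract (X / w) - Int.fract (Y / w)) * w := by
        rw [sub_mul, hXX, hYY]; linarith
      exact nonneg_of_mul_nonneg_left this hw
    rw [show h (⌊X / w⌋ * w) + Int.fract (X / w) * (h ((⌊X / w⌋ + 1) * w) - h (⌊X / w⌋ * w)) -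
      (h (⌊X / w⌋ * w) + Int.fract (Y / w) * (h ((⌊X / w⌋ + 1) * w) - h (⌊X / w⌋ * w))) =
      (Int.fract (X / w) - Int.fract (Y / w)) * (h ((⌊X / w⌋ + 1) * w) - h (⌊X / w⌋ * w)) by ring,
      abs_mul, abs_of_nonneg h2]
    calc (Int.fract (X / w) - Int.fract (Y / w)) * |h ((⌊X / w⌋ + 1) * w) - h (⌊X / w⌋ * w)|
        ≤ (Int.fract (X / w) - Int.fract (Y / w)) * (K * w) := mul_le_mul_of_nonneg_left h1 h2
      _ = K * (Int.fract (X / w) * w - Int.fract (Y / w) * w) := by ring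
      _ = K * (X - Y) := by rw [hXX, hYY]; ring
  · have h1 := step ⌊X / w⌋
    have h2 := step ⌊Y / w⌋
    have h3 := hh (⌊X / w⌋ * w) ((⌊Y / w⌋ + 1) * w)
    have hle : ((⌊Y / w⌋ : ℝ) + 1) ≤ ⌊X / w⌋ := by exact_mod_cast hlt
    have h4 : 0 ≤ (⌊X / w⌋ : ℝ) * w - (⌊Y / w⌋ + 1) * w := by
      rw [← sub_mul]; exact mul_nonneg (by linarith) hw.le
    rw [abs_of_nonneg h4] at h3
    have e : h (⌊X / w⌋ * w) + Int.fract (X / w) * (h ((⌊X / w⌋ + 1) * w) - h (⌊X / w⌋ * w)) -
      (h (⌊Y / w⌋ * w) + Int.fract (Y / w) * (h ((⌊Y / w⌋ + 1) * w) - h (⌊Y / w⌋ * w))) =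
      Int.fract (X / w) * (h ((⌊X / w⌋ + 1) * w) - h (⌊X / w⌋ * w)) +
      (h (⌊X / w⌋ * w) - h ((⌊Y / w⌋ + 1) * w)) +
      (1 - Int.fract (Y / w)) * (h ((⌊Y / w⌋ + 1) * w) - h (⌊Y / w⌋ * w)) := by ring
    rw [e]
    have a1 : |Int.fract (X / w) * (h ((⌊X / w⌋ + 1) * w) - h (⌊X / w⌋ * w))| ≤
        Int.fract (X / w) * (K * w) := by
      rw [abs_mul, abs_of_nonneg hX0]; exact mul_le_mul_of_nonneg_left h1 hX0
    have a2 : |(1 - Int.fract (Y / w)) * (h ((⌊Y / w⌋ + 1) * w) - h (⌊Y / w⌋ * w))| ≤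
        (1 - Int.fract (Y / w)) * (K * w) := by
      rw [abs_mul, abs_of_nonneg (by linarith : (0 : ℝ) ≤ 1 - Int.fract (Y / w))]
      exact mul_le_mul_of_nonneg_left h2 (by linarith)
    have a3 := abs_add_three (Int.fract (X / w) * (h ((⌊X / w⌋ + 1) * w) - h (⌊X / w⌋ * w)))
      (h (⌊X / w⌋ * w) - h ((⌊Y / w⌋ + 1) * w))
      ((1 - Int.fract (Y / w)) * (h ((⌊Y / w⌋ + 1) * w) - h (⌊Y / w⌋ * w)))
    have e5 : Int.fract (X / w) * (K * w) + K * ((⌊X / w⌋ : ℝ) * w - (⌊Y / w⌋ + 1) * w) +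
        (1 - Int.fract (Y / w)) * (K * w) = K * (X - Y) := by
      have : Int.fract (X / w) * (K * w) + K * ((⌊X / w⌋ : ℝ) * w - (⌊Y / w⌋ + 1) * w) +
        (1 - Int.fract (Y / w)) * (K * w) = K * (Int.fract (X / w) * w + ⌊X / w⌋ * w -
          (Int.fract (Y / w) * w + ⌊Y / w⌋ * w)) := by ring
      rw [this, hXX, hYY]; ring
    linarith

theorem A431_interp_near {w K : ℝ} (hw : 0 < w) {h : ℝ → ℝ}
    (hh : ∀ x y, |h x - h y| ≤ K * |x - y|) (X : ℝ) :
    |interp w h X - h X| ≤ K * w := by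
  have hK : 0 ≤ K := by
    have h1 := hh 1 0
    have h2 := abs_nonneg (h 1 - h 0)
    norm_num at h1
    linarith
  have fr : Int.fract (X / w) * w = X - ⌊X / w⌋ * w := by
    rw [Int.fract]
    field_simp
  have hX0 := Int.fract_nonneg (X / w)
  have hX1 := (Int.fract_lt_one (X / w)).le
  have e : interp w h X - h X = (1 - Int.fract (X / w)) * (h (⌊X / w⌋ * w) - h X) +
      Int.fract (X / w) * (h ((⌊X / w⌋ + 1) * w) - h X) := by
    unfold interp; ring
  have h1 := hh (⌊X / w⌋ * w) X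
  have h2 := hh ((⌊X / w⌋ + 1) * w) X
  have b1 : |(⌊X / w⌋ : ℝ) * w - X| ≤ w := by
    rw [show (⌊X / w⌋ : ℝ) * w - X = -(Int.fract (X / w) * w) by rw [fr]; ring, abs_neg,
      abs_of_nonneg (mul_nonneg hX0 hw.le)]
    nlinarith
  have b2 : |((⌊X / w⌋ : ℝ) + 1) * w - X| ≤ w := by
    rw [show ((⌊X / w⌋ : ℝ) + 1) * w - X = (1 - Int.fract (X / w)) * w by
      rw [sub_mul, fr]; ring, abs_of_nonneg (mul_nonneg (by linarith) hw.le)]
    nlinarith
  have c1 : |h (⌊X / w⌋ * w) - h X| ≤ K * w := h1.trans (mul_le_mul_of_nonneg_left b1 hK)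
  have c2 : |h ((⌊X / w⌋ + 1) * w) - h X| ≤ K * w := h2.trans (mul_le_mul_of_nonneg_left b2 hK)
  rw [e]
  have a1 : |(1 - Int.fract (X / w)) * (h (⌊X / w⌋ * w) - h X)| ≤
      (1 - Int.fract (X / w)) * (K * w) := by
    rw [abs_mul, abs_of_nonneg (by linarith : (0 : ℝ) ≤ 1 - Int.fract (X / w))]
    exact mul_le_mul_of_nonneg_left c1 (by linarith)
  have a2 : |Int.fract (X / w) * (h ((⌊X / w⌋ + 1) * w) - h X)| ≤
      Int.fract (X / w) * (K * w) := by
    rw [abs_mul, abs_of_nonneg hX0]; exact mul_le_mul_of_nonneg_left c2 hX0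
  have a3 := abs_add_le ((1 - Int.fract (X / w)) * (h (⌊X / w⌋ * w) - h X))
    (Int.fract (X / w) * (h ((⌊X / w⌋ + 1) * w) - h X))
  have e5 : (1 - Int.fract (X / w)) * (K * w) + Int.fract (X / w) * (K * w) = K * w := by ring
  linarith

/-! the bump -/

theorem A431_bump_nonneg (s T W τ : ℝ) : 0 ≤ bump s T W τ := le_max_left _ _

theorem A431_bump_le_one (s T W τ : ℝ) : bump s T W τ ≤ 1 :=
  max_le zero_le_one (min_le_left _ _)

theorem A431_bump_eq_one {s T W τ : ℝ} (hW : 0 < W) (h1 : s + W ≤ τ) (h2 : τ ≤ s + T - W) :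
    bump s T W τ = 1 := by
  unfold bump
  have e1 : 1 ≤ (τ - s) / W := by rw [le_div_iff₀ hW]; linarith
  have e2 : 1 ≤ (s + T - τ) / W := by rw [le_div_iff₀ hW]; linarith
  rw [min_eq_left (le_min e1 e2), max_eq_right zero_le_one]

theorem A431_bump_cont (s T W : ℝ) : Continuous (bump s T W) := by
  unfold bump
  fun_prop

section Nint

variable {a b : ℝ} {N : ℝ → ℝ → ℝ}

theorem A431_ab (hN : Good a b N) : a ≤ b := by
  have h1 := hN.lower 0 0 1 zero_le_one
  have h2 := hN.upper 0 0 1 zero_le_one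
  linarith

theorem A431_N_lip (ha : 0 < a) (hN : Good a b N) (τ X Y : ℝ) :
    |N X τ - N Y τ| ≤ b * |X - Y| := by
  rcases le_total X Y with h | h
  · have h1 := hN.lower τ X Y h
    have h2 := hN.upper τ X Y h
    have h3 : 0 ≤ a * (Y - X) := mul_nonneg ha.le (sub_nonneg.2 h)
    rw [abs_sub_comm, abs_sub_comm X, abs_of_nonneg (sub_nonneg.2 h), abs_of_nonneg (by linarith)]
    exact h2
  · have h1 := hN.lower τ Y X h
    have h2 := hN.upper τ Y X h
    have h3 : 0 ≤ a * (X - Y) := mul_nonneg ha.le (sub_nonneg.2 h)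
    rw [abs_of_nonneg (sub_nonneg.2 h), abs_of_nonneg (by linarith)]
    exact h2

theorem A431_int (ha : 0 < a) (hN : Good a b N) {x : ℝ → ℝ} (hx : Measurable x) {K : ℝ}
    (hK : ∀ τ, |x τ| ≤ K) (s t : ℝ) : IntervalIntegrable (fun τ => N (x τ) τ) volume s t := by
  obtain ⟨C, hC⟩ := hN.bdd
  have hb : 0 ≤ b := ha.le.trans (A431_ab hN)
  have hm : Measurable (fun τ => N (x τ) τ) := hN.meas.comp (hx.prodMk measurable_id)
  have hbd : ∀ τ, ‖N (x τ) τ‖ ≤ b * K + C := by
    intro τ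
    have h1 := A431_N_lip ha hN τ (x τ) 0
    rw [sub_zero] at h1
    have h2 := hC τ
    have h3 : b * |x τ| ≤ b * K := mul_le_mul_of_nonneg_left (hK τ) hb
    have h4 : |N (x τ) τ| ≤ |N (x τ) τ - N 0 τ| + |N 0 τ| := by
      have := abs_add_le (N (x τ) τ - N 0 τ) (N 0 τ)
      rwa [sub_add_cancel] at this
    rw [Real.norm_eq_abs]
    linarith
  rw [intervalIntegrable_iff]
  refine Measure.integrableOn_of_bounded (M := b * K + C) ?_ hm.aestronglyMeasurable
    (Filter.Eventually.of_forall hbd)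
  rw [Set.uIoc]
  simp

variable {s T W : ℝ}

/-- the inner integral -/
noncomputable def A431_P (N : ℝ → ℝ → ℝ) (s T W X u : ℝ) : ℝ :=
  ∫ τ in s..(s + T), N (X + bump s T W τ * u) τ

theorem A431_intP (ha : 0 < a) (hN : Good a b N) (X u s' t' : ℝ) :
    IntervalIntegrable (fun τ => N (X + bump s T W τ * u) τ) volume s' t' := by
  refine A431_int ha hN (x := fun τ => X + bump s T W τ * u) ?_ (K := |X| + |u|) ?_ s' t'
  · have := (A431_bump_cont s T W).measurable
    fun_prop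
  · intro τ
    have h1 := A431_bump_nonneg s T W τ
    have h2 := A431_bump_le_one s T W τ
    have h3 := abs_add_le X (bump s T W τ * u)
    rw [abs_mul, abs_of_nonneg h1] at h3
    have h4 : bump s T W τ * |u| ≤ 1 * |u| := mul_le_mul_of_nonneg_right h2 (abs_nonneg u)
    linarith

theorem A431_intm (ha : 0 < a) (hN : Good a b N) (X s' t' : ℝ) :
    IntervalIntegrable (fun τ => N X τ) volume s' t' :=
  A431_int ha hN (x := fun _ => X) measurable_const (K := |X|) (fun _ => le_rfl) s' t'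

theorem A431_P_lip (ha : 0 < a) (hN : Good a b N) (hT : 0 ≤ T) (X X' u u' : ℝ) :
    |A431_P N s T W X u - A431_P N s T W X' u'| ≤ b * T * (|X - X'| + |u - u'|) := by
  have hb : 0 ≤ b := ha.le.trans (A431_ab hN)
  unfold A431_P
  rw [← intervalIntegral.integral_sub (A431_intP ha hN _ _ _ _) (A431_intP ha hN _ _ _ _)]
  have h1 : ∀ τ ∈ Set.uIoc s (s + T), ‖N (X + bump s T W τ * u) τ - N (X' + bump s T W τ * u') τ‖ ≤
      b * (|X - X'| + |u - u'|) := by
    intro τ _
    rw [Real.norm_eq_abs]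
    refine (A431_N_lip ha hN τ _ _).trans (mul_le_mul_of_nonneg_left ?_ hb)
    have h1 := A431_bump_nonneg s T W τ
    have h2 := A431_bump_le_one s T W τ
    rw [show X + bump s T W τ * u - (X' + bump s T W τ * u') =
      (X - X') + bump s T W τ * (u - u') by ring]
    have h3 := abs_add_le (X - X') (bump s T W τ * (u - u'))
    rw [abs_mul, abs_of_nonneg h1] at h3
    have h4 : bump s T W τ * |u - u'| ≤ 1 * |u - u'| := mul_le_mul_of_nonneg_right h2 (abs_nonneg _)
    linarith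
  have h2 := intervalIntegral.norm_integral_le_of_norm_le_const h1
  rw [Real.norm_eq_abs, add_sub_cancel_left, abs_of_nonneg hT] at h2
  calc _ ≤ _ := h2
    _ = _ := by ring

theorem A431_m_lip (ha : 0 < a) (hN : Good a b N) (hT : 0 ≤ T) (X X' : ℝ) :
    |(∫ τ in s..(s + T), N X τ) - ∫ τ in s..(s + T), N X' τ| ≤ b * T * |X - X'| := by
  rw [← intervalIntegral.integral_sub (A431_intm ha hN _ _ _) (A431_intm ha hN _ _ _)]
  have h1 : ∀ τ ∈ Set.uIoc s (s + T), ‖N X τ - N X' τ‖ ≤ b * |X - X'| := by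
    intro τ _
    exact A431_N_lip ha hN τ _ _
  have h2 := intervalIntegral.norm_integral_le_of_norm_le_const h1
  rw [Real.norm_eq_abs, add_sub_cancel_left, abs_of_nonneg hT] at h2
  calc _ ≤ _ := h2
    _ = _ := by ring

/-- integrals of functions which vanish on the middle part -/
theorem A431_ends {f : ℝ → ℝ} (hf : ∀ s' t', IntervalIntegrable f volume s' t') {K : ℝ}
    (hW : 0 ≤ W) (hWT : 2 * W ≤ T) (h0 : ∀ τ, s + W ≤ τ → τ ≤ s + T - W → f τ = 0)
    (hK : ∀ τ, |f τ| ≤ K) : |∫ τ in s..(s + T), f τ| ≤ 2 * W * K := by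
  rw [← intervalIntegral.integral_add_adjacent_intervals (hf s (s + W)) (hf (s + W) (s + T)),
    ← intervalIntegral.integral_add_adjacent_intervals (hf (s + W) (s + T - W))
      (hf (s + T - W) (s + T))]
  have h1 : ∫ τ in (s + W)..(s + T - W), f τ = 0 := by
    rw [intervalIntegral.integral_congr (g := fun _ => (0 : ℝ))]
    · simp
    · intro τ hτ
      rw [Set.uIcc_of_le (by linarith)] at hτ
      exact h0 τ hτ.1 hτ.2
  have h2 := intervalIntegral.norm_integral_le_of_norm_le_const (f := f) (C := K) (a := s)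
    (b := s + W) (fun x _ => hK x)
  have h3 := intervalIntegral.norm_integral_le_of_norm_le_const (f := f) (C := K)
    (a := s + T - W) (b := s + T) (fun x _ => hK x)
  rw [Real.norm_eq_abs] at h2 h3
  rw [show s + W - s = W by ring, abs_of_nonneg hW] at h2
  rw [show s + T - (s + T - W) = W by ring, abs_of_nonneg hW] at h3
  rw [h1, zero_add]
  refine (abs_add_le _ _).trans ?_
  linarith

theorem A431_P_near (ha : 0 < a) (hN : Good a b N) (hW : 0 < W) (hWT : 2 * W ≤ T) (X u : ℝ) :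
    |A431_P N s T W X u - ∫ τ in s..(s + T), N (X + u) τ| ≤ 2 * W * (b * |u|) := by
  have hb : 0 ≤ b := ha.le.trans (A431_ab hN)
  unfold A431_P
  rw [← intervalIntegral.integral_sub (A431_intP ha hN _ _ _ _) (A431_intm ha hN _ _ _)]
  refine A431_ends (fun s' t' => (A431_intP ha hN _ _ _ _).sub (A431_intm ha hN _ _ _)) hW.le hWT
    ?_ ?_
  · intro τ h1 h2
    rw [A431_bump_eq_one hW h1 h2, one_mul, sub_self]
  · intro τ
    refine (A431_N_lip ha hN τ _ _).trans (mul_le_mul_of_nonneg_left ?_ hb)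
    have h1 := A431_bump_nonneg s T W τ
    have h2 := A431_bump_le_one s T W τ
    rw [show X + bump s T W τ * u - (X + u) = -((1 - bump s T W τ) * u) by ring, abs_neg, abs_mul,
      abs_of_nonneg (by linarith : 0 ≤ 1 - bump s T W τ)]
    have := abs_nonneg u
    nlinarith

theorem A431_P_mixed (ha : 0 < a) (hN : Good a b N) (hW : 0 < W) (hWT : 2 * W ≤ T) (X u : ℝ)
    {d : ℝ} (hd : 0 ≤ d) :
    |(A431_P N s T W (X + d) u - A431_P N s T W X u) -
      ((∫ τ in s..(s + T), N (X + d + u) τ) - ∫ τ in s..(s + T), N (X + u) τ)| ≤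
      2 * W * (b * d) := by
  have hb : 0 ≤ b := ha.le.trans (A431_ab hN)
  unfold A431_P
  rw [← intervalIntegral.integral_sub (A431_intP ha hN _ _ _ _) (A431_intP ha hN _ _ _ _),
    ← intervalIntegral.integral_sub (A431_intm ha hN _ _ _) (A431_intm ha hN _ _ _),
    ← intervalIntegral.integral_sub ((A431_intP ha hN _ _ _ _).sub (A431_intP ha hN _ _ _ _))
      ((A431_intm ha hN _ _ _).sub (A431_intm ha hN _ _ _))]
  refine A431_ends (fun s' t' => ((A431_intP ha hN _ _ _ _).sub (A431_intP ha hN _ _ _ _)).sub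
    ((A431_intm ha hN _ _ _).sub (A431_intm ha hN _ _ _))) hW.le hWT ?_ ?_
  · intro τ h1 h2
    rw [A431_bump_eq_one hW h1 h2, one_mul, sub_self]
  · intro τ
    have l1 := hN.lower τ (X + bump s T W τ * u) (X + d + bump s T W τ * u) (by linarith)
    have u1 := hN.upper τ (X + bump s T W τ * u) (X + d + bump s T W τ * u) (by linarith)
    have l2 := hN.lower τ (X + u) (X + d + u) (by linarith)
    have u2 := hN.upper τ (X + u) (X + d + u) (by linarith)
    rw [show X + d + bump s T W τ * u - (X + bump s T W τ * u) = d by ring] at l1 u1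
    rw [show X + d + u - (X + u) = d by ring] at l2 u2
    have h3 : 0 ≤ a * d := mul_nonneg ha.le hd
    rw [abs_le]
    constructor <;> linarith

theorem A431_P_grow (ha : 0 < a) (hN : Good a b N) (hW : 0 < W) (hWT : 4 * W ≤ T) (X : ℝ)
    {u u' : ℝ} (hu : u ≤ u') :
    a * T / 2 * (u' - u) ≤ A431_P N s T W X u' - A431_P N s T W X u := by
  unfold A431_P
  have hd : 0 ≤ u' - u := sub_nonneg.2 hu
  rw [← intervalIntegral.integral_sub (A431_intP ha hN _ _ _ _) (A431_intP ha hN _ _ _ _)]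
  have hf : ∀ s' t', IntervalIntegrable
      (fun τ => N (X + bump s T W τ * u') τ - N (X + bump s T W τ * u) τ) volume s' t' :=
    fun s' t' => (A431_intP ha hN _ _ _ _).sub (A431_intP ha hN _ _ _ _)
  have hlow : ∀ τ, a * (bump s T W τ * (u' - u)) ≤
      N (X + bump s T W τ * u') τ - N (X + bump s T W τ * u) τ := by
    intro τ
    have h1 := A431_bump_nonneg s T W τ
    have h2 : bump s T W τ * u ≤ bump s T W τ * u' := mul_le_mul_of_nonneg_left hu h1
    have := hN.lower τ (X + bump s T W τ * u) (X + bump s T W τ * u') (by linarith)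
    rwa [show X + bump s T W τ * u' - (X + bump s T W τ * u) = bump s T W τ * (u' - u) by ring]
      at this
  have hnn : ∀ τ, 0 ≤ N (X + bump s T W τ * u') τ - N (X + bump s T W τ * u) τ := by
    intro τ
    refine le_trans ?_ (hlow τ)
    exact mul_nonneg ha.le (mul_nonneg (A431_bump_nonneg _ _ _ _) hd)
  rw [← intervalIntegral.integral_add_adjacent_intervals (hf s (s + W)) (hf (s + W) (s + T)),
    ← intervalIntegral.integral_add_adjacent_intervals (hf (s + W) (s + T - W))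
      (hf (s + T - W) (s + T))]
  have h1 : 0 ≤ ∫ τ in s..(s + W), (N (X + bump s T W τ * u') τ - N (X + bump s T W τ * u) τ) :=
    intervalIntegral.integral_nonneg (by linarith) (fun τ _ => hnn τ)
  have h2 : 0 ≤ ∫ τ in (s + T - W)..(s + T),
      (N (X + bump s T W τ * u') τ - N (X + bump s T W τ * u) τ) :=
    intervalIntegral.integral_nonneg (by linarith) (fun τ _ => hnn τ)
  have h3 : ∫ τ in (s + W)..(s + T - W), a * (u' - u) ≤ ∫ τ in (s + W)..(s + T - W),
      (N (X + bump s T W τ * u') τ - N (X + bump s T W τ * u) τ) := by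
    refine intervalIntegral.integral_mono_on (by linarith) intervalIntegrable_const (hf _ _) ?_
    intro τ hτ
    have := hlow τ
    rw [A431_bump_eq_one hW hτ.1 hτ.2] at this ⊢
    rwa [one_mul (u' - u)] at this
  rw [intervalIntegral.integral_const, smul_eq_mul] at h3
  have h4 : a * T / 2 * (u' - u) ≤ (s + T - W - (s + W)) * (a * (u' - u)) := by
    have h5 : 0 ≤ a * (u' - u) := mul_nonneg ha.le hd
    nlinarith
  linarith

end Nint

end aux431

theorem exists_delta (a b : ℝ) (ha : 0 < a) : ∃ C : ℝ, 0 < C ∧ ∀ (N : ℝ → ℝ → ℝ), Good a b N →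
    ∀ (L : ℕ), 4 ≤ L → ∀ (w : ℝ), 0 < w → ∀ s : ℝ, ∃ δ : ℝ → ℝ,
      (∀ X, |δ X| ≤ C * w) ∧ (∀ X Y, |δ X - δ Y| ≤ C / L * |X - Y|) ∧
      ∀ X, (∫ y₁ in (-1/2 : ℝ)..(1/2), ∫ y₂ in (-1/2 : ℝ)..(1/2),
          blockInt N s ((L : ℝ) ^ 2 * w) (L * w) ((L : ℝ) ^ 2 * w) X (δ X) y₁ y₂)
        = smooth (L * w) ((L : ℝ) ^ 2 * w)
            (interp w (fun Y => ∫ τ in s..(s + (L : ℝ) ^ 2 * w), N Y τ)) X := by
  by_cases hab : a ≤ b
  swap
  · exact ⟨1, one_pos, fun N hN => absurd (A431_ab hN) hab⟩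
  have hb : 0 < b := lt_of_lt_of_le ha hab
  refine ⟨2 * b / a * (10 + 16 * b / a), by positivity, ?_⟩
  intro N hN L hL w hw s
  set C := 2 * b / a * (10 + 16 * b / a) with hC
  have hC1 : 4 * (b / a) ≤ C := by
    have h1 : 1 ≤ b / a := (one_le_div ha).2 hab
    rw [hC, show 2 * b / a * (10 + 16 * b / a) = 2 * (b / a) * (10 + 16 * (b / a)) by ring]
    nlinarith
  have hLr : (4 : ℝ) ≤ L := by exact_mod_cast hL
  have hL0 : (0 : ℝ) < L := by linarith
  obtain ⟨W, hWdef⟩ : ∃ W, W = (L : ℝ) * w := ⟨_, rfl⟩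
  obtain ⟨T, hTdef⟩ : ∃ T, T = (L : ℝ) ^ 2 * w := ⟨_, rfl⟩
  rw [← hWdef, ← hTdef]
  have hW : 0 < W := by rw [hWdef]; positivity
  have hTW : T = L * W := by rw [hTdef, hWdef]; ring
  have hWT4 : 4 * W ≤ T := by rw [hTW]; exact mul_le_mul_of_nonneg_right hLr hW.le
  have hWT2 : 2 * W ≤ T := by linarith
  have hT : 0 < T := by linarith
  obtain ⟨m, hm⟩ : ∃ m : ℝ → ℝ, m = fun Y => ∫ τ in s..(s + T), N Y τ := ⟨_, rfl⟩
  rw [← hm]
  have hmval : ∀ Y, ∫ τ in s..(s + T), N Y τ = m Y := fun Y => by rw [hm]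
  have m_lip : ∀ x y, |m x - m y| ≤ b * T * |x - y| := fun x y => by
    rw [← hmval, ← hmval]; exact A431_m_lip ha hN hT.le x y
  obtain ⟨J, hJ⟩ : ∃ J : ℝ → ℝ, J = interp w m := ⟨_, rfl⟩
  rw [← hJ]
  have J_lip : ∀ x y, |J x - J y| ≤ b * T * |x - y| := fun x y => by
    rw [hJ]; exact A431_interp_lip hw m_lip x y
  have J_near : ∀ x, |J x - m x| ≤ b * T * w := fun x => by
    rw [hJ]; exact A431_interp_near hw m_lip x
  have hbT : 0 < b * T := mul_pos hb hT
  have P_lip := A431_P_lip (s := s) (W := W) ha hN hT.le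
  have P_near := A431_P_near (s := s) ha hN hW hWT2
  have P_mixed := fun X u d hd => A431_P_mixed (s := s) ha hN hW hWT2 X u (d := d) hd
  have P_grow := fun X u u' hu => A431_P_grow (s := s) ha hN hW hWT4 X (u := u) (u' := u') hu
  obtain ⟨P, hP⟩ : ∃ P : ℝ → ℝ → ℝ, P = A431_P N s T W := ⟨_, rfl⟩
  rw [← hP] at P_lip P_near P_mixed P_grow
  simp only [hmval] at P_near P_mixed
  -- continuity
  have m_cont : Continuous m := A431_cont_of_lip m_lip
  have J_cont : Continuous J := A431_cont_of_lip J_lip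
  have P_cont : ∀ X, Continuous (P X) := fun X => A431_cont_of_lip (K := b * T) (fun u u' => by
    have := P_lip X X u u'
    rwa [sub_self, abs_zero, zero_add] at this)
  -- the two functions
  have hblock : ∀ X δ y₁ y₂, blockInt N s T W T X δ y₁ y₂ =
      P X (W * (cw T X * y₁ + (1 - cw T X) * y₂) + δ) := fun X δ y₁ y₂ => by rw [hP]; rfl
  have hvabs : ∀ S : ℝ, 0 ≤ S → S ≤ 1 → ∀ y₁ ∈ Icc (-1/2 : ℝ) (1/2), ∀ y₂ ∈ Icc (-1/2 : ℝ) (1/2),
      |W * (S * y₁ + (1 - S) * y₂)| ≤ W / 2 := by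
    intro S hS0 hS1 y₁ h1 y₂ h2
    rw [abs_mul, abs_of_pos hW]
    have : |S * y₁ + (1 - S) * y₂| ≤ 1 / 2 := by
      rw [abs_le]
      have a1 := mul_le_mul_of_nonneg_left h1.1 hS0
      have a2 := mul_le_mul_of_nonneg_left h1.2 hS0
      have a3 := mul_le_mul_of_nonneg_left h2.1 (sub_nonneg.2 hS1)
      have a4 := mul_le_mul_of_nonneg_left h2.2 (sub_nonneg.2 hS1)
      constructor <;> linarith
    have := mul_le_mul_of_nonneg_left this hW.le
    linarith
  obtain ⟨Φ, hΦ⟩ : ∃ Φ : ℝ → ℝ → ℝ → ℝ, Φ = fun S X δ =>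
    A431_E (fun y₁ y₂ => P X (W * (S * y₁ + (1 - S) * y₂) + δ)) := ⟨_, rfl⟩
  obtain ⟨Z, hZ⟩ : ∃ Z : ℝ → ℝ → ℝ, Z = fun S X =>
    A431_E (fun y₁ y₂ => J (X + W * (S * y₁ + (1 - S) * y₂))) := ⟨_, rfl⟩
  have hsm : ∀ X, smooth W T J X = Z (cw T X) X := fun X => by rw [hZ]; rfl
  have hPc : ∀ S X δ, Continuous (Function.uncurry
      (fun y₁ y₂ => P X (W * (S * y₁ + (1 - S) * y₂) + δ))) := by
    intro S X δ
    have := P_cont X
    unfold Function.uncurry
    fun_prop
  have hJc : ∀ S X, Continuous (Function.uncurry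
      (fun y₁ y₂ => J (X + W * (S * y₁ + (1 - S) * y₂)))) := by
    intro S X
    unfold Function.uncurry
    fun_prop
  have hmc : ∀ S X δ, Continuous (Function.uncurry
      (fun y₁ y₂ => m (X + (W * (S * y₁ + (1 - S) * y₂) + δ)))) := by
    intro S X δ
    unfold Function.uncurry
    fun_prop
  -- growth
  have Φ_grow : ∀ S X u u', u ≤ u' → a * T / 2 * (u' - u) ≤ Φ S X u' - Φ S X u := by
    intro S X u u' hu
    rw [hΦ]
    simp only
    rw [← A431_E_sub (hPc _ _ _) (hPc _ _ _), ← A431_E_const (a * T / 2 * (u' - u))]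
    refine A431_E_mono (by unfold Function.uncurry; fun_prop)
      ((hPc S X u').sub (hPc S X u)) ?_
    intro y₁ y₂
    have := P_grow X (W * (S * y₁ + (1 - S) * y₂) + u) (W * (S * y₁ + (1 - S) * y₂) + u')
      (by linarith)
    rwa [show W * (S * y₁ + (1 - S) * y₂) + u' - (W * (S * y₁ + (1 - S) * y₂) + u) = u' - u by ring]
      at this
  have Φ_cont : ∀ S X, Continuous (Φ S X) := by
    intro S X
    refine A431_cont_of_lip (K := b * T) fun u u' => ?_
    rw [hΦ]
    simp only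
    rw [← A431_E_sub (hPc _ _ _) (hPc _ _ _)]
    refine A431_abs_E_le fun y₁ _ y₂ _ => ?_
    have := P_lip X X (W * (S * y₁ + (1 - S) * y₂) + u) (W * (S * y₁ + (1 - S) * y₂) + u')
    rwa [show W * (S * y₁ + (1 - S) * y₂) + u - (W * (S * y₁ + (1 - S) * y₂) + u') = u - u' by ring,
      sub_self, abs_zero, zero_add] at this
  have Φ_zero : ∀ X, |Φ (cw T X) X 0 - Z (cw T X) X| ≤ 2 * (b * T * w) := by
    intro X
    have hS0 := A431_cw_nonneg T X
    have hS1 := A431_cw_le_one T X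
    set S := cw T X
    rw [hΦ, hZ]
    simp only
    rw [← A431_E_sub (hPc _ _ _) (hJc _ _)]
    refine A431_abs_E_le fun y₁ h1 y₂ h2 => ?_
    have hv := hvabs S hS0 hS1 y₁ h1 y₂ h2
    set v := W * (S * y₁ + (1 - S) * y₂)
    rw [add_zero]
    have e1 := P_near X v
    have e2 := J_near (X + v)
    have e3 : 2 * W * (b * |v|) ≤ b * T * w := by
      have : b * |v| ≤ b * (W / 2) := mul_le_mul_of_nonneg_left hv hb.le
      calc 2 * W * (b * |v|) ≤ 2 * W * (b * (W / 2)) :=
            mul_le_mul_of_nonneg_left this (by positivity)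
        _ = b * T * w := by rw [hTW, hWdef]; ring
    have e4 := abs_sub_le (P X v) (m (X + v)) (J (X + v))
    rw [abs_sub_comm (m (X + v))] at e4
    linarith
  -- existence
  have hex : ∀ X, ∃ δ, |δ| ≤ 4 * (b / a) * w ∧ Φ (cw T X) X δ = Z (cw T X) X := by
    intro X
    set D := 4 * (b / a) * w with hD
    have hD0 : 0 < D := by positivity
    have hD1 : a * T / 2 * D = 2 * (b * T * w) := by
      rw [hD]; field_simp; ring
    have g1 := Φ_grow (cw T X) X 0 D hD0.le
    have g2 := Φ_grow (cw T X) X (-D) 0 (by linarith)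
    have z := abs_le.1 (Φ_zero X)
    rw [sub_zero, hD1] at g1
    rw [sub_neg_eq_add, zero_add, hD1] at g2
    have iv := intermediate_value_Icc (a := -D) (b := D) (by linarith)
      (Φ_cont (cw T X) X).continuousOn
    obtain ⟨δ, hδ, hδ'⟩ := iv (⟨by linarith, by linarith⟩ :
      Z (cw T X) X ∈ Icc (Φ (cw T X) X (-D)) (Φ (cw T X) X D))
    exact ⟨δ, abs_le.2 ⟨hδ.1, hδ.2⟩, hδ'⟩
  choose δ hδ1 hδ2 using hex
  refine ⟨δ, fun X => (hδ1 X).trans (mul_le_mul_of_nonneg_right hC1 hw.le), ?_, ?_⟩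
  swap
  · intro X
    rw [hsm, ← hδ2 X, hΦ]
    simp only [hblock]
    rfl
  -- Lipschitz
  have main : ∀ X d, 0 ≤ d → |δ (X + d) - δ X| ≤ C / L * d := by
    intro X d hd
    have hS0 := A431_cw_nonneg T X
    have hS1 := A431_cw_le_one T X
    have hSS := A431_cw_lip hT (X + d) X
    rw [add_sub_cancel_left, abs_of_nonneg hd] at hSS
    have eq1 := hδ2 X
    have eq2 := hδ2 (X + d)
    have bd1 := hδ1 X
    set S := cw T X
    set S' := cw T (X + d)
    set u := δ X
    set u' := δ (X + d)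
    -- replace S' by S
    have r : ∀ y₁ ∈ Icc (-1/2 : ℝ) (1/2), ∀ y₂ ∈ Icc (-1/2 : ℝ) (1/2),
        b * T * |W * (S' * y₁ + (1 - S') * y₂) - W * (S * y₁ + (1 - S) * y₂)| ≤
          2 * b * T * d / L := by
      intro y₁ h1 y₂ h2
      rw [show W * (S' * y₁ + (1 - S') * y₂) - W * (S * y₁ + (1 - S) * y₂) =
        W * ((S' - S) * (y₁ - y₂)) by ring, abs_mul, abs_mul, abs_of_pos hW]
      have h3 : |y₁ - y₂| ≤ 1 := by
        rw [abs_le]; constructor <;> linarith [h1.1, h1.2, h2.1, h2.2]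
      have h4 : |S' - S| * |y₁ - y₂| ≤ 2 * d / T * 1 :=
        mul_le_mul hSS h3 (abs_nonneg _) (by positivity)
      calc b * T * (W * (|S' - S| * |y₁ - y₂|)) ≤ b * T * (W * (2 * d / T * 1)) := by gcongr
        _ = 2 * b * T * d / L := by rw [hTW]; field_simp
    have r1 : |Φ S' (X + d) u - Φ S (X + d) u| ≤ 2 * b * T * d / L := by
      rw [hΦ]
      simp only
      rw [← A431_E_sub (hPc _ _ _) (hPc _ _ _)]
      refine A431_abs_E_le fun y₁ h1 y₂ h2 => ?_
      refine le_trans ?_ (r y₁ h1 y₂ h2)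
      have := P_lip (X + d) (X + d) (W * (S' * y₁ + (1 - S') * y₂) + u)
        (W * (S * y₁ + (1 - S) * y₂) + u)
      rwa [sub_self, abs_zero, zero_add, add_sub_add_right_eq_sub] at this
    have r2 : |Z S' (X + d) - Z S (X + d)| ≤ 2 * b * T * d / L := by
      rw [hZ]
      simp only
      rw [← A431_E_sub (hJc _ _) (hJc _ _)]
      refine A431_abs_E_le fun y₁ h1 y₂ h2 => ?_
      refine le_trans ?_ (r y₁ h1 y₂ h2)
      have := J_lip (X + d + W * (S' * y₁ + (1 - S') * y₂)) (X + d + W * (S * y₁ + (1 - S) * y₂))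
      rwa [add_sub_add_left_eq_sub] at this
    -- mixed
    obtain ⟨h, hh⟩ : ∃ h : ℝ → ℝ, h = fun Y => m (Y + u) - J Y := ⟨_, rfl⟩
    have h_cont : Continuous h := by rw [hh]; fun_prop
    have h_bd : ∀ Y, |h Y| ≤ b * T * (4 * (b / a) + 1) * w := by
      intro Y
      rw [hh]
      have e1 := m_lip (Y + u) Y
      rw [add_sub_cancel_left] at e1
      have e2 := J_near Y
      have e3 := abs_sub_le (m (Y + u)) (m Y) (J Y)
      rw [abs_sub_comm (m Y)] at e3
      have e4 : b * T * |u| ≤ b * T * (4 * (b / a) * w) := mul_le_mul_of_nonneg_left bd1 hbT.le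
      calc |m (Y + u) - J Y| ≤ b * T * (4 * (b / a) * w) + b * T * w := by linarith
        _ = _ := by ring
    have avg := A431_avg h_cont h_bd (X := X) (d := d) (W := W) (S := S) hW hd
    have r3 : |(Φ S (X + d) u - Φ S X u) - (Z S (X + d) - Z S X)| ≤
        2 * W * (b * d) + 4 * d * (b * T * (4 * (b / a) + 1) * w) / W := by
      have e1 : (Φ S (X + d) u - Φ S X u) - (Z S (X + d) - Z S X) =
          A431_E (fun y₁ y₂ =>
            (P (X + d) (W * (S * y₁ + (1 - S) * y₂) + u) - P X (W * (S * y₁ + (1 - S) * y₂) + u)) -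
            (J (X + d + W * (S * y₁ + (1 - S) * y₂)) - J (X + W * (S * y₁ + (1 - S) * y₂)))) := by
        rw [A431_E_sub (f := fun y₁ y₂ => P (X + d) (W * (S * y₁ + (1 - S) * y₂) + u) -
            P X (W * (S * y₁ + (1 - S) * y₂) + u))
          (g := fun y₁ y₂ => J (X + d + W * (S * y₁ + (1 - S) * y₂)) -
            J (X + W * (S * y₁ + (1 - S) * y₂)))
          ((hPc _ _ _).sub (hPc _ _ _)) ((hJc _ _).sub (hJc _ _)),
          A431_E_sub (hPc _ _ _) (hPc _ _ _), A431_E_sub (hJc _ _) (hJc _ _), hΦ, hZ]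
      have e2 : A431_E (fun y₁ y₂ =>
            (P (X + d) (W * (S * y₁ + (1 - S) * y₂) + u) - P X (W * (S * y₁ + (1 - S) * y₂) + u)) -
            (J (X + d + W * (S * y₁ + (1 - S) * y₂)) - J (X + W * (S * y₁ + (1 - S) * y₂)))) =
          A431_E (fun y₁ y₂ =>
            ((P (X + d) (W * (S * y₁ + (1 - S) * y₂) + u) - P X (W * (S * y₁ + (1 - S) * y₂) + u)) -
            (m (X + d + (W * (S * y₁ + (1 - S) * y₂) + u)) -
              m (X + (W * (S * y₁ + (1 - S) * y₂) + u)))) -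
            -(h (X + d + W * (S * y₁ + (1 - S) * y₂)) - h (X + W * (S * y₁ + (1 - S) * y₂)))) := by
        congr 1
        funext y₁ y₂
        rw [hh]
        simp only [add_assoc]
        ring
      have hhc : ∀ X, Continuous (Function.uncurry
          (fun y₁ y₂ => h (X + W * (S * y₁ + (1 - S) * y₂)))) := by
        intro X
        unfold Function.uncurry
        fun_prop
      rw [e1, e2, A431_E_sub
        (f := fun y₁ y₂ =>
          (P (X + d) (W * (S * y₁ + (1 - S) * y₂) + u) - P X (W * (S * y₁ + (1 - S) * y₂) + u)) -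
            (m (X + d + (W * (S * y₁ + (1 - S) * y₂) + u)) -
              m (X + (W * (S * y₁ + (1 - S) * y₂) + u))))
        (g := fun y₁ y₂ =>
          -(h (X + d + W * (S * y₁ + (1 - S) * y₂)) - h (X + W * (S * y₁ + (1 - S) * y₂))))
        (((hPc _ _ _).sub (hPc _ _ _)).sub ((hmc _ _ _).sub (hmc _ _ _)))
        ((hhc _).sub (hhc _)).neg]
      have e3 : A431_E (fun y₁ y₂ =>
          -(h (X + d + W * (S * y₁ + (1 - S) * y₂)) - h (X + W * (S * y₁ + (1 - S) * y₂)))) =
          -A431_E (fun y₁ y₂ =>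
          (h (X + d + W * (S * y₁ + (1 - S) * y₂)) - h (X + W * (S * y₁ + (1 - S) * y₂)))) := by
        unfold A431_E
        simp only [intervalIntegral.integral_neg]
      rw [e3, sub_neg_eq_add]
      refine (abs_add_le _ _).trans (add_le_add ?_ avg)
      refine A431_abs_E_le fun y₁ h1 y₂ h2 => ?_
      exact P_mixed X (W * (S * y₁ + (1 - S) * y₂) + u) d hd
    -- sum up
    have tot : |Φ S' (X + d) u - Z S' (X + d)| ≤ b * T * d / L * (10 + 16 * b / a) := by
      have e1 : Φ S' (X + d) u - Z S' (X + d) = (Φ S' (X + d) u - Φ S (X + d) u) +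
          ((Φ S (X + d) u - Φ S X u) - (Z S (X + d) - Z S X)) - (Z S' (X + d) - Z S (X + d)) := by
        rw [← eq1]; ring
      rw [e1]
      have e2 := abs_sub ((Φ S' (X + d) u - Φ S (X + d) u) +
          ((Φ S (X + d) u - Φ S X u) - (Z S (X + d) - Z S X))) (Z S' (X + d) - Z S (X + d))
      have e3 := abs_add_le (Φ S' (X + d) u - Φ S (X + d) u)
          ((Φ S (X + d) u - Φ S X u) - (Z S (X + d) - Z S X))
      have e4 : 2 * W * (b * d) + 4 * d * (b * T * (4 * (b / a) + 1) * w) / W +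
          2 * (2 * b * T * d / L) = b * T * d / L * (10 + 16 * b / a) := by
        rw [hTW, hWdef]
        field_simp
        ring
      linarith
    have fin : a * T / 2 * |u' - u| ≤ |Φ S' (X + d) u - Z S' (X + d)| := by
      rw [← eq2]
      rcases le_total u u' with hu | hu
      · have := Φ_grow S' (X + d) u u' hu
        rw [abs_of_nonneg (sub_nonneg.2 hu), abs_sub_comm]
        exact this.trans (le_abs_self _)
      · have := Φ_grow S' (X + d) u' u hu
        rw [abs_sub_comm u', abs_of_nonneg (sub_nonneg.2 hu)]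
        exact this.trans (le_abs_self _)
    have h5 : a * T / 2 * |u' - u| ≤ a * T / 2 * (C / L * d) := by
      refine (fin.trans tot).trans (le_of_eq ?_)
      rw [hC]
      field_simp
    exact le_of_mul_le_mul_left h5 (by positivity)
  intro X Y
  rcases le_total X Y with h | h
  · have := main X (Y - X) (sub_nonneg.2 h)
    rw [add_sub_cancel] at this
    rw [abs_sub_comm, abs_sub_comm X, abs_of_nonneg (sub_nonneg.2 h)]
    exact this
  · have := main Y (X - Y) (sub_nonneg.2 h)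
    rw [add_sub_cancel] at this
    rw [abs_of_nonneg (sub_nonneg.2 h)]
    exact this

end Pool.Agent.helper312_fol
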