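import Mathlib

set_option autoImplicit false

open Set MeasureTheory

namespace Pool.Agent.helper312_fol

open Filter Topology

/-- difference quotient at a dyadic cell -/
noncomputable def DRs (f : ℝ → ℝ) (k : ℕ) (j : ℤ) : ℝ :=
  2 ^ k * (f (((j : ℝ) + 1) / 2 ^ k) - f ((j : ℝ) / 2 ^ k))

lemma DR_adj (q : ℕ) (P : ℝ) (f : ℝ → ℝ)
    (h : ∀ (k : ℕ) (j : ℤ), |f (((j : ℝ) + 1) / 2 ^ k) - 2 * f ((j : ℝ) / 2 ^ k)
      + f (((j : ℝ) - 1) / 2 ^ k)| ≤ P * ((k : ℝ) + 1) ^ q / 4 ^ k) (k : ℕ) (j : ℤ) :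
    |DRs f k (j + 1) - DRs f k j| ≤ P * ((k : ℝ) + 1) ^ q / 2 ^ k := by
  have h1 := h k (j + 1)
  have e1 : (((j + 1 : ℤ) : ℝ) - 1) = (j : ℝ) := by push_cast; ring
  have e2 : ((j + 1 : ℤ) : ℝ) = (j : ℝ) + 1 := by push_cast; ring
  rw [e1, e2] at h1
  have e3 : DRs f k (j + 1) - DRs f k j = 2 ^ k * (f (((j : ℝ) + 1 + 1) / 2 ^ k) -
      2 * f (((j : ℝ) + 1) / 2 ^ k) + f ((j : ℝ) / 2 ^ k)) := by
    unfold DRs
    rw [e2]; ring
  have hp : (0 : ℝ) < 2 ^ k := by positivity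
  rw [e3, abs_mul, abs_of_pos hp]
  have e4 : P * ((k : ℝ) + 1) ^ q / 2 ^ k = 2 ^ k * (P * ((k : ℝ) + 1) ^ q / 4 ^ k) := by
    have : (4 : ℝ) ^ k = 2 ^ k * 2 ^ k := by rw [← mul_pow]; norm_num
    rw [this]; field_simp
  rw [e4]
  exact mul_le_mul_of_nonneg_left h1 hp.le

lemma DR_half (f : ℝ → ℝ) (k : ℕ) (j : ℤ) :
    DRs f k j = (DRs f (k + 1) (2 * j) + DRs f (k + 1) (2 * j + 1)) / 2 := by
  unfold DRs
  have e1 : (((2 * j : ℤ) : ℝ)) / 2 ^ (k + 1) = (j : ℝ) / 2 ^ k := by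
    push_cast; rw [pow_succ]; field_simp
  have e2 : (((2 * j + 1 : ℤ) : ℝ) + 1) / 2 ^ (k + 1) = ((j : ℝ) + 1) / 2 ^ k := by
    push_cast; rw [pow_succ]; field_simp; ring
  have e3 : (((2 * j + 1 : ℤ) : ℝ)) = ((2 * j : ℤ) : ℝ) + 1 := by push_cast; ring
  rw [e2, e1, e3, pow_succ]
  ring

lemma DR_floor (X : ℝ) (k : ℕ) :
    ⌊(2 : ℝ) ^ (k + 1) * X⌋ = 2 * ⌊(2 : ℝ) ^ k * X⌋ ∨
      ⌊(2 : ℝ) ^ (k + 1) * X⌋ = 2 * ⌊(2 : ℝ) ^ k * X⌋ + 1 := by
  set m := ⌊(2 : ℝ) ^ k * X⌋ with hm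
  set n := ⌊(2 : ℝ) ^ (k + 1) * X⌋ with hn
  have a1 : (m : ℝ) ≤ (2 : ℝ) ^ k * X := Int.floor_le _
  have a2 : (2 : ℝ) ^ k * X < m + 1 := Int.lt_floor_add_one _
  have b1 : (n : ℝ) ≤ (2 : ℝ) ^ (k + 1) * X := Int.floor_le _
  have b2 : (2 : ℝ) ^ (k + 1) * X < n + 1 := Int.lt_floor_add_one _
  have e : (2 : ℝ) ^ (k + 1) * X = 2 * ((2 : ℝ) ^ k * X) := by rw [pow_succ]; ring
  rw [e] at b1 b2
  have c1 : (2 * m : ℝ) < n + 1 := by linarith
  have c2 : (n : ℝ) < 2 * m + 2 := by linarith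
  have d1 : 2 * m < n + 1 := by exact_mod_cast c1
  have d2 : n < 2 * m + 2 := by exact_mod_cast c2
  omega

lemma DR_step (q : ℕ) (P : ℝ) (f : ℝ → ℝ)
    (h : ∀ (k : ℕ) (j : ℤ), |f (((j : ℝ) + 1) / 2 ^ k) - 2 * f ((j : ℝ) / 2 ^ k)
      + f (((j : ℝ) - 1) / 2 ^ k)| ≤ P * ((k : ℝ) + 1) ^ q / 4 ^ k) (X : ℝ) (k : ℕ) :
    dist (DRs f k ⌊(2 : ℝ) ^ k * X⌋) (DRs f (k + 1) ⌊(2 : ℝ) ^ (k + 1) * X⌋) ≤
      P * ((k : ℝ) + 2) ^ q / 2 ^ (k + 2) := by
  set m := ⌊(2 : ℝ) ^ k * X⌋ with hm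
  have h1 := DR_adj q P f h (k + 1) (2 * m)
  have h2 := DR_half f k m
  have e : P * (((k + 1 : ℕ) : ℝ) + 1) ^ q / 2 ^ (k + 1) =
      2 * (P * ((k : ℝ) + 2) ^ q / 2 ^ (k + 2)) := by
    have : ((k + 1 : ℕ) : ℝ) + 1 = (k : ℝ) + 2 := by push_cast; ring
    rw [this, pow_succ 2 (k + 1)]
    field_simp
  rw [e, abs_le] at h1
  rw [Real.dist_eq, abs_le]
  rcases DR_floor X k with h3 | h3 <;> rw [h3, h2] <;> constructor <;> linarith

lemma DR_sum (q : ℕ) : Summable (fun m : ℕ => ((m : ℝ) + 2) ^ q / 2 ^ (m + 2)) := by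
  have h := summable_pow_mul_geometric_of_norm_lt_one (R := ℝ) q (r := 1 / 2) (by norm_num)
  have h2 := (summable_nat_add_iff 2).2 h
  refine h2.congr fun m => ?_
  push_cast
  rw [one_div, inv_pow]
  rfl

lemma DR_tail (q : ℕ) (P : ℝ) (hP : 0 ≤ P) :
    Summable (fun k : ℕ => P * ((k : ℝ) + 2) ^ q / 2 ^ (k + 2)) ∧
    ∀ n : ℕ, ∑' m : ℕ, P * (((n + m : ℕ) : ℝ) + 2) ^ q / 2 ^ (n + m + 2) ≤
      (∑' m : ℕ, ((m : ℝ) + 2) ^ q / 2 ^ (m + 2)) * (P * ((n : ℝ) + 1) ^ q / 2 ^ n) := by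
  have hs : Summable (fun k : ℕ => P * ((k : ℝ) + 2) ^ q / 2 ^ (k + 2)) := by
    refine ((DR_sum q).mul_left P).congr fun k => ?_
    ring
  refine ⟨hs, fun n => ?_⟩
  rw [← tsum_mul_right]
  have hs2 : Summable (fun m : ℕ => P * (((n + m : ℕ) : ℝ) + 2) ^ q / 2 ^ (n + m + 2)) := by
    have := (summable_nat_add_iff n).2 hs
    refine this.congr fun m => ?_
    rw [add_comm m n]
  refine hs2.tsum_le_tsum (fun m => ?_) ((DR_sum q).mul_right _)
  have h1 : ((n + m : ℕ) : ℝ) + 2 ≤ ((m : ℝ) + 2) * ((n : ℝ) + 1) := by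
    push_cast
    have : (0 : ℝ) ≤ (m : ℝ) * n := by positivity
    have h3 : (0 : ℝ) ≤ (n : ℝ) := by positivity
    linarith
  have h2 : (((n + m : ℕ) : ℝ) + 2) ^ q ≤ ((m : ℝ) + 2) ^ q * ((n : ℝ) + 1) ^ q := by
    rw [← mul_pow]
    exact pow_le_pow_left₀ (by positivity) h1 q
  have e : ((m : ℝ) + 2) ^ q / 2 ^ (m + 2) * (P * ((n : ℝ) + 1) ^ q / 2 ^ n) =
      P * (((m : ℝ) + 2) ^ q * ((n : ℝ) + 1) ^ q) / 2 ^ (n + m + 2) := by
    rw [show n + m + 2 = (m + 2) + n by omega, pow_add 2 (m + 2) n]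
    field_simp
  rw [e]
  exact div_le_div_of_nonneg_right (mul_le_mul_of_nonneg_left h2 hP) (by positivity)

/-- sum of the difference quotients -/
lemma DR_tele (f : ℝ → ℝ) (N : ℕ) (m : ℤ) (r : ℕ) :
    f (((m + r : ℤ) : ℝ) / 2 ^ N) - f ((m : ℝ) / 2 ^ N) =
      ∑ i ∈ Finset.range r, DRs f N (m + i) / 2 ^ N := by
  have hp : (0 : ℝ) < 2 ^ N := by positivity
  induction r with
  | zero => simp
  | succ r ih =>
    rw [Finset.sum_range_succ, ← ih]
    unfold DRs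
    have e : ((m + ((r + 1 : ℕ) : ℤ) : ℤ) : ℝ) = ((m + (r : ℤ) : ℤ) : ℝ) + 1 := by
      push_cast; ring
    rw [e]
    field_simp
    ring

lemma DR_lim (q : ℕ) (K : ℝ) :
    Tendsto (fun k : ℕ => K * ((k : ℝ) + 1) ^ q / 2 ^ k) atTop (𝓝 0) := by
  have h := tendsto_pow_const_div_const_pow_of_one_lt q (r := (2 : ℝ)) (by norm_num)
  have h2 := (tendsto_add_atTop_iff_nat 1).2 h
  have h3 := h2.const_mul (2 * K)
  rw [mul_zero] at h3
  refine h3.congr fun k => ?_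
  push_cast
  rw [pow_succ]
  field_simp

theorem dyadic_reg (q : ℕ) : ∃ C : ℝ, 0 < C ∧ ∀ (P b : ℝ) (f : ℝ → ℝ), 0 ≤ P →
    (∀ x y, |f x - f y| ≤ b * |x - y|) →
    (∀ (k : ℕ) (j : ℤ), |f (((j : ℝ) + 1) / 2 ^ k) - 2 * f ((j : ℝ) / 2 ^ k)
      + f (((j : ℝ) - 1) / 2 ^ k)| ≤ P * ((k : ℝ) + 1) ^ q / 4 ^ k) →
    Differentiable ℝ f ∧ ∀ (X Y : ℝ) (k : ℕ), |X - Y| ≤ 1 / 2 ^ k →
      |deriv f X - deriv f Y| ≤ C * P * ((k : ℝ) + 1) ^ q / 2 ^ k := by
  set C1 : ℝ := ∑' m : ℕ, ((m : ℝ) + 2) ^ q / 2 ^ (m + 2) with hC1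
  have hC10 : 0 ≤ C1 := tsum_nonneg fun m => by positivity
  refine ⟨2 * C1 + 1, by positivity, fun P b f hP hb h => ?_⟩
  obtain ⟨hsum, htail⟩ := DR_tail q P hP
  have hb0 : 0 ≤ b := by
    have := hb 1 0
    rw [sub_zero, abs_one, mul_one] at this
    exact (abs_nonneg _).trans this
  -- the limit
  have hlim : ∀ X : ℝ, ∃ a : ℝ,
      Tendsto (fun k : ℕ => DRs f k ⌊(2 : ℝ) ^ k * X⌋) atTop (𝓝 a) := fun X =>
    cauchySeq_tendsto_of_complete
      (cauchySeq_of_dist_le_of_summable _ (DR_step q P f h X) hsum)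
  choose H hH using hlim
  have hHk : ∀ (X : ℝ) (n : ℕ), |DRs f n ⌊(2 : ℝ) ^ n * X⌋ - H X| ≤
      C1 * (P * ((n : ℝ) + 1) ^ q / 2 ^ n) := by
    intro X n
    have := dist_le_tsum_of_dist_le_of_tendsto _ (DR_step q P f h X) hsum (hH X) n
    rw [Real.dist_eq] at this
    exact this.trans (htail n)
  -- the modulus
  set M : ℕ → ℝ := fun k => (2 * C1 + 1) * P * ((k : ℝ) + 1) ^ q / 2 ^ k with hM
  have hM0 : ∀ k, 0 ≤ M k := fun k => by simp only [hM]; positivity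
  have hmod1 : ∀ (X Y : ℝ) (k : ℕ), X ≤ Y → Y - X ≤ 1 / 2 ^ k → |H X - H Y| ≤ M k := by
    intro X Y k hXY hd
    have hp : (0 : ℝ) < 2 ^ k := by positivity
    set m := ⌊(2 : ℝ) ^ k * X⌋ with hm
    set n := ⌊(2 : ℝ) ^ k * Y⌋ with hn
    have a1 : (m : ℝ) ≤ (2 : ℝ) ^ k * X := Int.floor_le _
    have a2 : (2 : ℝ) ^ k * X < m + 1 := Int.lt_floor_add_one _
    have b1 : (n : ℝ) ≤ (2 : ℝ) ^ k * Y := Int.floor_le _
    have hmn : m ≤ n := Int.floor_le_floor (mul_le_mul_of_nonneg_left hXY hp.le)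
    have hd2 : (2 : ℝ) ^ k * Y ≤ (2 : ℝ) ^ k * X + 1 := by
      have := mul_le_mul_of_nonneg_left hd hp.le
      rw [mul_one_div_cancel hp.ne'] at this
      linarith
    have hnm : n < m + 2 := by
      have : (n : ℝ) < m + 2 := by linarith
      exact_mod_cast this
    have hs : |DRs f k m - DRs f k n| ≤ P * ((k : ℝ) + 1) ^ q / 2 ^ k := by
      rcases (show n = m ∨ n = m + 1 by omega) with h1 | h1
      · rw [h1, sub_self, abs_zero]; positivity
      · rw [h1, abs_sub_comm]; exact DR_adj q P f h k m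
    have h1 := hHk X k
    have h2 := hHk Y k
    have e : M k = C1 * (P * ((k : ℝ) + 1) ^ q / 2 ^ k) + C1 * (P * ((k : ℝ) + 1) ^ q / 2 ^ k) +
        P * ((k : ℝ) + 1) ^ q / 2 ^ k := by simp only [hM]; ring
    rw [e]
    rw [abs_le] at h1 h2 hs ⊢
    constructor <;> linarith
  have hmod : ∀ (X Y : ℝ) (k : ℕ), |X - Y| ≤ 1 / 2 ^ k → |H X - H Y| ≤ M k := by
    intro X Y k hd
    rcases le_total X Y with hXY | hXY
    · refine hmod1 X Y k hXY ?_
      rwa [abs_of_nonpos (by linarith), neg_sub] at hd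
    · rw [abs_sub_comm]
      refine hmod1 Y X k hXY ?_
      rwa [abs_of_nonneg (by linarith)] at hd
  -- the derivative, one side
  have hder1 : ∀ (X Y : ℝ) (k : ℕ), X ≤ Y → Y - X ≤ 1 / 2 ^ k →
      |f Y - f X - H X * (Y - X)| ≤ (Y - X) * M k := by
    intro X Y k hXY hd
    have hbound : ∀ N, k ≤ N → |f Y - f X - H X * (Y - X)| ≤
        ((Y - X) + 1 / 2 ^ N) * (M k + C1 * (P * ((N : ℝ) + 1) ^ q / 2 ^ N)) +
          (2 * b + |H X|) * (1 / 2 ^ N) := by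
      intro N hN
      have hp : (0 : ℝ) < 2 ^ N := by positivity
      set m := ⌊(2 : ℝ) ^ N * X⌋ with hm
      set n := ⌊(2 : ℝ) ^ N * Y⌋ with hn
      have a1 : (m : ℝ) ≤ (2 : ℝ) ^ N * X := Int.floor_le _
      have a2 : (2 : ℝ) ^ N * X < m + 1 := Int.lt_floor_add_one _
      have b1 : (n : ℝ) ≤ (2 : ℝ) ^ N * Y := Int.floor_le _
      have b2 : (2 : ℝ) ^ N * Y < n + 1 := Int.lt_floor_add_one _
      have hmn : m ≤ n := Int.floor_le_floor (mul_le_mul_of_nonneg_left hXY hp.le)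
      obtain ⟨r, hr⟩ := Int.eq_ofNat_of_zero_le (sub_nonneg.2 hmn)
      have hnr : n = m + (r : ℤ) := by omega
      have htel := DR_tele f N m r
      rw [← hnr] at htel
      have ax : |X - (m : ℝ) / 2 ^ N| ≤ 1 / 2 ^ N := by
        rw [abs_le]
        have e1 : X - (m : ℝ) / 2 ^ N = ((2 : ℝ) ^ N * X - m) / 2 ^ N := by field_simp
        rw [e1]
        constructor
        · have : 0 ≤ ((2 : ℝ) ^ N * X - m) / 2 ^ N := div_nonneg (by linarith) hp.le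
          have : (0 : ℝ) ≤ 1 / 2 ^ N := by positivity
          linarith
        · exact div_le_div_of_nonneg_right (by linarith) hp.le
      have ay : |Y - (n : ℝ) / 2 ^ N| ≤ 1 / 2 ^ N := by
        rw [abs_le]
        have e1 : Y - (n : ℝ) / 2 ^ N = ((2 : ℝ) ^ N * Y - n) / 2 ^ N := by field_simp
        rw [e1]
        constructor
        · have : 0 ≤ ((2 : ℝ) ^ N * Y - n) / 2 ^ N := div_nonneg (by linarith) hp.le
          have : (0 : ℝ) ≤ 1 / 2 ^ N := by positivity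
          linarith
        · exact div_le_div_of_nonneg_right (by linarith) hp.le
      have fx : |f X - f ((m : ℝ) / 2 ^ N)| ≤ b * (1 / 2 ^ N) :=
        (hb _ _).trans (mul_le_mul_of_nonneg_left ax hb0)
      have fy : |f Y - f ((n : ℝ) / 2 ^ N)| ≤ b * (1 / 2 ^ N) :=
        (hb _ _).trans (mul_le_mul_of_nonneg_left ay hb0)
      have hrr : (r : ℝ) = n - m := by
        have : (n : ℝ) = m + (r : ℝ) := by exact_mod_cast hnr
        linarith
      have hk2 : (1 : ℝ) / 2 ^ N ≤ 1 / 2 ^ k :=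
        one_div_le_one_div_of_le (by positivity) (pow_le_pow_right₀ (by norm_num) hN)
      have hterm : ∀ i ∈ Finset.range r, |DRs f N (m + i) / 2 ^ N - H X / 2 ^ N| ≤
          (M k + C1 * (P * ((N : ℝ) + 1) ^ q / 2 ^ N)) / 2 ^ N := by
        intro i hi
        rw [Finset.mem_range] at hi
        rw [← sub_div, abs_div, abs_of_pos hp]
        refine div_le_div_of_nonneg_right ?_ hp.le
        set x : ℝ := ((m + (i : ℤ) : ℤ) : ℝ) / 2 ^ N with hx
        have hfl : ⌊(2 : ℝ) ^ N * x⌋ = m + (i : ℤ) := by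
          rw [hx, mul_div_cancel₀ _ hp.ne', Int.floor_intCast]
        have h1 := hHk x N
        rw [hfl] at h1
        have hxX : |x - X| ≤ 1 / 2 ^ k := by
          have i1 : (i : ℝ) + 1 ≤ r := by exact_mod_cast hi
          have i0 : (0 : ℝ) ≤ i := Nat.cast_nonneg _
          have e1 : x - X = ((m : ℝ) + i - (2 : ℝ) ^ N * X) / 2 ^ N := by
            rw [hx]; push_cast; field_simp
          have l1 : -(1 / 2 ^ N) ≤ x - X := by
            rw [e1, ← neg_div]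
            exact div_le_div_of_nonneg_right (by linarith) hp.le
          have l2 : x - X ≤ Y - X := by
            rw [e1, div_le_iff₀ hp]
            linarith
          rw [abs_le]
          constructor <;> linarith
        have h2 := hmod x X k hxX
        have e3 : DRs f N (m + i) - H X = (DRs f N (m + (i : ℤ)) - H x) + (H x - H X) := by ring
        rw [e3]
        refine (abs_add_le _ _).trans ?_
        linarith
      have hs1 : |∑ i ∈ Finset.range r, (DRs f N (m + i) / 2 ^ N - H X / 2 ^ N)| ≤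
          r * ((M k + C1 * (P * ((N : ℝ) + 1) ^ q / 2 ^ N)) / 2 ^ N) := by
        refine (Finset.abs_sum_le_sum_abs _ _).trans ?_
        refine (Finset.sum_le_card_nsmul _ _ _ hterm).trans ?_
        rw [nsmul_eq_mul, Finset.card_range]
      rw [Finset.sum_sub_distrib, ← htel, Finset.sum_const, Finset.card_range, nsmul_eq_mul] at hs1
      have hMC : 0 ≤ M k + C1 * (P * ((N : ℝ) + 1) ^ q / 2 ^ N) :=
        add_nonneg (hM0 k) (by positivity)
      have hr2 : (r : ℝ) / 2 ^ N ≤ (Y - X) + 1 / 2 ^ N := by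
        rw [div_le_iff₀ hp, add_mul, one_div_mul_cancel hp.ne', hrr]
        linarith
      have hr3 : |(r : ℝ) / 2 ^ N - (Y - X)| ≤ 1 / 2 ^ N := by
        have e1 : (r : ℝ) / 2 ^ N - (Y - X) =
            (((n : ℝ) - (2 : ℝ) ^ N * Y) + ((2 : ℝ) ^ N * X - m)) / 2 ^ N := by
          rw [hrr]; field_simp; ring
        rw [e1, abs_le, ← neg_div]
        constructor
        · exact div_le_div_of_nonneg_right (by linarith) hp.le
        · exact div_le_div_of_nonneg_right (by linarith) hp.le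
      have hs2 : r * ((M k + C1 * (P * ((N : ℝ) + 1) ^ q / 2 ^ N)) / 2 ^ N) ≤
          ((Y - X) + 1 / 2 ^ N) * (M k + C1 * (P * ((N : ℝ) + 1) ^ q / 2 ^ N)) := by
        have : r * ((M k + C1 * (P * ((N : ℝ) + 1) ^ q / 2 ^ N)) / 2 ^ N) =
          (r : ℝ) / 2 ^ N * (M k + C1 * (P * ((N : ℝ) + 1) ^ q / 2 ^ N)) := by ring
        rw [this]
        exact mul_le_mul_of_nonneg_right hr2 hMC
      have hs3 : |H X * ((r : ℝ) / 2 ^ N - (Y - X))| ≤ |H X| * (1 / 2 ^ N) := by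
        rw [abs_mul]
        exact mul_le_mul_of_nonneg_left hr3 (abs_nonneg _)
      have e4 : f Y - f X - H X * (Y - X) = (f Y - f ((n : ℝ) / 2 ^ N)) -
          (f X - f ((m : ℝ) / 2 ^ N)) +
          (f ((n : ℝ) / 2 ^ N) - f ((m : ℝ) / 2 ^ N) - r * (H X / 2 ^ N)) +
          H X * ((r : ℝ) / 2 ^ N - (Y - X)) := by ring
      rw [e4]
      have t1 := abs_le.1 fx
      have t2 := abs_le.1 fy
      have t3 := abs_le.1 (hs1.trans hs2)
      have t4 := abs_le.1 hs3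
      rw [abs_le]
      constructor <;> linarith [t1.1, t1.2, t2.1, t2.2, t3.1, t3.2, t4.1, t4.2]
    -- limit in N
    have hg : Tendsto (fun N : ℕ => (1 : ℝ) / 2 ^ N) atTop (𝓝 0) := by
      have := tendsto_pow_atTop_nhds_zero_of_lt_one (r := (1 / 2 : ℝ)) (by norm_num) (by norm_num)
      refine this.congr fun N => ?_
      rw [one_div, inv_pow, one_div]
    have hg2 : Tendsto (fun N : ℕ => C1 * (P * ((N : ℝ) + 1) ^ q / 2 ^ N)) atTop (𝓝 0) := by
      have := (DR_lim q P).const_mul C1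
      rwa [mul_zero] at this
    have hR : Tendsto (fun N : ℕ =>
        ((Y - X) + 1 / 2 ^ N) * (M k + C1 * (P * ((N : ℝ) + 1) ^ q / 2 ^ N)) +
          (2 * b + |H X|) * (1 / 2 ^ N)) atTop (𝓝 ((Y - X) * M k)) := by
      have h1 := ((tendsto_const_nhds (x := Y - X)).add hg).mul
        ((tendsto_const_nhds (x := M k)).add hg2)
      have h2 := h1.add (hg.const_mul (2 * b + |H X|))
      simpa using h2
    exact ge_of_tendsto hR (eventually_atTop.2 ⟨k, fun N hN => hbound N hN⟩)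
  have hder2 : ∀ (X Y : ℝ) (k : ℕ), |Y - X| ≤ 1 / 2 ^ k →
      |f Y - f X - H X * (Y - X)| ≤ 2 * M k * |Y - X| := by
    intro X Y k hd
    rcases le_total X Y with hXY | hXY
    · rw [abs_of_nonneg (by linarith : 0 ≤ Y - X)] at hd ⊢
      have h1 := hder1 X Y k hXY hd
      have h2 : 0 ≤ (Y - X) * M k := mul_nonneg (by linarith) (hM0 k)
      linarith
    · rw [abs_of_nonpos (by linarith : Y - X ≤ 0), neg_sub] at hd ⊢
      have h1 := hder1 Y X k hXY hd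
      have h2 := hmod1 Y X k hXY hd
      have h3 : |(H Y - H X) * (X - Y)| ≤ M k * (X - Y) := by
        rw [abs_mul, abs_of_nonneg (by linarith : 0 ≤ X - Y)]
        exact mul_le_mul_of_nonneg_right h2 (by linarith)
      have e : f Y - f X - H X * (Y - X) =
          -(f X - f Y - H Y * (X - Y)) - (H Y - H X) * (X - Y) := by ring
      rw [e]
      rw [abs_le] at h1 h3 ⊢
      constructor <;> linarith
  have hD : ∀ X, HasDerivAt f (H X) X := by
    intro X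
    rw [hasDerivAt_iff_isLittleO, Asymptotics.isLittleO_iff]
    intro c hc
    have hMl : Tendsto M atTop (𝓝 0) := DR_lim q ((2 * C1 + 1) * P)
    obtain ⟨k, hk⟩ := (hMl.eventually (gt_mem_nhds (show (0 : ℝ) < c / 2 by positivity))).exists
    have hball : ∀ᶠ Y in 𝓝 X, |Y - X| < 1 / 2 ^ k := by
      have := Metric.ball_mem_nhds X (show (0 : ℝ) < 1 / 2 ^ k by positivity)
      filter_upwards [this] with Y hY
      rwa [Metric.mem_ball, Real.dist_eq] at hY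
    filter_upwards [hball] with Y hY
    have h1 := hder2 X Y k hY.le
    rw [Real.norm_eq_abs, Real.norm_eq_abs, smul_eq_mul]
    have e : f Y - f X - (Y - X) * H X = f Y - f X - H X * (Y - X) := by ring
    rw [e]
    refine h1.trans (mul_le_mul_of_nonneg_right ?_ (abs_nonneg _))
    linarith
  refine ⟨fun X => (hD X).differentiableAt, fun X Y k hXY => ?_⟩
  rw [(hD X).deriv, (hD Y).deriv]
  exact hmod X Y k hXY

end Pool.Agent.helper312_fol
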