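import Pool.Agent.helper312_fol.Defs

set_option autoImplicit false

open Set MeasureTheory

namespace Pool.Agent.helper312_fol

/-- slope of the interpolation on the cell `n` -/
noncomputable def slope887 (w : ℝ) (h : ℝ → ℝ) (n : ℤ) : ℝ :=
  (h ((n + 1) * w) - h (n * w)) / w

/-- formula on the closed cell -/
theorem interp_cell (w : ℝ) (hw : 0 < w) (h : ℝ → ℝ) (n : ℤ) (X : ℝ) (h1 : n * w ≤ X)
    (h2 : X ≤ (n + 1) * w) : interp w h X = h (n * w) + (X - n * w) * slope887 w h n := by
  rcases h2.lt_or_eq with h2 | h2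
  · have hf : ⌊X / w⌋ = n := by
      rw [Int.floor_eq_iff]
      constructor
      · rw [le_div_iff₀ hw]; exact h1
      · rw [div_lt_iff₀ hw]; exact h2
    unfold interp slope887
    rw [Int.fract, hf]
    field_simp
    ring
  · have hf : ⌊X / w⌋ = n + 1 := by
      rw [h2, mul_div_assoc, div_self hw.ne', mul_one]
      exact_mod_cast Int.floor_intCast (n + 1)
    have hfr : Int.fract (X / w) = 0 := by
      rw [Int.fract, hf, h2, mul_div_assoc, div_self hw.ne', mul_one]
      push_cast
      ring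
    unfold interp slope887
    rw [hfr, hf, h2]
    push_cast
    field_simp
    ring

theorem interp_grid (w : ℝ) (hw : 0 < w) (h : ℝ → ℝ) (j : ℤ) :
    interp w h (j * w) = h (j * w) := by
  rw [interp_cell w hw h j (j * w) le_rfl (by nlinarith)]
  ring

theorem floor_cell (w : ℝ) (hw : 0 < w) (X : ℝ) : (⌊X / w⌋ : ℝ) * w ≤ X ∧
    X < (⌊X / w⌋ + 1) * w := by
  constructor
  · rw [← le_div_iff₀ hw]; exact Int.floor_le _
  · rw [← div_lt_iff₀ hw]; exact Int.lt_floor_add_one _

theorem interp_continuous (w : ℝ) (hw : 0 < w) (h : ℝ → ℝ) : Continuous (interp w h) := by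
  rw [continuous_iff_continuousAt]
  intro X₀
  set n := ⌊X₀ / w⌋ with hn
  obtain ⟨h1, h2⟩ := floor_cell w hw X₀
  rw [← hn] at h1 h2
  have hc : Continuous (fun X : ℝ => h (n * w) + max (X - n * w) 0 * slope887 w h n +
      min (X - n * w) 0 * slope887 w h (n - 1)) := by fun_prop
  refine hc.continuousAt.congr ?_
  have hnh : Ioo ((n - 1) * w) ((n + 1) * w) ∈ nhds X₀ := Ioo_mem_nhds (by nlinarith) h2
  filter_upwards [hnh] with X hX
  rcases le_total (n * w) X with h3 | h3
  · rw [interp_cell w hw h n X h3 hX.2.le, max_eq_left (by linarith), min_eq_right (by linarith)]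
    ring
  · rw [interp_cell w hw h (n - 1) X (by push_cast; exact hX.1.le) (by push_cast; linarith),
      max_eq_right (by linarith), min_eq_left (by linarith)]
    have e1 : h (n * w) = h (((n - 1 : ℤ) : ℝ) * w) + w * slope887 w h (n - 1) := by
      unfold slope887
      push_cast
      rw [sub_add_cancel]
      field_simp
      ring
    rw [e1]
    push_cast
    ring

theorem interp_deriv (w : ℝ) (hw : 0 < w) (h : ℝ → ℝ) (r : ℝ) :
    HasDerivWithinAt (interp w h) (slope887 w h ⌊r / w⌋) (Ici r) r := by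
  set n := ⌊r / w⌋ with hn
  obtain ⟨h1, h2⟩ := floor_cell w hw r
  rw [← hn] at h1 h2
  have hd : HasDerivWithinAt (fun X : ℝ => h (n * w) + (X - n * w) * slope887 w h n)
      (slope887 w h n) (Ici r) r := by
    have := (((hasDerivAt_id r).sub_const (n * w)).mul_const (slope887 w h n)).const_add (h (n * w))
    simpa using this.hasDerivWithinAt
  refine hd.congr_of_eventuallyEq ?_ (interp_cell w hw h n r h1 h2.le)
  have hnh : Iio ((n + 1) * w) ∈ nhdsWithin r (Ici r) := mem_nhdsWithin_of_mem_nhds (Iio_mem_nhds h2)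
  filter_upwards [hnh, self_mem_nhdsWithin] with X hX hX'
  exact interp_cell w hw h n X (le_trans h1 hX') (le_of_lt hX)

theorem interp_lip (w : ℝ) (hw : 0 < w) (b : ℝ) (h : ℝ → ℝ)
    (hb : ∀ x y, |h x - h y| ≤ b * |x - y|) (X Y : ℝ) :
    |interp w h X - interp w h Y| ≤ b * |X - Y| := by
  have hs : ∀ n : ℤ, |slope887 w h n| ≤ b := by
    intro n
    unfold slope887
    rw [abs_div, abs_of_pos hw, div_le_iff₀ hw]
    refine le_trans (hb _ _) (le_of_eq ?_)
    rw [show ((n : ℝ) + 1) * w - n * w = w by ring, abs_of_pos hw]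
  have key : ∀ x y : ℝ, x ≤ y → |interp w h y - interp w h x| ≤ b * (y - x) := by
    intro x y hxy
    have := norm_image_sub_le_of_norm_deriv_right_le_segment (f := interp w h)
      (f' := fun r => slope887 w h ⌊r / w⌋) (C := b) (a := x) (b := y)
      (interp_continuous w hw h).continuousOn (fun r _ => interp_deriv w hw h r)
      (fun r _ => hs _) y ⟨hxy, le_rfl⟩
    exact this
  rcases le_total X Y with hXY | hXY
  · rw [abs_sub_comm, abs_sub_comm X Y, abs_of_nonneg (sub_nonneg.2 hXY)]
    exact key X Y hXY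
  · rw [abs_of_nonneg (sub_nonneg.2 hXY)]
    exact key Y X hXY

theorem interp_close (w : ℝ) (hw : 0 < w) (b : ℝ) (h : ℝ → ℝ)
    (hb : ∀ x y, |h x - h y| ≤ b * |x - y|) (X : ℝ) :
    |interp w h X - h X| ≤ b * w := by
  have hb0 : 0 ≤ b := by
    have := hb 1 0
    norm_num at this
    exact le_trans (abs_nonneg _) this
  set n := ⌊X / w⌋ with hn
  obtain ⟨h1, h2⟩ := floor_cell w hw X
  rw [← hn] at h1 h2
  have e1 : |h (n * w) - h X| ≤ b * w := by
    refine le_trans (hb _ _) (mul_le_mul_of_nonneg_left ?_ hb0)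
    rw [abs_le]; constructor <;> linarith
  have e2 : |h ((n + 1) * w) - h X| ≤ b * w := by
    refine le_trans (hb _ _) (mul_le_mul_of_nonneg_left ?_ hb0)
    rw [abs_le]; constructor <;> linarith
  have f0 := Int.fract_nonneg (X / w)
  have f1 := (Int.fract_lt_one (X / w)).le
  have e3 : interp w h X - h X = (1 - Int.fract (X / w)) * (h (n * w) - h X) +
      Int.fract (X / w) * (h ((n + 1) * w) - h X) := by
    unfold interp
    rw [← hn]
    ring
  rw [e3]
  calc _ ≤ |(1 - Int.fract (X / w)) * (h (n * w) - h X)| +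
      |Int.fract (X / w) * (h ((n + 1) * w) - h X)| := abs_add_le _ _
    _ = (1 - Int.fract (X / w)) * |h (n * w) - h X| +
      Int.fract (X / w) * |h ((n + 1) * w) - h X| := by
        rw [abs_mul, abs_mul, abs_of_nonneg f0, abs_of_nonneg (sub_nonneg.2 f1)]
    _ ≤ (1 - Int.fract (X / w)) * (b * w) + Int.fract (X / w) * (b * w) :=
        add_le_add (mul_le_mul_of_nonneg_left e1 (sub_nonneg.2 f1))
          (mul_le_mul_of_nonneg_left e2 f0)
    _ = b * w := by ring

theorem slope_diff (w : ℝ) (hw : 0 < w) (B : ℝ) (h : ℝ → ℝ)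
    (hh : ∀ j : ℤ, |h ((j + 1) * w) - 2 * h (j * w) + h ((j - 1) * w)| ≤ B * w ^ 2) (m n : ℤ)
    (hmn : m ≤ n) : |slope887 w h n - slope887 w h m| ≤ B * w * (n - m) := by
  induction n, hmn using Int.leInduction with
  | base => simp
  | succ n hmn ih =>
    have h1 : |slope887 w h (n + 1) - slope887 w h n| ≤ B * w := by
      have h2 := hh (n + 1)
      have e : slope887 w h (n + 1) - slope887 w h n =
          (h ((((n + 1 : ℤ) : ℝ) + 1) * w) - 2 * h (((n + 1 : ℤ) : ℝ) * w) +
            h ((((n + 1 : ℤ) : ℝ) - 1) * w)) / w := by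
        unfold slope887
        push_cast
        rw [add_sub_cancel_right]
        ring
      rw [e, abs_div, abs_of_pos hw, div_le_iff₀ hw]
      refine le_trans h2 (le_of_eq (by ring))
    calc |slope887 w h (n + 1) - slope887 w h m| =
        |(slope887 w h (n + 1) - slope887 w h n) + (slope887 w h n - slope887 w h m)| := by
          congr 1; ring
      _ ≤ |slope887 w h (n + 1) - slope887 w h n| + |slope887 w h n - slope887 w h m| :=
          abs_add_le _ _
      _ ≤ B * w + B * w * (n - m) := add_le_add h1 ih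
      _ = B * w * (((n + 1 : ℤ) : ℝ) - m) := by push_cast; ring

theorem slope_diff' (w : ℝ) (hw : 0 < w) (B : ℝ) (h : ℝ → ℝ)
    (hh : ∀ j : ℤ, |h ((j + 1) * w) - 2 * h (j * w) + h ((j - 1) * w)| ≤ B * w ^ 2) (m n : ℤ) :
    |slope887 w h n - slope887 w h m| ≤ B * w * |(n : ℝ) - m| := by
  rcases le_total m n with h1 | h1
  · have h2 : (m : ℝ) ≤ n := by exact_mod_cast h1
    rw [abs_of_nonneg (sub_nonneg.2 h2)]
    exact slope_diff w hw B h hh m n h1
  · have h2 : (n : ℝ) ≤ m := by exact_mod_cast h1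
    rw [abs_sub_comm, abs_sub_comm (n : ℝ), abs_of_nonneg (sub_nonneg.2 h2)]
    exact slope_diff w hw B h hh n m h1

theorem floor_diff (a b : ℝ) : |(⌊a⌋ : ℝ) - ⌊b⌋| ≤ |a - b| + 1 := by
  have h1 := Int.floor_le a
  have h2 := Int.lt_floor_add_one a
  have h3 := Int.floor_le b
  have h4 := Int.lt_floor_add_one b
  have h5 := le_abs_self (a - b)
  have h6 := neg_abs_le (a - b)
  rw [abs_le]
  constructor <;> linarith

theorem interp_mixedDiff (w : ℝ) (hw : 0 < w) (B : ℝ) (hB : 0 ≤ B) (h : ℝ → ℝ)
    (hh : ∀ j : ℤ, |h ((j + 1) * w) - 2 * h (j * w) + h ((j - 1) * w)| ≤ B * w ^ 2) :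
    MixedDiff B w (interp w h) := by
  intro Y Z η
  have hd : ∀ c r : ℝ, HasDerivWithinAt (fun r => interp w h (c + r))
      (slope887 w h ⌊(c + r) / w⌋) (Ici r) r := by
    intro c r
    have h1 := interp_deriv w hw h (c + r)
    have h2 : HasDerivWithinAt (fun r => c + r) 1 (Ici r) r :=
      ((hasDerivAt_id r).const_add c).hasDerivWithinAt
    have h3 : MapsTo (fun r => c + r) (Ici r) (Ici (c + r)) := by
      intro x hx
      simp only [mem_Ici] at hx ⊢
      linarith
    have h4 := HasDerivWithinAt.scomp r h1 h2 h3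
    rw [one_smul] at h4
    exact h4
  have hbound : ∀ r : ℝ, ‖slope887 w h ⌊(Y + r) / w⌋ - slope887 w h ⌊(Z + r) / w⌋‖ ≤
      B * (|Y - Z| + w) := by
    intro r
    rw [Real.norm_eq_abs]
    refine le_trans (slope_diff' w hw B h hh _ _) ?_
    have h1 := floor_diff ((Y + r) / w) ((Z + r) / w)
    have h2 : (Y + r) / w - (Z + r) / w = (Y - Z) / w := by ring
    rw [h2, abs_div, abs_of_pos hw] at h1
    calc B * w * |(⌊(Y + r) / w⌋ : ℝ) - ⌊(Z + r) / w⌋| ≤ B * w * (|Y - Z| / w + 1) :=
          mul_le_mul_of_nonneg_left h1 (by positivity)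
      _ = B * (|Y - Z| + w) := by field_simp
  have hcont : ∀ c : ℝ, Continuous fun r => interp w h (c + r) := fun c =>
    (interp_continuous w hw h).comp (continuous_const.add continuous_id)
  have key : ∀ a b : ℝ, a ≤ b → |(interp w h (Y + b) - interp w h (Z + b)) -
      (interp w h (Y + a) - interp w h (Z + a))| ≤ B * (|Y - Z| + w) * (b - a) := by
    intro a b hab
    have := norm_image_sub_le_of_norm_deriv_right_le_segment
      (f := fun r => interp w h (Y + r) - interp w h (Z + r))
      (f' := fun r => slope887 w h ⌊(Y + r) / w⌋ - slope887 w h ⌊(Z + r) / w⌋)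
      (C := B * (|Y - Z| + w)) (a := a) (b := b)
      ((hcont Y).sub (hcont Z)).continuousOn (fun r _ => (hd Y r).sub (hd Z r))
      (fun r _ => hbound r) b ⟨hab, le_rfl⟩
    exact this
  rcases le_total 0 η with h0 | h0
  · have h1 := key 0 η h0
    rw [add_zero, add_zero] at h1
    rw [abs_of_nonneg h0]
    calc _ = |(interp w h (Y + η) - interp w h (Z + η)) - (interp w h Y - interp w h Z)| := by
          congr 1; ring
      _ ≤ _ := h1
      _ = _ := by ring
  · have h1 := key η 0 h0
    rw [add_zero, add_zero] at h1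
    rw [abs_of_nonpos h0]
    calc _ = |(interp w h Y - interp w h Z) - (interp w h (Y + η) - interp w h (Z + η))| := by
          rw [abs_sub_comm]; congr 1; ring
      _ ≤ _ := h1
      _ = _ := by ring

end Pool.Agent.helper312_fol
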