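import Pool.Agent.helper312_fol.Defs

set_option autoImplicit false

open Set MeasureTheory

namespace Pool.Agent.helper312_fol

namespace LD

/-- clamping to `[-1/2, 1/2]` -/
noncomputable def cl (y : ℝ) : ℝ := max (-1/2) (min y (1/2))

theorem cl_abs (y : ℝ) : |cl y| ≤ 1 / 2 := by
  unfold cl
  rw [abs_le]
  constructor
  · exact le_trans (by norm_num) (le_max_left _ _)
  · exact max_le (by norm_num) (min_le_right _ _)

theorem cl_eq {y : ℝ} (hy : y ∈ uIcc (-1/2 : ℝ) (1/2)) : cl y = y := by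
  rw [uIcc_of_le (by norm_num)] at hy
  unfold cl
  rw [min_eq_left hy.2, max_eq_right hy.1]

theorem cl_cont : Continuous cl := by
  unfold cl
  fun_prop

theorem good_bound {a b : ℝ} {N : ℝ → ℝ → ℝ} (hN : Good a b N) :
    ∃ C L : ℝ, 0 ≤ L ∧ ∀ Y τ, |N Y τ| ≤ C + L * |Y| := by
  obtain ⟨C, hC⟩ := hN.bdd
  refine ⟨C, |a| + |b|, by positivity, fun Y τ => ?_⟩
  have h0 := hC τ
  have h1 : |N Y τ - N 0 τ| ≤ (|a| + |b|) * |Y| := by
    have ha := neg_abs_le a
    have hb := le_abs_self b
    have ha0 := abs_nonneg a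
    have hb0 := abs_nonneg b
    rcases le_total 0 Y with h | h
    · have h2 := hN.lower τ 0 Y h
      have h3 := hN.upper τ 0 Y h
      rw [sub_zero] at h2 h3
      rw [abs_of_nonneg h, abs_le]
      constructor
      · nlinarith
      · nlinarith
    · have h2 := hN.lower τ Y 0 h
      have h3 := hN.upper τ Y 0 h
      rw [zero_sub] at h2 h3
      rw [abs_of_nonpos h, abs_le]
      constructor
      · nlinarith
      · nlinarith
  have h2 : N Y τ = N 0 τ + (N Y τ - N 0 τ) := by ring
  rw [h2]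
  exact (abs_add_le _ _).trans (add_le_add h0 h1)

theorem floor_bound {w : ℝ} (hw : 0 < w) (Z : ℝ) :
    |(⌊Z / w⌋ : ℝ) * w| ≤ |Z| + w ∧ |((⌊Z / w⌋ : ℝ) + 1) * w| ≤ |Z| + w := by
  have h1 := Int.floor_le (Z / w)
  have h2 := Int.lt_floor_add_one (Z / w)
  have h3 : (⌊Z / w⌋ : ℝ) * w ≤ Z := by
    have := mul_le_mul_of_nonneg_right h1 hw.le
    rwa [div_mul_cancel₀ _ hw.ne'] at this
  have h4 : Z ≤ ((⌊Z / w⌋ : ℝ) + 1) * w := by
    have := mul_le_mul_of_nonneg_right h2.le hw.le
    rwa [div_mul_cancel₀ _ hw.ne'] at this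
  have h5 := neg_abs_le Z
  have h6 := le_abs_self Z
  constructor
  · rw [abs_le]
    constructor <;> linarith
  · rw [abs_le]
    constructor <;> linarith

theorem interp_bound {w : ℝ} (hw : 0 < w) {h : ℝ → ℝ} {C L : ℝ} (hL : 0 ≤ L)
    (hh : ∀ Y, |h Y| ≤ C + L * |Y|) (Z : ℝ) : |interp w h Z| ≤ C + L * (|Z| + w) := by
  have h1 := Int.fract_nonneg (Z / w)
  have h2 := (Int.fract_lt_one (Z / w)).le
  obtain ⟨h3, h4⟩ := floor_bound hw Z
  have h5 : |h ((⌊Z / w⌋ : ℝ) * w)| ≤ C + L * (|Z| + w) :=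
    (hh _).trans (by have := mul_le_mul_of_nonneg_left h3 hL; linarith)
  have h6 : |h (((⌊Z / w⌋ : ℝ) + 1) * w)| ≤ C + L * (|Z| + w) :=
    (hh _).trans (by have := mul_le_mul_of_nonneg_left h4 hL; linarith)
  unfold interp
  refine (abs_add_le _ _).trans ?_
  rw [abs_mul, abs_mul, abs_of_nonneg h1, abs_of_nonneg (by linarith : 0 ≤ 1 - Int.fract (Z / w))]
  have h7 := mul_le_mul_of_nonneg_left h5 (by linarith : 0 ≤ 1 - Int.fract (Z / w))
  have h8 := mul_le_mul_of_nonneg_left h6 h1
  linarith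

theorem swap3 {μ ν : Measure ℝ} [IsFiniteMeasure μ] [IsFiniteMeasure ν] {g : ℝ → ℝ → ℝ → ℝ}
    (hg : Measurable (fun p : ℝ × ℝ × ℝ => g p.1 p.2.1 p.2.2)) {C : ℝ}
    (hC : ∀ τ y z, |g τ y z| ≤ C) :
    ∫ τ, ∫ y, ∫ z, g τ y z ∂ν ∂ν ∂μ = ∫ y, ∫ z, ∫ τ, g τ y z ∂μ ∂ν ∂ν := by
  have h1 : Integrable (Function.uncurry fun τ y => ∫ z, g τ y z ∂ν) (μ.prod ν) := by
    have hm : StronglyMeasurable (fun p : (ℝ × ℝ) × ℝ => g p.1.1 p.1.2 p.2) := by
      refine Measurable.stronglyMeasurable ?_
      exact hg.comp (by fun_prop : Measurable fun p : (ℝ × ℝ) × ℝ => (p.1.1, p.1.2, p.2))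
    have hm2 := hm.integral_prod_right' (ν := ν)
    refine Integrable.of_bound (C := C * ν.real univ) hm2.aestronglyMeasurable ?_
    refine Filter.Eventually.of_forall fun p => ?_
    show ‖∫ z, g p.1 p.2 z ∂ν‖ ≤ C * ν.real univ
    exact norm_integral_le_of_norm_le_const (Filter.Eventually.of_forall fun z => hC _ _ _)
  rw [integral_integral_swap h1]
  refine integral_congr_ae (Filter.Eventually.of_forall fun y => ?_)
  have h2 : Integrable (Function.uncurry fun τ z => g τ y z) (μ.prod ν) := by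
    have hm : StronglyMeasurable (fun p : ℝ × ℝ => g p.1 y p.2) := by
      refine Measurable.stronglyMeasurable ?_
      exact hg.comp (by fun_prop : Measurable fun p : ℝ × ℝ => (p.1, y, p.2))
    exact Integrable.of_bound (C := C) hm.aestronglyMeasurable
      (Filter.Eventually.of_forall fun p => hC _ _ _)
  exact integral_integral_swap h2

/-- the clamped point -/
noncomputable def Zc (W R X y z : ℝ) : ℝ := X + W * (cw R X * cl y + (1 - cw R X) * cl z)

theorem Zc_abs (W R X y z : ℝ) : |Zc W R X y z| ≤ |X| + |W| * (|cw R X| + |1 - cw R X|) := by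
  unfold Zc
  refine (abs_add_le _ _).trans ?_
  rw [abs_mul]
  have h1 : |cw R X * cl y + (1 - cw R X) * cl z| ≤ |cw R X| + |1 - cw R X| := by
    refine (abs_add_le _ _).trans ?_
    rw [abs_mul, abs_mul]
    have h2 := cl_abs y
    have h3 := cl_abs z
    have h4 := mul_le_mul_of_nonneg_left h2 (abs_nonneg (cw R X))
    have h5 := mul_le_mul_of_nonneg_left h3 (abs_nonneg (1 - cw R X))
    have h6 := abs_nonneg (cw R X)
    have h7 := abs_nonneg (1 - cw R X)
    linarith
  have := mul_le_mul_of_nonneg_left h1 (abs_nonneg W)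
  linarith

theorem smooth_eq (W R : ℝ) (J : ℝ → ℝ) (X : ℝ) : smooth W R J X =
    ∫ y in Ioc (-1/2 : ℝ) (1/2), ∫ z in Ioc (-1/2 : ℝ) (1/2), J (Zc W R X y z) := by
  unfold smooth
  rw [← intervalIntegral.integral_of_le (by norm_num)]
  refine intervalIntegral.integral_congr fun y hy => ?_
  show _ = ∫ z in Ioc (-1/2 : ℝ) (1/2), J (Zc W R X y z)
  rw [← intervalIntegral.integral_of_le (by norm_num)]
  refine intervalIntegral.integral_congr fun z hz => ?_
  show _ = J (Zc W R X y z)
  unfold Zc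
  rw [cl_eq hy, cl_eq hz]

theorem interp_meas {a b : ℝ} {N : ℝ → ℝ → ℝ} (hN : Good a b N) (w : ℝ) :
    Measurable (fun p : ℝ × ℝ => interp w (fun Y => N Y p.1) p.2) := by
  have hm := hN.meas
  have hfl : Measurable (fun p : ℝ × ℝ => (⌊p.2 / w⌋ : ℝ)) := by
    have h1 : Measurable (fun u : ℝ => (⌊u⌋ : ℝ)) :=
      (measurable_from_top (f := fun n : ℤ => (n : ℝ))).comp Int.measurable_floor
    exact h1.comp (measurable_snd.div_const w)
  have hfr : Measurable (fun p : ℝ × ℝ => Int.fract (p.2 / w)) :=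
    measurable_fract.comp (measurable_snd.div_const w)
  have h1 : Measurable (fun p : ℝ × ℝ => N ((⌊p.2 / w⌋ : ℝ) * w) p.1) :=
    hm.comp ((hfl.mul_const w).prodMk measurable_fst)
  have h2 : Measurable (fun p : ℝ × ℝ => N (((⌊p.2 / w⌋ : ℝ) + 1) * w) p.1) :=
    hm.comp (((hfl.add_const 1).mul_const w).prodMk measurable_fst)
  unfold interp
  exact ((measurable_const.sub hfr).mul h1).add (hfr.mul h2)

theorem main_le (a b : ℝ) (N : ℝ → ℝ → ℝ) (hN : Good a b N)
    (w : ℝ) (hw : 0 < w) (W R : ℝ) (s t X : ℝ) (hst : s ≤ t) :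
    ∫ τ in s..t, smooth W R (interp w (fun Y => N Y τ)) X
      = smooth W R (interp w (fun Y => ∫ τ in s..t, N Y τ)) X := by
  obtain ⟨C, L, hL, hCL⟩ := good_bound hN
  rw [intervalIntegral.integral_of_le hst, smooth_eq]
  simp only [smooth_eq]
  rw [swap3 (C := C + L * (|X| + |W| * (|cw R X| + |1 - cw R X|) + w))]
  · refine integral_congr_ae (Filter.Eventually.of_forall fun y => ?_)
    refine integral_congr_ae (Filter.Eventually.of_forall fun z => ?_)
    show ∫ τ in Ioc s t, interp w (fun Y => N Y τ) (Zc W R X y z) =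
      interp w (fun Y => ∫ τ in s..t, N Y τ) (Zc W R X y z)
    have hi : ∀ Y, Integrable (fun τ => N Y τ) (volume.restrict (Ioc s t)) := by
      intro Y
      have hm : Measurable (fun τ => N Y τ) :=
        hN.meas.comp (measurable_const.prodMk measurable_id)
      exact Integrable.of_bound (C := C + L * |Y|) hm.aestronglyMeasurable
        (Filter.Eventually.of_forall fun τ => hCL Y τ)
    unfold interp
    rw [integral_add ((hi _).const_mul _) ((hi _).const_mul _), integral_const_mul,
      integral_const_mul]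
    simp only [intervalIntegral.integral_of_le hst]
  · have h1 := interp_meas hN w
    have h2 : Measurable (fun p : ℝ × ℝ × ℝ => Zc W R X p.2.1 p.2.2) := by
      have h3 := cl_cont.measurable
      unfold Zc
      fun_prop
    exact h1.comp (measurable_fst.prodMk h2)
  · intro τ y z
    refine (interp_bound hw hL (fun Y => hCL Y τ) _).trans ?_
    have := mul_le_mul_of_nonneg_left (Zc_abs W R X y z) hL
    linarith

end LD

/- TARGET: `integral_smooth_interp`.  Fubini for the time integral; `interp` is a combination of two values of the function,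
`smooth` a double integral over a compact square of a continuous function of `(y₁,y₂)` for fixed `τ` (jointly measurable in
`(y₁,y₂,τ)`, bounded on bounded sets because `|N X τ| ≤ C + b |X|`). -/

theorem integral_smooth_interp (a b : ℝ) (N : ℝ → ℝ → ℝ) (hN : Good a b N)
    (w : ℝ) (hw : 0 < w) (W R : ℝ) (s t X : ℝ) :
    ∫ τ in s..t, smooth W R (interp w (fun Y => N Y τ)) X
      = smooth W R (interp w (fun Y => ∫ τ in s..t, N Y τ)) X := by
  rcases le_total s t with h | h
  · exact LD.main_le a b N hN w hw W R s t X h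
  · rw [intervalIntegral.integral_symm, LD.main_le a b N hN w hw W R t s X h]
    have e : (fun Y => ∫ τ in s..t, N Y τ) = fun Y => -∫ τ in t..s, N Y τ := by
      funext Y
      rw [intervalIntegral.integral_symm]
    rw [e]
    have e2 : interp w (fun Y => -∫ τ in t..s, N Y τ) =
        fun Z => -interp w (fun Y => ∫ τ in t..s, N Y τ) Z := by
      funext Z
      unfold interp
      ring
    rw [e2]
    unfold smooth
    simp only [intervalIntegral.integral_neg]

end Pool.Agent.helper312_fol
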