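import Pool.Agent.helper312_fol.Delta
import Pool.Agent.helper312_fol.Choose
import Pool.Agent.helper312_fol.TimeInt

set_option autoImplicit false

open Set MeasureTheory

namespace Pool.Agent.helper312_fol

theorem lv_cw_mem (R X : ℝ) : 0 ≤ cw R X ∧ cw R X ≤ 1 := by
  unfold cw
  constructor
  · have := Real.neg_one_le_cos (Real.pi * X / R); linarith
  · have := Real.cos_le_one (Real.pi * X / R); linarith

theorem lv_cw_lip (R : ℝ) (hR : 0 < R) (X Y : ℝ) :
    |cw R X - cw R Y| ≤ Real.pi / (2 * R) * |X - Y| := by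
  unfold cw
  have h := Real.abs_cos_sub_cos_le (Real.pi * X / R) (Real.pi * Y / R)
  have e1 : (1 + Real.cos (Real.pi * X / R)) / 2 - (1 + Real.cos (Real.pi * Y / R)) / 2 =
      (Real.cos (Real.pi * X / R) - Real.cos (Real.pi * Y / R)) / 2 := by ring
  have e2 : Real.pi * X / R - Real.pi * Y / R = Real.pi / R * (X - Y) := by ring
  rw [e2, abs_mul, abs_of_nonneg (by positivity : 0 ≤ Real.pi / R)] at h
  rw [e1, abs_div, abs_of_pos (by norm_num : (0 : ℝ) < 2)]
  have e3 : Real.pi / (2 * R) * |X - Y| = Real.pi / R * |X - Y| / 2 := by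
    field_simp
  rw [e3]
  linarith

theorem lv_idx (R X : ℝ) (hR : 0 < R) (m : ℤ) (h1 : m * R ≤ X) (h2 : X < (m + 1) * R) :
    pe R X = (m + 1) / 2 ∧ po R X = m / 2 := by
  have h3 : (m : ℝ) ≤ X / R := by rwa [le_div_iff₀ hR]
  have h4 : X / R < m + 1 := by rwa [div_lt_iff₀ hR]
  constructor
  · unfold pe
    rw [Int.floor_eq_iff]
    have k1 : 2 * ((m + 1) / 2) ≤ m + 1 := by omega
    have k2 : m + 2 ≤ 2 * ((m + 1) / 2) + 2 := by omega
    have k1' : 2 * (((m + 1) / 2 : ℤ) : ℝ) ≤ m + 1 := by exact_mod_cast k1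
    have k2' : (m : ℝ) + 2 ≤ 2 * (((m + 1) / 2 : ℤ) : ℝ) + 2 := by exact_mod_cast k2
    constructor
    · linarith
    · linarith
  · unfold po
    rw [Int.floor_eq_iff]
    have k1 : 2 * (m / 2) ≤ m := by omega
    have k2 : m + 1 ≤ 2 * (m / 2) + 2 := by omega
    have k1' : 2 * ((m / 2 : ℤ) : ℝ) ≤ m := by exact_mod_cast k1
    have k2' : (m : ℝ) + 1 ≤ 2 * ((m / 2 : ℤ) : ℝ) + 2 := by exact_mod_cast k2
    constructor
    · linarith
    · linarith

/-- the value of the weight at the end of a cell -/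
theorem lv_cw_end (R : ℝ) (hR : 0 < R) (m : ℤ) (ye yo : ℤ → ℝ) :
    cw R ((m + 1) * R) * ye ((m + 1) / 2) + (1 - cw R ((m + 1) * R)) * yo (m / 2) =
      cw R ((m + 1) * R) * ye ((m + 1 + 1) / 2) + (1 - cw R ((m + 1) * R)) * yo ((m + 1) / 2) := by
  have e : Real.pi * ((m + 1) * R) / R = ((m + 1 : ℤ) : ℝ) * Real.pi := by
    push_cast
    field_simp
  unfold cw
  rw [e, Real.cos_int_mul_pi]
  rcases Int.even_or_odd (m + 1) with h | h
  · rw [h.neg_one_zpow]
    have : (m + 1) / 2 = (m + 1 + 1) / 2 := by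
      obtain ⟨k, hk⟩ := h
      omega
    rw [this]
    ring
  · rw [h.neg_one_zpow]
    have : m / 2 = (m + 1) / 2 := by
      obtain ⟨k, hk⟩ := h
      omega
    rw [this]
    ring

theorem lv_conv (S x y B : ℝ) (h0 : 0 ≤ S) (h1 : S ≤ 1) (hx : |x| ≤ B) (hy : |y| ≤ B) :
    |S * x + (1 - S) * y| ≤ B := by
  have a1 := abs_le.1 hx
  have a2 := abs_le.1 hy
  rw [abs_le]
  constructor
  · nlinarith
  · nlinarith

/-- Lipschitz bound inside a cell -/
theorem lv_cell (L w : ℝ) (hL : 1 ≤ L) (hw : 0 < w) (x y : ℝ) (hx : |x| ≤ 1 / 2) (hy : |y| ≤ 1 / 2)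
    (X Y : ℝ) : |(L * w) * (cw (L ^ 2 * w) X * x + (1 - cw (L ^ 2 * w) X) * y) -
      (L * w) * (cw (L ^ 2 * w) Y * x + (1 - cw (L ^ 2 * w) Y) * y)| ≤ 2 / L * |X - Y| := by
  have hR : 0 < L ^ 2 * w := by positivity
  have e : (L * w) * (cw (L ^ 2 * w) X * x + (1 - cw (L ^ 2 * w) X) * y) -
      (L * w) * (cw (L ^ 2 * w) Y * x + (1 - cw (L ^ 2 * w) Y) * y) =
      (L * w) * ((cw (L ^ 2 * w) X - cw (L ^ 2 * w) Y) * (x - y)) := by ring
  rw [e, abs_mul, abs_of_pos (by positivity : 0 < L * w), abs_mul]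
  have h1 := lv_cw_lip _ hR X Y
  have h2 : |x - y| ≤ 1 := by
    have a1 := abs_le.1 hx
    have a2 := abs_le.1 hy
    rw [abs_le]
    constructor <;> linarith
  have h3 : |cw (L ^ 2 * w) X - cw (L ^ 2 * w) Y| * |x - y| ≤
      Real.pi / (2 * (L ^ 2 * w)) * |X - Y| * 1 :=
    mul_le_mul h1 h2 (abs_nonneg _) (by positivity)
  have h4 : (L * w) * (|cw (L ^ 2 * w) X - cw (L ^ 2 * w) Y| * |x - y|) ≤
      (L * w) * (Real.pi / (2 * (L ^ 2 * w)) * |X - Y| * 1) :=
    mul_le_mul_of_nonneg_left h3 (by positivity)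
  refine h4.trans ?_
  have e2 : (L * w) * (Real.pi / (2 * (L ^ 2 * w)) * |X - Y| * 1) = Real.pi / 2 / L * |X - Y| := by
    field_simp
  rw [e2]
  refine mul_le_mul_of_nonneg_right ?_ (abs_nonneg _)
  gcongr
  linarith [Real.pi_le_four]

theorem shift_lip (L : ℕ) (hL : 1 ≤ L) (w : ℝ) (hw : 0 < w) (ye yo : ℤ → ℝ)
    (he : ∀ p, ye p ∈ Icc (-1/2 : ℝ) (1/2)) (ho : ∀ p, yo p ∈ Icc (-1/2 : ℝ) (1/2)) (X Y : ℝ) :
    |(L * w) * (cw ((L : ℝ) ^ 2 * w) X * ye (pe ((L : ℝ) ^ 2 * w) X)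
        + (1 - cw ((L : ℝ) ^ 2 * w) X) * yo (po ((L : ℝ) ^ 2 * w) X))
      - (L * w) * (cw ((L : ℝ) ^ 2 * w) Y * ye (pe ((L : ℝ) ^ 2 * w) Y)
        + (1 - cw ((L : ℝ) ^ 2 * w) Y) * yo (po ((L : ℝ) ^ 2 * w) Y))| ≤ 2 / L * |X - Y| := by
  wlog hXY : X ≤ Y generalizing X Y
  · rw [abs_sub_comm, abs_sub_comm X Y]
    exact this Y X (le_of_not_ge hXY)
  have hL' : (1 : ℝ) ≤ L := by exact_mod_cast hL
  set R := (L : ℝ) ^ 2 * w with hRdef
  have hR : 0 < R := by positivity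
  have he' : ∀ p, |ye p| ≤ 1 / 2 := fun p => abs_le.2 ⟨by linarith [(he p).1], (he p).2⟩
  have ho' : ∀ p, |yo p| ≤ 1 / 2 := fun p => abs_le.2 ⟨by linarith [(ho p).1], (ho p).2⟩
  by_cases hfar : R ≤ Y - X
  · -- far apart
    have hb : ∀ Z, |(L * w) * (cw R Z * ye (pe R Z) + (1 - cw R Z) * yo (po R Z))| ≤ L * w / 2 := by
      intro Z
      rw [abs_mul, abs_of_pos (by positivity : 0 < (L : ℝ) * w)]
      have := lv_conv (cw R Z) _ _ _ (lv_cw_mem R Z).1 (lv_cw_mem R Z).2 (he' (pe R Z)) (ho' (po R Z))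
      have h5 : (L * w) * |cw R Z * ye (pe R Z) + (1 - cw R Z) * yo (po R Z)| ≤ (L * w) * (1 / 2) :=
        mul_le_mul_of_nonneg_left this (by positivity)
      linarith
    have h1 := abs_sub_le ((L * w) * (cw R X * ye (pe R X) + (1 - cw R X) * yo (po R X))) 0
      ((L * w) * (cw R Y * ye (pe R Y) + (1 - cw R Y) * yo (po R Y)))
    rw [sub_zero, zero_sub, abs_neg] at h1
    have h2 : |X - Y| = Y - X := by rw [abs_sub_comm, abs_of_nonneg (by linarith)]
    rw [h2]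
    have h3 : (L : ℝ) * w ≤ 1 / L * (Y - X) := by
      have h4 : 1 / (L : ℝ) * R ≤ 1 / L * (Y - X) := mul_le_mul_of_nonneg_left hfar (by positivity)
      have h5 : 1 / (L : ℝ) * R = L * w := by
        rw [hRdef]; field_simp
      linarith
    have h6 : 2 / (L : ℝ) * (Y - X) = 1 / L * (Y - X) + 1 / L * (Y - X) := by ring
    have h7 := hb X
    have h8 := hb Y
    have h9 : 0 ≤ (L : ℝ) * w := by positivity
    linarith
  · rw [not_le] at hfar
    set m := ⌊X / R⌋ with hm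
    have m1 : (m : ℝ) * R ≤ X := by
      have := Int.floor_le (X / R)
      rwa [le_div_iff₀ hR] at this
    have m2 : X < ((m : ℝ) + 1) * R := by
      have := Int.lt_floor_add_one (X / R)
      rwa [div_lt_iff₀ hR] at this
    obtain ⟨iX, iX'⟩ := lv_idx R X hR m m1 m2
    by_cases hc : Y < ((m : ℝ) + 1) * R
    · obtain ⟨iY, iY'⟩ := lv_idx R Y hR m (m1.trans hXY) hc
      rw [iX, iX', iY, iY']
      exact lv_cell L w hL' hw _ _ (he' _) (ho' _) X Y
    · rw [not_lt] at hc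
      obtain ⟨iY, iY'⟩ := lv_idx R Y hR (m + 1) (by push_cast; exact hc) (by push_cast; linarith)
      rw [iX, iX', iY, iY']
      have k1 := lv_cell L w hL' hw _ _ (he' ((m + 1) / 2)) (ho' (m / 2)) X (((m : ℝ) + 1) * R)
      have k2 := lv_cell L w hL' hw _ _ (he' ((m + 1 + 1) / 2)) (ho' ((m + 1) / 2))
        (((m : ℝ) + 1) * R) Y
      have k3 := lv_cw_end R hR m ye yo
      have k4 := abs_sub_le
        ((L * w) * (cw R X * ye ((m + 1) / 2) + (1 - cw R X) * yo (m / 2)))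
        ((L * w) * (cw R (((m : ℝ) + 1) * R) * ye ((m + 1) / 2) +
          (1 - cw R (((m : ℝ) + 1) * R)) * yo (m / 2)))
        ((L * w) * (cw R Y * ye ((m + 1 + 1) / 2) + (1 - cw R Y) * yo ((m + 1) / 2)))
      refine k4.trans ?_
      rw [← hRdef] at k1 k2
      rw [k3] at k1 ⊢
      have k5 : |X - ((m : ℝ) + 1) * R| = ((m : ℝ) + 1) * R - X := by
        rw [abs_sub_comm, abs_of_nonneg (by linarith)]
      have k6 : |((m : ℝ) + 1) * R - Y| = Y - ((m : ℝ) + 1) * R := by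
        rw [abs_sub_comm, abs_of_nonneg (by linarith)]
      have k7 : |X - Y| = Y - X := by rw [abs_sub_comm, abs_of_nonneg (by linarith)]
      rw [k5] at k1
      rw [k6] at k2
      rw [k7]
      have k8 : 2 / (L : ℝ) * (((m : ℝ) + 1) * R - X) + 2 / L * (Y - ((m : ℝ) + 1) * R) =
        2 / L * (Y - X) := by ring
      linarith

/-! #### the bump -/

theorem lv_bump_mem (s T W τ : ℝ) : 0 ≤ bump s T W τ ∧ bump s T W τ ≤ 1 := by
  unfold bump
  refine ⟨le_max_left _ _, max_le zero_le_one (min_le_left _ _)⟩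

theorem lv_bump_left (s T W τ : ℝ) (hW : 0 < W) (h : s ≤ τ) : bump s T W τ ≤ (τ - s) / W := by
  unfold bump
  refine max_le (div_nonneg (by linarith) hW.le) ?_
  exact (min_le_right _ _).trans (min_le_left _ _)

theorem lv_bump_zero_left (s T W τ : ℝ) (hW : 0 < W) (h : τ ≤ s) : bump s T W τ = 0 := by
  unfold bump
  refine max_eq_left ?_
  refine ((min_le_right _ _).trans (min_le_left _ _)).trans ?_
  exact div_nonpos_of_nonpos_of_nonneg (by linarith) hW.le

theorem lv_bump_right (s T W τ : ℝ) (hW : 0 < W) (h : τ ≤ s + T) :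
    bump s T W τ ≤ (s + T - τ) / W := by
  unfold bump
  refine max_le (div_nonneg (by linarith) hW.le) ?_
  exact (min_le_right _ _).trans (min_le_right _ _)

theorem lv_bump_zero_right (s T W τ : ℝ) (hW : 0 < W) (h : s + T ≤ τ) : bump s T W τ = 0 := by
  unfold bump
  refine max_eq_left ?_
  refine ((min_le_right _ _).trans (min_le_right _ _)).trans ?_
  exact div_nonpos_of_nonpos_of_nonneg (by linarith) hW.le

theorem lv_bump_lip (s T W τ σ : ℝ) (hW : 0 < W) :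
    |bump s T W τ - bump s T W σ| ≤ |τ - σ| / W := by
  unfold bump
  have h0 : 0 ≤ |τ - σ| / W := by positivity
  refine (abs_max_sub_max_le_max _ _ _ _).trans (max_le (by simpa using h0) ?_)
  refine (abs_min_sub_min_le_max _ _ _ _).trans (max_le (by simpa using h0) ?_)
  refine (abs_min_sub_min_le_max _ _ _ _).trans (max_le ?_ ?_)
  · have : (τ - s) / W - (σ - s) / W = (τ - σ) / W := by ring
    rw [this, abs_div, abs_of_pos hW]
  · have : (s + T - τ) / W - (s + T - σ) / W = -((τ - σ) / W) := by ring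
    rw [this, abs_neg, abs_div, abs_of_pos hW]

/-- The shift as a function of time is 1-Lipschitz. -/
theorem lv_time (T W : ℝ) (hT : 0 < T) (hW : 0 < W) (V : ℕ → ℝ) (hV : ∀ i, |V i| ≤ W) (τ σ : ℝ) :
    |bump (⌊τ / T⌋₊ * T) T W τ * V ⌊τ / T⌋₊ - bump (⌊σ / T⌋₊ * T) T W σ * V ⌊σ / T⌋₊| ≤
      |τ - σ| := by
  wlog h : τ ≤ σ generalizing τ σ
  · rw [abs_sub_comm, abs_sub_comm τ σ]
    exact this σ τ (le_of_not_ge h)
  have hab : ∀ (β v : ℝ), 0 ≤ β → |v| ≤ W → |β * v| ≤ β * W := by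
    intro β v h1 h2
    rw [abs_mul, abs_of_nonneg h1]
    exact mul_le_mul_of_nonneg_left h2 h1
  rcases eq_or_lt_of_le (Nat.floor_mono (div_le_div_of_nonneg_right h hT.le)) with he | hlt
  · rw [← he, ← sub_mul, abs_mul]
    calc |bump (⌊τ / T⌋₊ * T) T W τ - bump (⌊τ / T⌋₊ * T) T W σ| * |V ⌊τ / T⌋₊|
        ≤ |τ - σ| / W * W := mul_le_mul (lv_bump_lip _ _ _ _ _ hW) (hV _) (abs_nonneg _)
          (by positivity)
      _ = |τ - σ| := by field_simp
  · set i := ⌊τ / T⌋₊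
    set k := ⌊σ / T⌋₊
    have hi : τ < ((i : ℝ) + 1) * T := by
      have := Nat.lt_floor_add_one (τ / T)
      rwa [div_lt_iff₀ hT] at this
    have hk : (k : ℝ) * T ≤ σ := by
      have hpos : 0 ≤ σ / T := by
        by_contra hneg
        have : k = 0 := Nat.floor_of_nonpos (not_le.1 hneg).le
        omega
      have := Nat.floor_le hpos
      rwa [le_div_iff₀ hT] at this
    have hik : ((i : ℝ) + 1) * T ≤ k * T := by
      have : (i : ℝ) + 1 ≤ k := by exact_mod_cast hlt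
      exact mul_le_mul_of_nonneg_right this hT.le
    have h1 : |bump (i * T) T W τ * V i| ≤ ((i : ℝ) + 1) * T - τ := by
      refine (hab _ _ (lv_bump_mem _ _ _ _).1 (hV i)).trans ?_
      have h2 := lv_bump_right (i * T) T W τ hW (by linarith)
      have h3 := mul_le_mul_of_nonneg_right h2 hW.le
      have e : ((i : ℝ) * T + T - τ) / W * W = ((i : ℝ) + 1) * T - τ := by
        rw [div_mul_cancel₀ _ hW.ne']
        ring
      linarith
    have h2 : |bump (k * T) T W σ * V k| ≤ σ - k * T := by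
      refine (hab _ _ (lv_bump_mem _ _ _ _).1 (hV k)).trans ?_
      have h2 := lv_bump_left (k * T) T W σ hW hk
      have h3 := mul_le_mul_of_nonneg_right h2 hW.le
      have e : (σ - (k : ℝ) * T) / W * W = σ - k * T := by field_simp
      linarith
    have h3 := abs_sub (bump (i * T) T W τ * V i) (bump (k * T) T W σ * V k)
    have h4 : |τ - σ| = σ - τ := by rw [abs_sub_comm, abs_of_nonneg (by linarith)]
    rw [h4]
    linarith

/-! #### `Good` functions -/

theorem lv_b_nonneg {a b : ℝ} {N : ℝ → ℝ → ℝ} (ha : 0 < a) (hN : Good a b N) : 0 ≤ b := by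
  have h1 := hN.lower 0 0 1 zero_le_one
  have h2 := hN.upper 0 0 1 zero_le_one
  linarith

theorem lv_lip {a b : ℝ} {N : ℝ → ℝ → ℝ} (ha : 0 < a) (hN : Good a b N) (X Y τ : ℝ) :
    |N X τ - N Y τ| ≤ b * |X - Y| := by
  wlog h : Y ≤ X generalizing X Y
  · rw [abs_sub_comm, abs_sub_comm X Y]
    exact this Y X (le_of_not_ge h)
  have h1 := hN.lower τ Y X h
  have h2 := hN.upper τ Y X h
  rw [abs_of_nonneg (by linarith : 0 ≤ X - Y), abs_of_nonneg]
  · exact h2
  · have : 0 ≤ a * (X - Y) := mul_nonneg ha.le (by linarith)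
    linarith

theorem lv_interp_close {w b : ℝ} (hw : 0 < w) {h : ℝ → ℝ} (hb : ∀ X Y, |h X - h Y| ≤ b * |X - Y|)
    (Z X : ℝ) (M : ℝ) (hM : |Z - X| ≤ M) (hb0 : 0 ≤ b) : |interp w h Z - h X| ≤ b * (M + w) := by
  unfold interp
  set f := Int.fract (Z / w)
  set m := ⌊Z / w⌋
  have f0 : 0 ≤ f := Int.fract_nonneg _
  have f1 : f ≤ 1 := (Int.fract_lt_one _).le
  have m1 : (m : ℝ) * w ≤ Z := by
    have := Int.floor_le (Z / w)
    rwa [le_div_iff₀ hw] at this
  have m2 : Z < ((m : ℝ) + 1) * w := by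
    have := Int.lt_floor_add_one (Z / w)
    rwa [div_lt_iff₀ hw] at this
  have hM' := abs_le.1 hM
  have k1 : |h (m * w) - h X| ≤ b * (M + w) := by
    refine (hb _ _).trans (mul_le_mul_of_nonneg_left ?_ hb0)
    rw [abs_le]
    constructor <;> linarith
  have k2 : |h ((m + 1) * w) - h X| ≤ b * (M + w) := by
    refine (hb _ _).trans (mul_le_mul_of_nonneg_left ?_ hb0)
    rw [abs_le]
    constructor <;> linarith
  have e : (1 - f) * h (m * w) + f * h ((m + 1) * w) - h X =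
      (1 - f) * (h (m * w) - h X) + (1 - (1 - f)) * (h ((m + 1) * w) - h X) := by ring
  rw [e]
  exact lv_conv (1 - f) _ _ _ (by linarith) (by linarith) k1 k2

/-- joint measurability of the integrand of `smooth` -/
theorem lv_meas {N : ℝ → ℝ → ℝ} (hN : Measurable (fun p : ℝ × ℝ => N p.1 p.2)) (w W R X : ℝ) :
    Measurable (fun q : (ℝ × ℝ) × ℝ => interp w (fun Y => N Y q.1.1)
      (X + W * (cw R X * q.1.2 + (1 - cw R X) * q.2))) := by
  unfold interp
  have h1 : Measurable (fun q : (ℝ × ℝ) × ℝ =>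
      (X + W * (cw R X * q.1.2 + (1 - cw R X) * q.2)) / w) := by fun_prop
  have h2 : Measurable (fun q : (ℝ × ℝ) × ℝ => (⌊(X + W * (cw R X * q.1.2 + (1 - cw R X) * q.2)) / w⌋ : ℝ)) :=
    (measurable_from_top (f := fun z : ℤ => (z : ℝ))).comp (Int.measurable_floor.comp h1)
  have h3 : Measurable (fun q : (ℝ × ℝ) × ℝ =>
      Int.fract ((X + W * (cw R X * q.1.2 + (1 - cw R X) * q.2)) / w)) :=
    measurable_fract.comp h1
  have h4 : Measurable (fun q : (ℝ × ℝ) × ℝ =>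
      N (⌊(X + W * (cw R X * q.1.2 + (1 - cw R X) * q.2)) / w⌋ * w) q.1.1) :=
    hN.comp ((h2.mul_const w).prodMk (measurable_fst.comp measurable_fst))
  have h5 : Measurable (fun q : (ℝ × ℝ) × ℝ =>
      N ((⌊(X + W * (cw R X * q.1.2 + (1 - cw R X) * q.2)) / w⌋ + 1) * w) q.1.1) :=
    hN.comp (((h2.add_const 1).mul_const w).prodMk (measurable_fst.comp measurable_fst))
  exact ((measurable_const.sub h3).mul h4).add (h3.mul h5)

theorem lv_half : (-1/2 : ℝ) ≤ 1/2 := by norm_num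

/-- `smooth` of the interpolation is measurable in time -/
theorem lv_smooth_meas {N : ℝ → ℝ → ℝ} (hN : Measurable (fun p : ℝ × ℝ => N p.1 p.2)) (w W R X : ℝ) :
    Measurable (fun τ => smooth W R (interp w (fun Y => N Y τ)) X) := by
  unfold smooth
  simp only [intervalIntegral.integral_of_le lv_half]
  have h1 := (lv_meas hN w W R X).stronglyMeasurable
  have h2 : StronglyMeasurable (fun q : ℝ × ℝ => ∫ y₂ in Ioc (-1/2 : ℝ) (1/2),
      interp w (fun Y => N Y q.1) (X + W * (cw R X * q.2 + (1 - cw R X) * y₂))) :=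
    h1.integral_prod_right'
  exact (h2.integral_prod_right').measurable

theorem lv_smooth_close {N : ℝ → ℝ → ℝ} (hN : Measurable (fun p : ℝ × ℝ => N p.1 p.2))
    {b w W R : ℝ} (hw : 0 < w) (hW : 0 < W) (hb0 : 0 ≤ b)
    (hb : ∀ X Y τ, |N X τ - N Y τ| ≤ b * |X - Y|) (X τ : ℝ) :
    |smooth W R (interp w (fun Y => N Y τ)) X - N X τ| ≤ b * (W / 2 + w) := by
  obtain ⟨Φ, hΦ⟩ : ∃ Φ : ℝ → ℝ → ℝ, Φ = fun y₁ y₂ =>
    interp w (fun Y => N Y τ) (X + W * (cw R X * y₁ + (1 - cw R X) * y₂)) := ⟨_, rfl⟩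
  have hΦ' : ∀ y₁ y₂, interp w (fun Y => N Y τ) (X + W * (cw R X * y₁ + (1 - cw R X) * y₂)) =
      Φ y₁ y₂ := fun y₁ y₂ => by rw [hΦ]
  have hm : Measurable (fun q : ℝ × ℝ => Φ q.1 q.2) := by
    have h0 : Measurable (fun q : ℝ × ℝ => (((τ, q.1), q.2) : (ℝ × ℝ) × ℝ)) :=
      (measurable_const.prodMk measurable_fst).prodMk measurable_snd
    have h1 := (lv_meas hN w W R X).comp h0
    rw [hΦ]
    exact h1
  have hclose : ∀ y₁ y₂ : ℝ, |y₁| ≤ 1 / 2 → |y₂| ≤ 1 / 2 → |Φ y₁ y₂ - N X τ| ≤ b * (W / 2 + w) := by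
    intro y₁ y₂ h1 h2
    rw [← hΦ']
    refine lv_interp_close hw (h := fun Y => N Y τ) (fun X Y => hb X Y τ) _ X (W / 2) ?_ hb0
    rw [add_sub_cancel_left, abs_mul, abs_of_pos hW]
    have := lv_conv (cw R X) y₁ y₂ (1 / 2) (lv_cw_mem R X).1 (lv_cw_mem R X).2 h1 h2
    have h3 := mul_le_mul_of_nonneg_left this hW.le
    linarith
  have habs : ∀ y : ℝ, y ∈ Ioc (-1/2 : ℝ) (1/2) → |y| ≤ 1 / 2 := fun y hy =>
    abs_le.2 ⟨by linarith [hy.1], hy.2⟩
  have hvol : (volume (Ioc (-1/2 : ℝ) (1/2))).toReal = 1 := by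
    rw [Real.volume_Ioc, ENNReal.toReal_ofReal] <;> norm_num
  have hfin : volume (Ioc (-1/2 : ℝ) (1/2)) < ⊤ := by
    rw [Real.volume_Ioc]; exact ENNReal.ofReal_lt_top
  -- inner integrability
  have hbd : ∀ (f : ℝ → ℝ), Measurable f → (∀ y ∈ Ioc (-1/2 : ℝ) (1/2), |f y - N X τ| ≤ b * (W / 2 + w)) →
      IntegrableOn f (Ioc (-1/2 : ℝ) (1/2)) := by
    intro f hf hfb
    refine Measure.integrableOn_of_bounded hfin.ne hf.aestronglyMeasurable
      (M := b * (W / 2 + w) + |N X τ|) ?_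
    refine (ae_restrict_iff' measurableSet_Ioc).2 (Filter.Eventually.of_forall fun y hy => ?_)
    have h1 := hfb y hy
    have h2 := abs_sub_abs_le_abs_sub (f y) (N X τ)
    rw [Real.norm_eq_abs]
    linarith
  have hI : ∀ (f : ℝ → ℝ), Measurable f → (∀ y ∈ Ioc (-1/2 : ℝ) (1/2), |f y - N X τ| ≤ b * (W / 2 + w)) →
      |(∫ y in (-1/2 : ℝ)..(1/2), f y) - N X τ| ≤ b * (W / 2 + w) := by
    intro f hf hfb
    have e1 : (∫ y in (-1/2 : ℝ)..(1/2), f y) - N X τ = ∫ y in (-1/2 : ℝ)..(1/2), (f y - N X τ) := by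
      rw [intervalIntegral.integral_sub, intervalIntegral.integral_const]
      · norm_num
      · rw [intervalIntegrable_iff_integrableOn_Ioc_of_le lv_half]
        exact hbd f hf hfb
      · exact intervalIntegrable_const
    rw [e1]
    have := intervalIntegral.norm_integral_le_of_norm_le_const (a := (-1/2 : ℝ)) (b := 1/2)
      (f := fun y => f y - N X τ) (C := b * (W / 2 + w)) (by
        intro y hy
        rw [uIoc_of_le lv_half] at hy
        exact hfb y hy)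
    rw [Real.norm_eq_abs] at this
    refine this.trans (le_of_eq ?_)
    norm_num
  have hinner : ∀ y₁ : ℝ, |y₁| ≤ 1 / 2 → |(∫ y₂ in (-1/2 : ℝ)..(1/2), Φ y₁ y₂) - N X τ| ≤ b * (W / 2 + w) := by
    intro y₁ h1
    have hmy : Measurable (fun y : ℝ => Φ y₁ y) := by
      have h2 : Measurable (fun y : ℝ => ((y₁, y) : ℝ × ℝ)) := measurable_const.prodMk measurable_id
      exact hm.comp h2
    exact hI (fun y => Φ y₁ y) hmy fun y₂ hy₂ => hclose y₁ y₂ h1 (habs y₂ hy₂)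
  have hmi : Measurable (fun y₁ => ∫ y₂ in (-1/2 : ℝ)..(1/2), Φ y₁ y₂) := by
    simp only [intervalIntegral.integral_of_le lv_half]
    exact (hm.stronglyMeasurable.integral_prod_right').measurable
  unfold smooth
  simp only [hΦ']
  exact hI _ hmi fun y₁ hy₁ => hinner y₁ (habs y₁ hy₁)

theorem level (a b : ℝ) (ha : 0 < a) : ∃ (C : ℝ) (L₀ : ℕ), 0 < C ∧ 4 ≤ L₀ ∧
    ∀ (N : ℝ → ℝ → ℝ), Good a b N → ∀ (L : ℕ), L₀ ≤ L → ∀ (w : ℝ), 0 < w →
    ∃ g : ℝ → ℝ → ℝ,
      (∀ X τ, |g X τ| ≤ L * w) ∧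
      (∀ X Y τ, |g X τ - g Y τ| ≤ C / L * |X - Y|) ∧
      (∀ X τ σ, |g X τ - g X σ| ≤ |τ - σ|) ∧
      ∀ (j : ℤ) (t : ℝ), 0 ≤ t →
        |(∫ τ in (0 : ℝ)..t, N (j * (w / 2) + g (j * (w / 2)) τ) τ)
          - smooth (L * w) ((L : ℝ) ^ 2 * w) (interp w (fun Y => ∫ τ in (0 : ℝ)..t, N Y τ))
              (j * (w / 2))| ≤ 50 * b * (L : ℝ) ^ 5 * w ^ 2 := by
  obtain ⟨C, hC0, hC⟩ := exists_delta a b ha
  refine ⟨C + 2, max 4 ⌈2 * C⌉₊, by linarith, le_max_left _ _, ?_⟩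
  intro N hN L hL w hw
  have hL4 : 4 ≤ L := (le_max_left _ _).trans hL
  have hLC : 2 * C ≤ L := by
    have h1 : ⌈2 * C⌉₊ ≤ L := (le_max_right _ _).trans hL
    exact (Nat.le_ceil _).trans (by exact_mod_cast h1)
  have hL1 : (4 : ℝ) ≤ L := by exact_mod_cast hL4
  have hb0 := lv_b_nonneg ha hN
  choose δ hδ1 hδ2 hδ3 using fun i : ℕ => hC N hN L hL4 w hw (i * ((L : ℝ) ^ 2 * w))
  have hδ4 : ∀ i X, |δ i X| ≤ L * w / 2 := fun i X =>
    (hδ1 i X).trans (by nlinarith)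
  obtain ⟨ye, yo, hye, hyo, hsum⟩ := choose_shifts a b ha N hN L hL4 w hw δ hδ4 hδ3
  have hlip := fun i : ℕ => shift_lip L (by omega) w hw (ye i) (yo i) (hye i) (hyo i)
  have hint0 := integral_smooth_interp a b N hN w hw
  obtain ⟨T, hTdef⟩ : ∃ T : ℝ, T = (L : ℝ) ^ 2 * w := ⟨_, rfl⟩
  obtain ⟨W, hWdef⟩ : ∃ W : ℝ, W = (L : ℝ) * w := ⟨_, rfl⟩
  simp only [← hTdef, ← hWdef] at hδ4 hsum hlip ⊢
  have hT : 0 < T := by rw [hTdef]; positivity
  have hW : 0 < W := by rw [hWdef]; positivity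
  obtain ⟨V, hV⟩ : ∃ V : ℕ → ℝ → ℝ, V = fun i X =>
    W * (cw T X * ye i (pe T X) + (1 - cw T X) * yo i (po T X)) + δ i X := ⟨_, rfl⟩
  have hV' : ∀ i X, V i X = W * (cw T X * ye i (pe T X) + (1 - cw T X) * yo i (po T X)) + δ i X :=
    fun i X => by rw [hV]
  have hVb : ∀ i X, |V i X| ≤ W := by
    intro i X
    rw [hV']
    have h1 := lv_conv (cw T X) (ye i (pe T X)) (yo i (po T X)) (1 / 2) (lv_cw_mem T X).1
      (lv_cw_mem T X).2 (abs_le.2 ⟨by linarith [(hye i (pe T X)).1], (hye i (pe T X)).2⟩)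
      (abs_le.2 ⟨by linarith [(hyo i (po T X)).1], (hyo i (po T X)).2⟩)
    have h2 := hδ4 i X
    have h3 := abs_add_le (W * (cw T X * ye i (pe T X) + (1 - cw T X) * yo i (po T X))) (δ i X)
    rw [abs_mul, abs_of_pos hW] at h3
    have h4 := mul_le_mul_of_nonneg_left h1 hW.le
    linarith
  have hVl : ∀ i X Y, |V i X - V i Y| ≤ (C + 2) / L * |X - Y| := by
    intro i X Y
    rw [hV', hV']
    have h1 := hlip i X Y
    have h2 := hδ2 i X Y
    have e : W * (cw T X * ye i (pe T X) + (1 - cw T X) * yo i (po T X)) + δ i X -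
        (W * (cw T Y * ye i (pe T Y) + (1 - cw T Y) * yo i (po T Y)) + δ i Y) =
        (W * (cw T X * ye i (pe T X) + (1 - cw T X) * yo i (po T X)) -
        W * (cw T Y * ye i (pe T Y) + (1 - cw T Y) * yo i (po T Y))) + (δ i X - δ i Y) := by ring
    rw [e]
    refine (abs_add_le _ _).trans ?_
    have e2 : (C + 2) / (L : ℝ) * |X - Y| = 2 / L * |X - Y| + C / L * |X - Y| := by ring
    rw [e2]
    exact add_le_add h1 h2
  have hgb : ∀ X τ, |bump (⌊τ / T⌋₊ * T) T W τ * V ⌊τ / T⌋₊ X| ≤ W := by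
    intro X τ
    obtain ⟨p0, p1⟩ := lv_bump_mem (⌊τ / T⌋₊ * T) T W τ
    rw [abs_mul, abs_of_nonneg p0]
    have := hVb ⌊τ / T⌋₊ X
    nlinarith [abs_nonneg (V ⌊τ / T⌋₊ X)]
  have hgt : ∀ X τ σ, |bump (⌊τ / T⌋₊ * T) T W τ * V ⌊τ / T⌋₊ X -
      bump (⌊σ / T⌋₊ * T) T W σ * V ⌊σ / T⌋₊ X| ≤ |τ - σ| := fun X τ σ =>
    lv_time T W hT hW (fun i => V i X) (fun i => hVb i X) τ σ
  refine ⟨fun X τ => bump (⌊τ / T⌋₊ * T) T W τ * V ⌊τ / T⌋₊ X, hgb, ?_, hgt, ?_⟩
  · intro X Y τ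
    obtain ⟨p0, p1⟩ := lv_bump_mem (⌊τ / T⌋₊ * T) T W τ
    show |bump (⌊τ / T⌋₊ * T) T W τ * V ⌊τ / T⌋₊ X - bump (⌊τ / T⌋₊ * T) T W τ * V ⌊τ / T⌋₊ Y| ≤ _
    rw [← mul_sub, abs_mul, abs_of_nonneg p0]
    have := hVl ⌊τ / T⌋₊ X Y
    nlinarith [abs_nonneg (V ⌊τ / T⌋₊ X - V ⌊τ / T⌋₊ Y)]
  · intro j t ht
    have hsumj := fun n => hsum n j
    obtain ⟨X, hX⟩ : ∃ X : ℝ, X = j * (w / 2) := ⟨_, rfl⟩
    simp only [← hX] at hsumj ⊢
    obtain ⟨F, hF⟩ : ∃ F : ℝ → ℝ, F = fun τ =>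
      N (X + bump (⌊τ / T⌋₊ * T) T W τ * V ⌊τ / T⌋₊ X) τ := ⟨_, rfl⟩
    obtain ⟨H, hH⟩ : ∃ H : ℝ → ℝ, H = fun τ => smooth W T (interp w (fun Y => N Y τ)) X := ⟨_, rfl⟩
    have hgcont : Continuous (fun τ => bump (⌊τ / T⌋₊ * T) T W τ * V ⌊τ / T⌋₊ X) := by
      have hl : LipschitzWith 1 (fun τ => bump (⌊τ / T⌋₊ * T) T W τ * V ⌊τ / T⌋₊ X) :=
        LipschitzWith.of_dist_le_mul fun τ σ => by
          rw [Real.dist_eq, Real.dist_eq, NNReal.coe_one, one_mul]
          exact hgt X τ σ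
      exact hl.continuous
    have hFm : Measurable F := by
      rw [hF]
      exact hN.meas.comp ((measurable_const.add hgcont.measurable).prodMk measurable_id)
    have hHm : Measurable H := by
      rw [hH]
      exact lv_smooth_meas hN.meas w W T X
    have hFc : ∀ τ, |F τ - N X τ| ≤ b * W := by
      intro τ
      rw [hF]
      refine (lv_lip ha hN _ X τ).trans (mul_le_mul_of_nonneg_left ?_ hb0)
      rw [add_sub_cancel_left]
      exact hgb X τ
    have hHc : ∀ τ, |H τ - N X τ| ≤ b * (W / 2 + w) := by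
      intro τ
      rw [hH]
      exact lv_smooth_close hN.meas hw hW hb0 (fun X Y τ => lv_lip ha hN X Y τ) X τ
    obtain ⟨CN, hCN⟩ := hN.bdd
    have hNX : ∀ τ, |N X τ| ≤ CN + b * |X| := by
      intro τ
      have h1 := lv_lip ha hN X 0 τ
      rw [sub_zero] at h1
      have h2 := abs_sub_abs_le_abs_sub (N X τ) (N 0 τ)
      have h3 := hCN τ
      linarith
    have hint : ∀ (f : ℝ → ℝ) (M : ℝ), Measurable f → (∀ τ, |f τ - N X τ| ≤ M) → ∀ s t : ℝ,
        IntervalIntegrable f volume s t := by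
      intro f M hf hfM s t
      refine (intervalIntegrable_const (c := M + (CN + b * |X|))).mono_fun
        hf.aestronglyMeasurable (Filter.Eventually.of_forall fun τ => ?_)
      have h1 := hfM τ
      have h2 := hNX τ
      have h3 := abs_sub_abs_le_abs_sub (f τ) (N X τ)
      show |f τ| ≤ |M + (CN + b * |X|)|
      have h4 : 0 ≤ M + (CN + b * |X|) := by
        have := abs_nonneg (f τ)
        linarith
      rw [abs_of_nonneg h4]
      linarith
    have hFi := hint F _ hFm hFc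
    have hHi := hint H _ hHm hHc
    have hDi : ∀ s t : ℝ, IntervalIntegrable (fun τ => F τ - H τ) volume s t := fun s t =>
      (hFi s t).sub (hHi s t)
    -- the integral of the difference
    have e1 : (∫ τ in (0 : ℝ)..t, N (X + bump (⌊τ / T⌋₊ * T) T W τ * V ⌊τ / T⌋₊ X) τ)
          - smooth W T (interp w (fun Y => ∫ τ in (0 : ℝ)..t, N Y τ)) X =
        ∫ τ in (0 : ℝ)..t, (F τ - H τ) := by
      rw [intervalIntegral.integral_sub (hFi 0 t) (hHi 0 t), ← hint0 W T 0 t X, hF, hH]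
    rw [e1]
    set n := ⌊t / T⌋₊
    have hn1 : (n : ℝ) * T ≤ t := by
      have := Nat.floor_le (div_nonneg ht hT.le)
      rwa [le_div_iff₀ hT] at this
    have hn2 : t < ((n : ℝ) + 1) * T := by
      have := Nat.lt_floor_add_one (t / T)
      rwa [div_lt_iff₀ hT] at this
    have e2 : ∫ τ in (0 : ℝ)..t, (F τ - H τ) =
        (∑ i ∈ Finset.range n, ∫ τ in ((i : ℝ) * T)..(i * T + T), (F τ - H τ)) +
          ∫ τ in ((n : ℝ) * T)..t, (F τ - H τ) := by
      have h1 := intervalIntegral.sum_integral_adjacent_intervals (f := fun τ => F τ - H τ)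
        (μ := volume) (a := fun i : ℕ => (i : ℝ) * T) (n := n) (fun k _ => hDi _ _)
      simp only [Nat.cast_zero, zero_mul, Nat.cast_add, Nat.cast_one, add_mul, one_mul] at h1
      rw [h1, intervalIntegral.integral_add_adjacent_intervals (hDi _ _) (hDi _ _)]
    have e3 : ∀ i : ℕ, ∫ τ in ((i : ℝ) * T)..(i * T + T), (F τ - H τ) =
        blockInt N (i * T) T W T X (δ i X) (ye i (pe T X)) (yo i (po T X)) -
        smooth W T (interp w (fun Y => ∫ τ in ((i : ℝ) * T)..(i * T + T), N Y τ)) X := by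
      intro i
      rw [intervalIntegral.integral_sub (hFi _ _) (hHi _ _), ← hint0 W T _ _ X]
      congr 1
      · unfold blockInt
        refine intervalIntegral.integral_congr fun τ hτ => ?_
        rw [uIcc_of_le (by linarith)] at hτ
        rw [hF]
        show N (X + bump (⌊τ / T⌋₊ * T) T W τ * V ⌊τ / T⌋₊ X) τ = _
        rcases eq_or_lt_of_le hτ.2 with h2 | h2
        · -- the right end point
          have hfl : ⌊τ / T⌋₊ = i + 1 := by
            have : τ / T = ((i + 1 : ℕ) : ℝ) := by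
              rw [h2]
              push_cast
              field_simp
            rw [this, Nat.floor_natCast]
          rw [hfl, lv_bump_zero_left (((i + 1 : ℕ) : ℝ) * T) T W τ hW
            (by rw [h2]; push_cast; linarith),
            lv_bump_zero_right (i * T) T W τ hW (by rw [h2]), zero_mul, zero_mul]
        · have hfl : ⌊τ / T⌋₊ = i := by
            rw [Nat.floor_eq_iff (div_nonneg (le_trans (by positivity) hτ.1) hT.le)]
            constructor
            · rw [le_div_iff₀ hT]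
              exact hτ.1
            · rw [div_lt_iff₀ hT]
              linarith
          rw [hfl, hV']
      · rw [hH]
    rw [e2]
    simp only [e3]
    refine (abs_add_le _ _).trans ?_
    have h1 := hsumj n
    have h2 : |∫ τ in ((n : ℝ) * T)..t, (F τ - H τ)| ≤ (b * W + b * (W / 2 + w)) * (t - n * T) := by
      have h3 := intervalIntegral.norm_integral_le_of_norm_le_const (a := (n : ℝ) * T) (b := t)
        (f := fun τ => F τ - H τ) (C := b * W + b * (W / 2 + w)) (by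
          intro τ _
          rw [Real.norm_eq_abs]
          have e : F τ - H τ = (F τ - N X τ) - (H τ - N X τ) := by ring
          rw [e]
          exact (abs_sub _ _).trans (add_le_add (hFc τ) (hHc τ)))
      rw [Real.norm_eq_abs, abs_of_nonneg (by linarith : 0 ≤ t - n * T)] at h3
      exact h3
    have h3 : (b * W + b * (W / 2 + w)) * (t - n * T) ≤ 10 * b * (L : ℝ) ^ 5 * w ^ 2 := by
      have h4 : (b * W + b * (W / 2 + w)) * (t - n * T) ≤ (b * W + b * (W / 2 + w)) * T :=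
        mul_le_mul_of_nonneg_left (by linarith) (by positivity)
      refine h4.trans ?_
      rw [hTdef, hWdef]
      have e : (b * (L * w) + b * (L * w / 2 + w)) * ((L : ℝ) ^ 2 * w) =
        b * w ^ 2 * (3 / 2 * (L : ℝ) ^ 3 + (L : ℝ) ^ 2) := by ring
      rw [e]
      have h5 : 3 / 2 * (L : ℝ) ^ 3 + (L : ℝ) ^ 2 ≤ 10 * (L : ℝ) ^ 5 := by
        have h6 : (L : ℝ) ^ 2 ≤ (L : ℝ) ^ 3 := pow_le_pow_right₀ (by linarith) (by norm_num)
        have h7 : (L : ℝ) ^ 3 ≤ (L : ℝ) ^ 5 := pow_le_pow_right₀ (by linarith) (by norm_num)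
        have h8 : 0 ≤ (L : ℝ) ^ 5 := by positivity
        linarith
      have h9 : b * w ^ 2 * (3 / 2 * (L : ℝ) ^ 3 + (L : ℝ) ^ 2) ≤ b * w ^ 2 * (10 * (L : ℝ) ^ 5) :=
        mul_le_mul_of_nonneg_left h5 (by positivity)
      refine h9.trans (le_of_eq ?_)
      ring
    have h4 : 50 * b * (L : ℝ) ^ 5 * w ^ 2 = 40 * b * (L : ℝ) ^ 5 * w ^ 2 +
      10 * b * (L : ℝ) ^ 5 * w ^ 2 := by ring
    rw [h4]
    exact add_le_add h1 (h2.trans h3)

end Pool.Agent.helper312_fol
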