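import Mathlib

set_option autoImplicit false

open Set MeasureTheory

namespace Pool.Agent.helper312_fol

/-- `g` is `ω`-continuous on `A`. -/
def OmegaContOn {E : Type*} [PseudoMetricSpace E] (ω : ℝ → ℝ) (g : E → E) (A : Set E) : Prop :=
  ∃ C t₀ : ℝ, 0 < C ∧ 0 < t₀ ∧ ∀ x ∈ A, ∀ y ∈ A, dist x y ≤ t₀ →
    dist (g x) (g y) ≤ C * ω (dist x y)

/-- the unit cube of Euclidean space -/
def cube (d : ℕ) : Set (EuclideanSpace ℝ (Fin d)) := {x | ∀ i, 0 ≤ x i ∧ x i ≤ 1}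

/-- `ρ` is bi-`ω` realisable. -/
def BiOmegaRealisable (d : ℕ) (ω : ℝ → ℝ) (ρ : EuclideanSpace ℝ (Fin d) → ℝ) : Prop :=
  ∃ f g : EuclideanSpace ℝ (Fin d) → EuclideanSpace ℝ (Fin d),
    InjOn f (cube d) ∧ OmegaContOn ω f (cube d) ∧
    (∀ x ∈ cube d, g (f x) = x) ∧ OmegaContOn ω g (f '' cube d) ∧
    ∀ B : Set (EuclideanSpace ℝ (Fin d)), MeasurableSet B →
      ∫⁻ x in cube d ∩ f ⁻¹' B, ENNReal.ofReal (ρ x) = volume (B ∩ f '' cube d)

namespace Transfer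

/-- the identification of the Euclidean plane with the product -/
noncomputable def ee : EuclideanSpace ℝ (Fin 2) ≃ᵐ ℝ × ℝ :=
  (MeasurableEquiv.toLp 2 (Fin 2 → ℝ)).symm.trans MeasurableEquiv.finTwoArrow

theorem ee_apply (x : EuclideanSpace ℝ (Fin 2)) : ee x = (x 0, x 1) := rfl

theorem ee_mp : MeasurePreserving ee :=
  (EuclideanSpace.volume_preserving_symm_measurableEquiv_toLp (Fin 2)).trans
    (volume_preserving_finTwoArrow ℝ)

theorem dist_ee_le (x y : EuclideanSpace ℝ (Fin 2)) : dist (ee x) (ee y) ≤ dist x y := by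
  rw [ee_apply, ee_apply, Prod.dist_eq, EuclideanSpace.dist_eq, Fin.sum_univ_two]
  refine max_le ?_ ?_
  · exact Real.le_sqrt_of_sq_le (by nlinarith [sq_nonneg (dist (x 1) (y 1))])
  · exact Real.le_sqrt_of_sq_le (by nlinarith [sq_nonneg (dist (x 0) (y 0))])

theorem dist_le_ee (x y : EuclideanSpace ℝ (Fin 2)) : dist x y ≤ 2 * dist (ee x) (ee y) := by
  rw [ee_apply, ee_apply, Prod.dist_eq, EuclideanSpace.dist_eq, Fin.sum_univ_two]
  set m := max (dist (x 0) (y 0)) (dist (x 1) (y 1)) with hm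
  have h0 : dist (x 0) (y 0) ≤ m := le_max_left _ _
  have h1 : dist (x 1) (y 1) ≤ m := le_max_right _ _
  have n0 : 0 ≤ dist (x 0) (y 0) := dist_nonneg
  have n1 : 0 ≤ dist (x 1) (y 1) := dist_nonneg
  rw [Real.sqrt_le_left (by nlinarith)]
  nlinarith

/-- The dyadic modulus gives the logarithmic one. -/
theorem modulus (p : ℕ) (C d r : ℝ) (hd : 0 < d) (hd' : d ≤ 1 / 2)
    (h : ∀ k : ℕ, d ≤ 1 / 2 ^ k → r ≤ 2 * (C * ((k : ℝ) + 1) ^ p / 2 ^ k)) :
    r ≤ (4 * |C| * 4 ^ p + 1) * (d * (Real.log (1 / d)) ^ p) := by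
  obtain ⟨k, hk1, hk2⟩ : ∃ k : ℕ, d ≤ 1 / 2 ^ k ∧ 1 / 2 ^ (k + 1) < d := by
    have hex : ∃ n : ℕ, 1 / 2 ^ (n + 1) < d := by
      obtain ⟨n, hn⟩ := exists_pow_lt_of_lt_one hd (show (1 / 2 : ℝ) < 1 by norm_num)
      refine ⟨n, lt_of_le_of_lt ?_ hn⟩
      rw [one_div, one_div, inv_pow, pow_succ]
      have h2 : (0 : ℝ) < 2 ^ n := by positivity
      exact inv_anti₀ h2 (by linarith)
    classical
    refine ⟨Nat.find hex, ?_, Nat.find_spec hex⟩
    by_cases h0 : Nat.find hex = 0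
    · rw [h0]; norm_num; linarith
    · obtain ⟨m, hm⟩ := Nat.exists_eq_succ_of_ne_zero h0
      have := Nat.find_min hex (m := m) (by omega)
      rw [hm]
      exact not_lt.1 this
  have hlog : 0 < Real.log 2 := Real.log_pos (by norm_num)
  have hl2 : (0.5 : ℝ) < Real.log 2 := by linarith [Real.log_two_gt_d9]
  have hk0 : 1 ≤ k := by
    by_contra hk0
    have : k = 0 := by omega
    subst this
    norm_num at hk2
    linarith
  have hk0' : (1 : ℝ) ≤ k := by exact_mod_cast hk0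
  have hL : (k : ℝ) * Real.log 2 ≤ Real.log (1 / d) := by
    have h1 : (2 : ℝ) ^ k ≤ 1 / d := by
      rw [le_div_iff₀ hd]
      have h2 : (0 : ℝ) < 2 ^ k := by positivity
      rw [le_div_iff₀ h2] at hk1
      linarith
    have h3 := Real.log_le_log (by positivity) h1
    rwa [Real.log_pow] at h3
  have hL1 : (k : ℝ) + 1 ≤ 4 * Real.log (1 / d) := by nlinarith
  have hL0 : 0 ≤ Real.log (1 / d) := by nlinarith
  have hp : ((k : ℝ) + 1) ^ p ≤ 4 ^ p * (Real.log (1 / d)) ^ p := by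
    rw [← mul_pow]
    exact pow_le_pow_left₀ (by positivity) hL1 p
  have hk3 : 1 / (2 : ℝ) ^ k < 2 * d := by
    have h2 : (0 : ℝ) < 2 ^ k := by positivity
    rw [pow_succ, div_lt_iff₀ (by positivity)] at hk2
    rw [div_lt_iff₀ h2]
    linarith
  have h5 := h k hk1
  have h6 : C * ((k : ℝ) + 1) ^ p / 2 ^ k ≤ |C| * (4 ^ p * (Real.log (1 / d)) ^ p) * (2 * d) := by
    have e : C * ((k : ℝ) + 1) ^ p / 2 ^ k = C * ((k : ℝ) + 1) ^ p * (1 / 2 ^ k) := by ring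
    rw [e]
    calc C * ((k : ℝ) + 1) ^ p * (1 / 2 ^ k) ≤ |C| * ((k : ℝ) + 1) ^ p * (1 / 2 ^ k) := by
          gcongr
          exact le_abs_self C
      _ ≤ |C| * (4 ^ p * (Real.log (1 / d)) ^ p) * (2 * d) := by
          gcongr
  have h7 : 0 ≤ d * (Real.log (1 / d)) ^ p := by positivity
  nlinarith

end Transfer

open Transfer

theorem transfer (p : ℕ) (a b : ℝ) (ha : 0 < a)
    (hmain : ∀ ρ : ℝ × ℝ → ℝ, Measurable ρ → (∀ z, a ≤ ρ z ∧ ρ z ≤ b) →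
      ∃ f : ℝ × ℝ → ℝ × ℝ,
      InjOn f (Icc (0 : ℝ) 1 ×ˢ Icc (0 : ℝ) 1) ∧
      (∃ C : ℝ, ∀ x ∈ Icc (0 : ℝ) 1 ×ˢ Icc (0 : ℝ) 1, ∀ y ∈ Icc (0 : ℝ) 1 ×ˢ Icc (0 : ℝ) 1,
        ∀ k : ℕ, dist x y ≤ 1 / 2 ^ k → dist (f x) (f y) ≤ C * ((k : ℝ) + 1) ^ p / 2 ^ k) ∧
      (∃ C : ℝ, ∀ x ∈ Icc (0 : ℝ) 1 ×ˢ Icc (0 : ℝ) 1, ∀ y ∈ Icc (0 : ℝ) 1 ×ˢ Icc (0 : ℝ) 1,
        ∀ k : ℕ, dist (f x) (f y) ≤ 1 / 2 ^ k → dist x y ≤ C * ((k : ℝ) + 1) ^ p / 2 ^ k) ∧
      ∀ B : Set (ℝ × ℝ), MeasurableSet B →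
        ∫⁻ x in (Icc (0 : ℝ) 1 ×ˢ Icc (0 : ℝ) 1) ∩ f ⁻¹' B, ENNReal.ofReal (ρ x)
          = volume (B ∩ f '' (Icc (0 : ℝ) 1 ×ˢ Icc (0 : ℝ) 1)))
    (ρ : EuclideanSpace ℝ (Fin 2) → ℝ) (hρm : Measurable ρ)
    (hρ : ∀ x ∈ cube 2, a ≤ ρ x ∧ ρ x ≤ b) (hab : a ≤ b) :
    BiOmegaRealisable 2 (fun t => t * (Real.log (1 / t)) ^ p) ρ := by
  obtain ⟨f₀, hinj, ⟨C₁, hC₁⟩, ⟨C₂, hC₂⟩, hmeas⟩ := hmain (fun z => max a (min b (ρ (ee.symm z))))
    (measurable_const.max (measurable_const.min (hρm.comp ee.symm.measurable)))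
    (fun z => ⟨le_max_left _ _, max_le hab (min_le_left _ _)⟩)
  set S : Set (ℝ × ℝ) := Icc (0 : ℝ) 1 ×ˢ Icc (0 : ℝ) 1 with hS
  have hmem : ∀ x, x ∈ cube 2 ↔ ee x ∈ S := by
    intro x
    rw [ee_apply, hS, Set.mem_prod, Set.mem_Icc, Set.mem_Icc, cube, Set.mem_ofPred_eq,
      Fin.forall_fin_two]
  set f : EuclideanSpace ℝ (Fin 2) → EuclideanSpace ℝ (Fin 2) := fun x => ee.symm (f₀ (ee x))
    with hf
  have hef : ∀ x, ee (f x) = f₀ (ee x) := fun x => ee.apply_symm_apply _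
  have hfinj : InjOn f (cube 2) := by
    intro x hx y hy h
    apply ee.injective
    apply hinj ((hmem x).1 hx) ((hmem y).1 hy)
    rw [← hef, ← hef, h]
  have hg : ∀ x ∈ cube 2, Function.invFunOn f (cube 2) (f x) = x :=
    fun x hx => hfinj.leftInvOn_invFunOn hx
  refine ⟨f, Function.invFunOn f (cube 2), hfinj, ?_, hg, ?_, ?_⟩
  · refine ⟨4 * |C₁| * 4 ^ p + 1, 1 / 2, by positivity, by norm_num, ?_⟩
    intro x hx y hy hd
    rcases eq_or_lt_of_le (dist_nonneg (x := x) (y := y)) with h0 | h0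
    · have : x = y := dist_eq_zero.1 h0.symm
      subst this
      simp
    · refine modulus p C₁ _ _ h0 hd fun k hk => ?_
      refine (dist_le_ee _ _).trans ?_
      rw [hef, hef]
      have := hC₁ _ ((hmem x).1 hx) _ ((hmem y).1 hy) k ((dist_ee_le x y).trans hk)
      linarith
  · refine ⟨4 * |C₂| * 4 ^ p + 1, 1 / 2, by positivity, by norm_num, ?_⟩
    rintro _ ⟨x, hx, rfl⟩ _ ⟨y, hy, rfl⟩ hd
    rw [hg x hx, hg y hy]
    rcases eq_or_lt_of_le (dist_nonneg (x := f x) (y := f y)) with h0 | h0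
    · have : f x = f y := dist_eq_zero.1 h0.symm
      have h1 : x = y := hfinj hx hy this
      subst h1
      simp
    · refine modulus p C₂ _ _ h0 hd fun k hk => ?_
      refine (dist_le_ee _ _).trans ?_
      have := hC₂ _ ((hmem x).1 hx) _ ((hmem y).1 hy) k (by
        rw [← hef, ← hef]; exact (dist_ee_le _ _).trans hk)
      linarith
  · intro B hB
    have hB' : MeasurableSet (ee.symm ⁻¹' B) := ee.symm.measurable hB
    have h1 := hmeas _ hB'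
    have e1 : ee ⁻¹' (S ∩ f₀ ⁻¹' (ee.symm ⁻¹' B)) = cube 2 ∩ f ⁻¹' B := by
      ext x
      simp only [Set.mem_preimage, Set.mem_inter_iff, hmem, hf]
    have e2 : ee ⁻¹' (ee.symm ⁻¹' B ∩ f₀ '' S) = B ∩ f '' cube 2 := by
      ext x
      simp only [Set.mem_preimage, Set.mem_inter_iff, MeasurableEquiv.symm_apply_apply,
        Set.mem_image]
      refine and_congr_right fun _ => ⟨?_, ?_⟩
      · rintro ⟨z, hz, hzx⟩
        refine ⟨ee.symm z, (hmem _).2 (by rwa [MeasurableEquiv.apply_symm_apply]), ?_⟩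
        apply ee.injective
        rw [hef, MeasurableEquiv.apply_symm_apply, hzx]
      · rintro ⟨y, hy, rfl⟩
        exact ⟨ee y, (hmem y).1 hy, (hef y).symm⟩
    rw [← e2, ee_mp.measure_preimage_equiv, ← h1,
      ← ee_mp.setLIntegral_comp_preimage_emb ee.measurableEmbedding, e1]
    refine lintegral_congr_ae ?_
    have hcm : MeasurableSet (cube 2) := by
      have : cube 2 = ee ⁻¹' S := by ext x; exact hmem x
      rw [this]
      exact ee.measurable (measurableSet_Icc.prod measurableSet_Icc)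
    refine ae_restrict_of_ae_restrict_of_subset Set.inter_subset_left ?_
    refine (ae_restrict_iff' hcm).2 (Filter.Eventually.of_forall fun x hx => ?_)
    simp only [MeasurableEquiv.symm_apply_apply]
    rw [min_eq_right (hρ x hx).2, max_eq_right (hρ x hx).1]

end Pool.Agent.helper312_fol
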