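import Pool.Agent.helper312_fol.Construction
import Pool.Agent.helper312_fol.Dyadic
import Pool.Agent.helper312_fol.Assembly
import Pool.Agent.helper312_fol.Transfer

set_option autoImplicit false

open Set MeasureTheory Pool.Agent.helper312_fol

namespace Pool.Agent.helper312_fol.PolylogPlane

/-- `g` is `ω`-continuous on `A`: `|g x - g y| ≤ C ω(|x - y|)` for all `x, y ∈ A` at distance at
most `t₀`. -/
def OmegaContinuousOn {d : ℕ} (ω : ℝ → ℝ)
    (g : EuclideanSpace ℝ (Fin d) → EuclideanSpace ℝ (Fin d))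
    (A : Set (EuclideanSpace ℝ (Fin d))) : Prop :=
  ∃ C t₀ : ℝ, 0 < C ∧ 0 < t₀ ∧ ∀ x ∈ A, ∀ y ∈ A, dist x y ≤ t₀ →
    dist (g x) (g y) ≤ C * ω (dist x y)

/-- The unit cube `I^d = [0,1]^d` of Euclidean space. -/
def unitCube (d : ℕ) : Set (EuclideanSpace ℝ (Fin d)) := {x | ∀ i, 0 ≤ x i ∧ x i ≤ 1}

/-- The density `ρ` on `I^d` is bi-`ω` realisable: there is an injective `f : I^d → ℝ^d`, with `f`
and the inverse `g` of `f` both `ω`-continuous (on `I^d` and on `f(I^d)`), which solves the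
pushforward equation `∫_{f⁻¹(B)} ρ = volume (B ∩ f(I^d))` for every Borel set `B`. -/
def Realisable (d : ℕ) (ω : ℝ → ℝ) (ρ : EuclideanSpace ℝ (Fin d) → ℝ) : Prop :=
  ∃ f g : EuclideanSpace ℝ (Fin d) → EuclideanSpace ℝ (Fin d),
    InjOn f (unitCube d) ∧ OmegaContinuousOn ω f (unitCube d) ∧
    (∀ x ∈ unitCube d, g (f x) = x) ∧ OmegaContinuousOn ω g (f '' unitCube d) ∧
    ∀ B : Set (EuclideanSpace ℝ (Fin d)), MeasurableSet B →
      ∫⁻ x in unitCube d ∩ f ⁻¹' B, ENNReal.ofReal (ρ x) = volume (B ∩ f '' unitCube d)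

/-- The planar statement in coordinates. -/
theorem planar (a b : ℝ) (ha : 0 < a) (hab : a ≤ b) (ρ : ℝ × ℝ → ℝ) (hρm : Measurable ρ)
    (hρ : ∀ z, a ≤ ρ z ∧ ρ z ≤ b) :
    ∃ f : ℝ × ℝ → ℝ × ℝ,
      InjOn f (Icc (0 : ℝ) 1 ×ˢ Icc (0 : ℝ) 1) ∧
      (∃ C : ℝ, ∀ x ∈ Icc (0 : ℝ) 1 ×ˢ Icc (0 : ℝ) 1, ∀ y ∈ Icc (0 : ℝ) 1 ×ˢ Icc (0 : ℝ) 1,
        ∀ k : ℕ, dist x y ≤ 1 / 2 ^ k → dist (f x) (f y) ≤ C * ((k : ℝ) + 1) ^ (15 + 1) / 2 ^ k) ∧
      (∃ C : ℝ, ∀ x ∈ Icc (0 : ℝ) 1 ×ˢ Icc (0 : ℝ) 1, ∀ y ∈ Icc (0 : ℝ) 1 ×ˢ Icc (0 : ℝ) 1,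
        ∀ k : ℕ, dist (f x) (f y) ≤ 1 / 2 ^ k → dist x y ≤ C * ((k : ℝ) + 1) ^ (15 + 1) / 2 ^ k) ∧
      ∀ B : Set (ℝ × ℝ), MeasurableSet B →
        ∫⁻ x in (Icc (0 : ℝ) 1 ×ˢ Icc (0 : ℝ) 1) ∩ f ⁻¹' B, ENNReal.ofReal (ρ x)
          = volume (B ∩ f '' (Icc (0 : ℝ) 1 ×ˢ Icc (0 : ℝ) 1)) := by
  obtain ⟨F, hFX, ⟨CF, hCF⟩, P, hP0, hP⟩ := construction a b ha hab ρ hρm hρ
  have hb : 0 < b := ha.trans_le hab
  have hFt : ∃ C : ℝ, ∀ X, ∀ s ∈ Icc (0 : ℝ) 1, ∀ t ∈ Icc (0 : ℝ) 1, ∀ k : ℕ,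
      |t - s| ≤ 1 / 2 ^ k → |F X t - F X s| ≤ C * ((k : ℝ) + 1) / 2 ^ k :=
    ⟨CF, fun X s _ t _ k h => hCF X s t k h⟩
  have hFt0 := hFt
  set NN : ℝ → ℝ → ℝ := fun X t => ∫ τ in (0 : ℝ)..t, ∫ x in (0 : ℝ)..(F X τ), ρ (x, τ) with hNNdef
  have hNN : ∀ X t, NN X t = ∫ τ in (0 : ℝ)..t, ∫ x in (0 : ℝ)..(F X τ), ρ (x, τ) :=
    fun _ _ => rfl
  have hcont : ∀ X, Continuous (F X) := by
    intro X
    exact cn_cont (F X) CF 1 (fun s t k h => by
      have := hCF X t s k (by rw [abs_sub_comm]; simpa [Real.dist_eq, abs_sub_comm] using h)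
      simpa [pow_one] using this)
  have hlip : ∀ t ∈ Icc (0 : ℝ) 1, ∀ x y, |NN x t - NN y t| ≤ (2 * b) * |x - y| := by
    have hJ : ∀ X s t, IntervalIntegrable (fun t => ∫ x in (0 : ℝ)..(F X t), ρ (x, t))
        volume s t := by
      intro X s t
      obtain ⟨K, hK⟩ := (isCompact_uIcc (a := s) (b := t)).exists_bound_of_continuousOn
        (hcont X).continuousOn
      rw [intervalIntegrable_iff]
      refine Measure.integrableOn_of_bounded (M := b * K) (by simp)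
        (as_inner_meas hρm (hcont X).measurable).aestronglyMeasurable ?_
      refine (ae_restrict_mem measurableSet_uIoc).mono fun τ hτ => ?_
      rw [Real.norm_eq_abs]
      refine (cn_abs ha hρm hρ τ (F X τ)).trans ?_
      have := hK τ (uIoc_subset_uIcc hτ)
      rw [Real.norm_eq_abs] at this
      exact mul_le_mul_of_nonneg_left this hb.le
    intro t ht x y
    rw [hNN, hNN, ← intervalIntegral.integral_sub (hJ x 0 t) (hJ y 0 t), ← Real.norm_eq_abs]
    refine (intervalIntegral.norm_integral_le_of_norm_le_const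
      (C := 2 * b * |x - y|) fun τ _ => ?_).trans ?_
    · rw [Real.norm_eq_abs]
      refine (cn_lip ha hρm hρ τ (F x τ) (F y τ)).trans ?_
      have h2 : |F x τ - F y τ| ≤ 2 * |x - y| := by
        rcases le_total x y with h | h
        · have h3 := hFX τ x y h
          rw [abs_sub_comm, abs_sub_comm x y, abs_of_nonneg (by linarith [h3.1]),
            abs_of_nonneg (by linarith)]
          exact h3.2
        · have h3 := hFX τ y x h
          rw [abs_of_nonneg (by linarith [h3.1]), abs_of_nonneg (by linarith)]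
          exact h3.2
      calc b * |F x τ - F y τ| ≤ b * (2 * |x - y|) := mul_le_mul_of_nonneg_left h2 hb.le
        _ = 2 * b * |x - y| := by ring
    · rw [sub_zero, abs_of_nonneg ht.1]
      have : 0 ≤ 2 * b * |x - y| := by positivity
      nlinarith [ht.2]
  obtain ⟨C, hC0, hC⟩ := dyadic_reg 15
  have key : ∀ t ∈ Icc (0 : ℝ) 1, Differentiable ℝ (fun X => NN X t) ∧
      ∀ (X Y : ℝ) (k : ℕ), |X - Y| ≤ 1 / 2 ^ k →
      |deriv (fun X => NN X t) X - deriv (fun X => NN X t) Y| ≤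
        C * P * ((k : ℝ) + 1) ^ 15 / 2 ^ k := by
    intro t ht
    exact hC P (2 * b) (fun X => NN X t) hP0 (hlip t ht) (fun k j => hP t ht k j)
  exact assembly 15 a b ha hab ρ hρm hρ F (fun t _ => hFX t) hFt0 NN hNN
    (fun t ht => (key t ht).1) ⟨C * P, fun t ht => (key t ht).2⟩

theorem unitCube_measurable (d : ℕ) : MeasurableSet (unitCube d) := by
  have : unitCube d = ⋂ i, {x : EuclideanSpace ℝ (Fin d) | 0 ≤ x i ∧ x i ≤ 1} := by
    ext x; simp [unitCube]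
  rw [this]
  refine MeasurableSet.iInter fun i => ?_
  have hm : Measurable (fun x : EuclideanSpace ℝ (Fin d) => x i) :=
    (EuclideanSpace.proj (𝕜 := ℝ) i).continuous.measurable
  exact (measurableSet_le measurable_const hm).inter (measurableSet_le hm measurable_const)

/-- **Every measurable density on the unit square that is bounded and bounded away from zero (in
particular every continuous positive density) is bi-`ω` realisable for
`ω(t) = t (log (1/t))^16`.** -/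
theorem result :
    ∀ (a b : ℝ), 0 < a → a ≤ b → ∀ ρ : EuclideanSpace ℝ (Fin 2) → ℝ,
      Measurable (fun x : unitCube 2 => ρ x) → (∀ x ∈ unitCube 2, a ≤ ρ x ∧ ρ x ≤ b) →
      Realisable 2 (fun t => t * (Real.log (1 / t)) ^ 16) ρ := by
  classical
  intro a b ha hab ρ hρm hρ
  set ρ' : EuclideanSpace ℝ (Fin 2) → ℝ := fun x => if x ∈ unitCube 2 then ρ x else a with hρ'
  have heq : ∀ x ∈ unitCube 2, ρ' x = ρ x := fun x hx => by simp [hρ', hx]
  have hm' : Measurable ρ' := by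
    refine measurable_of_restrict_of_restrict_compl (unitCube_measurable 2) ?_ ?_
    · convert hρm using 1
      funext x
      exact heq x x.2
    · have : (fun x : ((unitCube 2)ᶜ : Set (EuclideanSpace ℝ (Fin 2))) => ρ' x) = fun _ => a := by
        funext x
        exact if_neg x.2
      show Measurable (fun x : ((unitCube 2)ᶜ : Set (EuclideanSpace ℝ (Fin 2))) => ρ' x)
      rw [this]
      exact measurable_const
  have h' : ∀ x ∈ unitCube 2, a ≤ ρ' x ∧ ρ' x ≤ b := fun x hx => by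
    rw [heq x hx]; exact hρ x hx
  obtain ⟨f, g, h1, h2, h3, h4, h5⟩ :=
    transfer 16 a b ha (fun ρ' hm h' => planar a b ha hab ρ' hm h') ρ' hm' h' hab
  have h5' : ∀ B : Set (EuclideanSpace ℝ (Fin 2)), MeasurableSet B →
      ∫⁻ x in unitCube 2 ∩ f ⁻¹' B, ENNReal.ofReal (ρ' x) = volume (B ∩ f '' unitCube 2) := h5
  refine ⟨f, g, h1, h2, h3, h4, fun B hB => ?_⟩
  rw [← h5' B hB]
  have hle : volume.restrict (unitCube 2 ∩ f ⁻¹' B) ≤ volume.restrict (unitCube 2) :=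
    Measure.restrict_mono_set _ inter_subset_left
  refine lintegral_congr_ae ?_
  have : ∀ᵐ x ∂(volume.restrict (unitCube 2)), ENNReal.ofReal (ρ x) = ENNReal.ofReal (ρ' x) := by
    filter_upwards [ae_restrict_mem (unitCube_measurable 2)] with x hx
    rw [heq x hx]
  exact hle.absolutelyContinuous.ae_le this

end Pool.Agent.helper312_fol.PolylogPlane
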